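import Pool.Agent.MP_5d9d0b_gt.COL

-- ======== part 0: formerly Pool.Agent.MP_5d9d0b_gt.Side
section MrgPart0

/-!
From the tube lemma to the surgery statement.
-/

namespace Pool.Agent.MP_5d9d0b_gt

open scoped Manifold ContDiff Real Topology
open Set Filter Complex

theorem hasFDerivAt_coord (i : Fin 3) (p : R3) :
    HasFDerivAt (fun x : R3 => x i) (EuclideanSpace.proj i : R3 →L[ℝ] ℝ) p :=
  (EuclideanSpace.proj i : R3 →L[ℝ] ℝ).hasFDerivAt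

theorem hasFDerivAt_coordC (i : Fin 3) (p : R3) :
    HasFDerivAt (fun x : R3 => ((x i : ℝ) : ℂ))
      (Complex.ofRealCLM.comp (EuclideanSpace.proj i : R3 →L[ℝ] ℝ)) p :=
  Complex.ofRealCLM.hasFDerivAt.comp p (hasFDerivAt_coord i p)

theorem pull_att (p v : R3) : pull att p v = v 1 + p 2 * v 0 := by
  have h1 := HasFDerivAt.ex' (hasFDerivAt_coord 0 p)
  have h2 := (((hasFDerivAt_coordC 1 p).add ((hasFDerivAt_coordC 2 p).mul_const I)).mul h1).prodMk h1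
  have h3 : fderiv ℝ att p = _ := h2.fderiv
  have h4 : att p = ((p 1 + p 2 * I) * ex (p 0), ex (p 0)) := rfl
  have e := Real.cos_sq_add_sin_sq (p 0)
  rw [pull, h3, h4]
  simp [handleForm, ex_re, ex_im]
  linear_combination (v 1 + p 2 * v 0) * e

theorem pull_belt (p v : R3) : pull belt p v = 2 * v 1 - p 2 * v 0 := by
  have h1 := HasFDerivAt.ex' (hasFDerivAt_coord 0 p)
  have h2 := h1.prodMk
    (((hasFDerivAt_coordC 1 p).add ((hasFDerivAt_coordC 2 p).mul_const I)).mul h1)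
  have h3 : fderiv ℝ belt p = _ := h2.fderiv
  have h4 : belt p = (ex (p 0), (p 1 + p 2 * I) * ex (p 0)) := rfl
  have e := Real.cos_sq_add_sin_sq (p 0)
  rw [pull, h3, h4]
  simp [handleForm, ex_re, ex_im]
  linear_combination (2 * v 1 - p 2 * v 0) * e

theorem cplx_eq {x y x' y' : ℝ} (h : (x : ℂ) + y * I = x' + y' * I) : x = x' ∧ y = y' := by
  have h1 := congrArg Complex.re h
  have h2 := congrArg Complex.im h
  simp at h1 h2
  exact ⟨h1, h2⟩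

theorem att_eq_iff {p p' : R3} : att p = att p' ↔ ex (p 0) = ex (p' 0) ∧ p 1 = p' 1 ∧ p 2 = p' 2 := by
  have h4 : ∀ p : R3, att p = ((p 1 + p 2 * I) * ex (p 0), ex (p 0)) := fun _ => rfl
  rw [h4, h4, Prod.mk.injEq]
  constructor
  · rintro ⟨h1, h2⟩
    rw [h2] at h1
    exact ⟨h2, cplx_eq (mul_right_cancel₀ (ex_ne _) h1)⟩
  · rintro ⟨h1, h2, h3⟩
    rw [h1, h2, h3]; exact ⟨rfl, rfl⟩

theorem belt_eq_iff {p p' : R3} :
    belt p = belt p' ↔ ex (p 0) = ex (p' 0) ∧ p 1 = p' 1 ∧ p 2 = p' 2 := by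
  have h4 : ∀ p : R3, belt p = (ex (p 0), (p 1 + p 2 * I) * ex (p 0)) := fun _ => rfl
  rw [h4, h4, Prod.mk.injEq]
  constructor
  · rintro ⟨h2, h1⟩
    rw [h2] at h1
    exact ⟨h2, cplx_eq (mul_right_cancel₀ (ex_ne _) h1)⟩
  · rintro ⟨h1, h2, h3⟩
    rw [h1, h2, h3]; exact ⟨rfl, rfl⟩

/-- The Liouville flow from the attaching to the belt hypersurface in polar coordinates. -/
theorem flow_polar {p p' : R3} {t : ℝ} (h : handleFlow t (att p) = belt p') :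
    ∃ r σ : ℝ, 0 < r ∧ p 1 = r * Real.cos σ ∧ p 2 = r * Real.sin σ ∧
      p' 1 = √r * Real.cos σ ∧ p' 2 = -(√r * Real.sin σ) ∧ p' 0 = p 0 + σ := by
  have h1 : Real.exp (2 * t) • ((p 1 + p 2 * I) * ex (p 0)) = ex (p' 0) := congrArg Prod.fst h
  have h2 : Real.exp (-t) • ex (p 0) = (p' 1 + p' 2 * I) * ex (p' 0) := congrArg Prod.snd h
  have h3 : √(Real.exp (-(2 * t))) = Real.exp (-t) := by
    rw [Real.sqrt_eq_iff_mul_self_eq (Real.exp_pos _).le (Real.exp_pos _).le, ← Real.exp_add]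
    congr 1; ring
  have h4 : ex (p' 0) = ex (p' 0 - p 0) * ex (p 0) := by rw [← ex_add]; congr 1; ring
  have h5 : ex (p 0) = ex (-(p' 0 - p 0)) * ex (p' 0) := by rw [← ex_add]; congr 1; ring
  have h6 : (p 1 + p 2 * I : ℂ) = (Real.exp (-(2 * t)) : ℝ) * ex (p' 0 - p 0) := by
    apply mul_right_cancel₀ (ex_ne (p 0))
    rw [mul_assoc, ← h4, ← h1, real_smul, ← mul_assoc, ← ofReal_mul, ← Real.exp_add]
    simp
  have h7 : (p' 1 + p' 2 * I : ℂ) = (Real.exp (-t) : ℝ) * ex (-(p' 0 - p 0)) := by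
    apply mul_right_cancel₀ (ex_ne (p' 0))
    rw [mul_assoc, ← h5, ← h2, real_smul]
  have a1 := congrArg Complex.re h6
  have a2 := congrArg Complex.im h6
  have a3 := congrArg Complex.re h7
  have a4 := congrArg Complex.im h7
  simp only [add_re, ofReal_re, mul_re, I_re, mul_zero, ofReal_im, I_im, mul_one, sub_self,
    add_zero, zero_mul, sub_zero, add_im, mul_im, zero_add, ex_re, ex_im, Real.cos_neg,
    Real.sin_neg] at a1 a2 a3 a4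
  exact ⟨Real.exp (-(2 * t)), p' 0 - p 0, Real.exp_pos _, a1, a2, by rw [h3]; exact a3,
    by rw [h3, a4]; ring, by ring⟩

theorem affine_lp {β : R3 → R3 → ℝ} (s k l μ : ℝ) (hk : k ≠ 0) (hl : l ≠ 0) (hμ : 0 < μ) (p : R3)
    (h : ∀ v : R3, k * v 1 + l * p 2 * v 0 = μ * β p v) :
    LP (E := R3) (F := E3) β b1 (fun x : R3 => ((x 0 + s, π + k * x 1, l * x 2) : E3)) p := by
  have hd : HasFDerivAt (fun x : R3 => ((x 0 + s, π + k * x 1, l * x 2) : E3)) _ p :=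
    ((hasFDerivAt_coord 0 p).add_const s).prodMk
      ((((hasFDerivAt_coord 1 p).const_mul k).const_add π).prodMk
        ((hasFDerivAt_coord 2 p).const_mul l))
  refine LP.flat (Eventually.of_forall fun x => by fun_prop)
    (bij_of_inj (by rw [finrank_E3]; simp) _ fun v hv => ?_) hμ fun v => ?_
  · rw [hd.fderiv] at hv
    simp [hk, hl] at hv
    ext i; fin_cases i
    exacts [hv.1, hv.2.1, hv.2.2]
  · rw [hd.fderiv, ← h]; simp [b1]

theorem isOpen_tube (δ : ℝ) : IsOpen (tube δ) := isOpen_lt (by fun_prop) continuous_const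

theorem tube_abs {δ : ℝ} (hδ : 0 < δ) {p : R3} (hp : p ∈ tube δ) : |p 1| < δ ∧ |p 2| < δ := by
  have h : p 1 ^ 2 + p 2 ^ 2 < δ ^ 2 := hp
  exact ⟨abs_lt_of_sq_lt_sq (by nlinarith [sq_nonneg (p 2)]) hδ.le,
    abs_lt_of_sq_lt_sq (by nlinarith [sq_nonneg (p 1)]) hδ.le⟩

theorem small_int {x y : ℝ} {k : ℤ} (hx : |x| ≤ 1) (hy : |y| ≤ 1) (h : y = x + 2 * π * k) :
    x = y := by
  obtain ⟨h1, h2⟩ := abs_le.1 hx
  obtain ⟨h3, h4⟩ := abs_le.1 hy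
  have h5 := Real.pi_gt_three
  have h6 : (k : ℝ) < 1 := by
    by_contra h7; nlinarith [not_lt.1 h7]
  have h7 : (-1 : ℝ) < k := by
    by_contra h7; nlinarith [not_lt.1 h7]
  have h8 : k = 0 := by
    have a : k < 1 := by exact_mod_cast h6
    have b : -1 < k := by exact_mod_cast h7
    omega
  rw [h, h8]; simp

theorem side {M : Type} [TopologicalSpace M] [ChartedSpace R3 M]
    {α : (x : M) → TangentSpace (𝓡 3) x → ℝ} {iA iB : S3 → M} {XA XB : Set S3}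
    {H : S3 → S3 → Prop} (hA : CRel alphaSt α (fun x m => x ∈ XA ∧ m = iA x))
    (hB : CRel alphaSt α (fun y m => y ∈ XB ∧ m = iB y))
    (hcov : ∀ m, (∃ x ∈ XA, m = iA x) ∨ ∃ y ∈ XB, m = iB y)
    (hAB : ∀ x ∈ XA, ∀ y ∈ XB, (iA x = iB y ↔ H x y))
    (hH : CRel alphaSt alphaSt H) (hHX : ∀ x y, H x y → y ∈ XB)
    {η : ℝ} (hη : 0 < η) (hη' : η ≤ 1 / 10)
    {ρM ρN : ℝ → ℝ} {a b c d a' b' c' d' : ℤ} (hM : TCol η ρM a b c d) (hN : TCol η ρN a' b' c' d')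
    {Λ : S3 → S3 → Prop} (hΛ : CRel alphaSt alphaSt Λ)
    (o1 : ∀ x, (∃ n, Λ x n) ↔ Gt (ρM η) x ∧ ∀ q, x ≠ TP ρM a b c d (q, π, 0))
    (o2 : ∀ n, (∃ x, Λ x n) ↔ Gt (ρN η) n ∧ ∀ q, n ≠ TP ρN a' b' c' d' (q, π, 0))
    (o3 : ∀ q z w, η / 4 ≤ w → w < η → Λ (TP ρM a b c d (q, z, w)) (TP ρN a' b' c' d' (q, z, w)))
    {κ δ : ℝ} (hκ : 0 < κ) (hδ : 0 < δ)
    (o4 : ∀ q r σ : ℝ, 0 < r → r < δ → Λ (TP ρM a b c d (q, π + r * Real.cos σ, r * Real.sin σ))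
      (TP ρN a' b' c' d' (q + σ - π / 2, π + 2 * κ * √r * Real.cos σ, κ * √r * Real.sin σ)))
    {E : S3 → S3 → Prop} (hE : CRel alphaSt alphaSt E) {eE : S3 → S3}
    (heE : ∀ n, Gt (ρN η) n → E n (eE n))
    (f1 : ∀ q z w y, |w| < η → E (TP ρN a' b' c' d' (q, z, w)) y → H (TP ρM a b c d (q, z, w)) y)
    (f2 : ∀ x, Gt (ρM η) x → x ∈ XA)
    (f3 : ∀ y, y ∉ XB → ∃ n, Ge (ρN (η / 2)) n ∧ E n y)
    (f4 : ∀ y ∈ XB, ∀ n, Ge (ρN (η / 2)) n → E n y → ∃ x, Gt (ρM η) x ∧ H x y)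
    (f5 : ∀ x ∈ XA, ¬ Gt (ρM η) x → ∃ y, H x y)
    (f6 : ∀ x y, H x y → Ge (ρM (η / 2)) x → ∃ n, Ge (ρN (η / 2)) n ∧ E n y) :
    IsPlusOneSurgery (range fun q : ℝ => eE (TP ρN a' b' c' d' (q, π, 0))) α := by
  have := nonemptyS3
  have : Nonempty M := ⟨iA pt0⟩
  have h00 : (0 : ℝ) ∈ Icc (-η) η := ⟨by linarith, hη.le⟩
  have hηη : η ∈ Icc (-η) η := ⟨by linarith, le_rfl⟩
  have hh : η / 2 ∈ Icc (-η) η := ⟨by linarith, by linarith⟩
  have hcc : ∀ {w : ℝ}, |w| < η → w ∈ Icc (-η) η := fun h => Ioo_subset_Icc_self (abs_lt.1 h)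
  have hGeGt : ∀ n, Ge (ρN (η / 2)) n → Gt (ρN η) n := fun n hn =>
    hn.gt (hN.anti hh hηη (by linarith))
  let T : Set S3 := {y | ∃ n ∈ {n | Ge (ρN (η / 2)) n}, E n y}
  have hT : IsClosed T :=
    (hE.isCompact_image (isClosed_Ge _).isCompact fun n hn => ⟨_, heE n (hGeGt n hn)⟩).isClosed
  have hTB : ∀ y, y ∉ T → y ∈ XB := fun y hy => by
    by_contra h; exact hy (f3 y h)
  have hiA : ∀ x ∈ XA, ∀ x' ∈ XA, iA x = iA x' → x = x' := fun x hx x' hx' e =>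
    hA.fun_l x x' (iA x) ⟨hx, rfl⟩ ⟨hx', e⟩
  have hMgt : ∀ q z w, |w| < η → Gt (ρM η) (TP ρM a b c d (q, z, w)) := fun q z w hw =>
    (hM.gt_iff q z (hcc hw) hηη).2 (abs_lt.1 hw).2
  have hNgt : ∀ q z w, |w| < η → Gt (ρN η) (TP ρN a' b' c' d' (q, z, w)) := fun q z w hw =>
    (hN.gt_iff q z (hcc hw) hηη).2 (abs_lt.1 hw).2
  have h0η : |(0 : ℝ)| < η := by simpa using hη
  have hR1 := hB.symm.restr_r hT.isOpen_compl
  have hR2 := (hA.symm.comp hΛ).comp hE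
  have hR := hR1.union hR2 (by
      rintro m y y' ⟨hy, hyB, rfl⟩ ⟨n, ⟨x, ⟨hx, e⟩, hΛx⟩, hEn⟩
      have h1 : H x y := (hAB x hx y hyB).1 e.symm
      have h2 : ¬ Gt (ρM (η / 2)) x := fun h => hy (f6 x y h1 h.ge)
      obtain ⟨q, z, w, h3, h4, rfl⟩ := hM.band hh ((o1 x).1 ⟨n, hΛx⟩).1 h2
      obtain rfl := hΛ.fun_r _ _ _ hΛx (o3 q z w (by linarith) h4)
      exact hH.fun_r _ _ _ h1 (f1 q z w y' (abs_lt.2 ⟨by linarith, h4⟩) hEn))
    (by
      rintro m m' y ⟨hy, hyB, rfl⟩ ⟨n, ⟨x, ⟨hx, rfl⟩, hΛx⟩, hEn⟩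
      have h2 : ¬ Gt (ρN (η / 2)) n := fun h => hy ⟨n, h.ge, hEn⟩
      obtain ⟨q, z, w, h3, h4, rfl⟩ := hN.band hh ((o2 n).1 ⟨x, hΛx⟩).1 h2
      obtain rfl := hΛ.fun_l _ _ _ hΛx (o3 q z w (by linarith) h4)
      exact ((hAB _ hx y hyB).2 (f1 q z w y (abs_lt.2 ⟨by linarith, h4⟩) hEn)).symm)
  obtain ⟨Φ, hsrc, htgt, hΦ, hΦc⟩ := hR.exists_pd
  have hκ' : 0 < η / (2 * κ) := by positivity
  let j : R3 → M := fun p => iA (TP ρM a b c d (p 0 + 0, π + 1 * p 1, 1 * p 2))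
  let j' : R3 → S3 := fun p =>
    eE (TP ρN a' b' c' d' (p 0 + -(π / 2), π + 2 * κ * p 1, -κ * p 2))
  have hδ1 : 0 < min δ η := lt_min hδ hη
  have t1 : ∀ p ∈ tube (min δ η), |1 * p 1| < η ∧ |1 * p 2| < η := fun p hp => by
    simp only [one_mul]
    exact ⟨lt_of_lt_of_le (tube_abs hδ1 hp).1 (min_le_right _ _),
      lt_of_lt_of_le (tube_abs hδ1 hp).2 (min_le_right _ _)⟩
  have t2 : ∀ p ∈ tube (η / (2 * κ)), |2 * κ * p 1| < η ∧ |-κ * p 2| < η := fun p hp => by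
    obtain ⟨h1, h2⟩ := tube_abs hκ' hp
    rw [lt_div_iff₀ (by positivity)] at h1 h2
    simp only [abs_mul, abs_neg, abs_of_pos hκ, abs_two]
    exact ⟨by linarith, by nlinarith [abs_nonneg (p 2)]⟩
  have l1 : ∀ p ∈ tube (min δ η), LP (E := R3) (pull att) α j p := by
    intro p hp
    have h1 := (affine_lp (β := pull att) 0 1 1 1 one_ne_zero one_ne_zero one_pos p fun v => by
      rw [pull_att]; ring).comp (hM.lp _ (t1 p hp).2)
    refine h1.rel hA ?_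
    filter_upwards [(isOpen_tube _).mem_nhds hp] with x hx
    exact ⟨f2 _ (hMgt _ _ _ (t1 x hx).2), rfl⟩
  have l2 : ∀ p ∈ tube (η / (2 * κ)), LP (E := R3) (pull belt) alphaSt j' p := by
    intro p hp
    have h1 := (affine_lp (β := pull belt) (-(π / 2)) (2 * κ) (-κ) κ (by positivity)
      (neg_ne_zero.2 hκ.ne') hκ p fun v => by rw [pull_belt]; ring).comp (hN.lp _ (t2 p hp).2)
    refine h1.rel hE ?_
    filter_upwards [(isOpen_tube _).mem_nhds hp] with x hx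
    exact heE _ (hNgt _ _ _ (t2 x hx).2)
  have hcore : core j = range fun q : ℝ => iA (TP ρM a b c d (q, π, 0)) := by
    unfold core; congr 1; funext q; simp [j]
  have hL : ∀ y, y ∈ (range fun q : ℝ => eE (TP ρN a' b' c' d' (q, π, 0))) ↔
      ∃ q, E (TP ρN a' b' c' d' (q, π, 0)) y := fun y =>
    ⟨fun ⟨q, hq⟩ => ⟨q, hq ▸ heE _ (hNgt _ _ _ h0η)⟩,
      fun ⟨q, hq⟩ => ⟨q, hE.fun_r _ _ _ (heE _ (hNgt _ _ _ h0η)) hq⟩⟩
  refine ⟨min δ η, η / (2 * κ), j, j', Φ, hδ1, hκ', ⟨fun p => (l1 p p.2).1, fun p hp => (l1 p hp).2,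
    fun p hp p' hp' => ?_⟩, ⟨fun p => (l2 p p.2).1, fun p hp => (l2 p hp).2,
    fun p hp p' hp' => ?_⟩, ?_, ?_, ?_, hΦc, ?_⟩
  · rw [att_eq_iff]
    constructor
    · intro e
      obtain ⟨h1, ⟨k, h2⟩, l, h3⟩ := hM.inj (hcc (t1 p hp).2) (hcc (t1 p' hp').2)
        (hiA _ (f2 _ (hMgt _ _ _ (t1 p hp).2)) _ (f2 _ (hMgt _ _ _ (t1 p' hp').2)) e)
      refine ⟨ex_congr k (by linarith), ?_, by linarith⟩
      have := small_int (k := l) ((t1 p hp).1.le.trans (by linarith))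
        ((t1 p' hp').1.le.trans (by linarith)) (by linarith)
      linarith
    · rintro ⟨h1, h2, h3⟩
      obtain ⟨k, hk⟩ := ex_eq_iff.1 h1
      exact congrArg iA (TP_congr _ _ _ _ ⟨k, by linarith⟩ ⟨0, by simp [h2]⟩ (by rw [h3]))
  · rw [belt_eq_iff]
    constructor
    · intro e
      have e' := hE.fun_l _ _ _ (heE _ (hNgt _ _ _ (t2 p hp).2))
        (show E _ (j' p) by rw [e]; exact heE _ (hNgt _ _ _ (t2 p' hp').2))
      obtain ⟨h1, ⟨k, h2⟩, l, h3⟩ := hN.inj (hcc (t2 p hp).2) (hcc (t2 p' hp').2) e'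
      refine ⟨ex_congr k (by linarith), ?_, mul_left_cancel₀ (neg_ne_zero.2 hκ.ne') h1⟩
      have := small_int (k := l) ((t2 p hp).1.le.trans (by linarith))
        ((t2 p' hp').1.le.trans (by linarith)) (by linarith)
      exact mul_left_cancel₀ (by positivity) this
    · rintro ⟨h1, h2, h3⟩
      obtain ⟨k, hk⟩ := ex_eq_iff.1 h1
      exact congrArg eE (TP_congr _ _ _ _ ⟨k, by linarith⟩ ⟨0, by simp [h2]⟩ (by rw [h3]))
  · ext y
    constructor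
    · rintro ⟨q, rfl⟩
      exact ⟨q + -(π / 2), by simp [j']⟩
    · rintro ⟨q, rfl⟩
      exact ⟨q + π / 2, by simp [j']⟩
  · rw [hsrc, hcore]
    have key : ∀ x, Gt (ρM η) x → iA x ∉ (range fun q : ℝ => iA (TP ρM a b c d (q, π, 0))) →
        ∃ y n, (∃ x', (x' ∈ XA ∧ iA x = iA x') ∧ Λ x' n) ∧ E n y := by
      intro x hx hm
      obtain ⟨n, hn⟩ := (o1 x).2 ⟨hx, fun q e => hm ⟨q, by rw [e]⟩⟩
      exact ⟨_, n, ⟨x, ⟨f2 x hx, rfl⟩, hn⟩, heE n ((o2 n).1 ⟨x, hn⟩).1⟩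
    ext m
    constructor
    · rintro ⟨y, ⟨hy, hyB, rfl⟩ | ⟨n, ⟨x, ⟨hx, rfl⟩, hΛx⟩, hEn⟩⟩ ⟨q, hq⟩
      · exact hy (f6 _ y ((hAB _ (f2 _ (hMgt _ _ _ h0η)) y hyB).1 hq)
          ((hM.ge_iff _ _ h00 hh).2 (by linarith)))
      · exact ((o1 x).1 ⟨n, hΛx⟩).2 q (hiA _ (f2 _ (hMgt _ _ _ h0η)) _ hx hq).symm
    · intro hm
      rcases hcov m with ⟨x, hx, rfl⟩ | ⟨y, hy, rfl⟩
      · by_cases h1 : Gt (ρM η) x
        · obtain ⟨y, hy⟩ := key x h1 hm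
          exact ⟨y, Or.inr hy⟩
        · obtain ⟨y, hy⟩ := f5 x hx h1
          refine ⟨y, Or.inl ⟨?_, hHX x y hy, (hAB x hx y (hHX x y hy)).2 hy⟩⟩
          rintro ⟨n, hn, hEn⟩
          obtain ⟨x', h2, h3⟩ := f4 y (hHX x y hy) n hn hEn
          exact h1 (hH.fun_l _ _ _ h3 hy ▸ h2)
      · by_cases h1 : y ∈ T
        · obtain ⟨n, hn, hEn⟩ := h1
          obtain ⟨x, h2, h3⟩ := f4 y hy n hn hEn
          have h4 := (hAB x (f2 x h2) y hy).2 h3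
          rw [← h4] at hm ⊢
          obtain ⟨y', hy'⟩ := key x h2 hm
          exact ⟨y', Or.inr hy'⟩
        · exact ⟨y, Or.inl ⟨h1, hy, rfl⟩⟩
  · rw [htgt]
    ext y
    rw [mem_compl_iff, hL]
    constructor
    · rintro ⟨m, ⟨hy, -⟩ | ⟨n, ⟨x, -, hΛx⟩, hEn⟩⟩ ⟨q, hq⟩
      · exact hy ⟨_, (hN.ge_iff _ _ h00 hh).2 (by linarith), hq⟩
      · exact ((o2 n).1 ⟨x, hΛx⟩).2 q (hE.fun_l _ _ _ hEn hq)
    · intro hy
      by_cases h1 : y ∈ T
      · obtain ⟨n, hn, hEn⟩ := h1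
        obtain ⟨x, hx⟩ := (o2 n).2 ⟨hGeGt n hn, fun q e => hy ⟨q, e ▸ hEn⟩⟩
        exact ⟨iA x, Or.inr ⟨n, ⟨x, ⟨f2 x ((o1 x).1 ⟨n, hx⟩).1, rfl⟩, hx⟩, hEn⟩⟩
      · exact ⟨iB y, Or.inl ⟨h1, hTB y h1, rfl⟩⟩
  · intro p hp p' hp' t ht
    obtain ⟨r, σ, hr, h1, h2, h3, h4, h5⟩ := flow_polar ht
    have hrδ : r < δ := by
      have h6 : p 1 ^ 2 + p 2 ^ 2 < min δ η ^ 2 := hp
      have h7 : p 1 ^ 2 + p 2 ^ 2 = r ^ 2 := by
        rw [h1, h2]; linear_combination r ^ 2 * Real.cos_sq_add_sin_sq σ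
      rw [h7] at h6
      exact lt_of_lt_of_le (lt_of_pow_lt_pow_left₀ 2 hδ1.le h6) (min_le_left _ _)
    have h8 := o4 (p 0) r σ hr hrδ
    have h9 : ((p 0, π + r * Real.cos σ, r * Real.sin σ) : E3) =
        (p 0 + 0, π + 1 * p 1, 1 * p 2) := by rw [h1, h2]; simp
    have h10 : ((p 0 + σ - π / 2, π + 2 * κ * √r * Real.cos σ, κ * √r * Real.sin σ) : E3) =
        (p' 0 + -(π / 2), π + 2 * κ * p' 1, -κ * p' 2) := by
      rw [h3, h4, h5]
      exact Prod.ext (by ring) (Prod.ext (by ring) (by ring))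
    rw [h9, h10] at h8
    exact hΦ _ _ (Or.inr ⟨_, ⟨_, ⟨f2 _ (hMgt _ _ _ (t1 p hp).2), rfl⟩, h8⟩,
      heE _ (hNgt _ _ _ (t2 p' hp').2)⟩)

end Pool.Agent.MP_5d9d0b_gt

end MrgPart0

-- ======== part 1: formerly Pool.Agent.MP_5d9d0b_gt.Expl
section MrgPart1

/-!
The explicit toric maps.
-/

namespace Pool.Agent.MP_5d9d0b_gt

open scoped Manifold ContDiff Real Topology
open Set Filter Complex

/-- A real Möbius function. -/
noncomputable def mob (p q r s w : ℝ) : ℝ := (p + q * w) / (r + s * w)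

theorem mob_lp {p q r s : ℝ} {a b c d : ℤ} (hdet : a * d - b * c = 1) {x : E3}
    {β : E3 → E3 → ℝ} (hn : 0 < p + q * x.2.2) (hd : 0 < r + s * x.2.2) (hm : q * r - p * s ≠ 0)
    (hl : ∀ v : E3, (a * (r + s * x.2.2) + c * (p + q * x.2.2)) * v.1 +
      (b * (r + s * x.2.2) + d * (p + q * x.2.2)) * v.2.1 = β x v) :
    LP (E := E3) β alphaSt (TP (mob p q r s) a b c d) x := by
  have h1 : HasDerivAt (mob p q r s) _ x.2.2 :=
    (((hasDerivAt_id x.2.2).const_mul q).const_add p).div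
      (((hasDerivAt_id x.2.2).const_mul s).const_add r) hd.ne'
  refine TP_lp hdet ?_ (div_pos hn hd) h1 ?_ (inv_pos.2 hd) fun v => ?_
  · have h2 : ContinuousAt (fun w : ℝ => r + s * w) x.2.2 := by fun_prop
    filter_upwards [h2.eventually_ne hd.ne'] with w hw
    unfold mob
    exact ContDiffAt.div (by fun_prop) (by fun_prop) hw
  · refine div_ne_zero ?_ (pow_ne_zero 2 hd.ne')
    simp only [id]
    intro h; apply hm; linear_combination h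
  · rw [← hl]; unfold mob
    generalize r + s * x.2.2 = D at hd ⊢
    field_simp

theorem mob_col {η p q r s : ℝ} {a b c d : ℤ} (hdet : a * d - b * c = 1)
    (hn : ∀ w ∈ Icc (-η) η, 0 < p + q * w) (hd : ∀ w ∈ Icc (-η) η, 0 < r + s * w)
    (hm : q * r - p * s < 0) (h1 : ∀ w : ℝ, b * (r + s * w) + d * (p + q * w) = 1)
    (h2 : ∀ w : ℝ, a * (r + s * w) + c * (p + q * w) = w) : TCol η (mob p q r s) a b c d where
  det := hdet
  pos w hw := div_pos (hn w hw) (hd w hw)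
  anti w hw w' hw' h := by
    unfold mob
    rw [div_lt_div_iff₀ (hd w' hw') (hd w hw)]
    nlinarith
  cont := by
    unfold mob
    exact ContinuousOn.div (by fun_prop) (by fun_prop) fun w hw => (hd w hw).ne'
  lp x hx := by
    have h3 : x.2.2 ∈ Icc (-η) η := Ioo_subset_Icc_self (abs_lt.1 hx)
    refine mob_lp hdet (hn _ h3) (hd _ h3) hm.ne fun v => ?_
    rw [h1, h2, b1]; ring

theorem colM1 : TCol (1 / 10) (mob 2 (-3) 1 (-1)) 2 3 (-1) (-1) :=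
  mob_col (by norm_num) (fun w hw => by linarith [hw.2]) (fun w hw => by linarith [hw.2])
    (by norm_num) (fun w => by push_cast; ring) (fun w => by push_cast; ring)

theorem colN1 : TCol (1 / 10) (mob 2 (-1) 1 0) 2 1 (-1) 0 :=
  mob_col (by norm_num) (fun w hw => by linarith [hw.2]) (fun w _ => by linarith)
    (by norm_num) (fun w => by push_cast; ring) (fun w => by push_cast; ring)

theorem colM2 : TCol (1 / 10) (mob 1 (-2) 2 (-3)) 1 2 (-2) (-3) :=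
  mob_col (by norm_num) (fun w hw => by linarith [hw.2]) (fun w hw => by linarith [hw.2])
    (by norm_num) (fun w => by push_cast; ring) (fun w => by push_cast; ring)

theorem colN2 : TCol (1 / 10) (mob 3 (-2) 2 (-1)) 3 2 (-2) (-1) :=
  mob_col (by norm_num) (fun w hw => by linarith [hw.2]) (fun w hw => by linarith [hw.2])
    (by norm_num) (fun w => by push_cast; ring) (fun w => by push_cast; ring)

/-- The toric maps `k₁` (`r = 1, s = -1, c = d = -1`) and `k₂` (`r = 4, s = -5, c = -4, d = -5`). -/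
def Kr (r s : ℝ) (c d : ℤ) (n x : S3) : Prop :=
  ∃ p ∈ {p : E3 | 0 < p.2.2 ∧ p.2.2 < 3 / 4},
    n = TP (mob 1 0 0 1) 1 0 0 1 p ∧ x = TP (mob 3 (-4) r s) 3 4 c d p

/-- Admissible data for `Kr`. -/
structure KD (r s : ℝ) (c d : ℤ) : Prop where
  det : 3 * d - 4 * c = 1
  pos : ∀ a : ℝ, a ≤ 3 / 4 → 0 < r + s * a
  dec : -4 * r - 3 * s < 0
  h1 : ∀ a : ℝ, 3 * (r + s * a) + c * (3 + -4 * a) = a
  h2 : ∀ a : ℝ, 4 * (r + s * a) + d * (3 + -4 * a) = 1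

theorem kd1 : KD 1 (-1) (-1) (-1) :=
  ⟨by norm_num, fun a h => by linarith, by norm_num, fun a => by push_cast; ring,
    fun a => by push_cast; ring⟩

theorem kd2 : KD 4 (-5) (-4) (-5) :=
  ⟨by norm_num, fun a h => by linarith, by norm_num, fun a => by push_cast; ring,
    fun a => by push_cast; ring⟩

theorem mobN (a : ℝ) : mob 1 0 0 1 a = a⁻¹ := by simp [mob]

namespace KD
variable {r s : ℝ} {c d : ℤ} (h : KD r s c d)
include h

theorem mpos {a : ℝ} (ha : a < 3 / 4) : 0 < mob 3 (-4) r s a :=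
  div_pos (by linarith) (h.pos a ha.le)

theorem lt_iff {a a' : ℝ} (ha : a ≤ 3 / 4) (ha' : a' ≤ 3 / 4) :
    mob 3 (-4) r s a < mob 3 (-4) r s a' ↔ a' < a := by
  unfold mob
  rw [div_lt_div_iff₀ (h.pos a ha) (h.pos a' ha')]
  have := h.dec
  constructor <;> intro h1 <;> nlinarith

theorem le_iff {a a' : ℝ} (ha : a ≤ 3 / 4) (ha' : a' ≤ 3 / 4) :
    mob 3 (-4) r s a ≤ mob 3 (-4) r s a' ↔ a' ≤ a := by
  rw [← not_lt, h.lt_iff ha' ha, not_lt]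

theorem crel : CRel alphaSt alphaSt (Kr r s c d) := by
  refine CRel.of_params (a := fun p v : E3 => p.2.2 * v.1 + v.2.1) ?_ (fun p hp => ?_)
    (fun p hp => ?_) ?_
  · exact (isOpen_lt continuous_const (continuous_snd.comp continuous_snd)).inter
      (isOpen_lt (continuous_snd.comp continuous_snd) continuous_const)
  · exact mob_lp (by norm_num) (by simp) (by simpa using hp.1) (by norm_num) fun v => by simp
  · refine mob_lp h.det (by linarith [hp.2]) (h.pos _ hp.2.le) (by linarith [h.dec]) fun v => ?_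
    have e1 := h.h1 p.2.2
    have e2 := h.h2 p.2.2
    push_cast
    rw [e1, e2]; ring
  · rintro ⟨φ, θ, a⟩ hp ⟨φ', θ', a'⟩ hp'
    constructor
    · intro e
      obtain ⟨h1, h2, h3⟩ := TP_inj (by norm_num) (by rw [mobN]; exact inv_pos.2 hp.1)
        (by rw [mobN]; exact inv_pos.2 hp'.1) e
      rw [mobN, mobN, inv_inj] at h1
      exact TP_congr _ _ _ _ h2 h3 h1
    · intro e
      obtain ⟨h1, h2, h3⟩ := TP_inj h.det (h.mpos hp.2) (h.mpos hp'.2) e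
      exact TP_congr _ _ _ _ h2 h3 (le_antisymm ((h.le_iff hp'.2.le hp.2.le).1 h1.ge)
        ((h.le_iff hp.2.le hp'.2.le).1 h1.le))

theorem rho {n x : S3} (hk : Kr r s c d n x) :
    ∃ a, 0 < a ∧ a < 3 / 4 ∧ Rho a⁻¹ n ∧ Rho (mob 3 (-4) r s a) x := by
  obtain ⟨p, hp, rfl, rfl⟩ := hk
  refine ⟨p.2.2, hp.1, hp.2, ?_, TP_rho _ _ _ _ (h.mpos hp.2).le⟩
  rw [← mobN]
  exact TP_rho _ _ _ _ (by rw [mobN]; exact (inv_pos.2 hp.1).le)

omit h in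
theorem dom {n : S3} (h1 : z1 n ≠ 0) (h2 : Gt (4 / 3) n) : ∃ x, Kr r s c d n x := by
  obtain ⟨ρ, -, hρ⟩ := exists_rho h1
  rw [hρ.gt_iff] at h2
  have h3 : 0 < ρ := by linarith
  have h4 : Rho (mob 1 0 0 1 ρ⁻¹) n := by rwa [mobN, inv_inv]
  obtain ⟨q, z, rfl⟩ := TP_surj (a := 1) (b := 0) (c := 0) (d := 1) (by norm_num) h4
  refine ⟨_, (q, z, ρ⁻¹), ⟨inv_pos.2 h3, ?_⟩, rfl, rfl⟩
  rw [inv_lt_comm₀ h3 (by norm_num)]; linarith

theorem ran {x : S3} {ρ : ℝ} (hρ : Rho ρ x) (h1 : 0 < ρ) (h2 : ρ < mob 3 (-4) r s 0) :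
    ∃ n, Kr r s c d n x := by
  have hc : ContinuousOn (mob 3 (-4) r s) (Icc 0 (3 / 4)) := by
    unfold mob
    exact ContinuousOn.div (by fun_prop) (by fun_prop) fun w hw => (h.pos w hw.2).ne'
  have h3 : mob 3 (-4) r s (3 / 4) = 0 := by unfold mob; norm_num
  obtain ⟨a, ha, rfl⟩ := intermediate_value_Ioo' (by norm_num) hc ⟨h3 ▸ h1, h2⟩
  obtain ⟨q, z, rfl⟩ := TP_surj h.det hρ
  exact ⟨_, (q, z, a), ha, rfl, rfl⟩

end KD

theorem Kr_mk {r s : ℝ} {c d : ℤ} {a : ℝ} (φ θ : ℝ) (h1 : 0 < a) (h2 : a < 3 / 4) :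
    Kr r s c d (Tor a⁻¹ φ θ) (Tor (mob 3 (-4) r s a) (3 * φ + 4 * θ) (c * φ + d * θ)) :=
  ⟨(φ, θ, a), ⟨h1, h2⟩, by simp [TP, mobN], by simp [TP]⟩

/-- The flat toric map `ℂ × ℝ → 𝔻 × ℝ`. -/
noncomputable def tt (p : C3) : C3 := ((√(1 + normSq p.1)⁻¹ : ℝ) * (p.1 * ex (-p.2)), p.2)

theorem normSq_tt (p : C3) : normSq (tt p).1 = normSq p.1 / (1 + normSq p.1) := by
  have h : 0 < 1 + normSq p.1 := by have := normSq_nonneg p.1; linarith
  simp only [tt, map_mul, normSq_ofReal, normSq_ex, Real.mul_self_sqrt (inv_pos.2 h).le]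
  field_simp

theorem tt_fib {p p' : C3} : (p.1 = p'.1 ∧ ex p.2 = ex p'.2) ↔
    ((tt p).1 = (tt p').1 ∧ ex (tt p).2 = ex (tt p').2) := by
  constructor
  · rintro ⟨h1, h2⟩
    exact ⟨by simp only [tt, ex_neg, h1, h2], h2⟩
  · rintro ⟨h1, h2⟩
    have h3 : ex p.2 = ex p'.2 := h2
    have h4 := congrArg normSq h1
    have h5 : 0 < 1 + normSq p.1 := by have := normSq_nonneg p.1; linarith
    have h6 : 0 < 1 + normSq p'.1 := by have := normSq_nonneg p'.1; linarith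
    rw [normSq_tt, normSq_tt, div_eq_div_iff h5.ne' h6.ne'] at h4
    have h7 : normSq p.1 = normSq p'.1 := by linarith
    simp only [tt, ex_neg, h7, h3] at h1
    have h8 : ((√(1 + normSq p'.1)⁻¹ : ℝ) : ℂ) ≠ 0 := by
      exact_mod_cast (Real.sqrt_pos.2 (inv_pos.2 h6)).ne'
    exact ⟨mul_right_cancel₀ (inv_ne_zero (ex_ne _)) (mul_left_cancel₀ h8 h1), h3⟩

theorem tt_surj {p : C3} (h : normSq p.1 < 1) : ∃ p', p = tt p' := by
  have h1 : 0 < 1 - normSq p.1 := by linarith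
  refine ⟨((√(1 - normSq p.1)⁻¹ : ℝ) * (p.1 * ex p.2), p.2), Prod.ext ?_ rfl⟩
  simp only [tt, map_mul, normSq_ofReal, normSq_ex, Real.mul_self_sqrt (inv_pos.2 h1).le, ex_neg]
  have h2 : (1 + (1 - normSq p.1)⁻¹ * (normSq p.1 * 1))⁻¹ = 1 - normSq p.1 := by
    field_simp; ring
  have h3 : ((√(1 - normSq p.1) : ℝ) : ℂ) ≠ 0 := by exact_mod_cast (Real.sqrt_pos.2 h1).ne'
  have h4 := ex_ne p.2
  rw [h2, Real.sqrt_inv]
  push_cast
  field_simp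

theorem tt_tor {ρ : ℝ} (h : 0 ≤ ρ) (s t : ℝ) :
    tt ((√ρ : ℝ) * ex s, t) = ((√(ρ / (1 + ρ)) : ℝ) * ex (s - t), t) := by
  refine Prod.ext ?_ rfl
  simp only [tt, normSq_sqrt_ex h]
  rw [div_eq_mul_inv, Real.sqrt_mul h, sub_eq_add_neg, ex_add]
  push_cast; ring

theorem tt_lp (p : C3) : LP (E := C3) (F := C3) b0 b0 tt p := by
  have hpos : ∀ x : C3, 0 < (1 + normSq x.1)⁻¹ := fun x => by
    have := normSq_nonneg x.1; positivity
  have hm : ContDiff ℝ ∞ fun x : C3 => √(1 + normSq x.1)⁻¹ := by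
    refine ContDiff.sqrt (ContDiff.inv ?_ fun x => (inv_pos.1 (hpos x)).ne') fun x => (hpos x).ne'
    simp only [normSq_apply]
    exact contDiff_const.add (((reCLM.contDiff.comp contDiff_fst).mul
      (reCLM.contDiff.comp contDiff_fst)).add ((imCLM.contDiff.comp contDiff_fst).mul
      (imCLM.contDiff.comp contDiff_fst)))
  have hsm : ContDiff ℝ ∞ tt := ((ofRealCLM.contDiff.comp hm).mul (contDiff_fst.mul
    (contDiff_ex.comp contDiff_snd.neg))).prodMk contDiff_snd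
  obtain ⟨m', hm'⟩ : ∃ m', HasFDerivAt (fun x : C3 => √(1 + normSq x.1)⁻¹) m' p :=
    ⟨_, (hm.differentiable (by simp) p).hasFDerivAt⟩
  have hd : HasFDerivAt tt _ p := ((ofRealCLM.hasFDerivAt.comp p hm').mul
    (hasFDerivAt_fst.mul (HasFDerivAt.ex' hasFDerivAt_snd.neg))).prodMk hasFDerivAt_snd
  have hsq : √(1 + normSq p.1)⁻¹ * √(1 + normSq p.1)⁻¹ * (1 + normSq p.1) = 1 := by
    rw [Real.mul_self_sqrt (hpos p).le, inv_mul_cancel₀ (inv_pos.1 (hpos p)).ne']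
  have hmm : ∀ v : C3, m' v * (1 + normSq p.1) +
      √(1 + normSq p.1)⁻¹ * (p.1.re * v.1.re + p.1.im * v.1.im) = 0 := by
    intro v
    have h1 : HasFDerivAt (fun x : C3 => 1 + (x.1.re * x.1.re + x.1.im * x.1.im)) _ p :=
      (((reCLM.hasFDerivAt.comp p hasFDerivAt_fst).mul
        (reCLM.hasFDerivAt.comp p hasFDerivAt_fst)).add
        ((imCLM.hasFDerivAt.comp p hasFDerivAt_fst).mul
        (imCLM.hasFDerivAt.comp p hasFDerivAt_fst))).const_add 1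
    have h2 := (hm'.mul hm').mul h1
    have h3 : HasFDerivAt (fun _ : C3 => (1 : ℝ)) _ p := h2.congr_of_eventuallyEq
      (Eventually.of_forall fun x => by
        change 1 = √(1 + normSq x.1)⁻¹ * √(1 + normSq x.1)⁻¹ * (1 + normSq x.1)
        rw [Real.mul_self_sqrt (hpos x).le, inv_mul_cancel₀ (inv_pos.1 (hpos x)).ne'])
    have h4 := congrArg (fun A : C3 →L[ℝ] ℝ => A v) (h3.unique (hasFDerivAt_const 1 p))
    have h5 := Real.sqrt_pos.2 (hpos p)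
    apply mul_left_cancel₀ (mul_pos two_pos h5).ne'
    rw [normSq_apply] at h5 ⊢
    simp only [normSq_apply] at h4
    simp [-Real.sqrt_inv] at h4
    linear_combination h4
  have hm0 := Real.sqrt_pos.2 (hpos p)
  have hf : ∀ v : C3, fderiv ℝ tt p v = (ex (-p.2) * ((m' v : ℝ) * p.1 +
      (√(1 + normSq p.1)⁻¹ : ℝ) * (v.1 - (v.2 : ℝ) * I * p.1)), v.2) := by
    intro v
    rw [hd.fderiv]
    refine Prod.ext ?_ rfl
    simp [-Real.sqrt_inv]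
    ring
  have ht : tt p = ((√(1 + normSq p.1)⁻¹ : ℝ) * (p.1 * ex (-p.2)), p.2) := rfl
  refine LP.flat (Eventually.of_forall fun x => hsm.contDiffAt) (bij_of_inj rfl _ fun v hv => ?_)
    (mul_pos hm0 hm0) fun v => ?_
  · rw [hf, Prod.mk_eq_zero, mul_eq_zero, or_iff_right (ex_ne _)] at hv
    obtain ⟨h1, h2⟩ := hv
    have h3 := congrArg Complex.re h1
    have h4 := congrArg Complex.im h1
    have h5 := hmm v
    rw [normSq_apply] at *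
    generalize √(1 + (p.1.re * p.1.re + p.1.im * p.1.im))⁻¹ = m at *
    simp [h2] at h3 h4
    have h6 : m' v = 0 := by linear_combination h5 - p.1.re * h3 - p.1.im * h4
    rw [h6] at h3 h4
    simp [hm0.ne'] at h3 h4
    exact Prod.ext (Complex.ext h3 h4) h2
  · rw [hf, ht]
    have e := Real.cos_sq_add_sin_sq (-p.2)
    rw [normSq_apply] at *
    generalize √(1 + (p.1.re * p.1.re + p.1.im * p.1.im))⁻¹ = m at *
    simp only [b0, mul_re, mul_im, add_re, add_im, sub_re, sub_im, ofReal_re, ofReal_im, I_re, I_im,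
      ex_re, ex_im]
    linear_combination (m * m * (p.1.re * v.1.im - p.1.im * v.1.re) -
      m * m * v.2 * (p.1.re * p.1.re + p.1.im * p.1.im)) * e - v.2 * hsq

/-- The toric map near the common core circle. -/
def T2 (x y : S3) : Prop := ∃ p ∈ (univ : Set C3), x = Sol2 p ∧ y = (Sol2 ∘ tt) p

/-- The toric map near the other core circle. -/
def T1 (x y : S3) : Prop := ∃ p ∈ (univ : Set C3), x = Sol1 p ∧ y = (Sol1 ∘ tt) p

theorem crel_T2 : CRel alphaSt alphaSt T2 :=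
  CRel.of_params isOpen_univ (fun p _ => Sol2_lp p) (fun p _ => (tt_lp p).comp (Sol2_lp _))
    fun p _ p' _ => by simp only [Function.comp, Sol2_eq_iff]; exact tt_fib

theorem crel_T1 : CRel alphaSt alphaSt T1 :=
  CRel.of_params isOpen_univ (fun p _ => Sol1_lp p) (fun p _ => (tt_lp p).comp (Sol1_lp _))
    fun p _ p' _ => by simp only [Function.comp, Sol1_eq_iff]; exact tt_fib

theorem T2_tor {ρ : ℝ} (h : 0 ≤ ρ) (s t : ℝ) : T2 (Tor ρ s t) (Tor (ρ / (1 + ρ)) s (t - s)) :=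
  ⟨((√ρ : ℝ) * ex t, s), trivial, rfl, by rw [Function.comp, tt_tor h]; rfl⟩

theorem T1_tor {ρ : ℝ} (h : 0 < ρ) (s t : ℝ) : T1 (Tor ρ s t) (Tor (1 + ρ) (s - t) t) := by
  refine ⟨((√ρ⁻¹ : ℝ) * ex s, t), trivial, Tor_eq_Sol1 h s t, ?_⟩
  rw [Function.comp, tt_tor (inv_pos.2 h).le, Tor_eq_Sol1 (by linarith)]
  have h1 : ρ⁻¹ / (1 + ρ⁻¹) = (1 + ρ)⁻¹ := by
    field_simp
    ring
  rw [h1]

theorem T2_rho {x y : S3} (h : T2 x y) : ∃ ρ, 0 ≤ ρ ∧ Rho ρ x ∧ Rho (ρ / (1 + ρ)) y := by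
  obtain ⟨p, -, rfl, rfl⟩ := h
  exact ⟨_, normSq_nonneg _, Sol2_rho p, normSq_tt p ▸ Sol2_rho (tt p)⟩

theorem T2_dom {x : S3} (h : z1 x ≠ 0) : ∃ y, T2 x y := by
  obtain ⟨p, rfl⟩ := Sol2_surj h
  exact ⟨_, p, trivial, rfl, rfl⟩

theorem T2_ran {y : S3} (h : ¬ Ge 1 y) : ∃ x, T2 x y := by
  obtain ⟨p, rfl⟩ := Sol2_surj (z1_ne_of_not_gt fun h1 => h h1.ge)
  rw [(Sol2_rho p).ge_iff, not_le] at h
  obtain ⟨p', rfl⟩ := tt_surj h
  exact ⟨_, p', trivial, rfl, rfl⟩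

theorem T1_gt {x y : S3} (h : T1 x y) (r : ℝ) : Gt r x ↔ Gt (1 + r) y := by
  obtain ⟨p, -, rfl, rfl⟩ := h
  have h1 : 0 < 1 + normSq p.1 := by have := normSq_nonneg p.1; linarith
  rw [Function.comp, Sol1_gt_iff, Sol1_gt_iff, normSq_tt, ← mul_div_assoc, div_lt_one h1]
  constructor <;> intro h <;> linarith

theorem T1_dom {x : S3} (h : z2 x ≠ 0) : ∃ y, T1 x y := by
  obtain ⟨p, rfl⟩ := Sol1_surj h
  exact ⟨_, p, trivial, rfl, rfl⟩

theorem T1_ran {y : S3} (h : Gt 1 y) : ∃ x, T1 x y := by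
  obtain ⟨p, rfl⟩ := Sol1_surj (h.z2_ne zero_le_one)
  rw [Sol1_gt_iff, one_mul] at h
  obtain ⟨p', rfl⟩ := tt_surj h
  exact ⟨_, p', trivial, rfl, rfl⟩

end Pool.Agent.MP_5d9d0b_gt

end MrgPart1

-- ======== part 2: formerly Pool.Agent.MP_5d9d0b_gt.Asm
section MrgPart2

/-!
Assembly of the two surgeries.
-/

namespace Pool.Agent.MP_5d9d0b_gt

open scoped Manifold ContDiff Real Topology
open Set Filter Complex

/-- Properties of the twist map. -/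
structure HD (Hm : S3 → S3 → Prop) : Prop where
  crel : CRel alphaSt alphaSt Hm
  ne : ∀ n n1, Hm n n1 → z2 n ≠ 0 ∧ z2 n1 ≠ 0
  dom : ∀ n, z2 n ≠ 0 → (∃ n1, Hm n n1) ∧ ∃ n1, Hm n1 n
  fix : ∀ p : C3, 37 / 50 ≤ Complex.normSq p.1 → Hm (Sol1 p) (Sol1 p)
  near : ∀ (X : ℂ) (θ : ℝ), ‖X‖ ≤ 1 / 250 →
    Hm (Sol1 (X, θ)) (Sol1 (21 / 25 - X, θ + 21 / 25 * X.im)) ∧
    Hm (Sol1 (21 / 25 - X, θ + 21 / 25 * X.im)) (Sol1 (X, θ))

namespace HD
variable {Hm : S3 → S3 → Prop} (h : HD Hm)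
include h

theorem symm : HD (fun n n1 => Hm n1 n) :=
  ⟨h.crel.symm, fun n n1 e => (h.ne n1 n e).symm, fun n e => (h.dom n e).symm, h.fix,
    fun X θ e => (h.near X θ e).symm⟩

theorem fix' {n n' : S3} (e : Hm n n') (h1 : ¬ Gt (50 / 37) n) : n' = n := by
  obtain ⟨p, rfl⟩ := Sol1_surj (h.ne _ _ e).1
  rw [Sol1_gt_iff] at h1
  exact h.crel.fun_r _ _ _ e (h.fix p (by linarith))

theorem gt43 {n n' : S3} (e : Hm n n') (h1 : Gt (4 / 3) n) : Gt (4 / 3) n' := by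
  by_contra h2
  have := h.symm.fix' e fun h3 => h2 (h3.mono (by norm_num))
  exact h2 (this ▸ h1)

theorem core {n n' : S3} (e : Hm n n') (h1 : z1 n' = 0) : ¬ Gt (10 / 7) n := by
  obtain ⟨⟨X, θ⟩, rfl⟩ := Sol1_surj (h.ne _ _ e).2
  obtain rfl : X = 0 := Sol1_z1_iff.1 h1
  rw [h.crel.fun_l _ _ _ e (h.near 0 θ (by simp)).2, Sol1_gt_iff]
  simp; norm_num

theorem small {n n' : S3} (e : Hm n n') (h1 : Ge 62500 n) : ¬ Gt (3 / 2) n' := by
  obtain ⟨⟨X, θ⟩, rfl⟩ := Sol1_surj (h.ne _ _ e).1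
  rw [Sol1_ge_iff, normSq_eq_norm_sq] at h1
  have h2 : ‖X‖ ≤ 1 / 250 := by
    by_contra h3
    simp only at h1
    nlinarith [not_le.1 h3]
  rw [h.crel.fun_r _ _ _ e (h.near X θ h2).1, Sol1_gt_iff, normSq_eq_norm_sq, not_lt]
  have h3 := norm_sub_norm_le (21 / 25 : ℂ) X
  have h4 : ‖(21 / 25 : ℂ)‖ = 21 / 25 := by simp
  simp only
  nlinarith

theorem exE {r s : ℝ} {c d : ℤ} {n : S3} (h1 : Gt (10 / 7) n) :
    ∃ y n', Hm n n' ∧ Kr r s c d n' y := by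
  obtain ⟨n', e⟩ := (h.dom n (h1.z2_ne (by norm_num))).1
  obtain ⟨y, hy⟩ := KD.dom (r := r) (s := s) (c := c) (d := d) (fun h2 => h.core e h2 h1)
    (h.gt43 e (h1.mono (by norm_num)))
  exact ⟨y, n', e, hy⟩

end HD

/-- The data of the gluing, seen from one side. -/
structure SD (rA sA : ℝ) (cA dA : ℤ) (rB sB : ℝ) (cB dB : ℤ) (Hm Tr : S3 → S3 → Prop) : Prop where
  kA : KD rA sA cA dA
  kB : KD rB sB cB dB
  hd : HD Hm
  tA : ∀ x y, Tr x y → ¬ Ge (mob 3 (-4) rA sA (37 / 50)) x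
  tB : ∀ x y, Tr x y → ¬ Ge (mob 3 (-4) rB sB (37 / 50)) y
  eA : ∀ x, ¬ Ge (mob 3 (-4) rA sA (37 / 50)) x → ∃ y, Tr x y
  eB : ∀ y, ¬ Ge (mob 3 (-4) rB sB (37 / 50)) y → ∃ x, Tr x y

/-- The embedding of the model solid torus. -/
def EE (Hm : S3 → S3 → Prop) (r s : ℝ) (c d : ℤ) (n y : S3) : Prop :=
  ∃ n', Hm n n' ∧ Kr r s c d n' y

/-- The complement of the removed fibre. -/
def XX (Hm : S3 → S3 → Prop) (r s : ℝ) (c d : ℤ) : Set S3 :=
  {y | ∃ n ∈ {n | z1 n = 0}, EE Hm r s c d n y}ᶜ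

/-- The complement of a neighbourhood of the removed fibre. -/
def CC (Hm : S3 → S3 → Prop) (r s : ℝ) (c d : ℤ) : Set S3 :=
  {y | ∃ n ∈ {n | Gt 62500 n}, EE Hm r s c d n y}ᶜ

/-- The gluing map. -/
def HH (rA sA : ℝ) (cA dA : ℤ) (rB sB : ℝ) (cB dB : ℤ) (Hm Tr : S3 → S3 → Prop) (x y : S3) : Prop :=
  (∃ n, Kr rA sA cA dA n x ∧ EE Hm rB sB cB dB n y) ∨ Tr x y

theorem HH_symm {rA sA : ℝ} {cA dA : ℤ} {rB sB : ℝ} {cB dB : ℤ} {Hm Tr : S3 → S3 → Prop}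
    {x y : S3} : HH rB sB cB dB rA sA cA dA (fun n n1 => Hm n1 n) (fun y x => Tr x y) y x ↔
      HH rA sA cA dA rB sB cB dB Hm Tr x y := by
  constructor
  · rintro (⟨n, h1, n', h2, h3⟩ | h)
    exacts [Or.inl ⟨n', h3, n, h2, h1⟩, Or.inr h]
  · rintro (⟨n, h1, n', h2, h3⟩ | h)
    exacts [Or.inl ⟨n', h3, n, h2, h1⟩, Or.inr h]

theorem KD.far {r s : ℝ} {c d : ℤ} (h : KD r s c d) {n x : S3} (hk : Kr r s c d n x)
    (h1 : ¬ Ge (mob 3 (-4) r s (37 / 50)) x) : ¬ Gt (50 / 37) n := by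
  obtain ⟨a, h2, h3, h4, h5⟩ := h.rho hk
  rw [h5.ge_iff, h.le_iff (by norm_num) h3.le, not_le] at h1
  rw [h4.gt_iff, not_lt, inv_le_comm₀ h2 (by norm_num)]
  linarith

namespace SD
variable {rA sA : ℝ} {cA dA : ℤ} {rB sB : ℝ} {cB dB : ℤ} {Hm Tr : S3 → S3 → Prop}
  (h : SD rA sA cA dA rB sB cB dB Hm Tr)
include h

theorem symm : SD rB sB cB dB rA sA cA dA (fun n n1 => Hm n1 n) (fun y x => Tr x y) :=
  ⟨h.kB, h.kA, h.hd.symm, fun y x => h.tB x y, fun y x => h.tA x y, h.eB, h.eA⟩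

theorem crelE : CRel alphaSt alphaSt (EE Hm rB sB cB dB) := h.hd.crel.comp h.kB.crel

theorem isOpen_X : IsOpen (XX Hm rB sB cB dB) := by
  have := nonemptyS3
  refine (h.crelE.isCompact_image (isClosed_eq continuous_z1 continuous_const).isCompact
    fun n hn => ?_).isClosed.isOpen_compl
  exact h.hd.exE (gt_of_z1 hn _)

theorem isCompact_C : IsCompact (CC Hm rB sB cB dB) :=
  (h.crelE.isOpen_image (isOpen_Gt _)).isClosed_compl.isCompact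

omit h in
theorem C_sub : CC Hm rB sB cB dB ⊆ XX Hm rB sB cB dB := fun _ hy ⟨n, h1, h2⟩ =>
  hy ⟨n, gt_of_z1 h1 _, h2⟩

theorem memX {x y : S3} (e : HH rA sA cA dA rB sB cB dB Hm Tr x y) : y ∈ XX Hm rB sB cB dB := by
  rintro ⟨n, h1, h2⟩
  rcases e with ⟨m, h3, h4⟩ | e
  · obtain rfl := h.crelE.fun_l _ _ _ h2 h4
    obtain ⟨a, -, -, h5, -⟩ := h.kA.rho h3
    exact h5.1 h1
  · obtain ⟨n', h3, h4⟩ := h2
    obtain rfl := h.hd.symm.fix' h3 (h.kB.far h4 (h.tB _ _ e))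
    obtain ⟨a, -, -, h5, -⟩ := h.kB.rho h4
    exact h5.1 h1

theorem domH {x : S3} (h1 : x ∈ XX (fun n n1 => Hm n1 n) rA sA cA dA)
    (h2 : ¬ Ge (mob 3 (-4) rA sA 0) x) : ∃ y, HH rA sA cA dA rB sB cB dB Hm Tr x y := by
  by_cases h3 : Ge (mob 3 (-4) rA sA (37 / 50)) x
  · obtain ⟨ρ, -, hρ⟩ := exists_rho (z1_ne_of_not_gt fun h4 => h2 h4.ge)
    rw [hρ.ge_iff] at h2 h3
    obtain ⟨n, hn⟩ := h.kA.ran hρ (lt_of_lt_of_le (h.kA.mpos (by norm_num)) h3) (not_le.1 h2)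
    obtain ⟨a, h4, h5, h6, -⟩ := h.kA.rho hn
    obtain ⟨n', e⟩ := (h.hd.dom n (h6.z2_ne (inv_pos.2 h4))).1
    have h7 : Gt (4 / 3) n := by
      rw [h6.gt_iff, lt_inv_comm₀ (by norm_num) h4]; linarith
    obtain ⟨y, hy⟩ := KD.dom (r := rB) (s := sB) (c := cB) (d := dB)
      (fun h8 => h1 ⟨n', h8, n, e, hn⟩) (h.hd.gt43 e h7)
    exact ⟨y, Or.inl ⟨n, hn, n', e, hy⟩⟩
  · obtain ⟨y, hy⟩ := h.eA x h3
    exact ⟨y, Or.inr hy⟩

theorem nbhd {x : S3} (h1 : x ∈ XX (fun n n1 => Hm n1 n) rA sA cA dA) :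
    x ∈ {x | Gt (mob 3 (-4) rA sA (1 / 62500)) x} ∨ ∃ y, HH rA sA cA dA rB sB cB dB Hm Tr x y := by
  by_cases h2 : Ge (mob 3 (-4) rA sA 0) x
  · exact Or.inl (h2.gt ((h.kA.lt_iff (by norm_num) (by norm_num)).2 (by norm_num)))
  · exact Or.inr (h.domH h1 h2)

theorem sep {x y : S3} (e : HH rA sA cA dA rB sB cB dB Hm Tr x y)
    (h1 : Gt (mob 3 (-4) rA sA (1 / 62500)) x) (h2 : Gt (mob 3 (-4) rB sB (1 / 62500)) y) :
    False := by
  rcases e with ⟨n, h3, n', h4, h5⟩ | e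
  · obtain ⟨a, a1, a2, a3, a4⟩ := h.kA.rho h3
    obtain ⟨b, b1, b2, b3, b4⟩ := h.kB.rho h5
    rw [a4.gt_iff, h.kA.lt_iff (by norm_num) a2.le] at h1
    rw [b4.gt_iff, h.kB.lt_iff (by norm_num) b2.le] at h2
    refine h.hd.small h4 ?_ ?_
    · rw [a3.ge_iff, le_inv_comm₀ (by norm_num) a1]; linarith
    · rw [b3.gt_iff, lt_inv_comm₀ (by norm_num) b1]; linarith
  · exact h.tA _ _ e (h1.ge.mono ((h.kA.le_iff (by norm_num) (by norm_num)).2 (by norm_num)))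

theorem cover {x : S3} (h1 : x ∈ XX (fun n n1 => Hm n1 n) rA sA cA dA) :
    x ∈ CC (fun n n1 => Hm n1 n) rA sA cA dA ∨
      ∃ y ∈ CC Hm rB sB cB dB, HH rA sA cA dA rB sB cB dB Hm Tr x y := by
  by_cases h2 : x ∈ CC (fun n n1 => Hm n1 n) rA sA cA dA
  · exact Or.inl h2
  · obtain ⟨n, h3, n', h4, h5⟩ := not_not.1 h2
    obtain ⟨y, hy⟩ := KD.dom (r := rB) (s := sB) (c := cB) (d := dB)
      (fun h8 => h1 ⟨n, h8, n', h4, h5⟩) (Gt.mono h3 (by norm_num))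
    refine Or.inr ⟨y, ?_, Or.inl ⟨n', h5, n, h4, hy⟩⟩
    rintro ⟨m, h6, m', h7, h8⟩
    obtain rfl := h.kB.crel.fun_l _ _ _ h8 hy
    exact h.hd.small h7 (Gt.ge h6) (Gt.mono h3 (by norm_num))

theorem surgery {M : Type} [TopologicalSpace M] [ChartedSpace R3 M]
    {α : (x : M) → TangentSpace (𝓡 3) x → ℝ} {iA iB : S3 → M}
    (hA : CRel alphaSt α (fun x m => x ∈ XX (fun n n1 => Hm n1 n) rA sA cA dA ∧ m = iA x))
    (hB : CRel alphaSt α (fun y m => y ∈ XX Hm rB sB cB dB ∧ m = iB y))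
    (hcov : ∀ m, (∃ x ∈ XX (fun n n1 => Hm n1 n) rA sA cA dA, m = iA x) ∨
      ∃ y ∈ XX Hm rB sB cB dB, m = iB y)
    (hAB : ∀ x ∈ XX (fun n n1 => Hm n1 n) rA sA cA dA, ∀ y ∈ XX Hm rB sB cB dB,
      (iA x = iB y ↔ HH rA sA cA dA rB sB cB dB Hm Tr x y))
    (hH : CRel alphaSt alphaSt (HH rA sA cA dA rB sB cB dB Hm Tr)) (hcol : CollarStmt)
    {ρM ρN : ℝ → ℝ} {a b c d a' b' c' d' : ℤ} (hM : TCol (1 / 10) ρM a b c d)
    (hN : TCol (1 / 10) ρN a' b' c' d') {In : S3 → S3 → Prop} (hIn : CRel alphaSt alphaSt In)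
    (in1 : ∀ x n, In x n → Gt (ρM (-(1 / 10) / 2)) x ∧
      Gt (ρN (-(1 / 10) / 2 / (1 - -(1 / 10) / 2))) n)
    (in2 : ∀ x, Gt (ρM (-(1 / 10) / 2)) x → ∃ n, In x n)
    (in2' : ∀ n, Gt (ρN (-(1 / 10) / 2 / (1 - -(1 / 10) / 2))) n → ∃ x, In x n)
    (in3 : ∀ q z w : ℝ, -(1 / 10) < w → w < -(1 / 10) / 2 →
      In (TP ρM a b c d (q, z, w)) (TP ρN a' b' c' d' (q + z, z, w / (1 - w))))
    (colK : ∀ q z w : ℝ, |w| < 1 / 10 →
      Kr rA sA cA dA (TP ρN a' b' c' d' (q, z, w)) (TP ρM a b c d (q, z, w)))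
    (n1 : mob 3 (-4) rA sA (7 / 10) ≤ ρM (1 / 10)) (n2 : ρM (1 / 10) < mob 3 (-4) rA sA 0)
    (n3 : 10 / 7 ≤ ρN (1 / 10)) :
    ∃ eE : S3 → S3, (∀ n, Gt (ρN (1 / 10)) n → EE Hm rB sB cB dB n (eE n)) ∧
      IsLegendrian (fun q : ℝ => eE (TP ρN a' b' c' d' (q, π, 0))) ∧
      IsPlusOneSurgery (range fun q : ℝ => eE (TP ρN a' b' c' d' (q, π, 0))) α := by
  have := nonemptyS3
  obtain ⟨Λ, hΛ, o1, o2, o3, κ, δ, hκ, hδ, o4⟩ :=
    tube_lemma hcol (by norm_num) le_rfl hM hN hIn in1 in2 in2' in3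
  obtain ⟨eE, heE⟩ := h.crelE.exists_fun
  have heE' : ∀ n, Gt (ρN (1 / 10)) n → EE Hm rB sB cB dB n (eE n) := fun n hn => by
    obtain ⟨y, hy⟩ := h.hd.exE (r := rB) (s := sB) (c := cB) (d := dB) (hn.mono n3)
    exact (heE n y hy).1 ▸ hy
  have h00 : (0 : ℝ) ∈ Icc (-(1 / 10) : ℝ) (1 / 10) := by norm_num
  have hηη : (1 / 10 : ℝ) ∈ Icc (-(1 / 10) : ℝ) (1 / 10) := by norm_num
  have hh : (1 / 10 / 2 : ℝ) ∈ Icc (-(1 / 10) : ℝ) (1 / 10) := by norm_num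
  obtain ⟨a0, a1, a2, a3, a4⟩ := h.kA.rho (colK 0 0 (1 / 10 / 2) (by norm_num [abs_of_pos]))
  have a5 : a0⁻¹ = ρN (1 / 10 / 2) := a3.unique (hN.rho _ _ hh)
  have a6 : mob 3 (-4) rA sA a0 = ρM (1 / 10 / 2) := a4.unique (hM.rho _ _ hh)
  have a7 : ρM (1 / 10) < ρM (1 / 10 / 2) := hM.anti hh hηη (by norm_num)
  have hgt : ∀ q, Gt (ρN (1 / 10)) (TP ρN a' b' c' d' (q, π, 0)) := fun q =>
    (hN.gt_iff _ _ h00 hηη).2 (by norm_num)
  refine ⟨eE, heE', ?_, side hA hB hcov hAB hH (fun x y e => h.memX e) (by norm_num) le_rfl hM hN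
    hΛ o1 o2 o3 hκ hδ o4 h.crelE heE' (fun q z w y hw e => Or.inl ⟨_, colK q z w hw, e⟩)
    ?_ ?_ ?_ ?_ ?_⟩
  · have l1 : ∀ q : ℝ, LP (E := E3) b1 alphaSt (eE ∘ TP ρN a' b' c' d') (q, π, 0) := fun q =>
      (hN.lp (q, π, 0) (by norm_num)).comp (heE _ _ (heE' _ (hgt q))).2
    have l2 : ∀ q : ℝ, HasDerivAt (fun q : ℝ => ((q, π, 0) : E3)) (1, 0, 0) q := fun q =>
      (hasDerivAt_id q).prodMk (hasDerivAt_const q _)
    have l3 : ∀ q : ℝ, deriv (fun q : ℝ => ((eE (TP ρN a' b' c' d' (q, π, 0))).1 : R4)) q =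
        fderiv ℝ (fun p => (((eE ∘ TP ρN a' b' c' d') p).1 : R4)) (q, π, 0) (1, 0, 0) := fun q => by
      have h1 := ((contDiffAt_coe (l1 q).contMDiffAt).differentiableAt (by simp)).hasFDerivAt
      exact (HasFDerivAt.comp_hasDerivAt q (f := fun q : ℝ => ((q, π, 0) : E3)) h1 (l2 q)).deriv
    refine ⟨⟨contDiff_iff_contDiffAt.2 fun q => ?_, fun q => ?_, fun s t => ?_⟩, fun q => ?_⟩
    · exact (contDiffAt_coe (l1 q).contMDiffAt).comp q (f := fun q : ℝ => ((q, π, 0) : E3))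
        (by fun_prop)
    · rw [l3]
      intro e
      have := (l1 q).inj_fderiv (e.trans (map_zero _).symm)
      simp at this
    · constructor
      · intro e
        simp only at e
        have e' := h.crelE.fun_l _ _ _ (heE' _ (hgt s))
          (show EE Hm rB sB cB dB _ (eE (TP ρN a' b' c' d' (s, π, 0))) by
            rw [e]; exact heE' _ (hgt t))
        exact (hN.inj h00 h00 e').2.1
      · intro e
        exact congrArg eE (TP_congr _ _ _ _ e ⟨0, by simp⟩ rfl)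
    · rw [l3]
      obtain ⟨c, -, hc⟩ := (l1 q).2
      have := hc (1, 0, 0)
      rw [alphaSt_param (l1 q).contMDiffAt] at this
      simpa [b1] using this
  · rintro x hx ⟨n, h1, n', h2, h3⟩
    obtain ⟨a, b1, b2, b3, b4⟩ := h.kA.rho h3
    have h4 := h.hd.core h2 h1
    rw [b3.gt_iff, lt_inv_comm₀ (by norm_num) b1, not_lt] at h4
    rw [b4.gt_iff] at hx
    have := (h.kA.le_iff b2.le (a' := 7 / 10) (by norm_num)).2 (by linarith)
    linarith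
  · intro y hy
    obtain ⟨n, h1, h2⟩ := not_not.1 hy
    exact ⟨n, (gt_of_z1 h1 _).ge, h2⟩
  · intro y hy n h1 h2
    have h3 : Gt (4 / 3) n :=
      (h1.gt (hN.anti hh hηη (by norm_num))).mono (le_trans (by norm_num) n3)
    obtain ⟨x, hx⟩ := KD.dom (r := rA) (s := sA) (c := cA) (d := dA)
      (fun h4 => hy ⟨n, h4, h2⟩) h3
    refine ⟨x, ?_, Or.inl ⟨n, hx, h2⟩⟩
    obtain ⟨a, b1, b2, b3, b4⟩ := h.kA.rho hx
    rw [b3.ge_iff, ← a5, inv_le_inv₀ a1 b1] at h1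
    rw [b4.gt_iff]
    have := (h.kA.le_iff a2.le b2.le).2 h1
    linarith
  · intro x hx h1
    exact h.domH hx fun h2 => h1 (h2.gt n2)
  · rintro x y (⟨n, h1, h2⟩ | e) h3
    · refine ⟨n, ?_, h2⟩
      obtain ⟨a, b1, b2, b3, b4⟩ := h.kA.rho h1
      rw [b4.ge_iff, ← a6, h.kA.le_iff a2.le b2.le] at h3
      rw [b3.ge_iff, ← a5, inv_le_inv₀ a1 b1]
      exact h3
    · refine absurd (h3.mono ?_) (h.tA _ _ e)
      have := (h.kA.le_iff (a := 37 / 50) (a' := 7 / 10) (by norm_num) (by norm_num)).2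
        (by norm_num)
      linarith

theorem emb {eE : S3 → S3} {r : ℝ} (hr : 0 < r) (heE : ∀ n, Gt r n → EE Hm rB sB cB dB n (eE n)) :
    Emb r⁻¹ (eE ∘ Sol1) := by
  have h1 : ∀ p : C3, normSq p.1 < r⁻¹ → Gt r (Sol1 p) := fun p hp => by
    rw [Sol1_gt_iff, ← lt_inv_mul_iff₀ hr, mul_one]; exact hp
  refine ⟨fun p hp => ?_, fun p p' hp hp' => ?_⟩
  · have h2 : LP (E := C3) b0 alphaSt (eE ∘ Sol1) p := by
      refine (Sol1_lp p).rel h.crelE ?_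
      filter_upwards [(Sol1_lp p).continuousAt.eventually ((isOpen_Gt r).mem_nhds (h1 p hp))]
        with x hx
      exact heE _ hx
    exact ⟨contDiffAt_coe h2.contMDiffAt, h2.inj_fderiv⟩
  · rw [← ex_eq_iff, ← Sol1_eq_iff]
    refine ⟨fun e => ?_, fun e => congrArg eE e⟩
    exact h.crelE.fun_l _ _ _ (heE _ (h1 p hp))
      (show EE Hm rB sB cB dB _ ((eE ∘ Sol1) p) by rw [e]; exact heE _ (h1 p' hp'))

end SD

end Pool.Agent.MP_5d9d0b_gt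

end MrgPart2

-- marker of a merged file
example : 731051 + 678294 = 731051 + 678294 := rfl
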