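import Pool.Agent.MP_5d9d0b_gt.Defs

/-!
Module statements for the contact surgery counterexample.
-/

namespace Pool.Agent.MP_5d9d0b_gt

open scoped Manifold ContDiff Real Topology
open Set

/-- First complex coordinate of a point of the sphere. -/
def z1 (x : S3) : ℂ := ⟨x.1 0, x.1 1⟩
/-- Second complex coordinate of a point of the sphere. -/
def z2 (x : S3) : ℂ := ⟨x.1 2, x.1 3⟩

/-- `e^{it}`. -/
noncomputable def ex (t : ℝ) : ℂ := Complex.exp (t * Complex.I)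

/-! ### Contact relations and gluing (row GLUE) -/

section
variable {M N : Type} [TopologicalSpace M] [ChartedSpace R3 M]
  [TopologicalSpace N] [ChartedSpace R3 N]

/-- `R` is the graph of a contactomorphism between open sets. -/
structure CRel (α : (x : M) → TangentSpace (𝓡 3) x → ℝ) (β : (y : N) → TangentSpace (𝓡 3) y → ℝ)
    (R : M → N → Prop) : Prop where
  fun_r : ∀ x y y', R x y → R x y' → y = y'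
  fun_l : ∀ x x' y, R x y → R x' y → x = x'
  loc : ∀ x y, R x y → ∃ e : PartialDiffeomorph (𝓡 3) (𝓡 3) M N ∞,
    x ∈ e.source ∧ ∀ x' ∈ e.source, R x' (e x') ∧ ContactAt α β e x'

end

/-- Gluing two open subsets of the sphere along a contactomorphism `H`. -/
def GlueStmt : Prop :=
  ∀ (H : S3 → S3 → Prop) (X1 X2 A1 A2 C1 C2 : Set S3), CRel alphaSt alphaSt H →
    IsOpen X1 → IsOpen X2 → (∀ x y, H x y → x ∈ X1 ∧ y ∈ X2) →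
    IsOpen A1 → IsOpen A2 → (∀ x ∈ X1, x ∈ A1 ∨ ∃ y, H x y) → (∀ y ∈ X2, y ∈ A2 ∨ ∃ x, H x y) →
    (∀ x y, H x y → x ∈ A1 → y ∈ A2 → False) →
    IsCompact C1 → IsCompact C2 → C1 ⊆ X1 → C2 ⊆ X2 →
    (∀ x ∈ X1, x ∈ C1 ∨ ∃ y ∈ C2, H x y) → (∀ y ∈ X2, y ∈ C2 ∨ ∃ x ∈ C1, H x y) →
    ∃ (M : Type) (_ : TopologicalSpace M) (_ : T2Space M) (_ : CompactSpace M)
      (_ : ChartedSpace R3 M) (_ : IsManifold (𝓡 3) ∞ M)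
      (α : (x : M) → TangentSpace (𝓡 3) x → ℝ) (i1 i2 : S3 → M),
      CRel alphaSt α (fun x m => x ∈ X1 ∧ m = i1 x) ∧
      CRel alphaSt α (fun y m => y ∈ X2 ∧ m = i2 y) ∧
      (∀ m, (∃ x ∈ X1, m = i1 x) ∨ ∃ y ∈ X2, m = i2 y) ∧
      ∀ x ∈ X1, ∀ y ∈ X2, (i1 x = i2 y ↔ H x y)

/-! ### The flat collar data (row COL) -/

/-- Coordinates `(Z, w)`.  The correspondence `(q, ζ, w) ↦ (q + g, Z, W)` preserves the kernel of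
`dz + w dq`, is the identity for `w ≥ η/4`, the linear shear for `w ≤ -η/4`, and the Weinstein
model near `(0,0)`. -/
def CollarStmt : Prop :=
  ∀ η : ℝ, 0 < η → η ≤ 1 / 10 →
    ∃ (ζ W g : ℝ × ℝ → ℝ) (c δ : ℝ), 0 < c ∧ 0 < δ ∧
      (∀ p : ℝ × ℝ, |p.2| < η → ¬ (p.2 = 0 ∧ ∃ k : ℤ, p.1 = 2 * π * k) →
        ∃ (G : ℝ × ℝ → ℝ) (u : ℝ), ContDiffAt ℝ ∞ G p ∧ ContDiffAt ℝ ∞ ζ p ∧ ContDiffAt ℝ ∞ W p ∧
          (∀ᶠ p' in 𝓝 p, ∃ k : ℤ, g p' = G p' + 2 * π * k) ∧ 0 < u ∧ W p = p.2 / u ∧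
          (∀ v : ℝ × ℝ, fderiv ℝ ζ p v = u * v.1 + p.2 * fderiv ℝ G p v) ∧
          fderiv ℝ ζ p (1, 0) ≠ 0 ∧ fderiv ℝ W p (0, 1) ≠ 0) ∧
      (∀ Z w, ζ (Z + 2 * π, w) = ζ (Z, w) + 2 * π ∧ W (Z + 2 * π, w) = W (Z, w) ∧
        ∃ k : ℤ, g (Z + 2 * π, w) = g (Z, w) + 2 * π * k) ∧
      (∀ w, |w| < η → StrictMono (fun Z => ζ (Z, w)) ∧ Continuous (fun Z => ζ (Z, w))) ∧
      ζ (0, 0) = 0 ∧
      (∀ Z, StrictMonoOn (fun w => W (Z, w)) (Ioo (-η) η) ∧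
        ContinuousOn (fun w => W (Z, w)) (Ioo (-η) η) ∧ W (Z, 0) = 0) ∧
      (∀ Z w, η / 4 ≤ w → w < η → ζ (Z, w) = Z ∧ W (Z, w) = w ∧ ∃ k : ℤ, g (Z, w) = 2 * π * k) ∧
      (∀ Z w, -η < w → w ≤ -η / 4 → ζ (Z, w) = Z ∧ W (Z, w) = w / (1 - w) ∧
        ∃ k : ℤ, g (Z, w) = Z + π + 2 * π * k) ∧
      (∀ ρ σ : ℝ, 0 < ρ → ρ < δ →
        ζ (2 * c * √ρ * Real.cos σ, ρ * Real.sin σ) = ρ * Real.cos σ ∧
        W (2 * c * √ρ * Real.cos σ, ρ * Real.sin σ) = c * √ρ * Real.sin σ ∧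
        ∃ k : ℤ, g (2 * c * √ρ * Real.cos σ, ρ * Real.sin σ) = σ - π / 2 + 2 * π * k)

/-! ### Isotopy gives a homeomorphism of pairs (row ISO) -/

def IsoStmt : Prop :=
  ∀ γ γ' : ℝ → S3, Isotopic γ γ' → ∃ h : S3 ≃ₜ S3, h '' range γ = range γ'

/-! ### The dihedral invariant (rows QLO, QUP) -/

/-- The tenfold covering `(a, b) ↦ (a b, a⁵ + b⁵)`, unbranched over `s² ≠ 4 v⁵`. -/
def Pi5 (e : ℂ × ℂ) : ℂ × ℂ := (e.1 * e.2, e.1 ^ 5 + e.2 ^ 5)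

/-- The complement of `K` maps to the base of `Pi5` so that two loops at a common point have
non-commuting monodromy. -/
def Q (K : Set S3) : Prop :=
  ∃ (f : S3 → ℂ × ℂ) (γ δ : ℝ → S3) (A1 A2 B1 B2 : ℝ → ℂ × ℂ),
    ContinuousOn f Kᶜ ∧ (∀ x ∉ K, (f x).2 ^ 2 ≠ 4 * (f x).1 ^ 5) ∧
    Continuous γ ∧ Continuous δ ∧ (∀ t, γ t ∉ K) ∧ (∀ t, δ t ∉ K) ∧
    γ 1 = γ 0 ∧ δ 0 = γ 0 ∧ δ 1 = γ 0 ∧
    Continuous A1 ∧ Continuous A2 ∧ Continuous B1 ∧ Continuous B2 ∧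
    (∀ t, Pi5 (A1 t) = f (γ t)) ∧ (∀ t, Pi5 (A2 t) = f (γ t)) ∧
    (∀ t, Pi5 (B1 t) = f (δ t)) ∧ (∀ t, Pi5 (B2 t) = f (δ t)) ∧
    A1 0 = B1 0 ∧ B2 0 = A1 1 ∧ A2 0 = B1 1 ∧ B2 1 ≠ A2 1

/-- The standard torus knot `T(4,-5)`. -/
def K45 : Set S3 := {x | ∃ t : ℝ, z1 x = ((√2)⁻¹ : ℝ) * ex (4 * t) ∧ z2 x = ((√2)⁻¹ : ℝ) * ex (-5 * t)}

/-- A standard torus knot `T(-11,2)` on the torus `|z₁| = r |z₂|`. -/
def K112 (r : ℝ) : Set S3 :=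
  {x | ∃ t c : ℝ, 0 < c ∧ z1 x = (c * r : ℝ) * ex (-11 * t) ∧ z2 x = (c : ℝ) * ex (2 * t)}

def QLoStmt : Prop := Q K45

def QUpStmt : Prop := ∀ r : ℝ, 0 < r → ¬ Q (K112 r)

/-! ### The smooth knot types (row KNOT) -/

/-- `P` induces a smooth embedding of the solid torus `{|X|² < a} × ℝ/2πℤ` into the sphere. -/
def Emb (a : ℝ) (P : ℂ × ℝ → S3) : Prop :=
  (∀ p : ℂ × ℝ, Complex.normSq p.1 < a → ContDiffAt ℝ ∞ (fun p => ((P p).1 : R4)) p ∧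
    Function.Injective (fderiv ℝ (fun p => ((P p).1 : R4)) p)) ∧
  ∀ p p' : ℂ × ℝ, Complex.normSq p.1 < a → Complex.normSq p'.1 < a →
    (P p = P p' ↔ p.1 = p'.1 ∧ ∃ k : ℤ, p'.2 = p.2 + 2 * π * k)

/-- The `(2,1)` curve around a regular fibre of the `(4,-5)` circle action is `T(4,-5)`. -/
def KnotAStmt : Prop :=
  ∀ (a : ℝ) (P : ℂ × ℝ → S3) (r1 r2 c0 : ℝ), 1 / 2 < a → Emb a P → 0 < r1 → 0 < r2 →
    (∀ θ : ℝ, z1 (P (0, θ)) = (r1 : ℝ) * ex (4 * (θ + c0)) ∧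
      z2 (P (0, θ)) = (r2 : ℝ) * ex (-5 * (θ + c0))) →
    IsTorusKnot 4 (-5) (fun q => P (((√2)⁻¹ : ℝ) * ex (2 * q + π), -q))

/-- The `(3,2)` curve around a regular fibre of the `(4,-1)` circle action is `T(-11,2)`. -/
def KnotBStmt : Prop :=
  IsoStmt → ∀ (a : ℝ) (P : ℂ × ℝ → S3) (r0 c0 : ℝ), 2 / 3 < a → Emb a P → 0 < r0 →
    (∀ (X : ℂ) (θ : ℝ), ‖X‖ ≤ r0 → ∃ μ : ℝ, 0 < μ ∧
      z1 (P (X, θ)) = (μ * √(1 - Complex.normSq (21 / 25 - X)) : ℝ) *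
        ((21 / 25 - X) / (‖21 / 25 - X‖ : ℝ)) ^ 3 * ex (4 * (θ + 21 / 25 * X.im + c0)) ∧
      z2 (P (X, θ)) = (μ * √(3 - 4 * Complex.normSq (21 / 25 - X)) : ℝ) *
        ((21 / 25 - X) / (‖21 / 25 - X‖ : ℝ))⁻¹ * ex (-(θ + 21 / 25 * X.im + c0))) →
    ∃ (r : ℝ) (h : S3 ≃ₜ S3), 0 < r ∧
      h '' range (fun q : ℝ => P ((√(2 / 3) : ℝ) * ex (3 * q), -2 * q - π)) = K112 r

end Pool.Agent.MP_5d9d0b_gt
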