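import Mathlib.RingTheory.Flat.FaithfullyFlat.Basic
import Mathlib.Tactic.Monotonicity.Lemmas
import Mathlib.RingTheory.Flat.TorsionFree
import Mathlib.Algebra.Order.Ring.Star
import Mathlib.Algebra.Order.Archimedean.Real.Hom
import Mathlib.Algebra.Order.Star.Real
import Mathlib.Algebra.Ring.IsFormallyReal
import Mathlib.Analysis.SpecialFunctions.Log.Deriv
import Mathlib.MeasureTheory.Integral.IntervalIntegral.FundThmCalculus
import Mathlib.Analysis.SpecialFunctions.Complex.LogDeriv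
import Mathlib.Analysis.Calculus.Deriv.Prod
import Mathlib.Analysis.SpecialFunctions.SmoothTransition
import Mathlib.Analysis.Calculus.InverseFunctionTheorem.ContDiff
import Mathlib.RingTheory.SimpleRing.Principal
import Pool.Agent.MP_5d9d0b_gt.Spec

-- ======== part 0: formerly Pool.Agent.MP_5d9d0b_gt.Rel
section MrgPart0

/-!
Calculus of contact relations and local contact parametrisations.
-/

namespace Pool.Agent.MP_5d9d0b_gt

open scoped Manifold ContDiff Real Topology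
open Set Filter

theorem infty_ne_zero : (∞ : ℕ∞ω) ≠ 0 := by simp

section PD
variable {E F : Type} [NormedAddCommGroup E] [NormedSpace ℝ E] [NormedAddCommGroup F]
  [NormedSpace ℝ F] {M N : Type} [TopologicalSpace M] [ChartedSpace E M]
  [TopologicalSpace N] [ChartedSpace F N]

/-- Restriction of a partial diffeomorphism to an open set. -/
noncomputable def pdRestr (e : PartialDiffeomorph 𝓘(ℝ, E) 𝓘(ℝ, F) M N ∞) (s : Set M)
    (hs : IsOpen s) : PartialDiffeomorph 𝓘(ℝ, E) 𝓘(ℝ, F) M N ∞ where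
  __ := e.toOpenPartialHomeomorph.restrOpen s hs
  contMDiffOn_toFun := e.contMDiffOn_toFun.mono inter_subset_left
  contMDiffOn_invFun := e.contMDiffOn_invFun.mono inter_subset_left

theorem pdRestr_source (e : PartialDiffeomorph 𝓘(ℝ, E) 𝓘(ℝ, F) M N ∞) (s : Set M)
    (hs : IsOpen s) : (pdRestr e s hs).source = e.source ∩ s := rfl

theorem pdRestr_apply (e : PartialDiffeomorph 𝓘(ℝ, E) 𝓘(ℝ, F) M N ∞) (s : Set M)
    (hs : IsOpen s) (x : M) : pdRestr e s hs x = e x := rfl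

theorem locDiffeo_congr {f g : M → N} {x : M}
    (hf : IsLocalDiffeomorphAt 𝓘(ℝ, E) 𝓘(ℝ, F) ∞ f x) (h : g =ᶠ[𝓝 x] f) :
    IsLocalDiffeomorphAt 𝓘(ℝ, E) 𝓘(ℝ, F) ∞ g x := by
  obtain ⟨e, hx, he⟩ := hf
  obtain ⟨t, ht, hto, hxt⟩ := mem_nhds_iff.1 h
  refine ⟨pdRestr e t hto, ⟨hx, hxt⟩, fun y hy => ?_⟩
  rw [pdRestr_apply, ← he hy.1]
  exact ht hy.2

theorem locDiffeo_surj {f : M → N} {x : M}
    (hf : IsLocalDiffeomorphAt 𝓘(ℝ, E) 𝓘(ℝ, F) ∞ f x) :
    Function.Surjective (mfderiv 𝓘(ℝ, E) 𝓘(ℝ, F) f x) :=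
  (hf.mfderivToContinuousLinearEquiv infty_ne_zero).surjective

theorem locDiffeo_inj {f : M → N} {x : M}
    (hf : IsLocalDiffeomorphAt 𝓘(ℝ, E) 𝓘(ℝ, F) ∞ f x) :
    Function.Injective (mfderiv 𝓘(ℝ, E) 𝓘(ℝ, F) f x) :=
  (hf.mfderivToContinuousLinearEquiv infty_ne_zero).injective

/-- The flat inverse function theorem in the smooth class. -/
theorem locDiffeo_flat [CompleteSpace E] [CompleteSpace F] {f : E → F} {p : E}
    (hf : ∀ᶠ x in 𝓝 p, ContDiffAt ℝ ∞ f x) (hb : Function.Bijective (fderiv ℝ f p)) :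
    IsLocalDiffeomorphAt 𝓘(ℝ, E) 𝓘(ℝ, F) ∞ f p := by
  have hp : ContDiffAt ℝ ∞ f p := hf.self_of_nhds
  let f' : E ≃L[ℝ] F := ContinuousLinearEquiv.ofBijective (fderiv ℝ f p)
    (LinearMap.ker_eq_bot.2 hb.1) (LinearMap.range_eq_top.2 hb.2)
  have hf' : HasFDerivAt f (f' : E →L[ℝ] F) p := (hp.differentiableAt (by simp)).hasFDerivAt
  let e := hp.toOpenPartialHomeomorph f hf' (by simp)
  have he : (e : E → F) = f := rfl
  have hpe : p ∈ e.source := hp.mem_toOpenPartialHomeomorph_source hf' (by simp)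
  have hc : ContinuousAt (fderiv ℝ f) p := hp.continuousAt_fderiv (by simp)
  have h1 : ∀ᶠ x in 𝓝 p, fderiv ℝ f x ∈ range ((↑) : (E ≃L[ℝ] F) → E →L[ℝ] F) :=
    hc.eventually (ContinuousLinearEquiv.isOpen.mem_nhds ⟨f', rfl⟩)
  obtain ⟨t, ht, hto, hpt⟩ := mem_nhds_iff.1 (hf.and h1)
  let e' := e.restrOpen t hto
  refine ⟨⟨e'.toPartialEquiv, e'.open_source, e'.open_target, ?_, ?_⟩, ⟨hpe, hpt⟩, fun _ _ => rfl⟩
  · intro x hx
    exact (ht hx.2).1.contMDiffAt.contMDiffWithinAt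
  · intro y hy
    obtain ⟨h2, g, hg⟩ := ht hy.2
    have h3 : HasFDerivAt e (g : E →L[ℝ] F) (e.symm y) := by
      rw [hg, he]; exact (h2.differentiableAt (by simp)).hasFDerivAt
    exact (e.contDiffAt_symm hy.1 h3 h2).contMDiffAt.contMDiffWithinAt

/-- A chart as a partial diffeomorphism. -/
noncomputable def chartPD [IsManifold 𝓘(ℝ, F) ∞ N] (y : N) :
    PartialDiffeomorph 𝓘(ℝ, F) 𝓘(ℝ, F) N F ∞ where
  toPartialEquiv := (chartAt F y).toPartialEquiv
  open_source := (chartAt F y).open_source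
  open_target := (chartAt F y).open_target
  contMDiffOn_toFun := contMDiffOn_chart
  contMDiffOn_invFun := contMDiffOn_chart_symm

/-- The inverse function theorem for maps from a vector space to a manifold. -/
theorem locDiffeo_of_bij [CompleteSpace E] [CompleteSpace F] [IsManifold 𝓘(ℝ, F) ∞ N]
    {P : E → N} {p : E} (hP : ∀ᶠ x in 𝓝 p, ContMDiffAt 𝓘(ℝ, E) 𝓘(ℝ, F) ∞ P x)
    (hb : Function.Bijective (mfderiv 𝓘(ℝ, E) 𝓘(ℝ, F) P p)) :
    IsLocalDiffeomorphAt 𝓘(ℝ, E) 𝓘(ℝ, F) ∞ P p := by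
  have hp := hP.self_of_nhds
  let φ : PartialDiffeomorph 𝓘(ℝ, F) 𝓘(ℝ, F) N F ∞ := chartPD (P p)
  have hφ : P p ∈ φ.source := mem_chart_source F (P p)
  have h1 : ∀ᶠ x in 𝓝 p, P x ∈ φ.source := hp.continuousAt.eventually (φ.open_source.mem_nhds hφ)
  have h2 : ∀ᶠ x in 𝓝 p, ContDiffAt ℝ ∞ (φ ∘ P) x := by
    filter_upwards [hP, h1] with x hx hx1
    exact ((φ.contMDiffOn.contMDiffAt (φ.open_source.mem_nhds hx1)).comp x hx).contDiffAt
  have h3 : Function.Bijective (fderiv ℝ (φ ∘ P) p) := by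
    rw [← mfderiv_eq_fderiv, mfderiv_comp p (φ.mdifferentiableAt infty_ne_zero hφ)
      (hp.mdifferentiableAt infty_ne_zero)]
    have h4 := φ.isLocalDiffeomorphAt 𝓘(ℝ, F) 𝓘(ℝ, F) ∞ hφ
    have h5 : Function.Bijective (mfderiv 𝓘(ℝ, F) 𝓘(ℝ, F) φ (P p)) :=
      ⟨locDiffeo_inj h4, locDiffeo_surj h4⟩
    exact h5.comp hb
  have h5 := (locDiffeo_flat h2 h3).comp 𝓘(ℝ, F) N
    (φ.symm.isLocalDiffeomorphAt 𝓘(ℝ, F) 𝓘(ℝ, F) ∞ (φ.map_source hφ))
  refine locDiffeo_congr h5 ?_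
  filter_upwards [h1] with x hx
  exact (φ.left_inv hx).symm

end PD

section CAt
variable {E F G : Type} [NormedAddCommGroup E] [NormedSpace ℝ E] [NormedAddCommGroup F]
  [NormedSpace ℝ F] [NormedAddCommGroup G] [NormedSpace ℝ G]
  {M N K : Type} [TopologicalSpace M] [ChartedSpace E M]
  [TopologicalSpace N] [ChartedSpace F N] [TopologicalSpace K] [ChartedSpace G K]

/-- `ContactAt` for arbitrary model spaces. -/
def CAt (α : (x : M) → TangentSpace 𝓘(ℝ, E) x → ℝ) (β : (y : N) → TangentSpace 𝓘(ℝ, F) y → ℝ)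
    (f : M → N) (x : M) : Prop :=
  ∃ c : ℝ, 0 < c ∧ ∀ v, β (f x) (mfderiv 𝓘(ℝ, E) 𝓘(ℝ, F) f x v) = c * α x v

variable {α : (x : M) → TangentSpace 𝓘(ℝ, E) x → ℝ} {β : (y : N) → TangentSpace 𝓘(ℝ, F) y → ℝ}
  {γ : (y : K) → TangentSpace 𝓘(ℝ, G) y → ℝ}

theorem CAt.congr {f g : M → N} {x : M} (hf : CAt α β f x) (h : g =ᶠ[𝓝 x] f) : CAt α β g x := by
  obtain ⟨c, hc, h1⟩ := hf
  refine ⟨c, hc, fun v => ?_⟩
  have h2 : g x = f x := h.self_of_nhds
  have h3 : ∀ (y : N) (_ : y = f x) (A : E →L[ℝ] F) (_ : A = mfderiv 𝓘(ℝ, E) 𝓘(ℝ, F) f x),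
      β y (A v) = c * α x v := by
    intro y hy A hA
    subst hy; subst hA
    exact h1 v
  exact h3 _ h2 _ h.mfderiv_eq

theorem CAt.comp {f : M → N} {g : N → K} {x : M} (hf : CAt α β f x) (hg : CAt β γ g (f x))
    (df : MDifferentiableAt 𝓘(ℝ, E) 𝓘(ℝ, F) f x)
    (dg : MDifferentiableAt 𝓘(ℝ, F) 𝓘(ℝ, G) g (f x)) : CAt α γ (g ∘ f) x := by
  obtain ⟨c, hc, h1⟩ := hf
  obtain ⟨d, hd, h2⟩ := hg
  refine ⟨d * c, mul_pos hd hc, fun v => ?_⟩
  rw [mfderiv_comp x dg df]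
  have := h2 (mfderiv 𝓘(ℝ, E) 𝓘(ℝ, F) f x v)
  rw [h1, ← mul_assoc] at this
  exact this

/-- Two out of three. -/
theorem CAt.of_comp {f : M → N} {g : N → K} {x : M} (hf : CAt α β f x) (hgf : CAt α γ (g ∘ f) x)
    (df : IsLocalDiffeomorphAt 𝓘(ℝ, E) 𝓘(ℝ, F) ∞ f x)
    (dg : MDifferentiableAt 𝓘(ℝ, F) 𝓘(ℝ, G) g (f x)) : CAt β γ g (f x) := by
  obtain ⟨c, hc, h1⟩ := hf
  obtain ⟨d, hd, h2⟩ := hgf
  refine ⟨d / c, div_pos hd hc, fun w => ?_⟩
  obtain ⟨v, rfl⟩ := locDiffeo_surj df w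
  have h3 := h2 v
  rw [mfderiv_comp x dg (df.mdifferentiableAt infty_ne_zero)] at h3
  rw [h1]
  have h4 : d / c * (c * α x v) = d * α x v := by field_simp
  rw [h4]
  exact h3

theorem CAt.id' (x : M) : CAt α α id x := ⟨1, one_pos, fun v => by rw [mfderiv_id]; simp⟩

theorem CAt.symm (e : PartialDiffeomorph 𝓘(ℝ, E) 𝓘(ℝ, F) M N ∞) {x : M} (hx : x ∈ e.source)
    (h : CAt α β e x) : CAt β α e.symm (e x) := by
  refine CAt.of_comp h ?_ (e.isLocalDiffeomorphAt 𝓘(ℝ, E) 𝓘(ℝ, F) ∞ hx)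
    (e.symm.mdifferentiableAt infty_ne_zero (e.map_source hx))
  refine (CAt.id' x).congr ?_
  filter_upwards [e.open_source.mem_nhds hx] with y hy
  exact e.left_inv hy

/-- A local contact parametrisation at `x`. -/
def LP (α : (x : M) → TangentSpace 𝓘(ℝ, E) x → ℝ) (β : (y : N) → TangentSpace 𝓘(ℝ, F) y → ℝ)
    (f : M → N) (x : M) : Prop :=
  IsLocalDiffeomorphAt 𝓘(ℝ, E) 𝓘(ℝ, F) ∞ f x ∧ CAt α β f x

theorem LP.congr {f g : M → N} {x : M} (hf : LP α β f x) (h : g =ᶠ[𝓝 x] f) : LP α β g x :=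
  ⟨locDiffeo_congr hf.1 h, hf.2.congr h⟩

theorem LP.comp {f : M → N} {g : N → K} {x : M} (hf : LP α β f x) (hg : LP β γ g (f x)) :
    LP α γ (g ∘ f) x :=
  ⟨hf.1.comp 𝓘(ℝ, G) K hg.1, hf.2.comp hg.2 (hf.1.mdifferentiableAt infty_ne_zero)
    (hg.1.mdifferentiableAt infty_ne_zero)⟩

theorem LP.contMDiffAt {f : M → N} {x : M} (hf : LP α β f x) :
    ContMDiffAt 𝓘(ℝ, E) 𝓘(ℝ, F) ∞ f x := hf.1.contMDiffAt

theorem LP.continuousAt {f : M → N} {x : M} (hf : LP α β f x) : ContinuousAt f x :=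
  hf.1.contMDiffAt.continuousAt

/-- A flat local contact map. -/
theorem LP.flat [CompleteSpace E] [CompleteSpace F] {a : E → E → ℝ} {b : F → F → ℝ} {f : E → F}
    {p : E} (hf : ∀ᶠ x in 𝓝 p, ContDiffAt ℝ ∞ f x) (hb : Function.Bijective (fderiv ℝ f p))
    {c : ℝ} (hc : 0 < c) (h : ∀ v, b (f p) (fderiv ℝ f p v) = c * a p v) :
    LP (E := E) (F := F) a b f p :=
  ⟨locDiffeo_flat hf hb, c, hc, fun v => by rw [mfderiv_eq_fderiv]; exact h v⟩

end CAt

section CRel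
variable {M N K : Type} [TopologicalSpace M] [ChartedSpace R3 M]
  [TopologicalSpace N] [ChartedSpace R3 N] [TopologicalSpace K] [ChartedSpace R3 K]
  {α : (x : M) → TangentSpace (𝓡 3) x → ℝ} {β : (y : N) → TangentSpace (𝓡 3) y → ℝ}
  {γ : (y : K) → TangentSpace (𝓡 3) y → ℝ} {R R' : M → N → Prop}

theorem contactAt_iff {f : M → N} {x : M} : ContactAt α β f x ↔ CAt α β f x := Iff.rfl

theorem CRel.congr (h : CRel α β R) (hR : ∀ x y, R' x y ↔ R x y) : CRel α β R' := by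
  have : R' = R := by funext x y; exact propext (hR x y)
  rw [this]; exact h

theorem CRel.symm (h : CRel α β R) : CRel β α (fun y x => R x y) where
  fun_r y x x' h1 h2 := h.fun_l _ _ _ h1 h2
  fun_l y y' x h1 h2 := h.fun_r _ _ _ h1 h2
  loc y x hxy := by
    obtain ⟨e, hx, he⟩ := h.loc x y hxy
    have hy : y = e x := h.fun_r _ _ _ hxy (he x hx).1
    refine ⟨e.symm, by rw [hy]; exact e.map_source hx, fun y' hy' => ?_⟩
    have h1 : e.symm y' ∈ e.source := e.map_target hy'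
    have h2 : e (e.symm y') = y' := e.right_inv hy'
    have h3 := he _ h1
    refine ⟨by have h5 := h3.1; rwa [h2] at h5, ?_⟩
    have h4 := CAt.symm e h1 h3.2
    rw [h2] at h4
    exact h4

theorem CRel.comp {S : N → K → Prop} (h : CRel α β R) (h' : CRel β γ S) :
    CRel α γ (fun x z => ∃ y, R x y ∧ S y z) where
  fun_r x z z' := by
    rintro ⟨y, h1, h2⟩ ⟨y', h3, h4⟩
    obtain rfl := h.fun_r _ _ _ h1 h3
    exact h'.fun_r _ _ _ h2 h4
  fun_l x x' z := by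
    rintro ⟨y, h1, h2⟩ ⟨y', h3, h4⟩
    obtain rfl := h'.fun_l _ _ _ h2 h4
    exact h.fun_l _ _ _ h1 h3
  loc x z := by
    rintro ⟨y, h1, h2⟩
    obtain ⟨e, hx, he⟩ := h.loc x y h1
    obtain ⟨e', hy, he'⟩ := h'.loc y z h2
    have hy' : y = e x := h.fun_r _ _ _ h1 (he x hx).1
    refine ⟨e.trans e', ⟨hx, by rw [hy'] at hy; exact hy⟩, fun x' hx' => ?_⟩
    have h3 : x' ∈ e.source := hx'.1
    have h4 : e x' ∈ e'.source := hx'.2
    exact ⟨⟨e x', (he x' h3).1, (he' _ h4).1⟩, CAt.comp (f := e) (g := e') (he x' h3).2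
      (he' _ h4).2 (e.mdifferentiableAt infty_ne_zero h3) (e'.mdifferentiableAt infty_ne_zero h4)⟩

theorem CRel.union (h : CRel α β R) (h' : CRel α β R')
    (hr : ∀ x y y', R x y → R' x y' → y = y') (hl : ∀ x x' y, R x y → R' x' y → x = x') :
    CRel α β (fun x y => R x y ∨ R' x y) where
  fun_r x y y' := by
    rintro (h1 | h1) (h2 | h2)
    exacts [h.fun_r _ _ _ h1 h2, hr _ _ _ h1 h2, (hr _ _ _ h2 h1).symm, h'.fun_r _ _ _ h1 h2]
  fun_l x x' y := by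
    rintro (h1 | h1) (h2 | h2)
    exacts [h.fun_l _ _ _ h1 h2, hl _ _ _ h1 h2, (hl _ _ _ h2 h1).symm, h'.fun_l _ _ _ h1 h2]
  loc x y := by
    rintro (h1 | h1)
    · obtain ⟨e, hx, he⟩ := h.loc x y h1
      exact ⟨e, hx, fun x' hx' => ⟨Or.inl (he x' hx').1, (he x' hx').2⟩⟩
    · obtain ⟨e, hx, he⟩ := h'.loc x y h1
      exact ⟨e, hx, fun x' hx' => ⟨Or.inr (he x' hx').1, (he x' hx').2⟩⟩

theorem CRel.restr_l (h : CRel α β R) {s : Set M} (hs : IsOpen s) :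
    CRel α β (fun x y => x ∈ s ∧ R x y) where
  fun_r x y y' h1 h2 := h.fun_r _ _ _ h1.2 h2.2
  fun_l x x' y h1 h2 := h.fun_l _ _ _ h1.2 h2.2
  loc x y h1 := by
    obtain ⟨e, hx, he⟩ := h.loc x y h1.2
    exact ⟨pdRestr e s hs, ⟨hx, h1.1⟩, fun x' hx' => ⟨⟨hx'.2, (he x' hx'.1).1⟩, (he x' hx'.1).2⟩⟩

theorem CRel.restr_r (h : CRel α β R) {s : Set N} (hs : IsOpen s) :
    CRel α β (fun x y => y ∈ s ∧ R x y) := (h.symm.restr_l hs).symm

theorem CRel.refl' : CRel α α (fun x y => x = y) where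
  fun_r _ _ _ h1 h2 := h1.symm.trans h2
  fun_l _ _ _ h1 h2 := h1.trans h2.symm
  loc _ _ _ := ⟨(Diffeomorph.refl (𝓡 3) M ∞).toPartialDiffeomorph, trivial,
    fun x' _ => ⟨rfl, CAt.id' x'⟩⟩

theorem CRel.isOpen_dom (h : CRel α β R) : IsOpen {x | ∃ y, R x y} := by
  rw [isOpen_iff_mem_nhds]
  rintro x ⟨y, hxy⟩
  obtain ⟨e, hx, he⟩ := h.loc x y hxy
  filter_upwards [e.open_source.mem_nhds hx] with x' hx'
  exact ⟨_, (he x' hx').1⟩

theorem CRel.isOpen_ran (h : CRel α β R) : IsOpen {y | ∃ x, R x y} := h.symm.isOpen_dom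

/-- A function whose graph near `x` lies in a contact relation is a local contact map. -/
theorem CRel.lp (h : CRel α β R) {f : M → N} {x : M} (hf : ∀ᶠ x' in 𝓝 x, R x' (f x')) :
    LP α β f x := by
  obtain ⟨e, hx, he⟩ := h.loc x _ hf.self_of_nhds
  have h1 : LP α β e x := ⟨e.isLocalDiffeomorphAt (𝓡 3) (𝓡 3) ∞ hx, (he x hx).2⟩
  refine h1.congr ?_
  filter_upwards [hf, e.open_source.mem_nhds hx] with x' h2 h3
  exact h.fun_r _ _ _ h2 (he x' h3).1

/-- Transport of a local parametrisation through a contact relation. -/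
theorem LP.rel {E : Type} [NormedAddCommGroup E] [NormedSpace ℝ E] {a : E → E → ℝ}
    {P : E → M} {P' : E → N} {p : E} (hP : LP (E := E) a α P p) (h : CRel α β R)
    (hf : ∀ᶠ p' in 𝓝 p, R (P p') (P' p')) : LP (E := E) a β P' p := by
  obtain ⟨e, hx, he⟩ := h.loc _ _ hf.self_of_nhds
  have h1 : LP α β e (P p) := ⟨e.isLocalDiffeomorphAt (𝓡 3) (𝓡 3) ∞ hx, (he _ hx).2⟩
  refine (hP.comp h1).congr ?_
  filter_upwards [hf, hP.continuousAt.eventually (e.open_source.mem_nhds hx)] with x' h2 h3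
  exact h.fun_r _ _ _ h2 (he _ h3).1

theorem CRel.exists_fun [Nonempty N] (h : CRel α β R) :
    ∃ f : M → N, ∀ x y, R x y → y = f x ∧ LP α β f x := by
  classical
  refine ⟨fun x => if hx : ∃ y, R x y then hx.choose else Classical.arbitrary N, fun x y hxy => ?_⟩
  have h1 : ∀ x', (∃ y, R x' y) →
      R x' (if hx : ∃ y, R x' y then hx.choose else Classical.arbitrary N) := by
    intro x' hx'
    rw [dif_pos hx']; exact hx'.choose_spec
  refine ⟨h.fun_r _ _ _ hxy (h1 x ⟨y, hxy⟩), h.lp ?_⟩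
  filter_upwards [h.isOpen_dom.mem_nhds ⟨y, hxy⟩] with x' hx'
  exact h1 x' hx'

theorem CRel.exists_pd [Nonempty M] [Nonempty N] (h : CRel α β R) :
    ∃ e : PartialDiffeomorph (𝓡 3) (𝓡 3) M N ∞, e.source = {x | ∃ y, R x y} ∧
      e.target = {y | ∃ x, R x y} ∧ (∀ x y, R x y → e x = y) ∧
      ∀ x ∈ e.source, ContactAt α β e x := by
  obtain ⟨f, hf⟩ := h.exists_fun
  obtain ⟨g, hg⟩ := h.symm.exists_fun
  refine ⟨⟨⟨f, g, {x | ∃ y, R x y}, {y | ∃ x, R x y}, ?_, ?_, ?_, ?_⟩, h.isOpen_dom, h.isOpen_ran,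
    ?_, ?_⟩, rfl, rfl, fun x y hxy => (hf x y hxy).1.symm, ?_⟩
  · rintro x ⟨y, hxy⟩
    exact ⟨x, (hf x y hxy).1 ▸ hxy⟩
  · rintro y ⟨x, hxy⟩
    exact ⟨y, (hg y x hxy).1 ▸ hxy⟩
  · rintro x ⟨y, hxy⟩
    rw [← (hf x y hxy).1, ← (hg y x hxy).1]
  · rintro y ⟨x, hxy⟩
    rw [← (hg y x hxy).1, ← (hf x y hxy).1]
  · rintro x ⟨y, hxy⟩
    exact (hf x y hxy).2.contMDiffAt.contMDiffWithinAt
  · rintro y ⟨x, hxy⟩
    exact (hg y x hxy).2.contMDiffAt.contMDiffWithinAt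
  · rintro x ⟨y, hxy⟩
    exact (hf x y hxy).2.2

theorem CRel.isCompact_image [Nonempty N] (h : CRel α β R) {C : Set M} (hC : IsCompact C)
    (hd : ∀ x ∈ C, ∃ y, R x y) : IsCompact {y | ∃ x ∈ C, R x y} := by
  obtain ⟨f, hf⟩ := h.exists_fun
  have h1 : {y | ∃ x ∈ C, R x y} = f '' C := by
    ext y
    constructor
    · rintro ⟨x, hx, hxy⟩
      exact ⟨x, hx, (hf x y hxy).1.symm⟩
    · rintro ⟨x, hx, rfl⟩
      obtain ⟨y, hxy⟩ := hd x hx
      exact ⟨x, hx, (hf x y hxy).1 ▸ hxy⟩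
  rw [h1]
  refine hC.image_of_continuousOn fun x hx => ?_
  obtain ⟨y, hxy⟩ := hd x hx
  exact (hf x y hxy).2.continuousAt.continuousWithinAt

theorem CRel.isOpen_image (h : CRel α β R) {s : Set M} (hs : IsOpen s) :
    IsOpen {y | ∃ x ∈ s, R x y} := (h.restr_l hs).isOpen_ran

/-- Descent: two local contact parametrisations with the same fibres. -/
theorem CRel.of_params {E : Type} [NormedAddCommGroup E] [NormedSpace ℝ E] {a : E → E → ℝ}
    {P : E → M} {P' : E → N} {U : Set E} (hU : IsOpen U) (hP : ∀ p ∈ U, LP (E := E) a α P p)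
    (hP' : ∀ p ∈ U, LP (E := E) a β P' p)
    (hfib : ∀ p ∈ U, ∀ p' ∈ U, P p = P p' ↔ P' p = P' p') :
    CRel α β (fun x y => ∃ p ∈ U, x = P p ∧ y = P' p) where
  fun_r x y y' := by
    rintro ⟨p, hp, rfl, rfl⟩ ⟨p', hp', h1, rfl⟩
    exact (hfib p hp p' hp').1 h1
  fun_l x x' y := by
    rintro ⟨p, hp, rfl, rfl⟩ ⟨p', hp', rfl, h1⟩
    exact (hfib p hp p' hp').2 h1
  loc x y := by
    rintro ⟨p, hp, rfl, rfl⟩
    obtain ⟨e1, h1, he1⟩ := (hP p hp).1
    obtain ⟨e2, h2, he2⟩ := (hP' p hp).1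
    let e := (pdRestr e1 U hU).symm.trans e2
    have hsrc : ∀ x' ∈ e.source, ∃ p' ∈ U, p' ∈ e1.source ∧ p' ∈ e2.source ∧ x' = P p' := by
      intro x' hx'
      have h3 : (pdRestr e1 U hU).symm x' ∈ (pdRestr e1 U hU).source :=
        (pdRestr e1 U hU).map_target hx'.1
      refine ⟨(pdRestr e1 U hU).symm x', h3.2, h3.1, hx'.2, ?_⟩
      rw [he1 h3.1]
      exact ((pdRestr e1 U hU).right_inv hx'.1).symm
    have hval : ∀ p', p' ∈ e1.source → p' ∈ e2.source → e (P p') = P' p' := by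
      intro p' h3 h4
      rw [he1 h3, he2 h4]
      change e2 (e1.symm (e1 p')) = _
      congr 1
      exact e1.left_inv h3
    refine ⟨e, ⟨?_, ?_⟩, fun x' hx' => ?_⟩
    · rw [he1 h1]; exact (pdRestr e1 U hU).map_source ⟨h1, hp⟩
    · rw [he1 h1]
      change e1.symm (e1 p) ∈ e2.source
      have : e1.symm (e1 p) = p := e1.left_inv h1
      rw [this]; exact h2
    · obtain ⟨p', hp', h3, h4, rfl⟩ := hsrc x' hx'
      refine ⟨⟨p', hp', rfl, hval p' h3 h4⟩, ?_⟩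
      refine CAt.of_comp (hP p' hp').2 ((hP' p' hp').2.congr ?_) (hP p' hp').1
        (e.mdifferentiableAt infty_ne_zero hx')
      filter_upwards [e1.open_source.mem_nhds h3, e2.open_source.mem_nhds h4] with p'' h5 h6
      exact hval p'' h5 h6

end CRel

end Pool.Agent.MP_5d9d0b_gt

end MrgPart0

-- ======== part 1: formerly Pool.Agent.MP_5d9d0b_gt.COL.Basic
section MrgPart1

/-!
Two-variable calculus for the collar data: first derivatives as pairs of numbers,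
admissible triples, gluing by a product cut-off, and the cut-off functions.
-/

namespace Pool.Agent.MP_5d9d0b_gt.Col

open scoped ContDiff Real Topology
open Set Filter

/-- `f` has differential `a dZ + b dw` at `p`. -/
def HD (f : ℝ × ℝ → ℝ) (p : ℝ × ℝ) (a b : ℝ) : Prop :=
  HasFDerivAt f (a • ContinuousLinearMap.fst ℝ ℝ ℝ + b • ContinuousLinearMap.snd ℝ ℝ ℝ) p

variable {f g : ℝ × ℝ → ℝ} {p : ℝ × ℝ} {a b a' b' : ℝ}

lemma HD.cg (h : HD f p a b) (ha : a = a') (hb : b = b') : HD f p a' b' := ha ▸ hb ▸ h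

lemma HD.fd (h : HD f p a b) (v : ℝ × ℝ) : fderiv ℝ f p v = a * v.1 + b * v.2 := by
  rw [HasFDerivAt.fderiv h]; simp

lemma HD.of_fderiv {L : ℝ × ℝ →L[ℝ] ℝ} (h : HasFDerivAt f L p) (ha : L (1, 0) = a)
    (hb : L (0, 1) = b) : HD f p a b := by
  refine h.congr_fderiv ?_
  ext
  · simpa using ha
  · simpa using hb

lemma HD.of_diff (h : DifferentiableAt ℝ f p) : ∃ a b, HD f p a b :=
  ⟨_, _, HD.of_fderiv h.hasFDerivAt rfl rfl⟩

lemma HD.const (c : ℝ) (p : ℝ × ℝ) : HD (fun _ => c) p 0 0 :=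
  HD.of_fderiv (hasFDerivAt_const c p) (by simp) (by simp)

lemma HD.fst (p : ℝ × ℝ) : HD (fun q => q.1) p 1 0 :=
  HD.of_fderiv hasFDerivAt_fst (by simp) (by simp)

lemma HD.snd (p : ℝ × ℝ) : HD (fun q => q.2) p 0 1 :=
  HD.of_fderiv hasFDerivAt_snd (by simp) (by simp)

lemma HD.add (h : HD f p a b) (h' : HD g p a' b') :
    HD (fun q => f q + g q) p (a + a') (b + b') :=
  HD.of_fderiv (HasFDerivAt.add h h') (by simp) (by simp)

lemma HD.sub (h : HD f p a b) (h' : HD g p a' b') :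
    HD (fun q => f q - g q) p (a - a') (b - b') :=
  HD.of_fderiv (HasFDerivAt.sub h h') (by simp) (by simp)

lemma HD.mul (h : HD f p a b) (h' : HD g p a' b') :
    HD (fun q => f q * g q) p (a * g p + f p * a') (b * g p + f p * b') :=
  HD.of_fderiv (HasFDerivAt.mul h h') (by simp; ring) (by simp; ring)

lemma HD.comp {φ : ℝ → ℝ} {φ' : ℝ} (hφ : HasDerivAt φ φ' (f p)) (h : HD f p a b) :
    HD (fun q => φ (f q)) p (φ' * a) (φ' * b) :=
  HD.of_fderiv (hφ.comp_hasFDerivAt p h) (by simp) (by simp)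

lemma HD.cZ {φ : ℝ → ℝ} (hφ : ContDiff ℝ ∞ φ) (p : ℝ × ℝ) :
    HD (fun q => φ q.1) p (deriv φ p.1) 0 :=
  (HD.comp (f := fun q => q.1) ((hφ.differentiable (by simp)) p.1).hasDerivAt (HD.fst p)).cg
    (by simp) (by simp)

lemma HD.cw {φ : ℝ → ℝ} (hφ : ContDiff ℝ ∞ φ) (p : ℝ × ℝ) :
    HD (fun q => φ q.2) p 0 (deriv φ p.2) :=
  (HD.comp (f := fun q => q.2) ((hφ.differentiable (by simp)) p.2).hasDerivAt (HD.snd p)).cg
    (by simp) (by simp)

lemma HD.congr (h : HD f p a b) (e : g =ᶠ[𝓝 p] f) : HD g p a b :=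
  HasFDerivAt.congr_of_eventuallyEq h e

lemma HD.unique (h : HD f p a b) (h' : HD f p a' b') : a = a' ∧ b = b' := by
  have h1 := h.fd (1, 0)
  have h2 := h'.fd (1, 0)
  have h3 := h.fd (0, 1)
  have h4 := h'.fd (0, 1)
  simp at h1 h2 h3 h4
  exact ⟨h1.symm.trans h2, h3.symm.trans h4⟩

lemma HD.derivZ {Z w : ℝ} (h : HD f (Z, w) a b) : HasDerivAt (fun t => f (t, w)) a Z := by
  have h1 : HasDerivAt (fun t : ℝ => (t, w)) (1, 0) Z :=
    (hasDerivAt_id Z).prodMk (hasDerivAt_const Z w)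
  have := HasFDerivAt.comp_hasDerivAt (l := f) (f := fun t : ℝ => (t, w)) Z h h1
  exact this.congr_deriv (by simp)

lemma HD.derivw {Z w : ℝ} (h : HD f (Z, w) a b) : HasDerivAt (fun t => f (Z, t)) b w := by
  have h1 : HasDerivAt (fun t : ℝ => (Z, t)) (0, 1) w :=
    (hasDerivAt_const w Z).prodMk (hasDerivAt_id w)
  have := HasFDerivAt.comp_hasDerivAt (l := f) (f := fun t : ℝ => (Z, t)) w h h1
  exact this.congr_deriv (by simp)

lemma HD.shift {t : ℝ} (h : HD f (p.1 - t, p.2) a b) :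
    HD (fun q => f (q.1 - t, q.2)) p a b := by
  have h1 : HasFDerivAt (fun q : ℝ × ℝ => (q.1 - t, q.2)) (ContinuousLinearMap.id ℝ (ℝ × ℝ)) p := by
    have := (hasFDerivAt_fst (𝕜 := ℝ) (p := p)).sub_const t |>.prodMk
      (hasFDerivAt_snd (𝕜 := ℝ) (p := p))
    refine this.congr_fderiv ?_
    ext <;> simp
  have := HasFDerivAt.comp (g := f) (f := fun q : ℝ × ℝ => (q.1 - t, q.2)) p h h1
  exact HD.of_fderiv this (by simp) (by simp)

lemma HD.arg (h : HD f p a b) (h' : HD g p a' b')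
    (hs : (f p : ℂ) + g p * Complex.I ∈ Complex.slitPlane) :
    HD (fun q => Complex.arg (f q + g q * Complex.I)) p
      ((f p * a' - g p * a) / (f p ^ 2 + g p ^ 2)) ((f p * b' - g p * b) / (f p ^ 2 + g p ^ 2)) := by
  have h1 : HasFDerivAt (fun q => (f q : ℂ)) _ p := Complex.ofRealCLM.hasFDerivAt.comp p h
  have h2 : HasFDerivAt (fun q => (g q : ℂ)) _ p := Complex.ofRealCLM.hasFDerivAt.comp p h'
  have h3 := h1.add (h2.mul_const Complex.I)
  have h4 := ((Complex.hasStrictDerivAt_log hs).hasDerivAt.hasFDerivAt.restrictScalars ℝ).comp p h3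
  have h5 := Complex.imCLM.hasFDerivAt.comp p h4
  have e : (fun q => Complex.arg (f q + g q * Complex.I)) =
      Complex.imCLM ∘ Complex.log ∘ ((fun q => (f q : ℂ)) + fun q => (g q : ℂ) * Complex.I) := by
    ext q; simp [Complex.log_im]
  rw [e]
  refine HD.of_fderiv h5 ?_ ?_
  · simp [Complex.normSq_apply]; ring
  · simp [Complex.normSq_apply]; ring

lemma contDiffAt_arg (h : ContDiffAt ℝ ∞ f p) (h' : ContDiffAt ℝ ∞ g p)
    (hs : (f p : ℂ) + g p * Complex.I ∈ Complex.slitPlane) :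
    ContDiffAt ℝ ∞ (fun q => Complex.arg (f q + g q * Complex.I)) p := by
  have h1 : ContDiffAt ℝ ∞ (fun q => (f q : ℂ)) p := Complex.ofRealCLM.contDiff.contDiffAt.comp p h
  have h2 : ContDiffAt ℝ ∞ (fun q => (g q : ℂ)) p := Complex.ofRealCLM.contDiff.contDiffAt.comp p h'
  have h3 : ContDiffAt ℝ ∞ (fun q => (f q : ℂ) + g q * Complex.I) p := h1.add (h2.mul contDiffAt_const)
  have h4 := ((Complex.contDiffAt_log (n := ∞) hs).restrict_scalars ℝ).comp p h3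
  have h5 := Complex.imCLM.contDiff.contDiffAt.comp p h4
  have e : (fun q => Complex.arg (f q + g q * Complex.I)) =
      Complex.imCLM ∘ Complex.log ∘ (fun q => (f q : ℂ) + (g q : ℂ) * Complex.I) := by
    ext q; simp [Complex.log_im]
  rw [e]
  exact h5

/-- `dζ = u dZ + w dG`, `u_w = -G_Z` and `ζ_Z = D` at `p`. -/
structure Adm (ζ u G : ℝ × ℝ → ℝ) (p : ℝ × ℝ) (D : ℝ) : Prop where
  sζ : ContDiffAt ℝ ∞ ζ p
  su : ContDiffAt ℝ ∞ u p
  sG : ContDiffAt ℝ ∞ G p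
  d : ∃ GZ Gw uZ, HD G p GZ Gw ∧ HD u p uZ (-GZ) ∧ HD ζ p D (p.2 * Gw) ∧ D = u p + p.2 * GZ

lemma Adm.congr {ζ u G ζ' u' : ℝ × ℝ → ℝ} {D : ℝ} (h : Adm ζ u G p D) (e1 : ζ' =ᶠ[𝓝 p] ζ)
    (e2 : u' =ᶠ[𝓝 p] u) : Adm ζ' u' G p D := by
  obtain ⟨h1, h2, h3, GZ, Gw, uZ, h4, h5, h6, h7⟩ := h
  exact ⟨h1.congr_of_eventuallyEq e1, h2.congr_of_eventuallyEq e2, h3, GZ, Gw, uZ, h4,
    h5.congr e2, h6.congr e1, by rw [e2.eq_of_nhds]; exact h7⟩

lemma Adm.shift {ζ u G : ℝ × ℝ → ℝ} {D t : ℝ} (h : Adm ζ u G (p.1 - t, p.2) D) :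
    Adm (fun q => ζ (q.1 - t, q.2) + t) (fun q => u (q.1 - t, q.2)) (fun q => G (q.1 - t, q.2))
      p D := by
  obtain ⟨h1, h2, h3, GZ, Gw, uZ, h4, h5, h6, h7⟩ := h
  have s : ContDiffAt ℝ ∞ (fun q : ℝ × ℝ => (q.1 - t, q.2)) p := by fun_prop
  refine ⟨(ContDiffAt.comp (g := ζ) p h1 s).add contDiffAt_const, ContDiffAt.comp (g := u) p h2 s,
    ContDiffAt.comp (g := G) p h3 s, GZ, Gw, uZ, h4.shift, h5.shift, ?_, h7⟩
  exact (h6.shift.add (HD.const t p)).cg (by simp) (by simp)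

section glue
variable (γ β : ℝ → ℝ) (ζ1 u1 G1 ζ2 u2 G2 : ℝ × ℝ → ℝ)

/-- Difference of the generating functions. -/
def rr (q : ℝ × ℝ) : ℝ := (ζ2 q - q.2 * G2 q) - (ζ1 q - q.2 * G1 q)

noncomputable def gζ (q : ℝ × ℝ) : ℝ :=
  γ q.1 * β q.2 * ζ1 q + (1 - γ q.1 * β q.2) * ζ2 q + q.2 * (γ q.1 * deriv β q.2) * rr ζ1 G1 ζ2 G2 q

noncomputable def gu (q : ℝ × ℝ) : ℝ :=
  γ q.1 * β q.2 * u1 q + (1 - γ q.1 * β q.2) * u2 q - deriv γ q.1 * β q.2 * rr ζ1 G1 ζ2 G2 q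

noncomputable def gG (q : ℝ × ℝ) : ℝ :=
  γ q.1 * β q.2 * G1 q + (1 - γ q.1 * β q.2) * G2 q + γ q.1 * deriv β q.2 * rr ζ1 G1 ζ2 G2 q

variable {γ β ζ1 u1 G1 ζ2 u2 G2}

lemma Adm.glue (hγ : ContDiff ℝ ∞ γ) (hβ : ContDiff ℝ ∞ β) {D1 D2 : ℝ} (h1 : Adm ζ1 u1 G1 p D1)
    (h2 : Adm ζ2 u2 G2 p D2) :
    Adm (gζ γ β ζ1 G1 ζ2 G2) (gu γ β ζ1 u1 G1 ζ2 u2 G2) (gG γ β ζ1 G1 ζ2 G2) p
      (γ p.1 * β p.2 * D1 + (1 - γ p.1 * β p.2) * D2 + deriv γ p.1 * β p.2 * (ζ1 p - ζ2 p)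
        + p.2 * deriv β p.2 * deriv γ p.1 * rr ζ1 G1 ζ2 G2 p
        + γ p.1 * (p.2 * deriv β p.2) * (u2 p - u1 p)) := by
  obtain ⟨a1, a2, a3, GZ, Gw, uZ, a4, a5, a6, a7⟩ := h1
  obtain ⟨b1, b2, b3, HZ, Hw, vZ, b4, b5, b6, b7⟩ := h2
  have hγ' : ContDiff ℝ ∞ (deriv γ) := (contDiff_infty_iff_deriv.1 hγ).2
  have hβ' : ContDiff ℝ ∞ (deriv β) := (contDiff_infty_iff_deriv.1 hβ).2
  have sγ : ContDiffAt ℝ ∞ (fun q : ℝ × ℝ => γ q.1) p := hγ.contDiffAt.comp p contDiffAt_fst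
  have sβ : ContDiffAt ℝ ∞ (fun q : ℝ × ℝ => β q.2) p := hβ.contDiffAt.comp p contDiffAt_snd
  have sγ' : ContDiffAt ℝ ∞ (fun q : ℝ × ℝ => deriv γ q.1) p :=
    hγ'.contDiffAt.comp p contDiffAt_fst
  have sβ' : ContDiffAt ℝ ∞ (fun q : ℝ × ℝ => deriv β q.2) p :=
    hβ'.contDiffAt.comp p contDiffAt_snd
  have sr : ContDiffAt ℝ ∞ (rr ζ1 G1 ζ2 G2) p :=
    (b1.sub (contDiffAt_snd.mul b3)).sub (a1.sub (contDiffAt_snd.mul a3))
  have dr : HD (rr ζ1 G1 ζ2 G2) p (u2 p - u1 p) (G1 p - G2 p) :=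
    ((b6.sub ((HD.snd p).mul b4)).sub (a6.sub ((HD.snd p).mul a4))).cg
      (by rw [a7, b7]; ring) (by ring)
  have dP := (HD.cZ hγ p).mul (HD.cw hβ p)
  have dQ := (HD.const 1 p).sub dP
  have dP1 := (HD.cZ hγ' p).mul (HD.cw hβ p)
  have dP2 := (HD.cZ hγ p).mul (HD.cw hβ' p)
  refine ⟨?_, ?_, ?_, _, _, _, ((dP.mul a4).add (dQ.mul b4)).add (dP2.mul dr),
    (((dP.mul a5).add (dQ.mul b5)).sub (dP1.mul dr)).cg rfl ?_,
    (((dP.mul a6).add (dQ.mul b6)).add (((HD.snd p).mul dP2).mul dr)).cg ?_ ?_, ?_⟩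
  · exact (((sγ.mul sβ).mul a1).add ((contDiffAt_const.sub (sγ.mul sβ)).mul b1)).add
      ((contDiffAt_snd.mul (sγ.mul sβ')).mul sr)
  · exact (((sγ.mul sβ).mul a2).add ((contDiffAt_const.sub (sγ.mul sβ)).mul b2)).sub
      ((sγ'.mul sβ).mul sr)
  · exact (((sγ.mul sβ).mul a3).add ((contDiffAt_const.sub (sγ.mul sβ)).mul b3)).add
      ((sγ.mul sβ').mul sr)
  · ring
  · ring
  · simp only [rr]; ring
  · simp only [gu, rr]; rw [a7, b7]; ring

end glue

/-! ### Cut-off functions -/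

lemma T_deriv_nonneg (x : ℝ) : 0 ≤ deriv Real.smoothTransition x :=
  Real.smoothTransition.monotone.deriv_nonneg

lemma T_deriv_zero {x : ℝ} (h : x ≤ 0 ∨ 1 ≤ x) : deriv Real.smoothTransition x = 0 := by
  rcases h with h | h
  · refine IsLocalMin.deriv_eq_zero (Eventually.of_forall fun y => ?_)
    rw [Real.smoothTransition.zero_of_nonpos h]; exact Real.smoothTransition.nonneg y
  · refine IsLocalMax.deriv_eq_zero (Eventually.of_forall fun y => ?_)
    rw [Real.smoothTransition.one_of_one_le h]; exact Real.smoothTransition.le_one y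

lemma T_deriv_bd : ∃ T0 : ℝ, 1 ≤ T0 ∧ ∀ x, deriv Real.smoothTransition x ≤ T0 := by
  have hc : Continuous (deriv Real.smoothTransition) :=
    (Real.smoothTransition.contDiff (n := 1)).continuous_deriv (by simp)
  obtain ⟨C, hC⟩ := isCompact_Icc.bddAbove_image (hc.continuousOn (s := Icc (0 : ℝ) 1))
  refine ⟨max C 1, le_max_right _ _, fun x => ?_⟩
  by_cases h : x ∈ Icc (0 : ℝ) 1
  · exact (hC ⟨x, h, rfl⟩).trans (le_max_left _ _)
  · rw [T_deriv_zero]
    · positivity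
    · simp only [mem_Icc, not_and_or, not_le] at h
      rcases h with h | h
      · exact Or.inl h.le
      · exact Or.inr h.le

/-- An even-type cut-off: `1` on `[-a,a]`, `0` outside `(-b,b)`, `-C ≤ x γ'(x) ≤ 0`. -/
structure Cut (γ : ℝ → ℝ) (a b C : ℝ) : Prop where
  sm : ContDiff ℝ ∞ γ
  one : ∀ x, |x| ≤ a → γ x = 1 ∧ deriv γ x = 0
  zero : ∀ x, b ≤ |x| → γ x = 0 ∧ deriv γ x = 0
  nn : ∀ x, 0 ≤ γ x
  le : ∀ x, γ x ≤ 1
  np : ∀ x, x * deriv γ x ≤ 0
  bd : ∀ x, -C ≤ x * deriv γ x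

lemma cut_of {φ : ℝ → ℝ} {a b C T0 : ℝ} (hT : ∀ x, deriv Real.smoothTransition x ≤ T0)
    (hφ : ContDiff ℝ ∞ φ) (h0 : ∀ x, |x| ≤ a → φ x ≤ 0) (h1 : ∀ x, b ≤ |x| → 1 ≤ φ x)
    (h2 : ∀ x, 0 ≤ x * deriv φ x) (h3 : ∀ x, |x| ≤ b → x * deriv φ x ≤ C) (hC : 0 ≤ C) :
    Cut (fun x => 1 - Real.smoothTransition (φ x)) a b (T0 * C) := by
  have hd : ∀ x, deriv (fun x => 1 - Real.smoothTransition (φ x)) x =
      -(deriv Real.smoothTransition (φ x) * deriv φ x) := fun x => by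
    have h1 := ((Real.smoothTransition.contDiff (n := 1)).differentiable (by simp) (φ x)).hasDerivAt
    have h2 := (hφ.differentiable (by simp) x).hasDerivAt
    exact ((h1.comp x h2).const_sub 1).deriv
  have hT0 : 0 ≤ T0 := (T_deriv_nonneg 0).trans (hT 0)
  refine ⟨contDiff_const.sub (Real.smoothTransition.contDiff.comp hφ), fun x hx => ⟨?_, ?_⟩,
    fun x hx => ⟨?_, ?_⟩, fun x => ?_, fun x => ?_, fun x => ?_, fun x => ?_⟩
  · simp [Real.smoothTransition.zero_of_nonpos (h0 x hx)]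
  · rw [hd, T_deriv_zero (Or.inl (h0 x hx))]; simp
  · simp [Real.smoothTransition.one_of_one_le (h1 x hx)]
  · rw [hd, T_deriv_zero (Or.inr (h1 x hx))]; simp
  · linarith [Real.smoothTransition.le_one (φ x)]
  · linarith [Real.smoothTransition.nonneg (φ x)]
  · rw [hd]; nlinarith [mul_nonneg (T_deriv_nonneg (φ x)) (h2 x)]
  · rw [hd]
    rcases le_total |x| b with h | h
    · have := mul_le_mul (hT (φ x)) (h3 x h) (h2 x) hT0
      nlinarith
    · rw [T_deriv_zero (Or.inr (h1 x h))]; nlinarith [mul_nonneg hT0 hC]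

lemma exists_cut {a b : ℝ} (ha : 0 < a) (hab : a < b) : ∃ β C, 0 < C ∧ Cut β a b C := by
  obtain ⟨T0, hT1, hT⟩ := T_deriv_bd
  have hd : 0 < b ^ 2 - a ^ 2 := by nlinarith
  have hb : 0 < b := ha.trans hab
  have hφ : ∀ x : ℝ, deriv (fun x : ℝ => (x ^ 2 - a ^ 2) / (b ^ 2 - a ^ 2)) x =
      2 * x / (b ^ 2 - a ^ 2) := fun x => by
    simp
  refine ⟨_, T0 * (2 * b ^ 2 / (b ^ 2 - a ^ 2)), by positivity,
    cut_of (φ := fun x => (x ^ 2 - a ^ 2) / (b ^ 2 - a ^ 2)) hT (by fun_prop) ?_ ?_ ?_ ?_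
      (by positivity)⟩
  · intro x hx
    refine div_nonpos_of_nonpos_of_nonneg ?_ hd.le
    nlinarith [sq_abs x, abs_nonneg x]
  · intro x hx
    rw [le_div_iff₀ hd]
    nlinarith [sq_abs x, abs_nonneg x]
  · intro x
    rw [hφ, ← mul_div_assoc]
    exact div_nonneg (by nlinarith [sq_nonneg x]) hd.le
  · intro x hx
    rw [hφ, ← mul_div_assoc]
    refine div_le_div_of_nonneg_right ?_ hd.le
    nlinarith [sq_abs x, abs_nonneg x]

lemma exists_logcut {b m : ℝ} (hb : 0 < b) (hm : 0 < m) : ∃ γ a, 0 < a ∧ Cut γ a b m := by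
  obtain ⟨T0, hT1, hT⟩ := T_deriv_bd
  obtain ⟨μ, hμ0, hμ1, hμ⟩ : ∃ μ : ℝ, 0 < μ ∧ μ ≤ 1 ∧ T0 * (2 * μ) ≤ m := by
    refine ⟨min 1 (m / (2 * T0)), by positivity, min_le_left _ _, ?_⟩
    have : min 1 (m / (2 * T0)) ≤ m / (2 * T0) := min_le_right _ _
    rw [le_div_iff₀ (by positivity)] at this
    linarith
  set a := b * Real.exp (-(1 / μ)) with ha
  have ha0 : 0 < a := by positivity
  have hpos : ∀ x : ℝ, 0 < 1 + x ^ 2 / a ^ 2 := fun x => by positivity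
  have hφ : ∀ x : ℝ, deriv (fun x : ℝ => μ * Real.log (1 + x ^ 2 / a ^ 2) - 1) x =
      μ * (2 * x / a ^ 2 / (1 + x ^ 2 / a ^ 2)) := fun x => by
    have := ((((((hasDerivAt_id x).pow 2).div_const (a ^ 2)).const_add 1).log
      (hpos x).ne').const_mul μ).sub_const 1
    simpa using this.deriv
  have hx2 : ∀ x : ℝ, x * (μ * (2 * x / a ^ 2 / (1 + x ^ 2 / a ^ 2))) =
      2 * μ * (x ^ 2 / (a ^ 2 + x ^ 2)) := fun x => by
    field_simp
  have hc := cut_of (a := a) (b := b) (C := 2 * μ)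
    (φ := fun x => μ * Real.log (1 + x ^ 2 / a ^ 2) - 1) hT
    ((contDiff_const.mul (ContDiff.log (by fun_prop) fun x => (hpos x).ne')).sub contDiff_const)
    (fun x hx => by
      have h1 : x ^ 2 / a ^ 2 ≤ 1 := by
        rw [div_le_one (by positivity)]; nlinarith [sq_abs x, abs_nonneg x]
      have h2 := Real.log_le_sub_one_of_pos (hpos x)
      have h3 : 0 ≤ Real.log (1 + x ^ 2 / a ^ 2) :=
        Real.log_nonneg (le_add_of_nonneg_right (by positivity))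
      nlinarith)
    (fun x hx => by
      have h1 : Real.exp (2 / μ) ≤ 1 + x ^ 2 / a ^ 2 := by
        have e : a ^ 2 * Real.exp (2 / μ) = b ^ 2 := by
          rw [ha, mul_pow, mul_assoc, ← Real.exp_nat_mul, ← Real.exp_add]
          have : ((2 : ℕ) : ℝ) * -(1 / μ) + 2 / μ = 0 := by push_cast; ring
          rw [this]; simp
        have h2 : Real.exp (2 / μ) ≤ x ^ 2 / a ^ 2 := by
          rw [le_div_iff₀ (by positivity)]; nlinarith [sq_abs x, abs_nonneg x]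
        linarith
      have h2 : 2 / μ ≤ Real.log (1 + x ^ 2 / a ^ 2) := (Real.le_log_iff_exp_le (hpos x)).2 h1
      rw [div_le_iff₀ hμ0] at h2
      linarith)
    (fun x => by rw [hφ, hx2]; positivity)
    (fun x _ => by
      rw [hφ, hx2]
      have : x ^ 2 / (a ^ 2 + x ^ 2) ≤ 1 := by
        rw [div_le_one (by positivity)]; nlinarith
      nlinarith)
    (by positivity)
  exact ⟨_, a, ha0, hc.sm, hc.one, hc.zero, hc.nn, hc.le, hc.np, fun x => by linarith [hc.bd x]⟩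

/-- A one-sided step: `1` for `w ≤ -a`, `0` for `w ≥ 0`, with `w² χ' ≥ -1/2`. -/
structure Step (χ : ℝ → ℝ) (a : ℝ) : Prop where
  sm : ContDiff ℝ ∞ χ
  one : ∀ x, x ≤ -a → χ x = 1 ∧ deriv χ x = 0
  zero : ∀ x, 0 ≤ x → χ x = 0 ∧ deriv χ x = 0
  np : ∀ x, deriv χ x ≤ 0
  bd : ∀ x, -(1 / 2) ≤ x ^ 2 * deriv χ x

lemma exists_step {a : ℝ} (ha : 0 < a) : ∃ χ, Step χ a := by
  obtain ⟨T0, hT1, hT⟩ := T_deriv_bd
  obtain ⟨ε, h0, h1, h2⟩ : ∃ ε : ℝ, 0 < ε ∧ ε ≤ a ∧ T0 * ε ≤ 1 / 2 := by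
    refine ⟨min a (1 / (2 * T0)), by positivity, min_le_left _ _, ?_⟩
    have : min a (1 / (2 * T0)) ≤ 1 / (2 * T0) := min_le_right _ _
    rw [le_div_iff₀ (by positivity)] at this
    linarith
  have hd : ∀ x, deriv (fun x => Real.smoothTransition (-x / ε)) x =
      deriv Real.smoothTransition (-x / ε) * (-1 / ε) := fun x => by
    have h1 := ((Real.smoothTransition.contDiff (n := 1)).differentiable (by simp)
      (-x / ε)).hasDerivAt
    have h2 : HasDerivAt (fun x : ℝ => -x / ε) (-1 / ε) x := (hasDerivAt_id x).neg.div_const ε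
    exact (h1.comp x h2).deriv
  have k1 : ∀ x, x ≤ -ε → 1 ≤ -x / ε := fun x hx => by rw [le_div_iff₀ h0]; linarith
  have k0 : ∀ x, 0 ≤ x → -x / ε ≤ 0 := fun x hx =>
    div_nonpos_of_nonpos_of_nonneg (by linarith) h0.le
  refine ⟨fun x => Real.smoothTransition (-x / ε),
    Real.smoothTransition.contDiff.comp (by fun_prop), fun x hx => ⟨?_, ?_⟩, fun x hx => ⟨?_, ?_⟩,
    fun x => ?_, fun x => ?_⟩
  · exact Real.smoothTransition.one_of_one_le (k1 x (by linarith))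
  · rw [hd, T_deriv_zero (Or.inr (k1 x (by linarith)))]; simp
  · exact Real.smoothTransition.zero_of_nonpos (k0 x hx)
  · rw [hd, T_deriv_zero (Or.inl (k0 x hx))]; simp
  · rw [hd]
    exact mul_nonpos_of_nonneg_of_nonpos (T_deriv_nonneg _)
      (div_nonpos_of_nonpos_of_nonneg (by norm_num) h0.le)
  · rw [hd]
    by_cases hx : x ≤ -ε
    · rw [T_deriv_zero (Or.inr (k1 x hx))]; simp
    by_cases hx' : 0 ≤ x
    · rw [T_deriv_zero (Or.inl (k0 x hx'))]; simp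
    push Not at hx hx'
    have e : x ^ 2 * (deriv Real.smoothTransition (-x / ε) * (-1 / ε)) =
        -(deriv Real.smoothTransition (-x / ε) * (x ^ 2 / ε)) := by ring
    have h3 : x ^ 2 / ε ≤ ε := by rw [div_le_iff₀ h0]; nlinarith
    have h4 := mul_le_mul (hT (-x / ε)) h3 (by positivity) (by linarith)
    rw [e]; linarith

end Pool.Agent.MP_5d9d0b_gt.Col

end MrgPart1

-- ======== part 2: formerly Pool.Agent.MP_5d9d0b_gt.ISO
section MrgPart2

/-! A smooth isotopy of knots gives a homeomorphism of pairs. -/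

namespace Pool.Agent.MP_5d9d0b_gt

open scoped ContDiff Real Topology NNReal
open Set Filter

namespace Iso

/-- A positively homogeneous homeomorphism of `ℝ⁴` induces a homeomorphism of the sphere. -/
theorem induce (H : R4 ≃ₜ R4) (hH : ∀ r : ℝ, 0 ≤ r → ∀ x, H (r • x) = r • H x) :
    ∃ h : S3 ≃ₜ S3, ∀ x y : S3, H x.1 = y.1 → h x = y := by
  have H0 : H 0 = 0 := by simpa using hH 0 le_rfl 0
  have n1 : ∀ x : S3, ‖x.1‖ = 1 := fun x => by simp
  have nz : ∀ x : S3, H x.1 ≠ 0 := fun x e => by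
    have := n1 x
    rw [H.injective (e.trans H0.symm)] at this
    simp at this
  let f : S3 → S3 := fun x => ⟨‖H x.1‖⁻¹ • H x.1, by simp [norm_smul, nz x]⟩
  have hc : Continuous f := by
    have : Continuous fun x : S3 => H x.1 := H.continuous.comp continuous_subtype_val
    exact ((this.norm.inv₀ fun x => norm_ne_zero_iff.2 (nz x)).smul this).subtype_mk _
  have hi : Function.Injective f := fun x y e => by
    have e1 : ‖H x.1‖⁻¹ • H x.1 = ‖H y.1‖⁻¹ • H y.1 := congrArg Subtype.val e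
    rw [← hH _ (by positivity), ← hH _ (by positivity)] at e1
    have e2 := H.injective e1
    have e3 := congrArg norm e2
    rw [norm_smul, norm_smul, n1, n1, mul_one, mul_one, Real.norm_of_nonneg (by positivity),
      Real.norm_of_nonneg (by positivity)] at e3
    rw [e3] at e2
    exact Subtype.ext (smul_right_injective _ (inv_ne_zero (norm_ne_zero_iff.2 (nz y))) e2)
  have hs : Function.Surjective f := fun y => by
    obtain ⟨z, hz⟩ := H.surjective y.1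
    have z0 : ‖z‖ ≠ 0 := norm_ne_zero_iff.2 fun e => by
      have := n1 y
      rw [← hz, e, H0] at this
      simp at this
    refine ⟨⟨‖z‖⁻¹ • z, by simp [norm_smul, z0]⟩, Subtype.ext ?_⟩
    simp only [f]
    rw [hH _ (by positivity), hz, norm_smul, n1, smul_smul]
    simp [z0]
  refine ⟨(isHomeomorph_iff_continuous_bijective.2 ⟨hc, hi, hs⟩).homeomorph f, fun x y e => ?_⟩
  exact Subtype.ext (by simp [f, e])

theorem close : ∃ ε : ℝ, 0 < ε ∧ ∀ g g' : ℝ → S3, (∀ t, ‖(g' t).1 - (g t).1‖ ≤ ε) →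
    (∀ t u, ‖(g' t).1 - (g t).1 - ((g' u).1 - (g u).1)‖ ≤ ε * ‖(g t).1 - (g u).1‖) →
    ∃ h : S3 ≃ₜ S3, h '' range g = range g' := by
  obtain ⟨C, hC⟩ : ∃ C, C = lipschitzExtensionConstant R4 := ⟨_, rfl⟩
  obtain ⟨ε, ε0, hε⟩ : ∃ ε : ℝ≥0, (0 : ℝ) < ε ∧ (ε : ℝ) + 4 * (C * ε) ≤ 1 / 2 :=
    ⟨(2 * (1 + 4 * C))⁻¹, by positivity, le_of_eq (by push_cast; field_simp)⟩
  refine ⟨ε, ε0, fun g g' h1 h2 => ?_⟩
  let τ : R4 → ℝ := Function.invFun fun t => (g t).1
  have τ1 : ∀ t, (g (τ (g t).1)).1 = (g t).1 := fun t => Function.invFun_eq (f := fun t => (g t).1) ⟨t, rfl⟩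
  have τ2 : ∀ t, (g' (τ (g t).1)).1 - (g (τ (g t).1)).1 = (g' t).1 - (g t).1 := fun t => by
    have := h2 (τ (g t).1) t
    rw [τ1, sub_self, norm_zero, mul_zero] at this
    rw [τ1]
    exact sub_eq_zero.1 (norm_le_zero_iff.1 this)
  obtain ⟨η, η1, η2⟩ := LipschitzOnWith.extend_finite_dimension (K := ε)
    (s := range fun t => (g t).1) (f := fun x => (g' (τ x)).1 - (g (τ x)).1)
    (LipschitzOnWith.of_dist_le_mul (by
      rintro _ ⟨t, rfl⟩ _ ⟨u, rfl⟩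
      simp only [dist_eq_norm, τ2]
      exact h2 t u))
  rw [← hC] at η1
  have η3 : ∀ t, η (g t).1 = (g' t).1 - (g t).1 := fun t => (η2 ⟨t, rfl⟩).symm.trans (τ2 t)
  have η4 : ∀ x y, ‖η x - η y‖ ≤ C * ε * ‖x - y‖ := fun x y => by
    simpa [dist_eq_norm] using η1.dist_le_mul x y
  have n1 : ∀ x : S3, ‖x.1‖ = 1 := fun x => by simp
  have u1 : ∀ x : R4, ‖‖x‖⁻¹ • x‖ ≤ 1 := fun x => by
    rw [norm_smul, norm_inv, norm_norm]; exact inv_mul_le_one_of_le₀ le_rfl (norm_nonneg _)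
  have u2 : ∀ x : R4, ‖x‖ • ‖x‖⁻¹ • x = x := fun x => by
    rcases eq_or_ne x 0 with rfl | h
    · simp
    · exact smul_inv_smul₀ (norm_ne_zero_iff.2 h) x
  have Cε : (0 : ℝ) ≤ C * ε := by positivity
  have η5 : ∀ x : R4, ‖x‖ ≤ 1 → ‖η x‖ ≤ ε + 2 * (C * ε) := fun x hx => by
    have a := η4 x (g 0).1
    have b := norm_sub_le x (g 0).1
    have c := norm_le_norm_sub_add (η x) (η (g 0).1)
    rw [η3] at a c
    rw [n1] at b
    nlinarith [h1 0]
  let H : R4 → R4 := fun x => x + ‖x‖ • η (‖x‖⁻¹ • x)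
  have hH : ApproximatesLinearOn H (ContinuousLinearEquiv.refl ℝ R4 : R4 →L[ℝ] R4) univ (1 / 2) := by
    intro x _ y _
    have e : H x - H y - (ContinuousLinearEquiv.refl ℝ R4 : R4 →L[ℝ] R4) (x - y) =
        (‖x‖ - ‖y‖) • η (‖x‖⁻¹ • x) + ‖y‖ • (η (‖x‖⁻¹ • x) - η (‖y‖⁻¹ • y)) := by
      simp only [H, ContinuousLinearEquiv.coe_refl, ContinuousLinearMap.id_apply]; module
    have a : ‖‖x‖ - ‖y‖‖ ≤ ‖x - y‖ := abs_norm_sub_norm_le x y
    have b : ‖y‖ * ‖‖x‖⁻¹ • x - ‖y‖⁻¹ • y‖ ≤ 2 * ‖x - y‖ := by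
      have : ‖y‖ • (‖x‖⁻¹ • x - ‖y‖⁻¹ • y) = x - y - (‖x‖ - ‖y‖) • ‖x‖⁻¹ • x := by
        rw [smul_sub, u2, sub_smul, u2]; abel
      rw [← norm_norm y, ← norm_smul, norm_norm, this]
      refine (norm_sub_le _ _).trans ?_
      rw [norm_smul]
      nlinarith [u1 x, norm_nonneg (‖x‖ - ‖y‖), norm_nonneg (‖x‖⁻¹ • x)]
    rw [e]
    refine (norm_add_le _ _).trans ?_
    rw [norm_smul, norm_smul, norm_norm]
    have c := mul_le_mul a (η5 _ (u1 x)) (norm_nonneg _) (norm_nonneg _)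
    have d := mul_le_mul_of_nonneg_left (η4 (‖x‖⁻¹ • x) (‖y‖⁻¹ • y)) (norm_nonneg y)
    have f := mul_le_mul_of_nonneg_left b Cε
    have k := mul_le_mul_of_nonneg_right hε (norm_nonneg (x - y))
    push_cast
    linarith
  obtain ⟨h, hh⟩ := induce (hH.toHomeomorph H (Or.inr (by simp; norm_num))) fun r hr x => by
    change H (r • x) = r • H x
    rcases hr.eq_or_lt with rfl | hr
    · simp [H]
    · simp only [H, norm_smul, Real.norm_of_nonneg hr.le, smul_add, smul_smul]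
      rw [mul_inv_rev, mul_assoc, inv_mul_cancel₀ hr.ne', mul_one]
  refine ⟨h, ?_⟩
  rw [← range_comp]
  congr 1
  funext t
  refine hh _ _ ?_
  change H (g t).1 = (g' t).1
  simp [H, η3]

end Iso

open Iso

theorem iso : IsoStmt := by
  rintro γ γ' ⟨Γ, h1, h2, h3, h4⟩
  obtain ⟨ε, ε0, hε⟩ := close
  let T := Real.smoothTransition
  have hT : ∀ s, T s ∈ Icc (0 : ℝ) 1 := fun s =>
    ⟨Real.smoothTransition.nonneg s, Real.smoothTransition.le_one s⟩
  let F : ℝ × ℝ → R4 := fun p => (Γ (T p.1) p.2).1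
  have hF : ContDiff ℝ ∞ F := h1.comp_contDiff (f := fun p : ℝ × ℝ => (T p.1, p.2))
    ((Real.smoothTransition.contDiff.comp contDiff_fst).prodMk contDiff_snd)
    fun p => ⟨hT _, trivial⟩
  let D : ℝ × ℝ → R4 := fun p => fderiv ℝ F p (0, 1)
  have hD : Continuous D := (hF.continuous_fderiv (by simp)).clm_apply continuous_const
  have d1 : ∀ s t, HasDerivAt (fun t => F (s, t)) (D (s, t)) t := fun s t =>
    (hF.differentiable (by simp) (s, t)).hasFDerivAt.comp_hasDerivAt t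
      ((hasDerivAt_const t s).prodMk (hasDerivAt_id t))
  let Ψ : ℝ × ℝ × ℝ → R4 := fun p => ∫ r in (0 : ℝ)..1, D (p.1, p.2.1 + r * p.2.2)
  have hΨ : Continuous Ψ :=
    intervalIntegral.continuous_parametric_intervalIntegral_of_continuous' (by fun_prop) _ _
  have d2 : ∀ s t v, F (s, t + v) - F (s, t) = v • Ψ (s, t, v) := fun s t v => by
    have := intervalIntegral.integral_eq_sub_of_hasDerivAt (a := 0) (b := 1)
      (f := fun r => F (s, t + r * v)) (f' := fun r => v • D (s, t + r * v)) (fun r _ => by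
        simpa [Function.comp_def] using (d1 s (t + r * v)).scomp r (((hasDerivAt_id r).mul_const v).const_add t))
      (Continuous.intervalIntegrable (by fun_prop) _ _)
    rw [intervalIntegral.integral_smul] at this
    simpa using this.symm
  have p0 : 0 < 2 * π := Real.two_pi_pos
  have per : ∀ s t a, F (s, toIcoMod p0 a t) = F (s, t) := fun s t a =>
    congrArg Subtype.val (((h2 _ (hT s)).2.2 _ _).2 ⟨toIcoDiv p0 a t, by
      simpa [mul_comm] using (toIcoMod_add_toIcoDiv_zsmul p0 a t).symm⟩)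
  let P : ℝ → ℝ → Prop := fun s s' => ∃ h : S3 ≃ₜ S3, h '' range (Γ (T s)) = range (Γ (T s'))
  have : Std.Symm P := ⟨fun s s' ⟨h, e⟩ => ⟨h.symm, by rw [← e, ← image_comp]; simp⟩⟩
  have key := PreconnectedSpace.induction₂ P (fun s₀ => ?_)
    ⟨fun a b c ⟨h, e⟩ ⟨h', e'⟩ => ⟨h.trans h', by rw [← e', ← e, ← image_comp]; rfl⟩⟩ 0 1
  · simpa only [P, T, Real.smoothTransition.zero, Real.smoothTransition.one, h3, h4] using key
  have tube := ((isCompact_Icc (a := (0 : ℝ)) (b := 2 * π)).prod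
    (isCompact_Icc (a := -π) (b := π))).eventually_forall_of_forall_eventually (x₀ := s₀)
    (P := fun s y => ‖Ψ (s, y) - Ψ (s₀, y)‖ < ε * ‖Ψ (s₀, y)‖ ∧ ‖F (s, y.1) - F (s₀, y.1)‖ < ε)
    fun y hy => by
      have c := hF.continuous
      refine (ContinuousAt.eventually_lt (by fun_prop) (by fun_prop) ?_).and
        (ContinuousAt.eventually_lt (by fun_prop) (by fun_prop) (by simpa using ε0))
      simp only [sub_self, norm_zero]
      refine mul_pos ε0 (norm_pos_iff.2 fun e => ?_)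
      rcases eq_or_ne y.2 0 with h | h
      · refine (h2 _ (hT s₀)).2.1 y.1 ((d1 s₀ y.1).deriv.trans ?_)
        simpa [Ψ, h] using e
      · have := d2 s₀ y.1 y.2
        rw [e, smul_zero, sub_eq_zero] at this
        obtain ⟨k, hk⟩ := ((h2 _ (hT s₀)).2.2 _ _).1 (Subtype.ext this).symm
        rw [add_right_inj] at hk
        have a := abs_le.2 hy.2
        rw [hk, abs_mul, abs_of_pos p0] at a
        have b : (1 : ℝ) ≤ |(k : ℝ)| := by
          exact_mod_cast Int.one_le_abs fun z => h (by rw [hk, z]; simp)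
        nlinarith [Real.pi_pos]
  filter_upwards [tube] with s hs
  have m0 : ∀ t, toIcoMod p0 0 t ∈ Icc 0 (2 * π) := fun t => by
    simpa using Ico_subset_Icc_self (toIcoMod_mem_Ico p0 0 t)
  refine hε _ _ (fun t => ?_) fun u t => ?_
  · have := (hs (toIcoMod p0 0 t, 0) ⟨m0 t, by simp [Real.pi_pos.le]⟩).2.le
    rwa [per, per] at this
  · obtain ⟨t₀, ht⟩ : ∃ t₀, t₀ = toIcoMod p0 0 t := ⟨_, rfl⟩
    obtain ⟨v, hv⟩ : ∃ v, t₀ + v = toIcoMod p0 (t₀ - π) u := ⟨_, add_sub_cancel _ _⟩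
    have m1 := toIcoMod_mem_Ico p0 (t₀ - π) u
    rw [← hv] at m1
    have := (hs (t₀, v) ⟨ht ▸ m0 t, by linarith [m1.1], by linarith [m1.2]⟩).1.le
    change ‖F (s, u) - F (s₀, u) - (F (s, t) - F (s₀, t))‖ ≤ ε * ‖F (s₀, u) - F (s₀, t)‖
    rw [← per s u (t₀ - π), ← per s₀ u (t₀ - π), ← per s t 0, ← per s₀ t 0, ← hv, ← ht,
      sub_sub_sub_comm, d2, d2, ← smul_sub, norm_smul, norm_smul, mul_left_comm]
    exact mul_le_mul_of_nonneg_left this (norm_nonneg _)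

end Pool.Agent.MP_5d9d0b_gt

end MrgPart2

-- ======== part 3: formerly Pool.Agent.MP_5d9d0b_gt.KNOTa
section MrgPart3

/-!
Explicit smooth isotopies: general lemmas and the first knot.
-/

namespace Pool.Agent.MP_5d9d0b_gt

open scoped Manifold ContDiff Real Topology
open Set

namespace Knot

open Classical in
/-- Radial projection to the sphere. -/
noncomputable def nz (x : R4) : S3 :=
  if h : x = 0 then ⟨EuclideanSpace.single 0 1, by simp⟩
  else ⟨‖x‖⁻¹ • x, by simp [norm_smul, h]⟩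

theorem nz_val {x : R4} (h : x ≠ 0) : (nz x).1 = ‖x‖⁻¹ • x := by
  simp [nz, h]

theorem norm_S3 (x : S3) : ‖(x.1 : R4)‖ = 1 := by simp

theorem ne_zero_S3 (x : S3) : (x.1 : R4) ≠ 0 := by
  intro h
  have := norm_S3 x
  rw [h] at this
  simp at this

theorem nz_of_smul {c : ℝ} (hc : 0 < c) {x : R4} {y : S3} (h : x = c • y.1) : nz x = y := by
  have h0 : x ≠ 0 := by rw [h]; exact smul_ne_zero hc.ne' (ne_zero_S3 y)
  apply Subtype.ext
  rw [nz_val h0, h, norm_smul, norm_S3, smul_smul, Real.norm_eq_abs, abs_of_pos hc, mul_one,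
    inv_mul_cancel₀ hc.ne', one_smul]

theorem nz_eq_iff {x y : R4} (hx : x ≠ 0) (hy : y ≠ 0) :
    nz x = nz y ↔ ∃ c : ℝ, 0 < c ∧ y = c • x := by
  have a1 : 0 < ‖x‖ := norm_pos_iff.2 hx
  have a2 : 0 < ‖y‖ := norm_pos_iff.2 hy
  constructor
  · intro h
    have h1 := congrArg Subtype.val h
    rw [nz_val hx, nz_val hy] at h1
    refine ⟨‖y‖ * ‖x‖⁻¹, by positivity, ?_⟩
    rw [mul_smul, h1, smul_smul, mul_inv_cancel₀ a2.ne', one_smul]
  · rintro ⟨c, hc, h⟩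
    symm
    refine nz_of_smul (c := c * ‖x‖) (by positivity) ?_
    rw [nz_val hx, smul_smul, mul_assoc, mul_inv_cancel₀ a1.ne', mul_one, h]

theorem contDiffAt_nz {E : Type} [NormedAddCommGroup E] [NormedSpace ℝ E] {F : E → R4} {p : E}
    (hF : ContDiffAt ℝ ∞ F p) (h0 : F p ≠ 0) :
    ContDiffAt ℝ ∞ (fun q => ((nz (F q)).1 : R4)) p := by
  have h1 : ContDiffAt ℝ ∞ (fun q => ‖F q‖⁻¹ • F q) p :=
    ((hF.norm ℝ h0).inv (norm_ne_zero_iff.2 h0)).smul hF
  refine h1.congr_of_eventuallyEq ?_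
  filter_upwards [hF.continuousAt.eventually_ne h0] with q hq
  exact nz_val hq

theorem isKnot_nz {f : ℝ → R4} (hF : ∀ t, ContDiffAt ℝ ∞ f t) (h0 : ∀ t, f t ≠ 0)
    (hd : ∀ t (c : ℝ), ¬ HasDerivAt f (c • f t) t)
    (hi : ∀ t t', (∃ c : ℝ, 0 < c ∧ f t' = c • f t) ↔ ∃ k : ℤ, t' = t + 2 * π * k) :
    IsKnot fun t => nz (f t) := by
  have hs : ∀ t, ContDiffAt ℝ ∞ (fun q => ((nz (f q)).1 : R4)) t :=
    fun t => contDiffAt_nz (hF t) (h0 t)
  refine ⟨contDiff_iff_contDiffAt.2 hs, fun t ht => ?_, fun s t => ?_⟩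
  · have h1 : HasDerivAt (fun q => ((nz (f q)).1 : R4)) 0 t := by
      exact ((hs t).differentiableAt (by simp)).hasDerivAt.congr_deriv ht
    have h2 := (((hF t).norm ℝ (h0 t)).differentiableAt (by simp)).hasDerivAt
    have h3 := h2.smul h1
    have e : ((fun q => ‖f q‖) • fun q => ((nz (f q)).1 : R4)) = f := by
      ext1 q
      simp only [Pi.smul_apply']
      rw [nz_val (h0 q), smul_smul, mul_inv_cancel₀ (norm_ne_zero_iff.2 (h0 q)), one_smul]
    rw [e, smul_zero, zero_add, nz_val (h0 t), smul_smul] at h3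
    exact hd t _ h3
  · rw [nz_eq_iff (h0 s) (h0 t), hi]

theorem isotopic_of (F : ℝ × ℝ → R4) {γ γ' : ℝ → S3}
    (hF : ∀ p : ℝ × ℝ, p.1 ∈ Icc (0 : ℝ) 1 → ContDiffAt ℝ ∞ F p)
    (h0 : ∀ p : ℝ × ℝ, p.1 ∈ Icc (0 : ℝ) 1 → F p ≠ 0)
    (hd : ∀ s ∈ Icc (0 : ℝ) 1, ∀ t (c : ℝ), ¬ HasDerivAt (fun t => F (s, t)) (c • F (s, t)) t)
    (hi : ∀ s ∈ Icc (0 : ℝ) 1, ∀ t t', (∃ c : ℝ, 0 < c ∧ F (s, t') = c • F (s, t)) ↔
      ∃ k : ℤ, t' = t + 2 * π * k)
    (r0 : range (fun t => nz (F (0, t))) = range γ)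
    (r1 : range (fun t => nz (F (1, t))) = range γ') : Isotopic γ γ' := by
  refine ⟨fun s t => nz (F (s, t)), fun p hp => ?_, fun s hs => ?_, r0, r1⟩
  · exact (contDiffAt_nz (hF p hp.1) (h0 p hp.1)).contDiffWithinAt
  · refine isKnot_nz (f := fun t => F (s, t)) (fun t => ?_) (fun t => h0 _ hs) (hd s hs) (hi s hs)
    exact (hF (s, t) hs).comp t (by fun_prop)

theorem isotopic_emb {a : ℝ} {P : ℂ × ℝ → S3} (hP : Emb a P) (L : R4 →L[ℝ] R4)
    (hL : ∀ s ∈ Icc (0 : ℝ) 1, ∀ x : R4, x + s • L x = 0 → x = 0)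
    (u : ℝ × ℝ → ℂ × ℝ) (hu : ContDiff ℝ ∞ u) {γ γ' : ℝ → S3}
    (ha : ∀ p : ℝ × ℝ, p.1 ∈ Icc (0 : ℝ) 1 → Complex.normSq (u p).1 < a)
    (hd : ∀ s t, ∃ c : ℝ, c ≠ 0 ∧ HasDerivAt (fun t => (u (s, t)).2) c t)
    (hi : ∀ s ∈ Icc (0 : ℝ) 1, ∀ t t', ((u (s, t)).1 = (u (s, t')).1 ∧
      ∃ k : ℤ, (u (s, t')).2 = (u (s, t)).2 + 2 * π * k) ↔ ∃ k : ℤ, t' = t + 2 * π * k)
    (r0 : range (fun t => P (u (0, t))) = range γ)
    (r1 : range (fun t => nz ((P (u (1, t))).1 + L (P (u (1, t))).1)) = range γ') :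
    Isotopic γ γ' := by
  have hc : ∀ p : ℝ × ℝ, p.1 ∈ Icc (0 : ℝ) 1 →
      ContDiffAt ℝ ∞ (fun p => ((P (u p)).1 : R4)) p :=
    fun p hp => (hP.1 _ (ha p hp)).1.comp p hu.contDiffAt
  refine isotopic_of (fun p => (P (u p)).1 + p.1 • L (P (u p)).1) (fun p hp => ?_)
    (fun p hp h => ne_zero_S3 _ (hL _ hp _ h)) (fun s hs t c h => ?_) (fun s hs t t' => ?_) ?_ ?_
  · exact (hc p hp).add (contDiffAt_fst.smul (L.contDiff.contDiffAt.comp p (hc p hp)))
  · have h1 : DifferentiableAt ℝ (fun t => u (s, t)) t :=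
      (hu.differentiable (by simp) (s, t)).comp t (by fun_prop)
    have h2 := ((hP.1 _ (ha (s, t) hs)).1.differentiableAt (by simp)).hasFDerivAt
    have h3 := h2.comp_hasDerivAt t h1.hasDerivAt
    set g' := fderiv ℝ (fun p => ((P p).1 : R4)) (u (s, t)) (deriv (fun t => u (s, t)) t) with hg'
    have h4 : HasDerivAt (fun t => ((P (u (s, t))).1 : R4)) g' t := h3
    have h5 := h4.add ((L.hasFDerivAt.comp_hasDerivAt t h4).const_smul s)
    have h6 := h.unique h5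
    have h7 : g' - c • ((P (u (s, t))).1 : R4) = 0 := by
      refine hL s hs _ ?_
      rw [map_sub, map_smul, smul_sub]
      simp only [smul_add] at h6
      rw [smul_comm s c]
      have h6' : c • ((P (u (s, t))).1 : R4) + c • s • L (P (u (s, t))).1 = g' + s • L g' := h6
      linear_combination (norm := module) -h6'
    have h8 : HasDerivAt (fun t => ‖((P (u (s, t))).1 : R4)‖ ^ 2)
        (2 * inner ℝ ((P (u (s, t))).1 : R4) g') t := h4.norm_sq
    simp only [norm_S3] at h8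
    have h9 := h8.unique (hasDerivAt_const t _)
    rw [sub_eq_zero.1 h7, inner_smul_right, real_inner_self_eq_norm_sq, norm_S3] at h9
    have h10 : c = 0 := by linarith
    rw [h10, zero_smul, sub_zero] at h7
    have h11 : deriv (fun t => u (s, t)) t = 0 :=
      (hP.1 _ (ha (s, t) hs)).2 (by rw [map_zero]; exact h7)
    obtain ⟨c', hc', h12⟩ := hd s t
    have h13 := h1.hasDerivAt
    rw [h11] at h13
    exact hc' (h12.unique ((ContinuousLinearMap.snd ℝ ℂ ℝ).hasFDerivAt.comp_hasDerivAt t h13))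
  · rw [← hi s hs, ← hP.2 _ _ (ha (s, t) hs) (ha (s, t') hs)]
    constructor
    · rintro ⟨c, hc, h⟩
      have h7 : ((P (u (s, t'))).1 : R4) - c • ((P (u (s, t))).1 : R4) = 0 := by
        refine hL s hs _ ?_
        rw [map_sub, map_smul, smul_sub]
        simp only [smul_add] at h
        rw [smul_comm s c]
        linear_combination (norm := module) h
      have h8 := sub_eq_zero.1 h7
      have h9 := congrArg norm h8
      rw [norm_smul, norm_S3, norm_S3, Real.norm_eq_abs, abs_of_pos hc, mul_one] at h9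
      rw [← h9, one_smul] at h8
      exact (Subtype.ext h8).symm
    · intro h
      exact ⟨1, one_pos, by simp only [h, one_smul]⟩
  · rw [← r0]
    congr 1
    ext1 t
    exact nz_of_smul one_pos (by simp)
  · simpa using r1

theorem ex_re (t : ℝ) : (ex t).re = Real.cos t := Complex.exp_ofReal_mul_I_re t

theorem ex_im (t : ℝ) : (ex t).im = Real.sin t := Complex.exp_ofReal_mul_I_im t

theorem norm_ex (t : ℝ) : ‖ex t‖ = 1 := Complex.norm_exp_ofReal_mul_I t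

theorem ex_ne (t : ℝ) : ex t ≠ 0 := Complex.exp_ne_zero _

theorem ex_add (s t : ℝ) : ex (s + t) = ex s * ex t := by
  simp only [ex, ← Complex.exp_add]; congr 1; push_cast; ring

theorem ex_int (k : ℤ) : ex (2 * π * k) = 1 := by
  rw [ex, ← Complex.exp_int_mul_two_pi_mul_I k]; congr 1; push_cast; ring

theorem ex_eq_iff {s t : ℝ} : ex s = ex t ↔ ∃ k : ℤ, s = t + 2 * π * k := by
  constructor
  · intro h
    obtain ⟨k, hk⟩ := Complex.exp_eq_exp_iff_exists_int.1 h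
    refine ⟨k, ?_⟩
    have := congrArg Complex.im hk
    simp at this
    linarith
  · rintro ⟨k, rfl⟩
    rw [ex_add, ex_int, mul_one]

@[fun_prop] theorem contDiff_ex : ContDiff ℝ ∞ ex := by
  unfold ex
  exact Complex.contDiff_exp.comp (Complex.ofRealCLM.contDiff.mul contDiff_const)

theorem hasDerivAt_ex {φ : ℝ → ℝ} {φ' t : ℝ} (h : HasDerivAt φ φ' t) :
    HasDerivAt (fun t => ex (φ t)) (ex (φ t) * (φ' * Complex.I)) t :=
  (h.ofReal_comp.mul_const Complex.I).cexp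

/-- Scaling of the first complex coordinate. -/
noncomputable def sc (k : ℝ) : R4 →L[ℝ] R4 :=
  k • ((EuclideanSpace.proj (0 : Fin (3 + 1))).smulRight (EuclideanSpace.single 0 1) +
    (EuclideanSpace.proj (1 : Fin (3 + 1))).smulRight (EuclideanSpace.single 1 1))

theorem sc_apply (k : ℝ) (x : R4) : sc k x 0 = k * x 0 ∧ sc k x 1 = k * x 1 ∧ sc k x 2 = 0 ∧
    sc k x 3 = 0 := by
  simp [sc]

theorem ext4 {x y : R4} (h0 : x 0 = y 0) (h1 : x 1 = y 1) (h2 : x 2 = y 2) (h3 : x 3 = y 3) :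
    x = y := by
  ext i
  fin_cases i
  exacts [h0, h1, h2, h3]

/-- The standard torus knot. -/
noncomputable def tau (p q : ℤ) (t : ℝ) : S3 :=
  ⟨(√2)⁻¹ • (!₂[Real.cos (p * t), Real.sin (p * t), Real.cos (q * t), Real.sin (q * t)] : R4), by
    have h : ‖(!₂[Real.cos (p * t), Real.sin (p * t), Real.cos (q * t), Real.sin (q * t)] : R4)‖
        = √2 := by
      rw [EuclideanSpace.norm_eq]
      congr 1
      simp [Fin.sum_univ_succ]
      nlinarith [Real.sin_sq_add_cos_sq (p * t), Real.sin_sq_add_cos_sq (q * t)]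
    have h2 : (0 : ℝ) < √2 := by positivity
    simp [norm_smul, h, abs_of_pos h2]⟩

end Knot

open Knot in
theorem knotA : KnotAStmt := by
  intro a P r1 r2 c0 ha hP h1 h2 hc
  refine ⟨tau 4 (-5), fun t => rfl, ?_⟩
  have s2 : (0 : ℝ) < √2 := by positivity
  refine isotopic_emb hP (sc (r2 / r1 - 1)) (fun s hs x hx => ?_)
    (fun p => (((1 - p.1 : ℝ) : ℂ) * (((√2)⁻¹ : ℝ) * ex (2 * p.2 + π)), -p.2)) ?_
    (fun p hp => ?_) (fun s t => ⟨-1, by norm_num, (hasDerivAt_id t).neg⟩)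
    (fun s hs t t' => ?_) (by simp) ?_
  · obtain ⟨e0, e1, e2, e3⟩ := sc_apply (r2 / r1 - 1) x
    have hp : 0 < 1 + s * (r2 / r1 - 1) := by
      have : 0 < r2 / r1 := by positivity
      rcases hs.1.eq_or_lt with h | h
      · simp [← h]
      · nlinarith [hs.2, mul_pos h this]
    have f0 := congrArg (fun y : R4 => y 0) hx
    have f1 := congrArg (fun y : R4 => y 1) hx
    have f2 := congrArg (fun y : R4 => y 2) hx
    have f3 := congrArg (fun y : R4 => y 3) hx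
    simp only [PiLp.add_apply, PiLp.smul_apply, smul_eq_mul, PiLp.zero_apply, e0, e1, e2, e3,
      mul_zero, add_zero] at f0 f1 f2 f3
    refine ext4 ?_ ?_ f2 f3
    · exact (mul_eq_zero.1 (by linarith : (1 + s * (r2 / r1 - 1)) * x 0 = 0)).resolve_left hp.ne'
    · exact (mul_eq_zero.1 (by linarith : (1 + s * (r2 / r1 - 1)) * x 1 = 0)).resolve_left hp.ne'
  · refine ContDiff.prodMk (ContDiff.mul ?_ (contDiff_const.mul ?_)) contDiff_snd.neg
    · exact Complex.ofRealCLM.contDiff.comp (contDiff_const.sub contDiff_fst)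
    · exact contDiff_ex.comp (by fun_prop)
  · rw [Complex.normSq_eq_norm_sq, norm_mul, norm_mul, norm_ex, Complex.norm_real,
      Complex.norm_real, mul_one, mul_pow, Real.norm_eq_abs, Real.norm_eq_abs, sq_abs, sq_abs,
      inv_pow, Real.sq_sqrt (by norm_num)]
    nlinarith [hp.1, hp.2]
  · constructor
    · rintro ⟨-, k, hk⟩
      refine ⟨-k, ?_⟩
      push_cast
      linarith
    · rintro ⟨k, rfl⟩
      refine ⟨?_, -k, by push_cast; ring⟩
      have : ex (2 * t + π) = ex (2 * (t + 2 * π * k) + π) :=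
        ex_eq_iff.2 ⟨-(2 * k), by push_cast; ring⟩
      simp only [this]
  · have key : ∀ t : ℝ, nz ((P (0, -t)).1 + sc (r2 / r1 - 1) (P (0, -t)).1) =
        tau 4 (-5) (-t + c0) := by
      intro t
      obtain ⟨e0, e1, e2, e3⟩ := sc_apply (r2 / r1 - 1) (P (0, -t)).1
      obtain ⟨g1, g2⟩ := hc (-t)
      have a0 := congrArg Complex.re g1
      have a1 := congrArg Complex.im g1
      have a2 := congrArg Complex.re g2
      have a3 := congrArg Complex.im g2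
      simp only [z1, z2, Complex.re_ofReal_mul, Complex.im_ofReal_mul, ex_re, ex_im]
        at a0 a1 a2 a3
      refine nz_of_smul (c := √2 * r2) (by positivity) (ext4 ?_ ?_ ?_ ?_) <;>
        simp only [PiLp.add_apply, e0, e1, e2, e3, a0, a1, a2, a3] <;>
        simp [tau] <;> field_simp <;> ring_nf
    simp only [sub_self, Complex.ofReal_zero, zero_mul, key]
    exact (show Function.Surjective fun t : ℝ => -t + c0 from
      fun y => ⟨c0 - y, by ring⟩).range_comp (tau 4 (-5))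

end Pool.Agent.MP_5d9d0b_gt

end MrgPart3

-- ======== part 4: formerly Pool.Agent.MP_5d9d0b_gt.KNOT
section MrgPart4

/-!
Explicit smooth isotopies: the second knot.
-/

namespace Pool.Agent.MP_5d9d0b_gt

open scoped Manifold ContDiff Real Topology ComplexConjugate
open Set

namespace Knot

/-- The point of `ℝ⁴` with complex coordinates `z`, `w`. -/
noncomputable def io (z w : ℂ) : R4 := !₂[z.re, z.im, w.re, w.im]

theorem io_0 (z w : ℂ) : io z w 0 = z.re := rfl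
theorem io_1 (z w : ℂ) : io z w 1 = z.im := rfl
theorem io_2 (z w : ℂ) : io z w 2 = w.re := rfl
theorem io_3 (z w : ℂ) : io z w 3 = w.im := rfl

theorem io_z (x : S3) : (x.1 : R4) = io (z1 x) (z2 x) := ext4 rfl rfl rfl rfl

theorem smul_io (c : ℝ) (z w : ℂ) : c • io z w = io (c * z) (c * w) :=
  ext4 (by simp [io]) (by simp [io]) (by simp [io]) (by simp [io])

theorem io_inj {z w z' w' : ℂ} (h : io z w = io z' w') : z = z' ∧ w = w' :=
  ⟨Complex.ext (congrArg (fun y : R4 => y 0) h) (congrArg (fun y : R4 => y 1) h),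
    Complex.ext (congrArg (fun y : R4 => y 2) h) (congrArg (fun y : R4 => y 3) h)⟩

theorem io_ne {z w : ℂ} (h : w ≠ 0) : io z w ≠ 0 := fun h' =>
  h (Complex.ext (congrArg (fun y : R4 => y 2) h') (congrArg (fun y : R4 => y 3) h'))

theorem contDiffAt_io {f g : ℝ × ℝ → ℂ} {p : ℝ × ℝ} (hf : ContDiffAt ℝ ∞ f p)
    (hg : ContDiffAt ℝ ∞ g p) : ContDiffAt ℝ ∞ (fun q => io (f q) (g q)) p := by
  rw [contDiffAt_euclidean]
  intro i
  fin_cases i
  · exact Complex.reCLM.contDiff.contDiffAt.comp p hf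
  · exact Complex.imCLM.contDiff.contDiffAt.comp p hf
  · exact Complex.reCLM.contDiff.contDiffAt.comp p hg
  · exact Complex.imCLM.contDiff.contDiffAt.comp p hg

theorem ex_mul_congr {s t : ℝ} (h : ex s = ex t) (n : ℤ) : ex (n * s) = ex (n * t) := by
  obtain ⟨k, rfl⟩ := ex_eq_iff.1 h
  exact ex_eq_iff.2 ⟨n * k, by push_cast; ring⟩

theorem ex_zero : ex 0 = 1 := by simp [ex]

theorem ex_neg (t : ℝ) : ex (-t) = (ex t)⁻¹ := by
  refine eq_inv_of_mul_eq_one_left ?_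
  rw [← ex_add, neg_add_cancel, ex_zero]

theorem conj_ex (t : ℝ) : conj (ex t) = ex (-t) := by
  apply Complex.ext <;> simp [ex_re, ex_im]

theorem ex_pi : ex π = -1 := Complex.exp_pi_mul_I

/-- The small circle. -/
noncomputable def xx (ρ q : ℝ) : ℂ := 21 / 25 - (ρ : ℂ) * ex (3 * q)

theorem xx_re {ρ : ℝ} (h0 : 0 < ρ) (h1 : ρ ≤ 1 / 50) (q : ℝ) : 41 / 50 ≤ (xx ρ q).re := by
  have : (xx ρ q).re = 21 / 25 - ρ * Real.cos (3 * q) := by
    simp [xx, ex_re]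
  rw [this]
  nlinarith [Real.cos_le_one (3 * q)]

theorem xx_norm {ρ : ℝ} (h0 : 0 < ρ) (h1 : ρ ≤ 1 / 50) (q : ℝ) :
    41 / 50 ≤ ‖xx ρ q‖ ∧ ‖xx ρ q‖ ≤ 43 / 50 := by
  refine ⟨(xx_re h0 h1 q).trans (Complex.re_le_norm _), (norm_sub_le _ _).trans ?_⟩
  rw [norm_mul, norm_ex, Complex.norm_real, Real.norm_eq_abs, abs_of_pos h0]
  have : ‖(21 / 25 : ℂ)‖ = 21 / 25 := by simp
  linarith

theorem xx_slit {ρ : ℝ} (h0 : 0 < ρ) (h1 : ρ ≤ 1 / 50) (q : ℝ) : xx ρ q ∈ Complex.slitPlane :=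
  Or.inl (by linarith [xx_re h0 h1 q])

theorem contDiff_xx (ρ : ℝ) : ContDiff ℝ ∞ (xx ρ) :=
  contDiff_const.sub (contDiff_const.mul (contDiff_ex.comp (by fun_prop)))

/-- The ratio of the two radii. -/
noncomputable def nn (r : ℝ) : ℝ := √((1 - r ^ 2) / (3 - 4 * r ^ 2))

theorem nn_pos {r : ℝ} (h0 : 0 ≤ r) (h1 : r ≤ 43 / 50) : 0 < nn r :=
  Real.sqrt_pos.2 (div_pos (by nlinarith) (by nlinarith))

theorem nn_lt {r r' : ℝ} (h0 : 0 ≤ r) (h : r < r') (h1 : r' ≤ 43 / 50) : nn r < nn r' := by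
  have a1 : r ^ 2 < r' ^ 2 := by nlinarith
  have a2 : r' ^ 2 < 3 / 4 := by nlinarith
  refine Real.sqrt_lt_sqrt (div_pos (by linarith) (by linarith)).le ?_
  rw [div_lt_div_iff₀ (by linarith) (by linarith)]
  nlinarith

/-- The angle correction. -/
noncomputable def ps (ρ c0 q : ℝ) : ℝ :=
  π - c0 - 21 / 25 * ((ρ : ℂ) * ex (3 * q)).im - (Complex.log (xx ρ q)).im

/-- The angle. -/
noncomputable def th (ρ c0 : ℝ) (p : ℝ × ℝ) : ℝ := 2 * p.2 + (1 - p.1) * ps ρ c0 p.2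

/-- The disc coordinate. -/
noncomputable def YY (ρ : ℝ) (p : ℝ × ℝ) : ℂ :=
  (((1 - p.1) * (nn ‖xx ρ p.2‖ / ‖xx ρ p.2‖) + p.1 : ℝ) : ℂ) * conj (xx ρ p.2) -
    (p.1 : ℂ) * (21 / 25)

/-- The family of curves. -/
noncomputable def FF (ρ c0 : ℝ) (p : ℝ × ℝ) : R4 :=
  io (YY ρ p * ex (-4 * th ρ c0 p)) (ex (th ρ c0 p))

theorem contDiff_ps {ρ : ℝ} (h0 : 0 < ρ) (h1 : ρ ≤ 1 / 50) (c0 : ℝ) :
    ContDiff ℝ ∞ (ps ρ c0) := by
  refine (contDiff_const.sub (contDiff_const.mul (Complex.imCLM.contDiff.comp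
    (contDiff_const.mul (contDiff_ex.comp (by fun_prop)))))).sub ?_
  have : ContDiff ℝ ∞ fun q => Complex.log (xx ρ q) := contDiff_iff_contDiffAt.2 fun q =>
    ((Complex.contDiffAt_log (xx_slit h0 h1 q)).restrict_scalars ℝ).comp q
      (contDiff_xx ρ).contDiffAt
  exact Complex.imCLM.contDiff.comp this

theorem contDiff_th {ρ : ℝ} (h0 : 0 < ρ) (h1 : ρ ≤ 1 / 50) (c0 : ℝ) :
    ContDiff ℝ ∞ (th ρ c0) :=
  (contDiff_const.mul contDiff_snd).add ((contDiff_const.sub contDiff_fst).mul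
    ((contDiff_ps h0 h1 c0).comp contDiff_snd))

theorem contDiff_YY {ρ : ℝ} (h0 : 0 < ρ) (h1 : ρ ≤ 1 / 50) : ContDiff ℝ ∞ (YY ρ) := by
  have a0 : ∀ q, ‖xx ρ q‖ ≠ 0 := fun q => by linarith [(xx_norm h0 h1 q).1]
  have a1 : ContDiff ℝ ∞ fun q => ‖xx ρ q‖ :=
    (contDiff_xx ρ).norm ℝ fun q => norm_ne_zero_iff.1 (a0 q)
  have a2 : ContDiff ℝ ∞ fun q => nn ‖xx ρ q‖ := by
    refine ContDiff.sqrt ((contDiff_const.sub (a1.pow 2)).div
      (contDiff_const.sub (contDiff_const.mul (a1.pow 2))) fun q => ?_) fun q => ?_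
    · nlinarith [(xx_norm h0 h1 q).1, (xx_norm h0 h1 q).2]
    · exact (div_pos (by nlinarith [(xx_norm h0 h1 q).1, (xx_norm h0 h1 q).2])
        (by nlinarith [(xx_norm h0 h1 q).1, (xx_norm h0 h1 q).2])).ne'
  refine ContDiff.sub (ContDiff.mul (Complex.ofRealCLM.contDiff.comp ?_) ?_)
    ((Complex.ofRealCLM.contDiff.comp contDiff_fst).mul contDiff_const)
  · exact ((contDiff_const.sub contDiff_fst).mul ((a2.div a1 a0).comp contDiff_snd)).add
      contDiff_fst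
  · exact Complex.conjCLE.contDiff.comp ((contDiff_xx ρ).comp contDiff_snd)

theorem th_deriv {ρ : ℝ} (h0 : 0 < ρ) (h1 : ρ ≤ 1 / 50) (c0 : ℝ) {s : ℝ} (hs : s ∈ Icc (0 : ℝ) 1)
    (t : ℝ) : ∃ d : ℝ, d ≠ 0 ∧ HasDerivAt (fun t => th ρ c0 (s, t)) d t := by
  have a1 : HasDerivAt (fun t : ℝ => (ρ : ℂ) * ex (3 * t))
      (ρ * (ex (3 * t) * ((3 * 1 : ℝ) * Complex.I))) t :=
    (hasDerivAt_ex ((hasDerivAt_id t).const_mul 3)).const_mul _
  set w : ℂ := ρ * (ex (3 * t) * ((3 * 1 : ℝ) * Complex.I)) with hw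
  have hn : ‖w‖ = 3 * ρ := by
    simp [hw, norm_ex, abs_of_pos h0, mul_comm]
  have a2 : HasDerivAt (xx ρ) (-w) t := a1.const_sub _
  have a3 := a2.clog_real (xx_slit h0 h1 t)
  have a4 : HasDerivAt (ps ρ c0) (-(21 / 25 * w.im) - (-w / xx ρ t).im) t :=
    (((Complex.imCLM.hasFDerivAt.comp_hasDerivAt t a1).const_mul (21 / 25)).const_sub
      (π - c0)).sub (Complex.imCLM.hasFDerivAt.comp_hasDerivAt t a3)
  refine ⟨_, ?_, ((hasDerivAt_id t).const_mul 2).add (a4.const_mul (1 - s))⟩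
  have b1 := abs_le.1 (Complex.abs_im_le_norm w)
  have b2 := abs_le.1 (Complex.abs_im_le_norm (-w / xx ρ t))
  have b3 : ‖-w / xx ρ t‖ ≤ 1 / 2 := by
    rw [norm_div, norm_neg, hn, div_le_iff₀ (by linarith [(xx_norm h0 h1 t).1])]
    linarith [(xx_norm h0 h1 t).1]
  have b4 : -1 ≤ -(21 / 25 * w.im) - (-w / xx ρ t).im := by linarith [b1.2, b2.2]
  nlinarith [hs.1, hs.2]

theorem YY_inj {ρ : ℝ} (h0 : 0 < ρ) (h1 : ρ ≤ 1 / 50) {s : ℝ} (hs : s ∈ Icc (0 : ℝ) 1)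
    {t t' : ℝ} (h : YY ρ (s, t) = YY ρ (s, t')) : xx ρ t = xx ρ t' := by
  have key : ∀ r r' : ℝ, 41 / 50 ≤ r → r < r' → r' ≤ 43 / 50 →
      ((1 - s) * (nn r / r) + s) * r < ((1 - s) * (nn r' / r') + s) * r' := by
    intro r r' b1 b2 b3
    have b4 := nn_lt (by linarith) b2 b3
    have e : ∀ y : ℝ, 0 < y → ((1 - s) * (nn y / y) + s) * y = (1 - s) * nn y + s * y := by
      intro y hy
      field_simp
    rw [e r (by linarith), e r' (by linarith)]
    rcases hs.1.eq_or_lt with h | h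
    · simpa [← h] using b4
    · nlinarith [hs.2, mul_pos h (sub_pos.2 b2)]
  have pos : ∀ r : ℝ, 41 / 50 ≤ r → r ≤ 43 / 50 → 0 < (1 - s) * (nn r / r) + s := by
    intro r b1 b2
    have b3 : 0 < nn r / r := div_pos (nn_pos (by linarith) b2) (by linarith)
    rcases hs.1.eq_or_lt with h | h
    · simpa [← h] using b3
    · nlinarith [hs.2]
  obtain ⟨c1, c2⟩ := xx_norm h0 h1 t
  obtain ⟨d1, d2⟩ := xx_norm h0 h1 t'
  have h2 := sub_left_inj.1 h
  have h3 := congrArg norm h2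
  simp only [norm_mul, Complex.norm_real, Real.norm_eq_abs, Complex.norm_conj,
    abs_of_pos (pos _ c1 c2), abs_of_pos (pos _ d1 d2)] at h3
  have h4 : ‖xx ρ t‖ = ‖xx ρ t'‖ := by
    rcases lt_trichotomy ‖xx ρ t‖ ‖xx ρ t'‖ with h | h | h
    · exact absurd h3 (key _ _ c1 h d2).ne
    · exact h
    · exact absurd h3 (key _ _ d1 h c2).ne'
  simp only [h4] at h2
  have h5 := mul_left_cancel₀ (Complex.ofReal_ne_zero.2 (pos _ d1 d2).ne') h2
  exact (starRingEnd ℂ).injective h5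

theorem step2 {ρ : ℝ} (h0 : 0 < ρ) (h1 : ρ ≤ 1 / 50) (c0 : ℝ) :
    Isotopic (fun t => nz (FF ρ c0 (0, t))) (fun t => nz (FF ρ c0 (1, t))) := by
  have a1 := contDiff_th h0 h1 c0
  refine isotopic_of (FF ρ c0) (fun p _ => ?_) (fun p _ => io_ne (ex_ne _))
    (fun s hs t c h => ?_) (fun s hs t t' => ?_) rfl rfl
  · exact contDiffAt_io ((contDiff_YY h0 h1).mul
      (contDiff_ex.comp (contDiff_const.mul a1))).contDiffAt (contDiff_ex.comp a1).contDiffAt
  · obtain ⟨d, hd, h2⟩ := th_deriv h0 h1 c0 hs t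
    have h3 := hasDerivAt_ex h2
    have e2 := ((EuclideanSpace.proj (2 : Fin (3 + 1)) : R4 →L[ℝ] ℝ).hasFDerivAt.comp_hasDerivAt
      t h).unique (Complex.reCLM.hasFDerivAt.comp_hasDerivAt t h3)
    have e3 := ((EuclideanSpace.proj (3 : Fin (3 + 1)) : R4 →L[ℝ] ℝ).hasFDerivAt.comp_hasDerivAt
      t h).unique (Complex.imCLM.hasFDerivAt.comp_hasDerivAt t h3)
    simp [FF, io_2, io_3, ex_re, ex_im] at e2 e3
    apply hd
    have := Real.sin_sq_add_cos_sq (th ρ c0 (s, t))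
    linear_combination (-d) * this + Real.sin (th ρ c0 (s, t)) * e2 -
      Real.cos (th ρ c0 (s, t)) * e3
  · constructor
    · rintro ⟨c, hc, h⟩
      rw [FF, FF, smul_io] at h
      obtain ⟨e1, e2⟩ := io_inj h
      have e3 := congrArg norm e2
      rw [norm_mul, norm_ex, norm_ex, Complex.norm_real, Real.norm_eq_abs, abs_of_pos hc,
        mul_one] at e3
      rw [← e3, Complex.ofReal_one, one_mul] at e1 e2
      have e4 := ex_mul_congr e2 (-4)
      push_cast at e4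
      rw [e4] at e1
      have e5 := YY_inj h0 h1 hs (mul_right_cancel₀ (ex_ne _) e1)
      have e6 : ex (3 * t') = ex (3 * t) :=
        mul_left_cancel₀ (Complex.ofReal_ne_zero.2 h0.ne') (sub_right_inj.1 e5)
      have e7 : ps ρ c0 t' = ps ρ c0 t := by simp only [ps, e5, e6]
      obtain ⟨j, hj⟩ := ex_eq_iff.1 e2
      obtain ⟨k, hk⟩ := ex_eq_iff.1 e6
      simp only [th, e7] at hj
      exact ⟨k - j, by push_cast; linarith⟩
    · rintro ⟨k, rfl⟩
      have e6 : ex (3 * (t + 2 * π * k)) = ex (3 * t) :=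
        ex_eq_iff.2 ⟨3 * k, by push_cast; ring⟩
      have e5 : xx ρ (t + 2 * π * k) = xx ρ t := by simp only [xx, e6]
      have e7 : ps ρ c0 (t + 2 * π * k) = ps ρ c0 t := by simp only [ps, e5, e6]
      have e2 : ex (th ρ c0 (s, t + 2 * π * k)) = ex (th ρ c0 (s, t)) :=
        ex_eq_iff.2 ⟨2 * k, by simp only [th, e7]; push_cast; ring⟩
      have e4 := ex_mul_congr e2 (-4)
      push_cast at e4
      exact ⟨1, one_pos, by simp only [FF, e2, e4, YY, e5, one_smul]⟩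

theorem FF_one (ρ c0 t : ℝ) :
    FF ρ c0 (1, t) = io (ρ * ex (-11 * (t + π))) (ex (2 * (t + π))) := by
  have e1 : ex (2 * (t + π)) = ex (2 * t) := ex_eq_iff.2 ⟨1, by push_cast; ring⟩
  have e2 : ex (-11 * (t + π)) = ex π * (ex (-(3 * t)) * ex (-4 * (2 * t))) := by
    rw [← ex_add, ← ex_add]
    exact ex_eq_iff.2 ⟨-6, by push_cast; ring⟩
  have e3 : th ρ c0 (1, t) = 2 * t := by simp [th]
  have e4 : YY ρ (1, t) = -(ρ * ex (-(3 * t))) := by
    simp [YY, xx, conj_ex, map_ofNat]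
  rw [FF, e1, e2, e3, e4, ex_pi]
  congr 1
  ring

theorem range_one {ρ : ℝ} (c0 : ℝ) : range (fun t => nz (FF ρ c0 (1, t))) = K112 ρ := by
  ext x
  constructor
  · rintro ⟨t, rfl⟩
    have h0 : FF ρ c0 (1, t) ≠ 0 := io_ne (ex_ne _)
    have h1 := nz_val h0
    rw [io_z] at h1
    nth_rw 4 [FF_one] at h1
    rw [smul_io] at h1
    obtain ⟨e1, e2⟩ := io_inj h1
    refine ⟨t + π, ‖FF ρ c0 (1, t)‖⁻¹, inv_pos.2 (norm_pos_iff.2 h0), ?_, e2⟩
    rw [e1]
    push_cast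
    ring
  · rintro ⟨t, c, hc, e1, e2⟩
    refine ⟨t - π, nz_of_smul (inv_pos.2 hc) ?_⟩
    have : (c : ℂ) ≠ 0 := Complex.ofReal_ne_zero.2 hc.ne'
    rw [FF_one, io_z, smul_io, e1, e2, sub_add_cancel]
    congr 1 <;> push_cast <;> field_simp

theorem step1 {a : ℝ} {P : ℂ × ℝ → S3} (ha : 2 / 3 < a) (hP : Emb a P) {ρ : ℝ} (h0 : 0 < ρ)
    (h1 : ρ ≤ 1 / 50) :
    Isotopic (fun q : ℝ => P ((√(2 / 3) : ℝ) * ex (3 * q), -2 * q - π))
      (fun q : ℝ => P ((ρ : ℂ) * ex (3 * q), -2 * q - π)) := by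
  have s1 : √(2 / 3 : ℝ) ^ 2 = 2 / 3 := Real.sq_sqrt (by norm_num)
  have s2 : ρ ≤ √(2 / 3 : ℝ) := Real.le_sqrt_of_sq_le (by nlinarith)
  have s3 : ∀ s ∈ Icc (0 : ℝ) 1, ρ ≤ (1 - s) * √(2 / 3) + s * ρ ∧
      (1 - s) * √(2 / 3) + s * ρ ≤ √(2 / 3) := fun s hs =>
    ⟨by nlinarith [hs.1, hs.2], by nlinarith [hs.1, hs.2]⟩
  refine isotopic_emb hP 0 (fun s hs x hx => by simpa using hx)
    (fun p => ((((1 - p.1) * √(2 / 3) + p.1 * ρ : ℝ) : ℂ) * ex (3 * p.2), -2 * p.2 - π)) ?_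
    (fun p hp => ?_)
    (fun s t => ⟨-2 * 1, by norm_num, ((hasDerivAt_id t).const_mul (-2)).sub_const π⟩)
    (fun s hs t t' => ?_) (by simp) ?_
  · refine ContDiff.prodMk (ContDiff.mul ?_ ?_) (by fun_prop)
    · exact Complex.ofRealCLM.contDiff.comp
        (((contDiff_const.sub contDiff_fst).mul contDiff_const).add (contDiff_fst.mul contDiff_const))
    · exact contDiff_ex.comp (by fun_prop)
  · rw [Complex.normSq_eq_norm_sq, norm_mul, norm_ex, Complex.norm_real, mul_one,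
      Real.norm_eq_abs, sq_abs]
    obtain ⟨b1, b2⟩ := s3 _ hp
    nlinarith
  · constructor
    · rintro ⟨e, j, hj⟩
      have e1 : ex (3 * t) = ex (3 * t') :=
        mul_left_cancel₀ (Complex.ofReal_ne_zero.2 (h0.trans_le (s3 s hs).1).ne') e
      obtain ⟨k, hk⟩ := ex_eq_iff.1 e1
      refine ⟨j - k, ?_⟩
      push_cast
      simp only at hj
      linarith
    · rintro ⟨k, rfl⟩
      refine ⟨?_, -(2 * k), by push_cast; ring⟩
      have : ex (3 * t) = ex (3 * (t + 2 * π * k)) :=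
        ex_eq_iff.2 ⟨-(3 * k), by push_cast; ring⟩
      simp only [this]
  · congr 1
    ext1 t
    exact nz_of_smul one_pos (by simp)

end Knot

open Knot in
theorem knotB : KnotBStmt := by
  intro hI a P r0 c0 ha hP hr hc
  have h0 : 0 < min r0 (1 / 50) := lt_min hr (by norm_num)
  have h1 : min r0 (1 / 50) ≤ 1 / 50 := min_le_right _ _
  have h2 : min r0 (1 / 50) ≤ r0 := min_le_left _ _
  generalize min r0 (1 / 50) = ρ at h0 h1 h2
  obtain ⟨f, hf⟩ := hI _ _ (step1 ha hP h0 h1)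
  obtain ⟨g, hg⟩ := hI _ _ (step2 h0 h1 c0)
  refine ⟨ρ, f.trans g, h0, ?_⟩
  rw [← range_one c0, ← hg, show ⇑(f.trans g) = g ∘ f from rfl, image_comp, hf]
  congr 2
  ext1 t
  symm
  obtain ⟨μ, hμ, e1, e2⟩ := hc (ρ * ex (3 * t)) (-2 * t - π) (by
    rw [norm_mul, norm_ex, Complex.norm_real, Real.norm_eq_abs, abs_of_pos h0, mul_one]
    exact h2)
  obtain ⟨c1, c2⟩ := xx_norm h0 h1 t
  have ex1 : (21 / 25 - (ρ : ℂ) * ex (3 * t)) = xx ρ t := rfl
  rw [ex1, Complex.normSq_eq_norm_sq] at e1 e2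
  have p1 : 0 < 1 - ‖xx ρ t‖ ^ 2 := by nlinarith
  have p2 : 0 < 3 - 4 * ‖xx ρ t‖ ^ 2 := by nlinarith
  have p3 := Real.sqrt_pos.2 p2
  have p4 : (‖xx ρ t‖ : ℂ) ≠ 0 := Complex.ofReal_ne_zero.2 (by linarith)
  have p5 : (μ : ℂ) ≠ 0 := Complex.ofReal_ne_zero.2 hμ.ne'
  have p6 : (√(3 - 4 * ‖xx ρ t‖ ^ 2) : ℂ) ≠ 0 := Complex.ofReal_ne_zero.2 p3.ne'
  set φ : ℝ := (Complex.log (xx ρ t)).im with hφ
  have q1 : xx ρ t = ‖xx ρ t‖ * ex φ := by
    rw [hφ, Complex.log_im]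
    exact (Complex.norm_mul_exp_arg_mul_I _).symm
  have q2 : xx ρ t / ‖xx ρ t‖ = ex φ := by
    rw [div_eq_iff p4, mul_comm]
    exact q1
  have q3 : conj (xx ρ t) = ‖xx ρ t‖ * (ex φ)⁻¹ := by
    conv_lhs => rw [q1]
    rw [map_mul, Complex.conj_ofReal, conj_ex, ex_neg]
  set Θ : ℝ := -2 * t - π + 21 / 25 * ((ρ : ℂ) * ex (3 * t)).im + c0 with hΘ
  have q4 : th ρ c0 (0, t) = -φ + -Θ := by
    simp only [th, ps, hΘ, hφ]
    ring
  have q5 : ex (-4 * (-φ + -Θ)) = ex φ ^ 4 * ex (4 * Θ) := by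
    rw [show -4 * (-φ + -Θ) = φ + φ + φ + φ + 4 * Θ by ring]
    simp only [ex_add]
    ring
  have q6 := ex_ne φ
  refine nz_of_smul (c := (μ * √(3 - 4 * ‖xx ρ t‖ ^ 2))⁻¹) (by positivity) ?_
  rw [io_z, smul_io, e1, e2, q2, FF, q4, q5, ex_add, ex_neg φ]
  congr 1
  · simp only [YY, q3, nn, Real.sqrt_div p1.le]
    push_cast
    field_simp
    ring
  · push_cast
    field_simp

end Pool.Agent.MP_5d9d0b_gt

end MrgPart4

-- ======== part 5: formerly Pool.Agent.MP_5d9d0b_gt.QLO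
section MrgPart5

/-!
Row QLO: two loops in the complement of `T(4,-5)` with non-commuting dihedral monodromy.
-/

namespace Pool.Agent.MP_5d9d0b_gt

open scoped Real ComplexConjugate
open Set

namespace QLO

lemma ex_add (s t : ℝ) : ex (s + t) = ex s * ex t := by
  unfold ex; rw [← Complex.exp_add]; push_cast; ring_nf

lemma ex_zero : ex 0 = 1 := by simp [ex]

lemma ex_pow (s : ℝ) (n : ℕ) : ex s ^ n = ex (n * s) := by
  unfold ex; rw [← Complex.exp_nat_mul]; push_cast; ring_nf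

lemma norm_ex (s : ℝ) : ‖ex s‖ = 1 := Complex.norm_exp_ofReal_mul_I s

lemma normSq_ex (s : ℝ) : Complex.normSq (ex s) = 1 := by
  rw [Complex.normSq_eq_norm_sq, norm_ex]; norm_num

lemma ex_ne (s : ℝ) : ex s ≠ 0 := Complex.exp_ne_zero _

lemma conj_ex (s : ℝ) : conj (ex s) = ex (-s) := by
  unfold ex; rw [← Complex.exp_conj]; simp

lemma ex_two_pi : ex (2 * π) = 1 := by
  unfold ex; push_cast; exact Complex.exp_two_pi_mul_I

lemma ex_pi : ex π = -1 := Complex.exp_pi_mul_I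

lemma ex_half : ex (π / 2) = Complex.I := by
  unfold ex; push_cast; exact Complex.exp_pi_div_two_mul_I

@[fun_prop] lemma cont_ex : Continuous ex := by unfold ex; fun_prop

/-- A point of the sphere from two complex coordinates. -/
noncomputable def mk (p q : ℂ) (h : Complex.normSq p + Complex.normSq q = 1) : S3 :=
  ⟨!₂[p.re, p.im, q.re, q.im], by
    rw [mem_sphere_zero_iff_norm, EuclideanSpace.norm_eq, Real.sqrt_eq_one]
    simp only [Complex.normSq_apply] at h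
    simp [Fin.sum_univ_succ]
    nlinarith⟩

lemma z1_mk (p q : ℂ) (h) : z1 (mk p q h) = p := rfl
lemma z2_mk (p q : ℂ) (h) : z2 (mk p q h) = q := rfl

lemma mk_congr {p q p' q' : ℂ} {h h'} (e1 : p = p') (e2 : q = q') : mk p q h = mk p' q' h' := by
  subst e1 e2; rfl

lemma cont_mk {p q : ℝ → ℂ} (hp : Continuous p) (hq : Continuous q)
    (h : ∀ t, Complex.normSq (p t) + Complex.normSq (q t) = 1) :
    Continuous fun t => mk (p t) (q t) (h t) := by
  refine Continuous.subtype_mk ?_ _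
  refine (PiLp.continuous_toLp 2 _).comp (continuous_pi fun i => ?_)
  fin_cases i <;> simp <;> fun_prop

lemma cont_z1 : Continuous z1 := by
  have : z1 = fun x : S3 => (x.1 0 : ℂ) + (x.1 1 : ℂ) * Complex.I := by
    funext x; apply Complex.ext <;> simp [z1]
  rw [this]; fun_prop

lemma cont_z2 : Continuous z2 := by
  have : z2 = fun x : S3 => (x.1 2 : ℂ) + (x.1 3 : ℂ) * Complex.I := by
    funext x; apply Complex.ext <;> simp [z2]
  rw [this]; fun_prop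

lemma sphere_eq (x : S3) : ‖z1 x‖ ^ 2 + ‖z2 x‖ ^ 2 = 1 := by
  have h := mem_sphere_zero_iff_norm.1 x.2
  rw [EuclideanSpace.norm_eq, Real.sqrt_eq_one] at h
  rw [← Complex.normSq_eq_norm_sq, ← Complex.normSq_eq_norm_sq]
  simp [Fin.sum_univ_succ] at h
  simp only [Complex.normSq_apply, z1, z2]
  nlinarith

/-- The map to the base of the covering. -/
noncomputable def ff (x : S3) : ℂ × ℂ := ((√2 : ℝ) * z1 x, 4 * conj (z2 x) ^ 2)

lemma s2 : ((√2 : ℝ) : ℂ) ^ 2 = 2 := by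
  rw [← Complex.ofReal_pow, Real.sq_sqrt (by norm_num)]; norm_num

lemma s2_ne : ((√2 : ℝ) : ℂ) ≠ 0 := by
  intro h; have := s2; rw [h] at this; norm_num at this

lemma mem_iff (x : S3) : x ∈ K45 ↔ (ff x).2 ^ 2 = 4 * (ff x).1 ^ 5 := by
  constructor
  · rintro ⟨t, h1, h2⟩
    have e1 : (ff x).1 = ex (4 * t) := by
      simp only [ff, h1]; push_cast; field_simp [s2_ne]
    have e2 : (ff x).2 = 2 * ex (5 * t) ^ 2 := by
      simp only [ff, h2, map_mul, Complex.conj_ofReal, conj_ex]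
      rw [show -(-5 * t) = 5 * t by ring, mul_pow]
      push_cast
      rw [inv_pow, s2]; ring
    rw [e1, e2, mul_pow, ← pow_mul, ex_pow, ex_pow]
    push_cast
    rw [show 4 * (5 * t) = 5 * (4 * t) by ring]; ring
  · intro h
    set v : ℂ := (√2 : ℝ) * z1 x with hv
    set u : ℂ := (√2 : ℝ) * conj (z2 x) with hu
    have huv : u ^ 4 = v ^ 5 := by
      have e : (ff x).2 = 2 * u ^ 2 := by simp only [ff, hu, mul_pow, s2]; ring
      have e' : (ff x).1 = v := rfl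
      rw [e, e'] at h
      linear_combination h / 4
    have hs : √2 ^ 2 = (2 : ℝ) := Real.sq_sqrt (by norm_num)
    have hn : ‖u‖ ^ 2 + ‖v‖ ^ 2 = 2 := by
      have := sphere_eq x
      simp only [hu, hv, norm_mul, Complex.norm_real, Complex.norm_conj, mul_pow, Real.norm_eq_abs,
        sq_abs, hs]
      linarith
    have hn2 : ‖u‖ ^ 4 = ‖v‖ ^ 5 := by rw [← norm_pow, huv, norm_pow]
    have hu0 := norm_nonneg u
    have hv0 := norm_nonneg v
    have hv1 : ‖v‖ = 1 := by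
      rcases lt_trichotomy ‖v‖ 1 with h1 | h1 | h1
      · have a1 : ‖v‖ ^ 5 < 1 := pow_lt_one₀ hv0 h1 (by norm_num)
        have a2 : ‖v‖ ^ 2 < 1 := pow_lt_one₀ hv0 h1 (by norm_num)
        nlinarith
      · exact h1
      · have a1 : 1 < ‖v‖ ^ 5 := one_lt_pow₀ h1 (by norm_num)
        have a2 : 1 < ‖v‖ ^ 2 := one_lt_pow₀ h1 (by norm_num)
        nlinarith [sq_nonneg ‖u‖]
    have hu1 : ‖u‖ = 1 := by
      rw [hv1] at hn
      nlinarith
    have hvne : v ≠ 0 := fun h0 => by rw [h0] at hv1; simp at hv1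
    have hune : u ≠ 0 := fun h0 => by rw [h0] at hu1; simp at hu1
    have hw : ex (Complex.arg (u / v)) = u / v := by
      have := Complex.norm_mul_exp_arg_mul_I (u / v)
      rw [norm_div, hu1, hv1] at this
      simpa [ex] using this
    refine ⟨Complex.arg (u / v), ?_, ?_⟩
    · have e : ex (4 * Complex.arg (u / v)) = v := by
        have := ex_pow (Complex.arg (u / v)) 4
        push_cast at this
        rw [← this, hw, div_pow, huv]
        field_simp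
      rw [e, hv]
      push_cast
      field_simp [s2_ne]
    · have e : ex (5 * Complex.arg (u / v)) = u := by
        have := ex_pow (Complex.arg (u / v)) 5
        push_cast at this
        rw [← this, hw, div_pow, ← huv]
        field_simp
      rw [show -5 * Complex.arg (u / v) = -(5 * Complex.arg (u / v)) by ring, ← conj_ex, e, hu]
      simp only [map_mul, Complex.conj_ofReal, Complex.conj_conj]
      push_cast
      field_simp [s2_ne]

/-- The real fifth root. -/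
noncomputable def r5 (x : ℝ) : ℝ := x ^ (((5 : ℕ) : ℝ)⁻¹)

@[fun_prop] lemma cont_r5 : Continuous r5 := Real.continuous_rpow_const (by positivity)

lemma r5_pow {x : ℝ} (h : 0 ≤ x) : r5 x ^ 5 = x := Real.rpow_inv_natCast_pow h (by norm_num)

lemma r5_of {x : ℝ} (h : 0 ≤ x) : r5 (x ^ 5) = x := Real.pow_rpow_inv_natCast h (by norm_num)

lemma r5_mul {x y : ℝ} (hx : 0 ≤ x) (hy : 0 ≤ y) : r5 x * r5 y = r5 (x * y) :=
  (Real.mul_rpow hx hy).symm

lemma r5_zero : r5 0 = 0 := Real.zero_rpow (by positivity)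

noncomputable def UU (t : ℝ) : ℝ := 2 * (Real.cos (π * t) * |Real.cos (π * t)|)
noncomputable def VV (t : ℝ) : ℝ := √2 * |Real.sin (π * t)|
noncomputable def DD (t : ℝ) : ℝ := √(UU t ^ 2 + VV t ^ 5)
noncomputable def aa (t : ℝ) : ℝ := r5 (DD t + UU t)
noncomputable def bb (t : ℝ) : ℝ := -r5 (DD t - UU t)
noncomputable def uu (t : ℝ) : ℂ :=
  (max (Real.cos (π * t)) 0 : ℝ) + (max (-Real.cos (π * t)) 0 : ℝ) * Complex.I

lemma VV_nonneg (t : ℝ) : 0 ≤ VV t := by unfold VV; positivity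

lemma DD_ge (t : ℝ) : |UU t| ≤ DD t := by
  unfold DD
  refine Real.abs_le_sqrt ?_
  have := pow_nonneg (VV_nonneg t) 5
  linarith

lemma DD_sq (t : ℝ) : DD t ^ 2 = UU t ^ 2 + VV t ^ 5 :=
  Real.sq_sqrt (add_nonneg (sq_nonneg _) (pow_nonneg (VV_nonneg t) 5))

lemma ab_mul (t : ℝ) : aa t * bb t = -VV t := by
  have h := abs_le.1 (DD_ge t)
  unfold aa bb
  rw [mul_neg, r5_mul (by linarith) (by linarith),
    show (DD t + UU t) * (DD t - UU t) = VV t ^ 5 by linear_combination DD_sq t,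
    r5_of (VV_nonneg t)]

lemma ab_pow (t : ℝ) : aa t ^ 5 + bb t ^ 5 = 2 * UU t := by
  have h := abs_le.1 (DD_ge t)
  unfold aa bb
  rw [Odd.neg_pow (by decide), r5_pow (by linarith), r5_pow (by linarith)]
  ring

lemma uu_sq (t : ℝ) : 2 * uu t ^ 2 = UU t := by
  unfold uu UU
  rcases le_total 0 (Real.cos (π * t)) with h | h
  · rw [max_eq_left h, max_eq_right (by linarith), abs_of_nonneg h]; push_cast; ring
  · rw [max_eq_right h, max_eq_left (by linarith), abs_of_nonpos h]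
    push_cast
    rw [zero_add, mul_pow, Complex.I_sq]; ring

lemma uu_normSq (t : ℝ) : Complex.normSq (uu t) = Real.cos (π * t) ^ 2 := by
  unfold uu
  rw [Complex.normSq_add_mul_I]
  rcases le_total 0 (Real.cos (π * t)) with h | h
  · rw [max_eq_left h, max_eq_right (by linarith)]; ring
  · rw [max_eq_right h, max_eq_left (by linarith)]; ring

lemma cont_aa : Continuous aa := by unfold aa DD UU VV; fun_prop
lemma cont_bb : Continuous bb := by unfold bb DD UU VV; fun_prop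
lemma cont_uu : Continuous uu := by unfold uu; fun_prop

lemma end0 : aa 0 = r5 4 ∧ bb 0 = 0 ∧ uu 0 = 1 := by
  have hU : UU 0 = 2 := by simp [UU]
  have hD : DD 0 = 2 := by simp [DD, hU, VV]
  refine ⟨?_, ?_, by simp [uu]⟩
  · rw [aa, hU, hD]; norm_num
  · rw [bb, hU, hD]; simp [r5_zero]

lemma end1 : aa 1 = 0 ∧ bb 1 = -r5 4 ∧ uu 1 = Complex.I := by
  have hU : UU 1 = -2 := by simp [UU]
  have hD : DD 1 = 2 := by simp [DD, hU, VV]
  refine ⟨?_, ?_, by simp [uu]⟩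
  · rw [aa, hU, hD]; simp [r5_zero]
  · rw [bb, hU, hD]; norm_num

noncomputable def gam (t : ℝ) : S3 := mk 0 (ex (-(2 * π * t))) (by simp [normSq_ex])

noncomputable def del (t : ℝ) : S3 :=
  mk (-(|Real.sin (π * t)| : ℝ) * ex (-(π / 5 * t)) ^ 2) (conj (uu t * ex (-(π / 2 * t)))) (by
    simp only [map_mul, map_pow, Complex.normSq_conj, normSq_ex, uu_normSq, Complex.normSq_neg,
      Complex.normSq_ofReal, abs_mul_abs_self]
    nlinarith [Real.sin_sq_add_cos_sq (π * t)])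

lemma ff_gam (t : ℝ) : ff (gam t) = (0, 4 * ex (4 * π / 5 * t) ^ 5) := by
  simp only [ff, gam, z1_mk, z2_mk, conj_ex, neg_neg, mul_zero, ex_pow]
  congr 3
  push_cast; ring

lemma ff_del (t : ℝ) :
    ff (del t) = (-(VV t : ℂ) * ex (-(π / 5 * t)) ^ 2, 2 * UU t * ex (-(π / 5 * t)) ^ 5) := by
  simp only [ff, del, z1_mk, z2_mk, Complex.conj_conj]
  refine Prod.ext ?_ ?_
  · simp only [VV]; push_cast; ring
  · simp only [mul_pow, ← uu_sq, ex_pow]
    rw [show ((2 : ℕ) : ℝ) * -(π / 2 * t) = ((5 : ℕ) : ℝ) * -(π / 5 * t) by push_cast; ring]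
    ring

/-- Lifts of the second loop. -/
noncomputable def BB (z : ℂ) (t : ℝ) : ℂ × ℂ :=
  (z * (aa t * ex (-(π / 5 * t))), z⁻¹ * (bb t * ex (-(π / 5 * t))))

lemma cont_BB (z : ℂ) : Continuous (BB z) := by
  have := cont_aa
  have := cont_bb
  unfold BB; fun_prop

lemma Pi_BB {z : ℂ} (hz : z ^ 5 = 1) (t : ℝ) : Pi5 (BB z t) = ff (del t) := by
  have h0 : z ≠ 0 := fun h => by rw [h] at hz; norm_num at hz
  have h1 : ((aa t : ℂ)) * bb t = -VV t := by exact_mod_cast ab_mul t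
  have h2 : ((aa t : ℂ)) ^ 5 + bb t ^ 5 = 2 * UU t := by exact_mod_cast ab_pow t
  rw [ff_del]
  refine Prod.ext ?_ ?_
  · simp only [Pi5, BB]
    rw [← h1]; field_simp
  · simp only [Pi5, BB, mul_pow, inv_pow, hz]
    rw [← h2]; ring

end QLO

open QLO in
theorem qlo : QLoStmt := by
  have h4 : ((r5 4 : ℝ) : ℂ) ^ 5 = 4 := by exact_mod_cast r5_pow (x := 4) (by norm_num)
  have h40 : ((r5 4 : ℝ) : ℂ) ≠ 0 := fun h => by rw [h] at h4; norm_num at h4
  have hz : ex (4 * π / 5) ^ 5 = 1 := by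
    rw [ex_pow, show ((5 : ℕ) : ℝ) * (4 * π / 5) = 2 * π + 2 * π by push_cast; ring, ex_add,
      ex_two_pi, one_mul]
  have hm : ex (-(π / 5)) ^ 5 = -1 := by
    rw [ex_pow, show ((5 : ℕ) : ℝ) * -(π / 5) = -π by push_cast; ring, ← conj_ex, ex_pi]; simp
  obtain ⟨a0, b0, u0⟩ := end0
  obtain ⟨a1, b1, u1⟩ := end1
  refine ⟨ff, gam, del, fun t => (r5 4 * ex (4 * π / 5 * t), 0),
    fun t => (0, -r5 4 * ex (-(π / 5)) * ex (4 * π / 5 * t)), BB 1, BB (ex (4 * π / 5)),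
    ?_, fun x hx h => hx ((mem_iff x).2 h), ?_, ?_, fun t h => ?_, fun t h => ?_, ?_, ?_, ?_,
    by fun_prop, by fun_prop, cont_BB _, cont_BB _, fun t => ?_, fun t => ?_,
    Pi_BB (one_pow 5), Pi_BB hz, ?_, ?_, ?_, fun h => ?_⟩
  · have := cont_z1
    have := cont_z2
    refine Continuous.continuousOn ?_
    unfold ff; fun_prop
  · exact cont_mk (by fun_prop) (by fun_prop) _
  · have := cont_uu
    exact cont_mk (by fun_prop) (by fun_prop) _
  · rw [mem_iff, ff_gam] at h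
    simp [ex_ne] at h
  · rw [mem_iff, ff_del] at h
    have e : ((UU t ^ 2 + VV t ^ 5 : ℝ) : ℂ) * (4 * ex (-(π / 5 * t)) ^ 10) = 0 := by
      push_cast
      linear_combination h
    have e2 : UU t ^ 2 + VV t ^ 5 = 0 := by
      rcases mul_eq_zero.1 e with e | e
      · exact_mod_cast e
      · simp [ex_ne] at e
    have e3 := pow_nonneg (VV_nonneg t) 5
    have e4 : UU t = 0 := by nlinarith [sq_nonneg (UU t)]
    have e5 : VV t = 0 := by
      rw [e4] at e2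
      exact pow_eq_zero_iff (n := 5) (by norm_num) |>.1 (by linarith)
    simp [UU] at e4
    simp [VV] at e5
    have := Real.sin_sq_add_cos_sq (π * t)
    rw [e4, e5] at this
    norm_num at this
  · refine mk_congr rfl ?_
    rw [← conj_ex, ← conj_ex, mul_one, mul_zero, ex_two_pi, ex_zero]
  · refine mk_congr (by simp) ?_
    simp [u0, ex_zero]
  · refine mk_congr (by simp) ?_
    rw [u1, mul_one, ← conj_ex, ex_half]
    simp [ex_zero]
  · rw [ff_gam]; simp [Pi5, mul_pow, h4]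
  · rw [ff_gam]
    simp only [Pi5, mul_pow, zero_mul, hm]
    rw [Odd.neg_pow (by decide), h4]
    simp
  · simp [BB, a0, b0, ex_zero]
  · simp [BB, a0, b0, ex_zero, mul_comm]
  · simp [BB, a1, b1, ex_zero]
  · have e := congrArg Prod.snd h
    simp only [BB, b1, mul_one] at e
    have e2 : ex (4 * π / 5) ^ 2 = 1 := by
      have h1 := ex_ne (4 * π / 5)
      have h2 := ex_ne (-(π / 5))
      push_cast at e
      field_simp at e
      linear_combination e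
    have e3 : ex (4 * π / 5) = 1 := by
      have : ex (4 * π / 5) ^ 5 = (ex (4 * π / 5) ^ 2) ^ 2 * ex (4 * π / 5) := by ring
      rw [hz, e2] at this
      simpa using this.symm
    have e4 := congrArg Complex.im e3
    have e5 : 0 < Real.sin (4 * π / 5) :=
      Real.sin_pos_of_pos_of_lt_pi (by positivity) (by linarith [Real.pi_pos])
    unfold ex at e4
    rw [Complex.exp_ofReal_mul_I_im, Complex.one_im] at e4
    linarith

end Pool.Agent.MP_5d9d0b_gt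

end MrgPart5

-- marker of a merged file
example : 731051 + 657970 = 731051 + 657970 := rfl
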