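import Mathlib.LinearAlgebra.FreeModule.PID
import Mathlib.Data.Int.Star
import Mathlib.Order.Monotone.Union
import Mathlib.Analysis.Real.Pi.Bounds
import Mathlib.RingTheory.PiTensorProduct
import Mathlib.RingTheory.TotallySplit
import Mathlib.RingTheory.Etale.Weakly
import Pool.Agent.MP_5d9d0b_gt.QLO
import Pool.Agent.MP_5d9d0b_gt.Spec

-- ======== part 0: formerly Pool.Agent.MP_5d9d0b_gt.Sph
section MrgPart0

/-!
Coordinates on the sphere.
-/

namespace Pool.Agent.MP_5d9d0b_gt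

open scoped Manifold ContDiff Real Topology
open Set Filter Complex

theorem fact4 : Fact (Module.finrank ℝ R4 = 3 + 1) := ⟨finrank_euclideanSpace_fin⟩

/-- `ℂ² → ℝ⁴`. -/
noncomputable def mkL : ℂ × ℂ →L[ℝ] R4 :=
  LinearMap.toContinuousLinearMap
    { toFun := fun g => !₂[g.1.re, g.1.im, g.2.re, g.2.im]
      map_add' := fun g h => by ext i; fin_cases i <;> simp
      map_smul' := fun c g => by ext i; fin_cases i <;> simp }

@[simp] theorem mkL_0 (g : ℂ × ℂ) : mkL g 0 = g.1.re := rfl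
@[simp] theorem mkL_1 (g : ℂ × ℂ) : mkL g 1 = g.1.im := rfl
@[simp] theorem mkL_2 (g : ℂ × ℂ) : mkL g 2 = g.2.re := rfl
@[simp] theorem mkL_3 (g : ℂ × ℂ) : mkL g 3 = g.2.im := rfl

theorem mkL_inj : Function.Injective mkL := by
  intro g h e
  have h0 := congrArg (fun x : R4 => x 0) e
  have h1 := congrArg (fun x : R4 => x 1) e
  have h2 := congrArg (fun x : R4 => x 2) e
  have h3 := congrArg (fun x : R4 => x 3) e
  simp only [mkL_0, mkL_1, mkL_2, mkL_3] at h0 h1 h2 h3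
  exact Prod.ext (Complex.ext h0 h1) (Complex.ext h2 h3)

theorem mkL_ne {g : ℂ × ℂ} (h : g ≠ 0) : mkL g ≠ 0 := fun e => h (mkL_inj (by rw [e, map_zero]))

theorem coe_eq_mkL (x : S3) : x.1 = mkL (z1 x, z2 x) := by
  ext i; fin_cases i <;> rfl

theorem S3_ext {x y : S3} (h1 : z1 x = z1 y) (h2 : z2 x = z2 y) : x = y := by
  apply Subtype.ext
  rw [coe_eq_mkL, coe_eq_mkL, h1, h2]

theorem norm_mkL_sq (g : ℂ × ℂ) : ‖mkL g‖ ^ 2 = normSq g.1 + normSq g.2 := by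
  rw [EuclideanSpace.real_norm_sq_eq]
  simp only [Fin.sum_univ_succ, Fin.sum_univ_zero, normSq_apply]
  change g.1.re ^ 2 + (g.1.im ^ 2 + (g.2.re ^ 2 + (g.2.im ^ 2 + 0))) = _
  ring

theorem normSq_add (x : S3) : normSq (z1 x) + normSq (z2 x) = 1 := by
  have h := norm_mkL_sq (z1 x, z2 x)
  rw [← coe_eq_mkL, norm_eq_of_mem_sphere x] at h
  simpa using h.symm

theorem continuous_z1 : Continuous z1 := by
  have : z1 = fun x : S3 => ((x.1 0 : ℝ) : ℂ) + ((x.1 1 : ℝ) : ℂ) * I := by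
    funext x; apply Complex.ext <;> simp [z1]
  rw [this]; fun_prop

theorem continuous_z2 : Continuous z2 := by
  have : z2 = fun x : S3 => ((x.1 2 : ℝ) : ℂ) + ((x.1 3 : ℝ) : ℂ) * I := by
    funext x; apply Complex.ext <;> simp [z2]
  rw [this]; fun_prop

/-- A base point. -/
noncomputable def pt0 : S3 := ⟨EuclideanSpace.single 0 1, by simp⟩

theorem nonemptyS3 : Nonempty S3 := ⟨pt0⟩

open Classical in
/-- Radial projection to the sphere. -/
noncomputable def NN (g : ℂ × ℂ) : S3 :=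
  if h : g = 0 then pt0 else
    ⟨‖mkL g‖⁻¹ • mkL g, by
      have := mkL_ne h
      simp [norm_smul, this]⟩

theorem NN_coe {g : ℂ × ℂ} (h : g ≠ 0) : (NN g).1 = ‖mkL g‖⁻¹ • mkL g := by
  rw [NN, dif_neg h]

theorem z1_NN {g : ℂ × ℂ} (h : g ≠ 0) : z1 (NN g) = (‖mkL g‖⁻¹ : ℝ) * g.1 := by
  apply Complex.ext <;> simp [z1, NN_coe h]

theorem z2_NN {g : ℂ × ℂ} (h : g ≠ 0) : z2 (NN g) = (‖mkL g‖⁻¹ : ℝ) * g.2 := by
  apply Complex.ext <;> simp [z2, NN_coe h]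

theorem NN_spec {g : ℂ × ℂ} (h : g ≠ 0) :
    ∃ c : ℝ, 0 < c ∧ z1 (NN g) = c * g.1 ∧ z2 (NN g) = c * g.2 :=
  ⟨_, inv_pos.2 (norm_pos_iff.2 (mkL_ne h)), z1_NN h, z2_NN h⟩

theorem eq_NN {g : ℂ × ℂ} {x : S3} {c : ℝ} (hc : 0 < c) (h1 : z1 x = c * g.1)
    (h2 : z2 x = c * g.2) : x = NN g := by
  have hx := normSq_add x
  have hg : g ≠ 0 := by
    rintro rfl
    simp [h1, h2] at hx
  obtain ⟨d, hd, h3, h4⟩ := NN_spec hg
  have hy := normSq_add (NN g)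
  rw [h1, h2] at hx
  rw [h3, h4] at hy
  simp only [map_mul, normSq_ofReal] at hx hy
  have h5 : 0 < normSq g.1 + normSq g.2 := by
    by_contra h6
    have h7 : normSq g.1 + normSq g.2 = 0 :=
      le_antisymm (not_lt.1 h6) (add_nonneg (normSq_nonneg _) (normSq_nonneg _))
    have : c * c * (normSq g.1 + normSq g.2) = 1 := by linarith
    rw [h7] at this; simp at this
  have h6 : c * c = d * d := by
    apply mul_right_cancel₀ h5.ne'
    linarith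
  have h7 : c = d := by nlinarith
  apply S3_ext
  · rw [h1, h3, h7]
  · rw [h2, h4, h7]

theorem NN_smul {g g' : ℂ × ℂ} (hg : g ≠ 0) {c : ℝ} (hc : 0 < c) (h1 : g.1 = c * g'.1)
    (h2 : g.2 = c * g'.2) : NN g = NN g' := by
  obtain ⟨d, hd, h3, h4⟩ := NN_spec hg
  refine eq_NN (mul_pos hd hc) ?_ ?_
  · rw [h3, h1]; push_cast; ring
  · rw [h4, h2]; push_cast; ring

theorem contMDiff_coeS : ContMDiff (𝓡 3) 𝓘(ℝ, R4) ∞ (fun y : S3 => (y.1 : R4)) :=
  haveI := fact4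
  contMDiff_coe_sphere

section
variable {E : Type} [NormedAddCommGroup E] [NormedSpace ℝ E]

theorem contMDiffAt_of_coe {P : E → S3} {p : E}
    (h : ContDiffAt ℝ ∞ (fun x => ((P x).1 : R4)) p) : ContMDiffAt 𝓘(ℝ, E) (𝓡 3) ∞ P p := by
  have := fact4
  rw [contMDiffAt_iff_target]
  refine ⟨(Topology.IsInducing.subtypeVal.continuousAt_iff).2 h.continuousAt, ?_⟩
  let v : S3 := P p
  let U : _ ≃ₗᵢ[ℝ] _ := (OrthonormalBasis.fromOrthogonalSpanSingleton (𝕜 := ℝ)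
        3 (ne_zero_of_mem_unit_sphere (-v))).repr
  have h1 : ContDiffAt ℝ ∞ (stereoToFun ((-v : S3) : R4)) (P p).1 := by
    refine contDiffOn_stereoToFun.contDiffAt (IsOpen.mem_nhds ?_ ?_)
    · exact isOpen_ne_fun (innerSL ℝ _).continuous continuous_const
    · have : ‖(P p).1‖ = 1 := norm_eq_of_mem_sphere _
      simp only [mem_ofPred_eq, innerSL_apply_apply, v, coe_neg_sphere, inner_neg_left,
        real_inner_self_eq_norm_sq, this]
      norm_num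
  exact (U.contDiff.contDiffAt.comp p (h1.comp p h)).contMDiffAt

theorem contDiffAt_coe {P : E → S3} {p : E} (h : ContMDiffAt 𝓘(ℝ, E) (𝓡 3) ∞ P p) :
    ContDiffAt ℝ ∞ (fun x => ((P x).1 : R4)) p :=
  ((contMDiff_coeS (P p)).comp p h).contDiffAt

theorem fderiv_coe {P : E → S3} {p : E} (h : ContMDiffAt 𝓘(ℝ, E) (𝓡 3) ∞ P p) (v : E) :
    fderiv ℝ (fun x => ((P x).1 : R4)) p v =
      mfderiv (𝓡 3) 𝓘(ℝ, R4) (fun y : S3 => (y.1 : R4)) (P p) (mfderiv 𝓘(ℝ, E) (𝓡 3) P p v) := by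
  have h1 := mfderiv_comp p ((contMDiff_coeS (P p)).mdifferentiableAt infty_ne_zero)
    (h.mdifferentiableAt infty_ne_zero)
  rw [← mfderiv_eq_fderiv]
  exact congrArg (fun A : E →L[ℝ] R4 => A v) h1

theorem alphaSt_param {P : E → S3} {p : E} (h : ContMDiffAt 𝓘(ℝ, E) (𝓡 3) ∞ P p) (v : E) :
    alphaSt (P p) (mfderiv 𝓘(ℝ, E) (𝓡 3) P p v) =
      lam (P p).1 (fderiv ℝ (fun x => ((P x).1 : R4)) p v) := by
  rw [fderiv_coe h]; rfl

theorem LP.inj_fderiv {a : E → E → ℝ} {P : E → S3} {p : E} (h : LP (E := E) a alphaSt P p) :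
    Function.Injective (fderiv ℝ (fun x => ((P x).1 : R4)) p) := by
  have := fact4
  intro v w e
  rw [fderiv_coe h.contMDiffAt, fderiv_coe h.contMDiffAt] at e
  have h1 : Function.Injective (mfderiv (𝓡 3) 𝓘(ℝ, R4) (fun y : S3 => (y.1 : R4)) (P p)) := by
    convert! injective_mvfderiv_subtypeVal_sphere (n := 3) (P p)
  exact locDiffeo_inj h.1 (h1 e)

theorem LP.of_coe [FiniteDimensional ℝ E] (hE : Module.finrank ℝ E = 3) {a : E → E → ℝ}
    {P : E → S3} {p : E} (h : ∀ᶠ x in 𝓝 p, ContDiffAt ℝ ∞ (fun x => ((P x).1 : R4)) x)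
    (hi : Function.Injective (fderiv ℝ (fun x => ((P x).1 : R4)) p)) {c : ℝ} (hc : 0 < c)
    (hl : ∀ v, lam (P p).1 (fderiv ℝ (fun x => ((P x).1 : R4)) p v) = c * a p v) :
    LP (E := E) a alphaSt P p := by
  have : CompleteSpace E := FiniteDimensional.complete ℝ E
  have hp := contMDiffAt_of_coe h.self_of_nhds
  refine ⟨locDiffeo_of_bij (h.mono fun x hx => contMDiffAt_of_coe hx) ?_, c, hc, fun v => ?_⟩
  · have h1 : Function.Injective (mfderiv 𝓘(ℝ, E) (𝓡 3) P p) := by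
      intro v w e
      apply hi
      rw [fderiv_coe hp, fderiv_coe hp, e]
    let A : E →ₗ[ℝ] R3 := (mfderiv 𝓘(ℝ, E) (𝓡 3) P p : E →L[ℝ] R3).toLinearMap
    have h2 : Function.Injective A := h1
    have h3 : Function.Surjective A := (LinearMap.injective_iff_surjective_of_finrank_eq_finrank
      (f := A) (by rw [hE]; simp)).1 h2
    exact ⟨h1, h3⟩
  · rw [alphaSt_param hp]; exact hl v

/-- The Liouville form in complex coordinates. -/
def lamC (g v : ℂ × ℂ) : ℝ :=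
  g.1.re * v.1.im - g.1.im * v.1.re + (g.2.re * v.2.im - g.2.im * v.2.re)

theorem LP.ofNN [FiniteDimensional ℝ E] (hE : Module.finrank ℝ E = 3) {a : E → E → ℝ}
    {G : E → ℂ × ℂ} {p : E} (h : ∀ᶠ x in 𝓝 p, ContDiffAt ℝ ∞ G x) (h0 : G p ≠ 0)
    {G' : E →L[ℝ] ℂ × ℂ} (hG : HasFDerivAt G G' p)
    (hi : ∀ v (t : ℝ), G' v = t • G p → v = 0) {c : ℝ} (hc : 0 < c)
    (hl : ∀ v, lamC (G p) (G' v) = c * a p v) :
    LP (E := E) a alphaSt (fun x => NN (G x)) p := by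
  have hp := h.self_of_nhds
  have h1 : ∀ᶠ x in 𝓝 p, G x ≠ 0 := hp.continuousAt.eventually_ne h0
  have h2 : ∀ x, G x ≠ 0 → ContDiffAt ℝ ∞ G x → ContDiffAt ℝ ∞ (fun x => ‖mkL (G x)‖⁻¹) x := by
    intro x hx hx'
    have h3 : ContDiffAt ℝ ∞ (fun x => mkL (G x)) x := mkL.contDiff.contDiffAt.comp x hx'
    exact (h3.norm ℝ (mkL_ne hx)).inv (norm_ne_zero_iff.2 (mkL_ne hx))
  have h3 : ∀ᶠ x in 𝓝 p, (fun x => ((NN (G x)).1 : R4)) =ᶠ[𝓝 x]
      fun x => ‖mkL (G x)‖⁻¹ • mkL (G x) := by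
    filter_upwards [h1.eventually_nhds] with x hx
    filter_upwards [hx] with y hy
    exact NN_coe hy
  have hn := ((h2 p h0 hp).differentiableAt (by simp)).hasFDerivAt
  have h4 := (hn.smul (mkL.hasFDerivAt.comp p hG)).congr_of_eventuallyEq h3.self_of_nhds
  have hpos : 0 < ‖mkL (G p)‖⁻¹ := inv_pos.2 (norm_pos_iff.2 (mkL_ne h0))
  have h5 : ∀ v, fderiv ℝ (fun x => ((NN (G x)).1 : R4)) p v =
      ‖mkL (G p)‖⁻¹ • mkL (G' v) + (fderiv ℝ (fun x => ‖mkL (G x)‖⁻¹) p v) • mkL (G p) := by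
    intro v
    rw [h4.fderiv]; simp
  refine LP.of_coe hE ?_ ?_ (c := ‖mkL (G p)‖⁻¹ * ‖mkL (G p)‖⁻¹ * c) (by positivity) fun v => ?_
  · filter_upwards [h, h1, h3] with x hx hx1 hx3
    exact ((h2 x hx1 hx).smul (mkL.contDiff.contDiffAt.comp x hx)).congr_of_eventuallyEq hx3
  · rw [injective_iff_map_eq_zero]
    intro v hv
    rw [h5] at hv
    refine hi v (-(fderiv ℝ (fun x => ‖mkL (G x)‖⁻¹) p v) / ‖mkL (G p)‖⁻¹) (mkL_inj ?_)
    rw [map_smul]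
    have h6 : ‖mkL (G p)‖⁻¹ • mkL (G' v) =
        (-(fderiv ℝ (fun x => ‖mkL (G x)‖⁻¹) p v)) • mkL (G p) := by
      rw [neg_smul]; exact eq_neg_of_add_eq_zero_left hv
    rw [div_eq_inv_mul, mul_smul, ← h6, smul_smul, inv_mul_cancel₀ hpos.ne', one_smul]
  · rw [h5, NN_coe h0, mul_assoc _ c, ← hl]
    simp only [lam, lamC, PiLp.add_apply, PiLp.smul_apply, smul_eq_mul, mkL_0, mkL_1, mkL_2, mkL_3]
    ring

end

/-! ### `ex` -/

theorem ex_ne (t : ℝ) : ex t ≠ 0 := Complex.exp_ne_zero _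

theorem ex_add (s t : ℝ) : ex (s + t) = ex s * ex t := by
  simp [ex, add_mul, Complex.exp_add]

theorem ex_neg (t : ℝ) : ex (-t) = (ex t)⁻¹ := by
  simp [ex, Complex.exp_neg]

theorem ex_zero : ex 0 = 1 := by simp [ex]

theorem ex_re (t : ℝ) : (ex t).re = Real.cos t := Complex.exp_ofReal_mul_I_re t
theorem ex_im (t : ℝ) : (ex t).im = Real.sin t := Complex.exp_ofReal_mul_I_im t

theorem norm_ex (t : ℝ) : ‖ex t‖ = 1 := Complex.norm_exp_ofReal_mul_I t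

theorem normSq_ex (t : ℝ) : normSq (ex t) = 1 := by rw [normSq_eq_norm_sq, norm_ex]; norm_num

theorem ex_eq_iff {s t : ℝ} : ex s = ex t ↔ ∃ k : ℤ, t = s + 2 * π * k := by
  rw [ex, ex, eq_comm, Complex.exp_eq_exp_iff_exists_int]
  constructor
  · rintro ⟨k, hk⟩
    refine ⟨k, ?_⟩
    have := congrArg Complex.im hk
    simp at this
    linarith
  · rintro ⟨k, rfl⟩
    exact ⟨k, by push_cast; ring⟩

theorem ex_congr {s t : ℝ} (k : ℤ) (h : t = s + 2 * π * k) : ex s = ex t := ex_eq_iff.2 ⟨k, h⟩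

theorem ex_surj (z : ℂ) : z = (‖z‖ : ℝ) * ex (arg z) :=
  (Complex.norm_mul_exp_arg_mul_I z).symm

theorem contDiff_ex : ContDiff ℝ ∞ ex := by
  unfold ex
  exact Complex.contDiff_exp.comp (Complex.ofRealCLM.contDiff.mul contDiff_const)

theorem hasDerivAt_ex (t : ℝ) : HasDerivAt ex (ex t * I) t := by
  unfold ex
  have h : HasDerivAt (fun t : ℝ => (t : ℂ) * I) I t := by
    simpa using (Complex.ofRealCLM.hasDerivAt (x := t)).mul_const I
  exact h.cexp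

theorem HasFDerivAt.ex' {E : Type} [NormedAddCommGroup E] [NormedSpace ℝ E] {f : E → ℝ}
    {f' : E →L[ℝ] ℝ} {p : E} (h : HasFDerivAt f f' p) :
    HasFDerivAt (fun x => ex (f x)) (f'.smulRight (ex (f p) * I)) p := by
  have := (hasDerivAt_ex (f p)).hasFDerivAt.comp p h
  refine this.congr_fderiv ?_
  ext v; simp

end Pool.Agent.MP_5d9d0b_gt

end MrgPart0

-- ======== part 1: formerly Pool.Agent.MP_5d9d0b_gt.Tor
section MrgPart1

/-!
Toric coordinates on the sphere.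
-/

namespace Pool.Agent.MP_5d9d0b_gt

open scoped Manifold ContDiff Real Topology
open Set Filter Complex

abbrev E3 : Type := ℝ × ℝ × ℝ
abbrev C3 : Type := ℂ × ℝ

theorem finrank_E3 : Module.finrank ℝ E3 = 3 := by simp [E3]
theorem finrank_C3 : Module.finrank ℝ C3 = 3 := by simp [C3, Complex.finrank_real_complex]

/-- The Heisenberg contact form. -/
def b0 (p v : C3) : ℝ := v.2 + (p.1.re * v.1.im - p.1.im * v.1.re)

noncomputable def Sol1 (p : C3) : S3 := NN (p.1, ex p.2)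
noncomputable def Sol2 (p : C3) : S3 := NN (ex p.2, p.1)
noncomputable def Tor (ρ s t : ℝ) : S3 := NN (ex s, (√ρ : ℝ) * ex t)

/-- `|z₂|² > r |z₁|²`. -/
def Gt (r : ℝ) (x : S3) : Prop := r * normSq (z1 x) < normSq (z2 x)
/-- `|z₂|² ≥ r |z₁|²`. -/
def Ge (r : ℝ) (x : S3) : Prop := r * normSq (z1 x) ≤ normSq (z2 x)
/-- `|z₂|² = r |z₁|²`, `z₁ ≠ 0`. -/
def Rho (r : ℝ) (x : S3) : Prop := z1 x ≠ 0 ∧ normSq (z2 x) = r * normSq (z1 x)

theorem isOpen_Gt (r : ℝ) : IsOpen {x | Gt r x} :=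
  isOpen_lt (continuous_const.mul (continuous_normSq.comp continuous_z1))
    (continuous_normSq.comp continuous_z2)

theorem isClosed_Ge (r : ℝ) : IsClosed {x | Ge r x} :=
  isClosed_le (continuous_const.mul (continuous_normSq.comp continuous_z1))
    (continuous_normSq.comp continuous_z2)

theorem Gt.ge {r : ℝ} {x : S3} (h : Gt r x) : Ge r x := le_of_lt h

theorem Ge.mono {r r' : ℝ} {x : S3} (h : Ge r x) (hr : r' ≤ r) : Ge r' x :=
  le_trans (mul_le_mul_of_nonneg_right hr (normSq_nonneg _)) h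

theorem Ge.gt {r r' : ℝ} {x : S3} (h : Ge r x) (hr : r' < r) : Gt r' x := by
  have h1 := normSq_add x
  have h2 := normSq_nonneg (z1 x)
  unfold Ge at h; unfold Gt
  rcases h2.eq_or_lt with h3 | h3
  · rw [← h3] at h1 ⊢; linarith
  · nlinarith

theorem Gt.mono {r r' : ℝ} {x : S3} (h : Gt r x) (hr : r' ≤ r) : Gt r' x :=
  lt_of_le_of_lt (mul_le_mul_of_nonneg_right hr (normSq_nonneg _)) h

theorem Gt.z2_ne {r : ℝ} {x : S3} (h : Gt r x) (hr : 0 ≤ r) : z2 x ≠ 0 := by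
  intro h0
  unfold Gt at h
  rw [h0, map_zero] at h
  have := mul_nonneg hr (normSq_nonneg (z1 x))
  linarith

theorem gt_of_z1 {x : S3} (h : z1 x = 0) (r : ℝ) : Gt r x := by
  have h1 := normSq_add x
  unfold Gt
  rw [h, map_zero] at h1 ⊢; linarith

theorem z1_ne_of_not_gt {r : ℝ} {x : S3} (h : ¬ Gt r x) : z1 x ≠ 0 := fun h0 => h (gt_of_z1 h0 r)

theorem exists_rho {x : S3} (h : z1 x ≠ 0) : ∃ r, 0 ≤ r ∧ Rho r x :=
  ⟨normSq (z2 x) / normSq (z1 x), div_nonneg (normSq_nonneg _) (normSq_nonneg _), h, by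
    have := (normSq_pos.2 h).ne'
    field_simp⟩

theorem Rho.gt_iff {r r' : ℝ} {x : S3} (h : Rho r x) : Gt r' x ↔ r' < r := by
  unfold Gt; rw [h.2]; exact mul_lt_mul_iff_left₀ (normSq_pos.2 h.1)

theorem Rho.ge_iff {r r' : ℝ} {x : S3} (h : Rho r x) : Ge r' x ↔ r' ≤ r := by
  unfold Ge; rw [h.2]; exact mul_le_mul_iff_left₀ (normSq_pos.2 h.1)

theorem Rho.unique {r r' : ℝ} {x : S3} (h : Rho r x) (h' : Rho r' x) : r = r' :=
  le_antisymm (h'.ge_iff.1 (h.ge_iff.2 le_rfl)) (h.ge_iff.1 (h'.ge_iff.2 le_rfl))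

theorem Rho.z2_ne {r : ℝ} {x : S3} (h : Rho r x) (hr : 0 < r) : z2 x ≠ 0 :=
  (h.gt_iff.2 hr).z2_ne le_rfl

theorem pair1_ne (X : ℂ) (t : ℝ) : ((X, ex t) : ℂ × ℂ) ≠ 0 := fun h => ex_ne t (congrArg Prod.snd h)
theorem pair2_ne (X : ℂ) (t : ℝ) : ((ex t, X) : ℂ × ℂ) ≠ 0 := fun h => ex_ne t (congrArg Prod.fst h)

theorem Sol1_spec (p : C3) : ∃ c : ℝ, 0 < c ∧ z1 (Sol1 p) = c * p.1 ∧ z2 (Sol1 p) = c * ex p.2 :=
  NN_spec (pair1_ne _ _)

theorem Sol2_spec (p : C3) : ∃ c : ℝ, 0 < c ∧ z1 (Sol2 p) = c * ex p.2 ∧ z2 (Sol2 p) = c * p.1 :=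
  NN_spec (pair2_ne _ _)

theorem scal_eq {c d s t : ℝ} (hc : 0 < c) (hd : 0 < d) (h : (c : ℂ) * ex s = d * ex t) :
    c = d ∧ ex s = ex t := by
  have h1 := congrArg norm h
  simp only [norm_mul, norm_ex, mul_one, Complex.norm_real, Real.norm_eq_abs, abs_of_pos hc,
    abs_of_pos hd] at h1
  subst h1
  exact ⟨rfl, mul_left_cancel₀ (by exact_mod_cast hc.ne') h⟩

theorem Sol1_eq_iff {p p' : C3} : Sol1 p = Sol1 p' ↔ p.1 = p'.1 ∧ ex p.2 = ex p'.2 := by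
  constructor
  · intro h
    obtain ⟨c, hc, h1, h2⟩ := Sol1_spec p
    obtain ⟨d, hd, h3, h4⟩ := Sol1_spec p'
    rw [h] at h1 h2
    obtain ⟨rfl, h5⟩ := scal_eq hc hd (h2.symm.trans h4)
    exact ⟨mul_left_cancel₀ (by exact_mod_cast hc.ne') (h1.symm.trans h3), h5⟩
  · rintro ⟨h1, h2⟩
    rw [Sol1, Sol1, h1, h2]

theorem Sol2_eq_iff {p p' : C3} : Sol2 p = Sol2 p' ↔ p.1 = p'.1 ∧ ex p.2 = ex p'.2 := by
  constructor
  · intro h
    obtain ⟨c, hc, h1, h2⟩ := Sol2_spec p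
    obtain ⟨d, hd, h3, h4⟩ := Sol2_spec p'
    rw [h] at h1 h2
    obtain ⟨rfl, h5⟩ := scal_eq hc hd (h1.symm.trans h3)
    exact ⟨mul_left_cancel₀ (by exact_mod_cast hc.ne') (h2.symm.trans h4), h5⟩
  · rintro ⟨h1, h2⟩
    rw [Sol2, Sol2, h1, h2]

theorem Sol1_surj {x : S3} (h : z2 x ≠ 0) : ∃ p, x = Sol1 p := by
  have h1 : 0 < ‖z2 x‖ := norm_pos_iff.2 h
  refine ⟨(z1 x / (‖z2 x‖ : ℝ), arg (z2 x)), eq_NN h1 ?_ (ex_surj _)⟩
  have : ((‖z2 x‖ : ℝ) : ℂ) ≠ 0 := by exact_mod_cast h1.ne'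
  field_simp

theorem Sol2_surj {x : S3} (h : z1 x ≠ 0) : ∃ p, x = Sol2 p := by
  have h1 : 0 < ‖z1 x‖ := norm_pos_iff.2 h
  refine ⟨(z2 x / (‖z1 x‖ : ℝ), arg (z1 x)), eq_NN h1 (ex_surj _) ?_⟩
  have : ((‖z1 x‖ : ℝ) : ℂ) ≠ 0 := by exact_mod_cast h1.ne'
  field_simp

theorem Sol1_gt_iff {p : C3} {r : ℝ} : Gt r (Sol1 p) ↔ r * normSq p.1 < 1 := by
  obtain ⟨c, hc, h1, h2⟩ := Sol1_spec p
  unfold Gt
  rw [h1, h2, map_mul, map_mul, normSq_ex, normSq_ofReal, mul_left_comm]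
  exact mul_lt_mul_iff_right₀ (mul_pos hc hc)

theorem Sol1_ge_iff {p : C3} {r : ℝ} : Ge r (Sol1 p) ↔ r * normSq p.1 ≤ 1 := by
  obtain ⟨c, hc, h1, h2⟩ := Sol1_spec p
  unfold Ge
  rw [h1, h2, map_mul, map_mul, normSq_ex, normSq_ofReal, mul_left_comm]
  exact mul_le_mul_iff_right₀ (mul_pos hc hc)

theorem Sol1_z1_iff {p : C3} : z1 (Sol1 p) = 0 ↔ p.1 = 0 := by
  obtain ⟨c, hc, h1, -⟩ := Sol1_spec p
  rw [h1, mul_eq_zero, or_iff_right (by exact_mod_cast hc.ne')]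

theorem Sol1_z2_ne (p : C3) : z2 (Sol1 p) ≠ 0 := by
  obtain ⟨c, hc, -, h2⟩ := Sol1_spec p
  rw [h2]; exact mul_ne_zero (by exact_mod_cast hc.ne') (ex_ne _)

theorem Sol2_rho (p : C3) : Rho (normSq p.1) (Sol2 p) := by
  obtain ⟨c, hc, h1, h2⟩ := Sol2_spec p
  refine ⟨by rw [h1]; exact mul_ne_zero (by exact_mod_cast hc.ne') (ex_ne _), ?_⟩
  rw [h1, h2, map_mul, map_mul, normSq_ex]; ring

theorem Tor_eq_Sol2 (ρ s t : ℝ) : Tor ρ s t = Sol2 ((√ρ : ℝ) * ex t, s) := rfl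

theorem Tor_eq_Sol1 {ρ : ℝ} (h : 0 < ρ) (s t : ℝ) : Tor ρ s t = Sol1 ((√ρ⁻¹ : ℝ) * ex s, t) := by
  have h1 : 0 < √ρ := Real.sqrt_pos.2 h
  refine NN_smul (pair2_ne _ _) h1 ?_ rfl
  have : ((√ρ : ℝ) : ℂ) ≠ 0 := by exact_mod_cast h1.ne'
  simp only [Real.sqrt_inv]
  push_cast
  field_simp

theorem normSq_sqrt_ex {ρ : ℝ} (h : 0 ≤ ρ) (t : ℝ) : normSq ((√ρ : ℝ) * ex t) = ρ := by
  rw [map_mul, normSq_ex, normSq_ofReal, Real.mul_self_sqrt h, mul_one]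

theorem Tor_rho {ρ : ℝ} (h : 0 ≤ ρ) (s t : ℝ) : Rho ρ (Tor ρ s t) := by
  have := Sol2_rho ((√ρ : ℝ) * ex t, s)
  rwa [normSq_sqrt_ex h] at this

theorem Tor_congr {ρ ρ' s s' t t' : ℝ} (h : ρ = ρ') (hs : ex s = ex s') (ht : ex t = ex t') :
    Tor ρ s t = Tor ρ' s' t' := by
  rw [Tor, Tor, h, hs, ht]

theorem Tor_eq_iff {ρ ρ' s s' t t' : ℝ} (h : 0 < ρ) (h' : 0 < ρ') :
    Tor ρ s t = Tor ρ' s' t' ↔ ρ = ρ' ∧ ex s = ex s' ∧ ex t = ex t' := by
  refine ⟨fun e => ?_, fun e => Tor_congr e.1 e.2.1 e.2.2⟩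
  have h1 : ρ = ρ' := (Tor_rho h.le s t).unique (e ▸ Tor_rho h'.le s' t')
  subst h1
  rw [Tor_eq_Sol2, Tor_eq_Sol2, Sol2_eq_iff] at e
  exact ⟨rfl, e.2, (scal_eq (Real.sqrt_pos.2 h) (Real.sqrt_pos.2 h) e.1).2⟩

theorem Rho.tor {ρ : ℝ} {x : S3} (h : Rho ρ x) : ∃ s t, x = Tor ρ s t := by
  obtain ⟨p, rfl⟩ := Sol2_surj h.1
  have h1 : ρ = normSq p.1 := h.unique (Sol2_rho p)
  refine ⟨p.2, arg p.1, ?_⟩
  rw [Tor_eq_Sol2, h1, normSq_eq_norm_sq, Real.sqrt_sq (norm_nonneg _), ← ex_surj]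

/-! ### Local parametrisations -/

theorem Sol1_lp (p : C3) : LP (E := C3) b0 alphaSt Sol1 p := by
  have hd : HasFDerivAt (fun x : C3 => (x.1, ex x.2)) _ p :=
    hasFDerivAt_fst.prodMk (HasFDerivAt.ex' hasFDerivAt_snd)
  refine LP.ofNN finrank_C3 (Eventually.of_forall fun x => ?_) (pair1_ne _ _) hd ?_ one_pos ?_
  · exact (contDiff_fst.prodMk (contDiff_ex.comp contDiff_snd)).contDiffAt
  · intro v t h
    have h1 : v.1 = t • p.1 := congrArg Prod.fst h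
    have h2 : v.2 • (ex p.2 * I) = t • ex p.2 := congrArg Prod.snd h
    have h3 : (v.2 : ℂ) * I = t := by
      apply mul_left_cancel₀ (ex_ne p.2)
      simp only [real_smul] at h2
      linear_combination h2
    have h4 := congrArg Complex.re h3
    have h5 := congrArg Complex.im h3
    simp at h4 h5
    rw [← h4] at h1
    exact Prod.ext (by simpa using h1) h5
  · intro v
    have := Real.cos_sq_add_sin_sq p.2
    simp [lamC, b0, ex_re, ex_im]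
    linear_combination v.2 * this

theorem Sol2_lp (p : C3) : LP (E := C3) b0 alphaSt Sol2 p := by
  have hd : HasFDerivAt (fun x : C3 => (ex x.2, x.1)) _ p :=
    (HasFDerivAt.ex' hasFDerivAt_snd).prodMk hasFDerivAt_fst
  refine LP.ofNN finrank_C3 (Eventually.of_forall fun x => ?_) (pair2_ne _ _) hd ?_ one_pos ?_
  · exact ((contDiff_ex.comp contDiff_snd).prodMk contDiff_fst).contDiffAt
  · intro v t h
    have h1 : v.1 = t • p.1 := congrArg Prod.snd h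
    have h2 : v.2 • (ex p.2 * I) = t • ex p.2 := congrArg Prod.fst h
    have h3 : (v.2 : ℂ) * I = t := by
      apply mul_left_cancel₀ (ex_ne p.2)
      simp only [real_smul] at h2
      linear_combination h2
    have h4 := congrArg Complex.re h3
    have h5 := congrArg Complex.im h3
    simp at h4 h5
    rw [← h4] at h1
    exact Prod.ext (by simpa using h1) h5
  · intro v
    have := Real.cos_sq_add_sin_sq p.2
    simp [lamC, b0, ex_re, ex_im]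
    linear_combination v.2 * this

/-- General toric local parametrisation: `Tor (ρ x) (s x) (t x)`. -/
theorem Tor_lp {E : Type} [NormedAddCommGroup E] [NormedSpace ℝ E] [FiniteDimensional ℝ E]
    (hE : Module.finrank ℝ E = 3) {a : E → E → ℝ} {ρ s t : E → ℝ} {p : E}
    {ρ' s' t' : E →L[ℝ] ℝ}
    (hsm : ∀ᶠ x in 𝓝 p, ContDiffAt ℝ ∞ ρ x ∧ ContDiffAt ℝ ∞ (fun x => ex (s x)) x ∧
      ContDiffAt ℝ ∞ (fun x => ex (t x)) x) (h0 : 0 < ρ p) (hρ : HasFDerivAt ρ ρ' p)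
    (hs : HasFDerivAt (fun x => ex (s x)) (s'.smulRight (ex (s p) * I)) p)
    (ht : HasFDerivAt (fun x => ex (t x)) (t'.smulRight (ex (t p) * I)) p)
    (hi : ∀ v, ρ' v = 0 → s' v = 0 → t' v = 0 → v = 0) {c : ℝ} (hc : 0 < c)
    (hl : ∀ v, s' v + ρ p * t' v = c * a p v) :
    LP (E := E) a alphaSt (fun x => Tor (ρ x) (s x) (t x)) p := by
  have hq : 0 < √(ρ p) := Real.sqrt_pos.2 h0
  have h1 : HasFDerivAt (fun x => ((√(ρ x) : ℝ) : ℂ)) _ p :=
    Complex.ofRealCLM.hasFDerivAt.comp p (hρ.sqrt h0.ne')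
  have hd : HasFDerivAt (fun x => (ex (s x), ((√(ρ x) : ℝ) : ℂ) * ex (t x))) _ p :=
    hs.prodMk (h1.mul ht)
  refine LP.ofNN hE ?_ (pair2_ne _ _) hd ?_ hc ?_
  · filter_upwards [hsm, hρ.continuousAt.eventually (lt_mem_nhds h0)] with x hx hx0
    exact hx.2.1.prodMk ((Complex.ofRealCLM.contDiff.contDiffAt.comp x (hx.1.sqrt hx0.ne')).mul
      hx.2.2)
  · intro v τ h
    have h2 : s' v • (ex (s p) * I) = τ • ex (s p) := congrArg Prod.fst h
    have h3 := congrArg Prod.snd h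
    have h4 : (s' v : ℂ) * I = τ := by
      apply mul_left_cancel₀ (ex_ne (s p))
      simp only [real_smul] at h2
      linear_combination h2
    have h5 := congrArg Complex.re h4
    have h6 := congrArg Complex.im h4
    simp at h5 h6
    rw [← h5] at h3
    simp at h3
    have h7 : ((√(ρ p) : ℝ) : ℂ) * ((t' v : ℝ) * I) + (((2 * √(ρ p))⁻¹ * ρ' v : ℝ) : ℂ) = 0 := by
      apply mul_left_cancel₀ (ex_ne (t p))
      push_cast
      rw [mul_inv]
      linear_combination h3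
    have h8 := congrArg Complex.re h7
    have h9 := congrArg Complex.im h7
    simp only [add_re, mul_re, ofReal_re, I_re, mul_zero, ofReal_im, I_im, mul_one, sub_self,
      mul_im, add_zero, zero_mul, zero_add, zero_re, add_im, zero_im, mul_eq_zero, inv_eq_zero,
      hq.ne', OfNat.ofNat_ne_zero, or_self, false_or] at h8 h9
    exact hi v h8 h6 h9
  · intro v
    rw [← hl]
    have e1 := Real.cos_sq_add_sin_sq (s p)
    have e2 := Real.cos_sq_add_sin_sq (t p)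
    have e3 := Real.mul_self_sqrt h0.le
    simp [lamC, ex_re, ex_im]
    linear_combination s' v * e1 + t' v * (√(ρ p) * √(ρ p)) * e2 + t' v * e3

/-- Toric parametrisation with an integer matrix. -/
noncomputable def TP (ρ : ℝ → ℝ) (a b c d : ℤ) (p : E3) : S3 :=
  Tor (ρ p.2.2) (a * p.1 + b * p.2.1) (c * p.1 + d * p.2.1)

theorem TP_rho {ρ : ℝ → ℝ} (a b c d : ℤ) {p : E3} (h : 0 ≤ ρ p.2.2) :
    Rho (ρ p.2.2) (TP ρ a b c d p) := Tor_rho h _ _

theorem TP_congr {ρ : ℝ → ℝ} (a b c d : ℤ) {q z w q' z' w' : ℝ} (hq : ∃ k : ℤ, q' = q + 2 * π * k)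
    (hz : ∃ k : ℤ, z' = z + 2 * π * k) (hw : w = w') :
    TP ρ a b c d (q, z, w) = TP ρ a b c d (q', z', w') := by
  obtain ⟨k, rfl⟩ := hq
  obtain ⟨l, rfl⟩ := hz
  subst hw
  exact Tor_congr rfl (ex_congr (a * k + b * l) (by push_cast; ring))
    (ex_congr (c * k + d * l) (by push_cast; ring))

theorem TP_inj {ρ : ℝ → ℝ} {a b c d : ℤ} (hdet : a * d - b * c = 1) {q z w q' z' w' : ℝ}
    (h : 0 < ρ w) (h' : 0 < ρ w') (e : TP ρ a b c d (q, z, w) = TP ρ a b c d (q', z', w')) :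
    ρ w = ρ w' ∧ (∃ k : ℤ, q' = q + 2 * π * k) ∧ ∃ k : ℤ, z' = z + 2 * π * k := by
  obtain ⟨h1, h2, h3⟩ := (Tor_eq_iff h h').1 e
  obtain ⟨k, hk⟩ := ex_eq_iff.1 h2
  obtain ⟨l, hl⟩ := ex_eq_iff.1 h3
  have hd : (a : ℝ) * d - b * c = 1 := by exact_mod_cast hdet
  simp only at hk hl
  refine ⟨h1, ⟨d * k - b * l, ?_⟩, ⟨a * l - c * k, ?_⟩⟩
  · push_cast
    linear_combination d * hk - b * hl - (q' - q) * hd
  · push_cast
    linear_combination a * hl - c * hk - (z' - z) * hd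

theorem TP_surj {ρ : ℝ → ℝ} {a b c d : ℤ} (hdet : a * d - b * c = 1) {w : ℝ} {x : S3}
    (h : Rho (ρ w) x) : ∃ q z, x = TP ρ a b c d (q, z, w) := by
  obtain ⟨s, t, rfl⟩ := h.tor
  have hd : (a : ℝ) * d - b * c = 1 := by exact_mod_cast hdet
  refine ⟨d * s - b * t, a * t - c * s, ?_⟩
  unfold TP
  congr 1
  · linear_combination -s * hd
  · linear_combination -t * hd

theorem TP_lp {ρ : ℝ → ℝ} {a b c d : ℤ} (hdet : a * d - b * c = 1) {p : E3} {β : E3 → E3 → ℝ}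
    (hsm : ∀ᶠ w in 𝓝 p.2.2, ContDiffAt ℝ ∞ ρ w) (h0 : 0 < ρ p.2.2) {ρ' : ℝ}
    (hρ : HasDerivAt ρ ρ' p.2.2) (hρ' : ρ' ≠ 0) {μ : ℝ} (hμ : 0 < μ)
    (hl : ∀ v : E3, (a + ρ p.2.2 * c) * v.1 + (b + ρ p.2.2 * d) * v.2.1 = μ * β p v) :
    LP (E := E3) β alphaSt (TP ρ a b c d) p := by
  have hd : (a : ℝ) * d - b * c = 1 := by exact_mod_cast hdet
  have h1 := fun a b : ℝ => HasFDerivAt.add (𝕜 := ℝ) (x := p)
    (hasFDerivAt_fst.const_mul a) ((hasFDerivAt_fst.comp p hasFDerivAt_snd).const_mul b)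
  have h2 : ∀ (a b : ℝ) (x : E3), ContDiffAt ℝ ∞ (fun x : E3 => ex (a * x.1 + b * x.2.1)) x :=
    fun a b x => contDiff_ex.contDiffAt.comp x (by fun_prop)
  have h3 : ContinuousAt (fun x : E3 => x.2.2) p := by fun_prop
  refine Tor_lp finrank_E3 (ρ := fun x : E3 => ρ x.2.2) ?_ h0
    (hρ.hasFDerivAt.comp p (hasFDerivAt_snd.comp p hasFDerivAt_snd))
    (HasFDerivAt.ex' (h1 a b)) (HasFDerivAt.ex' (h1 c d)) ?_ hμ ?_
  · filter_upwards [h3.eventually hsm] with x hx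
    exact ⟨hx.comp x (by fun_prop), h2 _ _ _, h2 _ _ _⟩
  · intro v e1 e2 e3
    simp [hρ'] at e1 e2 e3
    refine Prod.ext ?_ (Prod.ext ?_ e1)
    · change v.1 = 0
      linear_combination d * e2 - b * e3 - v.1 * hd
    · change v.2.1 = 0
      linear_combination a * e3 - c * e2 - v.2.1 * hd
  · intro v
    rw [← hl]
    simp
    ring

end Pool.Agent.MP_5d9d0b_gt

end MrgPart1

-- ======== part 2: formerly Pool.Agent.MP_5d9d0b_gt.Tube
section MrgPart2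

/-!
Surgery on a closed leaf of a pre-Lagrangian torus.
-/

namespace Pool.Agent.MP_5d9d0b_gt

open scoped Manifold ContDiff Real Topology
open Set Filter Complex

/-- The form `dz + w dq` in coordinates `(q, z, w)`. -/
def b1 (p v : E3) : ℝ := v.2.1 + p.2.2 * v.1

theorem bij_of_inj {E F : Type} [NormedAddCommGroup E] [NormedSpace ℝ E] [FiniteDimensional ℝ E]
    [NormedAddCommGroup F] [NormedSpace ℝ F] [FiniteDimensional ℝ F]
    (h : Module.finrank ℝ E = Module.finrank ℝ F) (A : E →L[ℝ] F) (hA : ∀ v, A v = 0 → v = 0) :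
    Function.Bijective A := by
  have h1 : Function.Injective A := (injective_iff_map_eq_zero A).2 hA
  exact ⟨h1, (LinearMap.injective_iff_surjective_of_finrank_eq_finrank (f := A.toLinearMap) h).1 h1⟩

theorem LP.comp_loc {E F : Type} [NormedAddCommGroup E] [NormedSpace ℝ E] [CompleteSpace E]
    [NormedAddCommGroup F] [NormedSpace ℝ F] {a : E → E → ℝ} {b : F → F → ℝ}
    {P : F → S3} {f : E → F} {p : E} (hP : LP (E := F) b alphaSt P (f p))
    (hf : DifferentiableAt ℝ f p) (hb : Function.Bijective (fderiv ℝ f p)) {c : ℝ} (hc : 0 < c)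
    (hl : ∀ v, b (f p) (fderiv ℝ f p v) = c * a p v) {P' : E → S3} (he : P' =ᶠ[𝓝 p] P ∘ f)
    (hsm : ∀ᶠ x in 𝓝 p, ContMDiffAt 𝓘(ℝ, E) (𝓡 3) ∞ P' x) : LP (E := E) a alphaSt P' p := by
  have h1 := hP.1.mdifferentiableAt infty_ne_zero
  refine ⟨locDiffeo_of_bij hsm ?_, CAt.congr (CAt.comp (β := b) ?_ hP.2 hf.mdifferentiableAt h1) he⟩
  · have h2 : Function.Bijective (mfderiv 𝓘(ℝ, E) (𝓡 3) (P ∘ f) p) := by
      rw [mfderiv_comp p h1 hf.mdifferentiableAt, mfderiv_eq_fderiv]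
      have h3 : Function.Bijective (mfderiv 𝓘(ℝ, F) (𝓡 3) P (f p)) :=
        ⟨locDiffeo_inj hP.1, locDiffeo_surj hP.1⟩
      exact h3.comp hb
    have h4 : ∀ A : E →L[ℝ] R3, A = mfderiv 𝓘(ℝ, E) (𝓡 3) (P ∘ f) p → Function.Bijective A := by
      rintro A rfl; exact h2
    exact h4 _ he.mfderiv_eq
  · exact ⟨c, hc, fun v => by rw [mfderiv_eq_fderiv]; exact hl v⟩

/-- A toric collar of a pre-Lagrangian torus. -/
structure TCol (η : ℝ) (ρ : ℝ → ℝ) (a b c d : ℤ) : Prop where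
  det : a * d - b * c = 1
  pos : ∀ w ∈ Icc (-η) η, 0 < ρ w
  anti : StrictAntiOn ρ (Icc (-η) η)
  cont : ContinuousOn ρ (Icc (-η) η)
  lp : ∀ p : E3, |p.2.2| < η → LP (E := E3) b1 alphaSt (TP ρ a b c d) p

namespace TCol
variable {η : ℝ} {ρ : ℝ → ℝ} {a b c d : ℤ} (h : TCol η ρ a b c d)
include h

theorem rho (q z : ℝ) {w : ℝ} (hw : w ∈ Icc (-η) η) : Rho (ρ w) (TP ρ a b c d (q, z, w)) :=
  TP_rho a b c d (p := (q, z, w)) (h.pos w hw).le

theorem gt_iff (q z : ℝ) {w w' : ℝ} (hw : w ∈ Icc (-η) η) (hw' : w' ∈ Icc (-η) η) :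
    Gt (ρ w') (TP ρ a b c d (q, z, w)) ↔ w < w' := by
  rw [(h.rho q z hw).gt_iff, h.anti.lt_iff_gt hw' hw]

theorem ge_iff (q z : ℝ) {w w' : ℝ} (hw : w ∈ Icc (-η) η) (hw' : w' ∈ Icc (-η) η) :
    Ge (ρ w') (TP ρ a b c d (q, z, w)) ↔ w ≤ w' := by
  rw [(h.rho q z hw).ge_iff, h.anti.le_iff_ge hw' hw]

theorem band {w1 : ℝ} (h1 : w1 ∈ Icc (-η) η) {x : S3} (hx : Gt (ρ η) x) (hx' : ¬ Gt (ρ w1) x) :
    ∃ q z w, w1 ≤ w ∧ w < η ∧ x = TP ρ a b c d (q, z, w) := by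
  obtain ⟨r, -, hr⟩ := exists_rho (z1_ne_of_not_gt hx')
  rw [hr.gt_iff] at hx hx'
  have h2 : Icc w1 η ⊆ Icc (-η) η := Icc_subset_Icc h1.1 le_rfl
  obtain ⟨w, hw, rfl⟩ := intermediate_value_Icc' h1.2 (h.cont.mono h2) ⟨hx.le, not_lt.1 hx'⟩
  obtain ⟨q, z, rfl⟩ := TP_surj h.det hr
  refine ⟨q, z, w, hw.1, lt_of_le_of_ne hw.2 ?_, rfl⟩
  rintro rfl
  exact lt_irrefl _ hx

theorem inj {q z w q' z' w' : ℝ} (hw : w ∈ Icc (-η) η) (hw' : w' ∈ Icc (-η) η)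
    (e : TP ρ a b c d (q, z, w) = TP ρ a b c d (q', z', w')) :
    w = w' ∧ (∃ k : ℤ, q' = q + 2 * π * k) ∧ ∃ k : ℤ, z' = z + 2 * π * k := by
  obtain ⟨h1, h2, h3⟩ := TP_inj h.det (h.pos w hw) (h.pos w' hw') e
  exact ⟨h.anti.injOn hw hw' h1, h2, h3⟩

end TCol

theorem int_shift {f : ℝ → ℝ} {T : ℝ} (h : ∀ Z, f (Z + 2 * π) = f Z + T) (Z : ℝ) (k : ℤ) :
    f (Z + 2 * π * k) = f Z + T * k := by
  induction k using Int.induction_on with
  | zero => simp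
  | succ n ih =>
    have : Z + 2 * π * ((n + 1 : ℤ) : ℝ) = (Z + 2 * π * ((n : ℤ) : ℝ)) + 2 * π := by
      push_cast; ring
    rw [this, h, ih]; push_cast; ring
  | pred n ih =>
    have : Z + 2 * π * ((-n : ℤ) : ℝ) = (Z + 2 * π * ((-n - 1 : ℤ) : ℝ)) + 2 * π := by
      push_cast; ring
    rw [this, h] at ih
    push_cast at ih ⊢; linarith

theorem int_shift_mod {f : ℝ → ℝ} (h : ∀ Z, ∃ k : ℤ, f (Z + 2 * π) = f Z + 2 * π * k) (Z : ℝ)
    (k : ℤ) : ∃ l : ℤ, f (Z + 2 * π * k) = f Z + 2 * π * l := by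
  have h1 : ∀ Z, ex (f (Z + 2 * π)) = ex (f Z) := fun Z => (ex_eq_iff.2 (h Z)).symm
  have h2 : Function.Periodic (fun Z => ex (f Z)) (2 * π) := h1
  have h3 := h2.int_mul k Z
  rw [mul_comm (k : ℝ)] at h3
  exact ex_eq_iff.1 h3.symm

theorem tube_lemma (hcol : CollarStmt) {η : ℝ} (hη : 0 < η) (hη' : η ≤ 1 / 10)
    {ρM ρN : ℝ → ℝ} {a b c d a' b' c' d' : ℤ} (hM : TCol η ρM a b c d) (hN : TCol η ρN a' b' c' d')
    {In : S3 → S3 → Prop} (hIn : CRel alphaSt alphaSt In)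
    (in1 : ∀ x n, In x n → Gt (ρM (-η / 2)) x ∧ Gt (ρN (-η / 2 / (1 - -η / 2))) n)
    (in2 : ∀ x, Gt (ρM (-η / 2)) x → ∃ n, In x n)
    (in2' : ∀ n, Gt (ρN (-η / 2 / (1 - -η / 2))) n → ∃ x, In x n)
    (in3 : ∀ q z w, -η < w → w < -η / 2 →
      In (TP ρM a b c d (q, z, w)) (TP ρN a' b' c' d' (q + z, z, w / (1 - w)))) :
    ∃ Λ : S3 → S3 → Prop, CRel alphaSt alphaSt Λ ∧
      (∀ x, (∃ n, Λ x n) ↔ Gt (ρM η) x ∧ ∀ q, x ≠ TP ρM a b c d (q, π, 0)) ∧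
      (∀ n, (∃ x, Λ x n) ↔ Gt (ρN η) n ∧ ∀ q, n ≠ TP ρN a' b' c' d' (q, π, 0)) ∧
      (∀ q z w, η / 4 ≤ w → w < η →
        Λ (TP ρM a b c d (q, z, w)) (TP ρN a' b' c' d' (q, z, w))) ∧
      ∃ κ δ : ℝ, 0 < κ ∧ 0 < δ ∧ ∀ q r σ : ℝ, 0 < r → r < δ →
        Λ (TP ρM a b c d (q, π + r * Real.cos σ, r * Real.sin σ))
          (TP ρN a' b' c' d' (q + σ - π / 2, π + 2 * κ * √r * Real.cos σ,
            κ * √r * Real.sin σ)) := by
  obtain ⟨ζ, W, g, κ, δ, hκ, hδ, hloc, hper, hmζ, hζ0, hmW, hup, hlow, hnear⟩ := hcol η hη hη'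
  have hζk : ∀ Z w (k : ℤ), ζ (Z + 2 * π * k, w) = ζ (Z, w) + 2 * π * k := fun Z w k =>
    int_shift (f := fun Z => ζ (Z, w)) (fun Z => (hper Z w).1) Z k
  have hWk : ∀ Z w (k : ℤ), W (Z + 2 * π * k, w) = W (Z, w) := fun Z w k => by
    have := int_shift (f := fun Z => W (Z, w)) (T := 0) (fun Z => by simpa using (hper Z w).2.1) Z k
    simpa using this
  have hgk : ∀ Z w (k : ℤ), ∃ l : ℤ, g (Z + 2 * π * k, w) = g (Z, w) + 2 * π * l := fun Z w k =>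
    int_shift_mod (f := fun Z => g (Z, w)) (fun Z => (hper Z w).2.2) Z k
  have hmem : ∀ {w : ℝ}, |w| < η → w ∈ Ioo (-η) η := fun h => abs_lt.1 h
  have hdiv : ∀ w : ℝ, -η < w → w < 0 → -η < w / (1 - w) ∧ w / (1 - w) < 0 := by
    intro w h1 h2
    refine ⟨?_, div_neg_of_neg_of_pos h2 (by linarith)⟩
    rw [lt_div_iff₀ (by linarith)]; nlinarith
  have hWr : ∀ Z w, |w| < η → |W (Z, w)| < η := by
    intro Z w hw
    obtain ⟨h1, h2⟩ := abs_lt.1 hw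
    rw [abs_lt]
    constructor
    · have h3 : min w (-η / 4) ∈ Ioo (-η) η :=
        ⟨lt_min h1 (by linarith), lt_of_le_of_lt (min_le_left _ _) h2⟩
      have h4 := (hmW Z).1.monotoneOn h3 (hmem hw) (min_le_left _ _)
      rw [(hlow Z _ h3.1 (min_le_right _ _)).2.1] at h4
      exact lt_of_lt_of_le (hdiv _ h3.1 (lt_of_le_of_lt (min_le_right _ _) (by linarith))).1 h4
    · have h3 : max w (η / 4) ∈ Ioo (-η) η :=
        ⟨lt_of_lt_of_le h1 (le_max_left _ _), max_lt h2 (by linarith)⟩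
      have h4 := (hmW Z).1.monotoneOn (hmem hw) h3 (le_max_left _ _)
      rw [(hup Z _ (le_max_right _ _) h3.2).2.1] at h4
      exact lt_of_le_of_lt h4 h3.2
  have hcc : ∀ {w : ℝ}, |w| < η → w ∈ Icc (-η) η := fun h => Ioo_subset_Icc_self (hmem h)
  have h00 : (0 : ℝ) ∈ Icc (-η) η := ⟨by linarith, hη.le⟩
  have hηη : η ∈ Icc (-η) η := ⟨by linarith, le_rfl⟩
  have hh : -η / 2 ∈ Icc (-η) η := ⟨by linarith, by linarith⟩
  have hh' : -η / 2 / (1 - -η / 2) ∈ Icc (-η) η :=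
    ⟨(hdiv _ (by linarith) (by linarith)).1.le,
      (hdiv _ (by linarith) (by linarith)).2.le.trans hη.le⟩
  let U : Set E3 := {p | |p.2.2| < η ∧ ¬ (p.2.2 = 0 ∧ ∃ k : ℤ, p.2.1 = 2 * π * k)}
  have hU : IsOpen U := by
    have h1 : IsClosed {p : E3 | p.2.2 = 0 ∧ ∃ k : ℤ, p.2.1 = 2 * π * k} := by
      have h2 : {p : E3 | p.2.2 = 0 ∧ ∃ k : ℤ, p.2.1 = 2 * π * k} =
          {p : E3 | p.2.2 = 0} ∩ {p : E3 | ex 0 = ex p.2.1} := by
        ext p; simp [ex_eq_iff]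
      rw [h2]
      exact (isClosed_eq (continuous_snd.comp continuous_snd) continuous_const).inter
        (isClosed_eq continuous_const (contDiff_ex.continuous.comp (continuous_fst.comp continuous_snd)))
    exact (isOpen_lt (continuous_snd.comp continuous_snd).abs continuous_const).inter h1.isOpen_compl
  let P : E3 → S3 := fun p => TP ρM a b c d (p.1, π + ζ p.2, p.2.2)
  let P' : E3 → S3 := fun p => TP ρN a' b' c' d' (p.1 + g p.2, π + p.2.1, W p.2)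
  let β : E3 → E3 → ℝ := fun p v => fderiv ℝ ζ p.2 v.2 + p.2.2 * v.1
  have hP : ∀ p ∈ U, LP (E := E3) β alphaSt P p := by
    intro p hp
    obtain ⟨G, u, -, hζ, -, -, -, -, -, hz, -⟩ := hloc p.2 hp.1 hp.2
    have hd : HasFDerivAt (fun p : E3 => ((p.1, π + ζ p.2, p.2.2) : E3)) _ p :=
      hasFDerivAt_fst.prodMk ((((hζ.differentiableAt (by simp)).hasFDerivAt.comp p
        hasFDerivAt_snd).const_add π).prodMk (hasFDerivAt_snd.comp p hasFDerivAt_snd))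
    have h1 : LP (E := E3) (F := E3) β b1 (fun p : E3 => ((p.1, π + ζ p.2, p.2.2) : E3)) p := by
      refine LP.flat ?_ (bij_of_inj rfl _ fun v hv => ?_) one_pos fun v => ?_
      · filter_upwards [hU.mem_nhds hp] with x hx
        obtain ⟨G, u, -, hζ, -⟩ := hloc x.2 hx.1 hx.2
        exact contDiffAt_fst.prodMk ((contDiffAt_const.add (hζ.comp x contDiffAt_snd)).prodMk
          (by fun_prop))
      · rw [hd.fderiv] at hv
        simp only [ContinuousLinearMap.prod_apply, ContinuousLinearMap.coe_fst',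
          ContinuousLinearMap.comp_apply, ContinuousLinearMap.coe_snd', Prod.mk_eq_zero] at hv
        obtain ⟨e1, e2, e3⟩ := hv
        have e4 : v.2 = v.2.1 • ((1, 0) : ℝ × ℝ) := Prod.ext (by simp) (by simpa using e3)
        rw [e4, map_smul, smul_eq_mul, mul_eq_zero, or_iff_left hz] at e2
        exact Prod.ext e1 (Prod.ext e2 e3)
      · rw [hd.fderiv]; simp [b1, β]
    exact h1.comp (hM.lp _ hp.1)
  have hP'e : ∀ p : E3, ∀ G : ℝ × ℝ → ℝ, (∀ᶠ p' in 𝓝 p.2, ∃ k : ℤ, g p' = G p' + 2 * π * k) →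
      P' =ᶠ[𝓝 p] TP ρN a' b' c' d' ∘ fun p : E3 => ((p.1 + G p.2, π + p.2.1, W p.2) : E3) := by
    intro p G hG
    filter_upwards [continuousAt_snd.eventually hG] with x hx
    obtain ⟨k, hk⟩ := hx
    exact (TP_congr _ _ _ _ ⟨k, by rw [hk]; ring⟩ ⟨0, by simp⟩ rfl).symm
  have hP' : ∀ p ∈ U, LP (E := E3) β alphaSt P' p := by
    intro p hp
    obtain ⟨G, u, hG, -, hW, he, hu, hWu, hform, -, hw⟩ := hloc p.2 hp.1 hp.2
    have hd : HasFDerivAt (fun p : E3 => ((p.1 + G p.2, π + p.2.1, W p.2) : E3)) _ p :=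
      (hasFDerivAt_fst.add ((hG.differentiableAt (by simp)).hasFDerivAt.comp p
        hasFDerivAt_snd)).prodMk (((hasFDerivAt_fst.comp p hasFDerivAt_snd).const_add π).prodMk
        ((hW.differentiableAt (by simp)).hasFDerivAt.comp p hasFDerivAt_snd))
    refine LP.comp_loc (hN.lp _ (hWr p.2.1 p.2.2 hp.1)) hd.differentiableAt
      (bij_of_inj rfl _ fun v hv => ?_) (inv_pos.2 hu) (fun v => ?_) (hP'e p G he) ?_
    · rw [hd.fderiv] at hv
      simp only [ContinuousLinearMap.prod_apply, ContinuousLinearMap.coe_fst',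
        add_apply,
        ContinuousLinearMap.comp_apply, ContinuousLinearMap.coe_snd', Prod.mk_eq_zero] at hv
      obtain ⟨e1, e2, e3⟩ := hv
      have e4 : v.2 = v.2.2 • ((0, 1) : ℝ × ℝ) := Prod.ext (by simpa using e2) (by simp)
      rw [e4, map_smul, smul_eq_mul, mul_eq_zero, or_iff_left hw] at e3
      have e5 : v.2 = 0 := Prod.ext e2 e3
      rw [e5, map_zero, add_zero] at e1
      exact Prod.ext e1 e5
    · rw [hd.fderiv]
      simp only [b1, β, hform, hWu, ContinuousLinearMap.prod_apply, ContinuousLinearMap.coe_fst',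
        add_apply, ContinuousLinearMap.comp_apply, ContinuousLinearMap.coe_snd']
      field_simp
      ring
    · filter_upwards [hU.mem_nhds hp] with x hx
      obtain ⟨G, u, hG, -, hW, he, -⟩ := hloc x.2 hx.1 hx.2
      refine ContMDiffAt.congr_of_eventuallyEq ?_ (hP'e x G he)
      refine (hN.lp _ (hWr x.2.1 x.2.2 hx.1)).contMDiffAt.comp x (ContDiffAt.contMDiffAt ?_)
      exact (contDiffAt_fst.add (hG.comp x contDiffAt_snd)).prodMk
        ((by fun_prop : ContDiffAt ℝ ∞ (fun p : E3 => π + p.2.1) x).prodMk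
          (hW.comp x contDiffAt_snd))
  have hfib : ∀ p ∈ U, ∀ p' ∈ U, P p = P p' ↔ P' p = P' p' := by
    rintro ⟨q, Z, w⟩ hp ⟨q', Z', w'⟩ hp'
    constructor
    · intro e
      obtain ⟨rfl, ⟨k, rfl⟩, l, hl⟩ := hM.inj (hcc hp.1) (hcc hp'.1) e
      have h1 : Z' = Z + 2 * π * l := (hmζ w hp.1).1.injective (by
        simp only [hζk]; linarith)
      subst h1
      obtain ⟨m, hm⟩ := hgk Z w l
      exact TP_congr _ _ _ _ ⟨k + m, by simp only [hm]; push_cast; ring⟩ ⟨l, by ring⟩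
        (hWk Z w l).symm
    · intro e
      obtain ⟨h1, ⟨k, hk⟩, l, hl⟩ := hN.inj (hcc (hWr Z w hp.1)) (hcc (hWr Z' w' hp'.1)) e
      have h2 : Z' = Z + 2 * π * l := by linarith
      subst h2
      rw [hWk] at h1
      obtain rfl : w = w' := (hmW Z).1.injOn (hmem hp.1) (hmem hp'.1) h1
      obtain ⟨m, hm⟩ := hgk Z w l
      simp only [hm] at hk
      exact TP_congr _ _ _ _ ⟨k - m, by push_cast; linarith⟩ ⟨l, by simp only [hζk]; ring⟩ rfl
  have hCr := CRel.of_params hU hP hP' hfib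
  have hlowIn : ∀ p ∈ U, p.2.2 < -η / 2 → In (P p) (P' p) := by
    rintro ⟨q, Z, w⟩ hp hw
    have h1 : -η < w := (abs_lt.1 hp.1).1
    obtain ⟨h2, h3, k, h4⟩ := hlow Z w h1 (by simp only at hw; linarith)
    have h5 : P' (q, Z, w) = TP ρN a' b' c' d' (q + (π + Z), π + Z, w / (1 - w)) :=
      (TP_congr _ _ _ _ ⟨k, by simp only [h4]; ring⟩ ⟨0, by simp⟩ h3.symm).symm
    rw [h5]
    simp only [P, h2]
    exact in3 q _ w h1 hw
  have hWlow : ∀ Z, W (Z, -η / 2) = -η / 2 / (1 - -η / 2) := fun Z =>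
    (hlow Z _ (by linarith) (by linarith)).2.1
  have hio : -η / 2 ∈ Ioo (-η) η := ⟨by linarith, by linarith⟩
  refine ⟨fun x n => In x n ∨ ∃ p ∈ U, x = P p ∧ n = P' p, hIn.union hCr ?_ ?_, fun x => ?_,
    fun n => ?_, ?_, κ, min δ η, hκ, lt_min hδ hη, ?_⟩
  · rintro x n n' h1 ⟨p, hp, rfl, rfl⟩
    exact hIn.fun_r _ _ _ h1 (hlowIn p hp ((hM.gt_iff _ _ (hcc hp.1) hh).1 (in1 _ _ h1).1))
  · rintro x x' n h1 ⟨p, hp, rfl, rfl⟩
    refine hIn.fun_l _ _ _ h1 (hlowIn p hp ?_)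
    have h2 := (hN.gt_iff _ _ (hcc (hWr p.2.1 p.2.2 hp.1)) hh').1 (in1 _ _ h1).2
    rw [← hWlow p.2.1] at h2
    exact ((hmW p.2.1).1.lt_iff_lt (hmem hp.1) hio).1 h2
  · constructor
    · rintro ⟨n, h1 | ⟨⟨q, Z, w⟩, hp, rfl, rfl⟩⟩
      · refine ⟨(in1 _ _ h1).1.mono (hM.anti.antitoneOn hh hηη hh.2), ?_⟩
        rintro q rfl
        have := (hM.gt_iff _ _ h00 hh).1 (in1 _ _ h1).1
        linarith
      · refine ⟨(hM.gt_iff _ _ (hcc hp.1) hηη).2 (hmem hp.1).2, fun q' e => ?_⟩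
        obtain ⟨h1, -, l, hl⟩ := hM.inj (hcc hp.1) h00 e
        simp only at h1
        subst h1
        refine hp.2 ⟨rfl, -l, (hmζ 0 hp.1).1.injective ?_⟩
        have := hζk 0 0 (-l)
        simp only [zero_add, hζ0] at this
        simp only [this] at hl ⊢
        push_cast; linarith
    · rintro ⟨h1, h2⟩
      by_cases h3 : Gt (ρM (-η / 2)) x
      · obtain ⟨n, hn⟩ := in2 x h3
        exact ⟨n, Or.inl hn⟩
      · obtain ⟨q, z, w, h4, h5, rfl⟩ := hM.band hh h1 h3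
        have hw : |w| < η := abs_lt.2 ⟨by linarith, h5⟩
        obtain ⟨Z, hZ⟩ : ∃ Z, ζ (Z, w) = z - π := by
          obtain ⟨k, hk⟩ := exists_nat_ge (|z - π - ζ (0, w)| / (2 * π))
          rw [div_le_iff₀ (by positivity)] at hk
          obtain ⟨k1, k2⟩ := abs_le.1 hk
          refine mem_range_of_exists_le_of_exists_ge (hmζ w hw).2 ⟨0 + 2 * π * ((-k : ℤ) : ℝ), ?_⟩
            ⟨0 + 2 * π * ((k : ℤ) : ℝ), ?_⟩
          · simp only [hζk]; push_cast; linarith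
          · simp only [hζk]; push_cast; linarith
        refine ⟨_, Or.inr ⟨(q, Z, w), ⟨hw, ?_⟩, ?_, rfl⟩⟩
        · rintro ⟨h6, k, h7⟩
          simp only at h6 h7
          subst h6
          have := hζk 0 0 k
          simp only [zero_add, hζ0, ← h7, hZ] at this
          exact h2 q (TP_congr _ _ _ _ ⟨0, by simp⟩ ⟨k, by linarith⟩ rfl).symm
        · simp only [P, hZ]; congr 3; ring
  · constructor
    · rintro ⟨x, h1 | ⟨⟨q, Z, w⟩, hp, rfl, rfl⟩⟩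
      · refine ⟨(in1 _ _ h1).2.mono (hN.anti.antitoneOn hh' hηη hh'.2), ?_⟩
        rintro q rfl
        have := (hN.gt_iff _ _ h00 hh').1 (in1 _ _ h1).2
        have h2 := (hdiv (-η / 2) (by linarith) (by linarith)).2
        linarith
      · have hw := hWr Z w hp.1
        refine ⟨(hN.gt_iff _ _ (hcc hw) hηη).2 (hmem hw).2, fun q' e => ?_⟩
        obtain ⟨h1, -, l, hl⟩ := hN.inj (hcc hw) h00 e
        rw [← (hmW Z).2.2] at h1
        have h2 : w = 0 := (hmW Z).1.injOn (hmem hp.1) ⟨by linarith, hη⟩ h1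
        exact hp.2 ⟨h2, -l, by push_cast; simp only at hl ⊢; linarith⟩
    · rintro ⟨h1, h2⟩
      by_cases h3 : Gt (ρN (-η / 2 / (1 - -η / 2))) n
      · obtain ⟨x, hx⟩ := in2' n h3
        exact ⟨x, Or.inl hx⟩
      · obtain ⟨q, z, w', h4, h5, rfl⟩ := hN.band hh' h1 h3
        have h6 : max w' (η / 4) < η := max_lt h5 (by linarith)
        have h7 : -η / 2 ≤ max w' (η / 4) := le_trans (by linarith) (le_max_right _ _)
        have h8 : Icc (-η / 2) (max w' (η / 4)) ⊆ Ioo (-η) η := fun t ht =>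
          ⟨by linarith [ht.1], lt_of_le_of_lt ht.2 h6⟩
        obtain ⟨w, hw, hw'⟩ := intermediate_value_Icc h7 ((hmW (z - π)).2.1.mono h8)
          (show w' ∈ _ from ⟨by simp only [hWlow]; exact h4, by
            simp only [(hup (z - π) _ (le_max_right _ _) h6).2.1]; exact le_max_left _ _⟩)
        simp only at hw'
        refine ⟨_, Or.inr ⟨(q - g (z - π, w), z - π, w), ⟨abs_lt.2 (h8 hw), ?_⟩, rfl, ?_⟩⟩
        · rintro ⟨h9, k, h10⟩
          simp only at h9 h10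
          subst h9
          rw [(hmW _).2.2] at hw'
          exact h2 q (TP_congr _ _ _ _ ⟨0, by simp⟩ ⟨k, by linarith⟩ hw').symm
        · simp only [P', hw']; congr 2
          · ring
          · congr 1; ring
  · intro q z w h1 h2
    obtain ⟨h3, h4, k, h5⟩ := hup (z - π) w h1 h2
    refine Or.inr ⟨(q, z - π, w), ⟨abs_lt.2 ⟨by simp only; linarith, h2⟩, fun h => ?_⟩, ?_, ?_⟩
    · have := h.1; simp only at this; linarith
    · simp only [P, h3]; congr 3; ring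
    · exact TP_congr _ _ _ _ ⟨k, by simp only [h5]⟩ ⟨0, by simp⟩ h4.symm
  · intro q r σ hr hr'
    obtain ⟨h3, h4, k, h5⟩ := hnear r σ hr (lt_of_lt_of_le hr' (min_le_left _ _))
    have hrη : r < η := lt_of_lt_of_le hr' (min_le_right _ _)
    refine Or.inr ⟨(q, 2 * κ * √r * Real.cos σ, r * Real.sin σ), ⟨?_, ?_⟩, ?_, ?_⟩
    · simp only [abs_mul, abs_of_pos hr]
      exact lt_of_le_of_lt (mul_le_of_le_one_right hr.le (Real.abs_sin_le_one σ)) hrη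
    · rintro ⟨h6, l, h7⟩
      simp only at h6 h7
      have h8 := hζk 0 0 l
      rw [zero_add, hζ0, zero_add, ← h7, ← h6, h3, h7] at h8
      have h9 : Real.sin σ = 0 := (mul_eq_zero.1 h6).resolve_left hr.ne'
      have h10 : Real.cos σ ^ 2 = 1 := by have := Real.cos_sq_add_sin_sq σ; rw [h9] at this; linarith
      have h11 : r ^ 2 = (2 * π) ^ 2 * (l : ℝ) ^ 2 := by
        rw [← mul_pow, ← h8, mul_pow, h10, mul_one]
      rcases eq_or_ne l 0 with rfl | hl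
      · simp at h11; exact hr.ne' h11
      · have h12 : (1 : ℝ) ≤ (l : ℝ) ^ 2 := by
          have : (1 : ℤ) ≤ l ^ 2 := by have := sq_pos_of_ne_zero hl; omega
          exact_mod_cast this
        have h13 := Real.pi_gt_three
        nlinarith
    · simp only [P, h3]
    · exact TP_congr _ _ _ _ ⟨k, by simp only [h5]; ring⟩ ⟨0, by simp⟩ h4.symm

end Pool.Agent.MP_5d9d0b_gt

end MrgPart2

-- ======== part 3: formerly Pool.Agent.MP_5d9d0b_gt.HH
section MrgPart3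

/-!
The Heisenberg lift of a compactly supported half twist of the plane.
-/

namespace Pool.Agent.MP_5d9d0b_gt

open scoped Manifold ContDiff Real Topology
open Set Filter Complex

namespace HH

/-- The generating function of the twist. -/
noncomputable def hh (s : ℝ) : ℝ := π * s * Real.smoothTransition (19 - 100 * s)

theorem contDiff_hh : ContDiff ℝ ∞ hh := by
  unfold hh
  exact (contDiff_const.mul contDiff_id).mul
    (Real.smoothTransition.contDiff.comp (contDiff_const.sub (contDiff_const.mul contDiff_id)))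

theorem contDiff_h1 : ContDiff ℝ ∞ (deriv hh) := (contDiff_infty_iff_deriv.1 contDiff_hh).2

theorem hh_in {s : ℝ} (hs : s < 18 / 100) : hh s = π * s ∧ deriv hh s = π := by
  have h : hh =ᶠ[𝓝 s] fun t => π * t := by
    filter_upwards [Iio_mem_nhds hs] with t ht
    rw [hh, Real.smoothTransition.one_of_one_le (by linarith [mem_Iio.1 ht]), mul_one]
  refine ⟨h.self_of_nhds, ?_⟩
  rw [h.deriv_eq]
  simpa using ((hasDerivAt_id s).const_mul π).deriv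

theorem hh_out {s : ℝ} (hs : 19 / 100 < s) : hh s = 0 ∧ deriv hh s = 0 := by
  have h : hh =ᶠ[𝓝 s] fun _ => 0 := by
    filter_upwards [Ioi_mem_nhds hs] with t ht
    rw [hh, Real.smoothTransition.zero_of_nonpos (by linarith [mem_Ioi.1 ht]), mul_zero]
  exact ⟨h.self_of_nhds, by rw [h.deriv_eq, deriv_const]⟩

/-- The twist about the origin. -/
noncomputable def tw (e : ℝ) (p : C3) : C3 :=
  (ex (e * deriv hh (normSq p.1)) * p.1,
    p.2 + e * (hh (normSq p.1) - normSq p.1 * deriv hh (normSq p.1)))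

/-- The Heisenberg translation. -/
noncomputable def tr (c : ℝ) (p : C3) : C3 := (p.1 + c, p.2 - c * p.1.im)

theorem contDiff_ns : ContDiff ℝ ∞ (fun p : C3 => normSq p.1) := by
  simp only [normSq_apply]
  have h1 : ContDiff ℝ ∞ (fun p : C3 => p.1.re) := reCLM.contDiff.comp contDiff_fst
  have h2 : ContDiff ℝ ∞ (fun p : C3 => p.1.im) := imCLM.contDiff.comp contDiff_fst
  exact (h1.mul h1).add (h2.mul h2)

theorem contDiff_tw (e : ℝ) : ContDiff ℝ ∞ (tw e) := by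
  have h1 := contDiff_h1.comp contDiff_ns
  have h0 := contDiff_hh.comp contDiff_ns
  exact ((contDiff_ex.comp (contDiff_const.mul h1)).mul contDiff_fst).prodMk
    (contDiff_snd.add (contDiff_const.mul (h0.sub (contDiff_ns.mul h1))))

theorem contDiff_tr (c : ℝ) : ContDiff ℝ ∞ (tr c) :=
  (contDiff_fst.add contDiff_const).prodMk
    (contDiff_snd.sub (contDiff_const.mul (imCLM.contDiff.comp contDiff_fst)))

theorem tw_tw (e : ℝ) (p : C3) : tw (-e) (tw e p) = p := by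
  have h : normSq (tw e p).1 = normSq p.1 := by simp [tw, normSq_ex]
  refine Prod.ext ?_ ?_
  · change ex (-e * deriv hh (normSq (tw e p).1)) * (tw e p).1 = p.1
    rw [h, tw, ← mul_assoc, ← ex_add]
    simp [ex_zero]
  · change (tw e p).2 + -e * (hh (normSq (tw e p).1) -
      normSq (tw e p).1 * deriv hh (normSq (tw e p).1)) = p.2
    rw [h, tw]
    ring

theorem tr_tr (c : ℝ) (p : C3) : tr (-c) (tr c p) = p := by
  refine Prod.ext ?_ ?_ <;> simp [tr]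

theorem bij_of_inv {f g : C3 → C3} (hf : ContDiff ℝ ∞ f) (hg : ContDiff ℝ ∞ g)
    (h : ∀ p, g (f p) = p) (p : C3) : Function.Bijective (fderiv ℝ f p) := by
  refine bij_of_inj rfl _ fun v hv => ?_
  have h1 := fderiv_comp p ((hg.differentiable (by simp)) (f p)) ((hf.differentiable (by simp)) p)
  rw [show g ∘ f = id from funext h, fderiv_id] at h1
  have h2 := congrArg (fun A : C3 →L[ℝ] C3 => A v) h1
  simpa [hv] using h2

theorem tr_lp (c : ℝ) (p : C3) : LP (E := C3) (F := C3) b0 b0 (tr c) p := by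
  refine LP.flat (Eventually.of_forall fun x => (contDiff_tr c).contDiffAt)
    (bij_of_inv (contDiff_tr c) (contDiff_tr (-c)) (tr_tr c) p) one_pos fun v => ?_
  have hd : HasFDerivAt (tr c) _ p := (hasFDerivAt_fst.add_const (c : ℂ)).prodMk
    (hasFDerivAt_snd.sub ((imCLM.hasFDerivAt.comp p hasFDerivAt_fst).const_mul c))
  rw [hd.fderiv]
  simp [b0, tr]
  ring

theorem tw_lp (e : ℝ) (p : C3) : LP (E := C3) (F := C3) b0 b0 (tw e) p := by
  refine LP.flat (Eventually.of_forall fun x => (contDiff_tw e).contDiffAt)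
    (bij_of_inv (contDiff_tw e) (contDiff_tw (-e)) (tw_tw e) p) one_pos fun v => ?_
  have hs := ((contDiff_ns.differentiable (by simp)) p).hasFDerivAt
  set S := fderiv ℝ (fun p : C3 => normSq p.1) p
  have h0 : HasFDerivAt (fun p : C3 => hh (normSq p.1)) (deriv hh (normSq p.1) • S) p :=
    ((contDiff_hh.differentiable (by simp)) _).hasDerivAt.comp_hasFDerivAt p hs
  have h1 : HasFDerivAt (fun p : C3 => deriv hh (normSq p.1))
      (deriv (deriv hh) (normSq p.1) • S) p :=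
    ((contDiff_h1.differentiable (by simp)) _).hasDerivAt.comp_hasFDerivAt p hs
  have hd : HasFDerivAt (tw e) _ p :=
    ((HasFDerivAt.ex' (h1.const_mul e)).mul hasFDerivAt_fst).prodMk
      (hasFDerivAt_snd.add ((h0.sub (hs.mul h1)).const_mul e))
  rw [hd.fderiv]
  have hc := Real.cos_sq_add_sin_sq (e * deriv hh (normSq p.1))
  simp [b0, tw, ex_re, ex_im]
  simp only [normSq_apply] at hc ⊢
  linear_combination (p.1.re * v.1.im - p.1.im * v.1.re + (p.1.re * p.1.re + p.1.im * p.1.im) *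
    (e * deriv (deriv hh) (p.1.re * p.1.re + p.1.im * p.1.im) * S v)) * hc

/-- The twist about the point `21 / 50`. -/
noncomputable def psi (e : ℝ) (p : C3) : C3 := tr (21 / 50) (tw e (tr (-(21 / 50)) p))

theorem psi_psi (e : ℝ) (p : C3) : psi (-e) (psi e p) = p := by
  have h := tr_tr (-(21 / 50)) p
  rw [neg_neg] at h
  rw [psi, psi, tr_tr, tw_tw, h]

theorem psi_lp (e : ℝ) (p : C3) : LP (E := C3) (F := C3) b0 b0 (psi e) p :=
  (tr_lp _ p).comp ((tw_lp e _).comp (tr_lp _ _))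

theorem psi_congr (e : ℝ) {p p' : C3} (h : Sol1 p = Sol1 p') :
    Sol1 (psi e p) = Sol1 (psi e p') := by
  obtain ⟨h1, h2⟩ := Sol1_eq_iff.1 h
  obtain ⟨k, hk⟩ := ex_eq_iff.1 h2
  refine Sol1_eq_iff.2 ⟨by simp only [psi, tr, tw, h1], ex_congr k ?_⟩
  simp only [psi, tr, tw, h1, hk]
  ring

theorem psi_out {p : C3} (h : 37 / 50 ≤ normSq p.1) : psi 1 p = p := by
  have h1 : 19 / 100 < normSq (tr (-(21 / 50)) p).1 := by
    simp only [tr, normSq_apply, add_re, add_im, ofReal_re, ofReal_im, add_zero] at h ⊢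
    by_contra h2
    have h3 : p.1.re ≤ 43 / 50 - 1 / 250 := by nlinarith [mul_self_nonneg p.1.im]
    nlinarith
  obtain ⟨h2, h3⟩ := hh_out h1
  have h4 : tw 1 (tr (-(21 / 50)) p) = tr (-(21 / 50)) p := by
    rw [tw, h2, h3]
    simp [ex_zero]
  have h5 := tr_tr (-(21 / 50)) p
  rw [neg_neg] at h5
  rw [psi, h4, h5]

theorem psi_in {p : C3} (h : normSq (p.1 - 21 / 50) < 18 / 100) :
    psi 1 p = (21 / 25 - p.1, p.2 + 21 / 25 * p.1.im) := by
  have h0 : (tr (-(21 / 50)) p).1 = p.1 - 21 / 50 := by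
    simp only [tr]
    push_cast
    ring
  obtain ⟨h2, h3⟩ := hh_in (h0 ▸ h : normSq (tr (-(21 / 50)) p).1 < 18 / 100)
  have h4 : ex π = -1 := Complex.exp_pi_mul_I
  rw [psi, tw, h2, h3, one_mul, h4]
  refine Prod.ext ?_ ?_
  · simp only [tr]
    push_cast
    ring
  · simp [tr]
    ring

theorem small {X : ℂ} (h : ‖X‖ ≤ 1 / 250) : normSq (X - 21 / 50) < 18 / 100 := by
  have h1 : ‖X - 21 / 50‖ ≤ 1 / 250 + 21 / 50 := by
    refine (norm_sub_le _ _).trans (add_le_add h (le_of_eq ?_))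
    simp
  rw [normSq_eq_norm_sq]
  nlinarith [norm_nonneg (X - 21 / 50)]

end HH

open HH in
theorem exists_Hh : ∃ Hh : S3 → S3 → Prop, CRel alphaSt alphaSt Hh ∧
    (∀ n n1, Hh n n1 → z2 n ≠ 0 ∧ z2 n1 ≠ 0) ∧
    (∀ n, z2 n ≠ 0 → (∃ n1, Hh n n1) ∧ ∃ n1, Hh n1 n) ∧
    (∀ p : C3, 37 / 50 ≤ Complex.normSq p.1 → Hh (Sol1 p) (Sol1 p)) ∧
    ∀ (X : ℂ) (θ : ℝ), ‖X‖ ≤ 1 / 250 →
      Hh (Sol1 (X, θ)) (Sol1 (21 / 25 - X, θ + 21 / 25 * X.im)) ∧
      Hh (Sol1 (21 / 25 - X, θ + 21 / 25 * X.im)) (Sol1 (X, θ)) := by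
  refine ⟨fun x y => ∃ p ∈ (univ : Set C3), x = Sol1 p ∧ y = (Sol1 ∘ psi 1) p,
    CRel.of_params (a := b0) isOpen_univ (fun p _ => Sol1_lp p)
      (fun p _ => (psi_lp 1 p).comp (Sol1_lp _)) fun p _ p' _ => ⟨psi_congr 1, fun h => ?_⟩,
    ?_, fun n hn => ?_, fun p hp => ⟨p, trivial, rfl, ?_⟩, fun X θ hX => ⟨⟨_, trivial, rfl, ?_⟩,
      ⟨_, trivial, rfl, ?_⟩⟩⟩
  · have := psi_congr (-1) h
    rwa [psi_psi, psi_psi] at this
  · rintro n n1 ⟨p, -, rfl, rfl⟩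
    exact ⟨Sol1_z2_ne _, Sol1_z2_ne _⟩
  · obtain ⟨p, rfl⟩ := Sol1_surj hn
    refine ⟨⟨_, p, trivial, rfl, rfl⟩, _, psi (-1) p, trivial, rfl, ?_⟩
    have := psi_psi (-1) p
    rw [neg_neg] at this
    rw [Function.comp_apply, this]
  · rw [Function.comp_apply, psi_out hp]
  · rw [Function.comp_apply, psi_in (small hX)]
  · have h1 : normSq ((21 / 25 - X : ℂ) - 21 / 50) < 18 / 100 := by
      rw [show (21 / 25 - X : ℂ) - 21 / 50 = -(X - 21 / 50) by ring, normSq_neg]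
      exact small hX
    rw [Function.comp_apply, psi_in h1]
    congr 1
    refine Prod.ext (by simp) ?_
    simp

end Pool.Agent.MP_5d9d0b_gt

end MrgPart3

-- ======== part 4: formerly Pool.Agent.MP_5d9d0b_gt.COL.Near
section MrgPart4

/-!
The Weinstein model near the singular point and the far model.
-/

namespace Pool.Agent.MP_5d9d0b_gt.Col

open scoped ContDiff Real Topology
open Set Filter

/-- The positive root of `16 a² k⁴ = k² Z² + w²`. -/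
noncomputable def kk (a : ℝ) (q : ℝ × ℝ) : ℝ :=
  √((q.1 ^ 2 + √(q.1 ^ 4 + 64 * a ^ 2 * q.2 ^ 2)) / (32 * a ^ 2))

noncomputable def yy (a : ℝ) (q : ℝ × ℝ) : ℝ := kk a q * q.1

variable {a : ℝ} {p : ℝ × ℝ}

lemma kk_cont (a : ℝ) : Continuous (kk a) := by unfold kk; fun_prop

lemma kk_nonneg (a : ℝ) (q : ℝ × ℝ) : 0 ≤ kk a q := Real.sqrt_nonneg _

lemma kk_eq (ha : 0 < a) (q : ℝ × ℝ) :
    16 * a ^ 2 * kk a q ^ 4 = kk a q ^ 2 * q.1 ^ 2 + q.2 ^ 2 := by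
  have h1 : kk a q ^ 2 = (q.1 ^ 2 + √(q.1 ^ 4 + 64 * a ^ 2 * q.2 ^ 2)) / (32 * a ^ 2) :=
    Real.sq_sqrt (by positivity)
  have h2 : √(q.1 ^ 4 + 64 * a ^ 2 * q.2 ^ 2) ^ 2 = q.1 ^ 4 + 64 * a ^ 2 * q.2 ^ 2 :=
    Real.sq_sqrt (by positivity)
  have h3 : kk a q ^ 4 = (kk a q ^ 2) ^ 2 := by ring
  rw [h3, h1]
  generalize √(q.1 ^ 4 + 64 * a ^ 2 * q.2 ^ 2) = S at h2
  field_simp
  linear_combination 16 * h2

lemma rad_pos (ha : 0 < a) (hp : p ≠ 0) : 0 < p.1 ^ 4 + 64 * a ^ 2 * p.2 ^ 2 := by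
  by_cases h1 : p.1 = 0
  · have h2 : p.2 ≠ 0 := fun h2 => hp (Prod.ext h1 h2)
    positivity
  · positivity

lemma kk_pos (ha : 0 < a) (hp : p ≠ 0) : 0 < kk a p := by
  have := Real.sqrt_pos.2 (rad_pos ha hp)
  exact Real.sqrt_pos.2 (by positivity)

lemma kk_smooth (ha : 0 < a) (hp : p ≠ 0) : ContDiffAt ℝ ∞ (kk a) p := by
  have h0 := rad_pos ha hp
  have h1 := Real.sqrt_pos.2 h0
  have h2 : ContDiffAt ℝ ∞ (fun q : ℝ × ℝ => √(q.1 ^ 4 + 64 * a ^ 2 * q.2 ^ 2)) p :=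
    ContDiffAt.sqrt (by fun_prop) h0.ne'
  refine ContDiffAt.sqrt (((contDiffAt_fst.pow 2).add h2).div_const _) (ne_of_gt ?_)
  positivity

lemma yy_smooth (ha : 0 < a) (hp : p ≠ 0) : ContDiffAt ℝ ∞ (yy a) p :=
  (kk_smooth ha hp).mul contDiffAt_fst

lemma kk_le (ha : 0 < a) {q : ℝ × ℝ} (h1 : |q.1| ≤ a) (h2 : |q.2| ≤ 3 * a) : kk a q ≤ 1 := by
  by_contra h
  push Not at h
  have e := kk_eq ha q
  have b1 : q.1 ^ 2 ≤ a ^ 2 := by nlinarith [sq_abs q.1, abs_nonneg q.1]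
  have b2 : q.2 ^ 2 ≤ 9 * a ^ 2 := by nlinarith [sq_abs q.2, abs_nonneg q.2]
  have k2 : 1 < kk a q ^ 2 := by nlinarith
  have k4 : kk a q ^ 2 ≤ kk a q ^ 4 := by nlinarith
  have a2 : 0 < a ^ 2 := by positivity
  nlinarith [mul_le_mul_of_nonneg_left b1 (sq_nonneg (kk a q)), mul_le_mul_of_nonneg_left k4 a2.le,
    mul_lt_mul_of_pos_left k2 a2]

lemma kk_ge (ha : 0 < a) {q : ℝ × ℝ} (h2 : 2 * a ≤ |q.2|) : 3 / 5 ≤ kk a q := by
  by_contra h
  push Not at h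
  have e := kk_eq ha q
  have b2 : 4 * a ^ 2 ≤ q.2 ^ 2 := by nlinarith [sq_abs q.2, abs_nonneg q.2]
  have k0 := kk_nonneg a q
  have k4 : kk a q ^ 4 ≤ (3 / 5) ^ 4 := pow_le_pow_left₀ k0 h.le 4
  have a2 : 0 < a ^ 2 := by positivity
  nlinarith [mul_le_mul_of_nonneg_left k4 a2.le, mul_nonneg (sq_nonneg (kk a q)) (sq_nonneg q.1)]

lemma kk_polar {c ρ : ℝ} (hc : 0 < c) (hρ : 0 < ρ) (σ : ℝ) :
    kk (c ^ 2) (2 * c * √ρ * Real.cos σ, ρ * Real.sin σ) = √ρ / (2 * c) := by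
  have h1 : √ρ ^ 2 = ρ := Real.sq_sqrt hρ.le
  have h2 := Real.sin_sq_add_cos_sq σ
  have h3 : Real.cos σ ^ 2 ≤ 1 := by nlinarith [sq_nonneg (Real.sin σ)]
  have e0 : (2 * c * √ρ * Real.cos σ) ^ 2 = 4 * c ^ 2 * ρ * Real.cos σ ^ 2 := by
    rw [mul_pow, mul_pow, h1]; ring
  have e1 : (2 * c * √ρ * Real.cos σ) ^ 4 + 64 * (c ^ 2) ^ 2 * (ρ * Real.sin σ) ^ 2 =
      (4 * c ^ 2 * ρ * (2 - Real.cos σ ^ 2)) ^ 2 := by
    have : (2 * c * √ρ * Real.cos σ) ^ 4 = ((2 * c * √ρ * Real.cos σ) ^ 2) ^ 2 := by ring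
    rw [this, e0]
    linear_combination 64 * c ^ 4 * ρ ^ 2 * h2
  unfold kk
  simp only
  rw [e1, Real.sqrt_sq (mul_nonneg (by positivity) (by linarith)), e0]
  have e2 : (4 * c ^ 2 * ρ * Real.cos σ ^ 2 + 4 * c ^ 2 * ρ * (2 - Real.cos σ ^ 2)) /
      (32 * (c ^ 2) ^ 2) = (√ρ / (2 * c)) ^ 2 := by
    rw [div_pow, h1]; field_simp; ring
  rw [e2, Real.sqrt_sq (by positivity)]

lemma near_adm (ha : 0 < a) (hp : p ≠ 0) {Θ : ℝ × ℝ → ℝ} (hΘ : ContDiffAt ℝ ∞ Θ p)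
    (hd : ∀ yZ yw, HD (yy a) p yZ yw → HD Θ p (-(p.2 * yZ) / (p.2 ^ 2 + yy a p ^ 2))
      ((yy a p - p.2 * yw) / (p.2 ^ 2 + yy a p ^ 2))) :
    ∃ D, kk a p ≤ D ∧ Adm (yy a) (fun q => 2 * kk a q) Θ p D := by
  obtain ⟨kZ, kw, hk⟩ := HD.of_diff ((kk_smooth ha hp).differentiableAt (by simp))
  have k0 := kk_pos ha hp
  have e := kk_eq ha p
  have hy : HD (yy a) p (kZ * p.1 + kk a p) (kw * p.1) :=
    (hk.mul (HD.fst p)).cg (by ring) (by ring)
  have k2 := hk.mul hk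
  have hF := (((HD.const (16 * a ^ 2) p).mul (k2.mul k2)).sub
    (k2.mul ((HD.fst p).mul (HD.fst p)))).sub ((HD.snd p).mul (HD.snd p))
  have hF0 := (HD.const 0 p).congr (g := fun q => 16 * a ^ 2 * (kk a q * kk a q * (kk a q * kk a q))
    - kk a q * kk a q * (q.1 * q.1) - q.2 * q.2)
    (Eventually.of_forall fun q => by have := kk_eq ha q; simp only; linear_combination this)
  obtain ⟨e1, e2⟩ := hF.unique hF0
  set k := kk a p with hkdef
  have hyk : yy a p = k * p.1 := rfl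
  have N0 : 0 < p.2 ^ 2 + (k * p.1) ^ 2 := by
    have : p.2 ^ 2 + (k * p.1) ^ 2 = 16 * a ^ 2 * k ^ 4 := by linear_combination -e
    rw [this]; positivity
  have M0 : 0 < 2 * p.2 ^ 2 + (k * p.1) ^ 2 := by nlinarith [sq_nonneg p.2]
  have f1 : kZ * (2 * p.2 ^ 2 + (k * p.1) ^ 2) = k ^ 3 * p.1 := by
    linear_combination (k / 2) * e1 - 2 * kZ * e
  have f2 : kw * (2 * p.2 ^ 2 + (k * p.1) ^ 2) = k * p.2 := by
    linear_combination (k / 2) * e2 - 2 * kw * e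
  have g1 : kZ = k ^ 3 * p.1 / (2 * p.2 ^ 2 + (k * p.1) ^ 2) := (eq_div_iff M0.ne').2 f1
  refine ⟨kZ * p.1 + k, ?_, yy_smooth ha hp, contDiffAt_const.mul (kk_smooth ha hp), hΘ, _, _, _,
    hd _ _ hy, ((HD.const 2 p).mul hk).cg rfl ?_, hy.cg rfl ?_, ?_⟩
  · have : 0 ≤ kZ * p.1 := by
      rw [g1, div_mul_eq_mul_div]
      exact div_nonneg (by nlinarith [mul_nonneg (pow_pos k0 3).le (sq_nonneg p.1)]) M0.le
    linarith
  · rw [hyk, neg_div, neg_neg, eq_div_iff N0.ne']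
    apply mul_right_cancel₀ M0.ne'
    linear_combination 2 * (p.2 ^ 2 + (k * p.1) ^ 2) * f2 - p.2 * p.1 * f1
  · rw [hyk, ← mul_div_assoc, eq_div_iff N0.ne']
    linear_combination p.1 * f2
  · rw [hyk, ← hkdef, ← mul_div_assoc, ← sub_eq_iff_eq_add', eq_div_iff N0.ne']
    linear_combination p.1 * f1

/-- The branch of the angle that is smooth off the lower ray. -/
noncomputable def Th1 (a : ℝ) (q : ℝ × ℝ) : ℝ :=
  Complex.arg ((q.2 : ℝ) + ((-yy a q : ℝ) : ℂ) * Complex.I)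

/-- The branch of the angle that is smooth off the upper ray. -/
noncomputable def Th2 (a : ℝ) (q : ℝ × ℝ) : ℝ :=
  Complex.arg (((-q.2 : ℝ) : ℂ) + (yy a q : ℝ) * Complex.I) + π

lemma yy_pos (ha : 0 < a) (h : 0 < p.1) : 0 < yy a p :=
  mul_pos (kk_pos ha fun e => by simp [e] at h) h

lemma yy_neg (ha : 0 < a) (h : p.1 < 0) : yy a p < 0 :=
  mul_neg_of_pos_of_neg (kk_pos ha fun e => by simp [e] at h) h

lemma near_adm1 (ha : 0 < a) (h : p.1 ≠ 0 ∨ 0 < p.2) :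
    ∃ D, kk a p ≤ D ∧ Adm (yy a) (fun q => 2 * kk a q) (Th1 a) p D := by
  have hp : p ≠ 0 := fun e => by simp [e] at h
  have hs : ((p.2 : ℝ) : ℂ) + ((-yy a p : ℝ) : ℂ) * Complex.I ∈ Complex.slitPlane := by
    rcases h with h | h
    · right
      have : yy a p ≠ 0 := mul_ne_zero (kk_pos ha hp).ne' h
      simpa using this
    · left; simpa using h
  refine near_adm ha hp (contDiffAt_arg contDiffAt_snd (yy_smooth ha hp).neg hs) fun yZ yw hy => ?_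
  have hy' : HD (fun q => -yy a q) p (-yZ) (-yw) := by
    simpa using (HD.const 0 p).sub hy
  exact ((HD.snd p).arg hy' hs).cg (by simp) (by simp; ring)

lemma near_adm2 (ha : 0 < a) (h : p.2 < 0) :
    ∃ D, kk a p ≤ D ∧ Adm (yy a) (fun q => 2 * kk a q) (Th2 a) p D := by
  have hp : p ≠ 0 := fun e => by simp [e] at h
  have hs : ((-p.2 : ℝ) : ℂ) + ((yy a p : ℝ) : ℂ) * Complex.I ∈ Complex.slitPlane := by
    left; simpa using h
  refine near_adm ha hp ((contDiffAt_arg contDiffAt_snd.neg (yy_smooth ha hp) hs).add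
    contDiffAt_const) fun yZ yw hy => ?_
  have hw : HD (fun q : ℝ × ℝ => -q.2) p 0 (-1) := by
    simpa using (HD.const 0 p).sub (HD.snd p)
  exact ((hw.arg hy hs).add (HD.const π p)).cg (by simp) (by simp; ring)

lemma Th_neg (a : ℝ) (q : ℝ × ℝ) : (((-q.2 : ℝ) : ℂ) + (yy a q : ℝ) * Complex.I) =
    -((q.2 : ℝ) + ((-yy a q : ℝ) : ℂ) * Complex.I) := by
  push_cast; ring

lemma Th_pos (ha : 0 < a) (h : 0 < p.1) : Th1 a p = Th2 a p - 2 * π := by
  unfold Th1 Th2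
  rw [Th_neg, Complex.arg_neg_eq_arg_add_pi_of_im_neg (by simpa using yy_pos ha h)]
  ring

lemma Th_nonpos (ha : 0 < a) (h : p.1 ≤ 0) (hw : p.2 < 0) : Th1 a p = Th2 a p := by
  unfold Th1 Th2
  rw [Th_neg, Complex.arg_neg_eq_arg_sub_pi_iff.2]
  · ring
  rcases h.lt_or_eq with h | h
  · left; simpa using yy_neg ha h
  · right; simp [yy, h, hw]

lemma abs_mul_arg_le {x y : ℝ} (hx : 0 < x) :
    |x * Complex.arg ((x : ℂ) + (y : ℂ) * Complex.I)| ≤ |y| := by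
  set θ := Complex.arg ((x : ℂ) + (y : ℂ) * Complex.I) with hθ
  have h1 : |θ| < π / 2 := Complex.abs_arg_lt_pi_div_two_iff.2 (Or.inl (by simpa using hx))
  have h2 : Real.tan θ = y / x := by rw [hθ, Complex.tan_arg]; simp
  have h3 : |θ| ≤ |Real.tan θ| := by
    rcases le_total 0 θ with h | h
    · rw [abs_of_nonneg h] at h1 ⊢
      exact (Real.le_tan h h1).trans (le_abs_self _)
    · rw [abs_of_nonpos h] at h1 ⊢
      have := Real.le_tan (neg_nonneg.2 h) h1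
      rw [Real.tan_neg] at this
      exact this.trans (neg_le_abs _)
  rw [abs_mul, abs_of_pos hx]
  rw [h2, abs_div, abs_of_pos hx, le_div_iff₀ hx] at h3
  linarith

lemma Th1_polar {c ρ : ℝ} (hc : 0 < c) (hρ : 0 < ρ) (σ : ℝ) : ∃ k : ℤ,
    Th1 (c ^ 2) (2 * c * √ρ * Real.cos σ, ρ * Real.sin σ) = σ - π / 2 + 2 * π * k := by
  have h1 : √ρ * √ρ = ρ := Real.mul_self_sqrt hρ.le
  have hy : yy (c ^ 2) (2 * c * √ρ * Real.cos σ, ρ * Real.sin σ) = ρ * Real.cos σ := by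
    unfold yy; rw [kk_polar hc hρ]; field_simp; linear_combination Real.cos σ * h1
  unfold Th1
  rw [hy]
  have e : ((ρ * Real.sin σ : ℝ) : ℂ) + ((-(ρ * Real.cos σ) : ℝ) : ℂ) * Complex.I =
      (ρ : ℂ) * (Complex.cos ((σ - π / 2 : ℝ) : ℂ) + Complex.sin ((σ - π / 2 : ℝ) : ℂ) * Complex.I) := by
    rw [← Complex.ofReal_cos, ← Complex.ofReal_sin, Real.cos_sub_pi_div_two,
      Real.sin_sub_pi_div_two]
    push_cast; ring
  simp only
  rw [e]
  have := Complex.arg_mul_cos_add_sin_mul_I_sub hρ (σ - π / 2)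
  exact ⟨_, by rw [← this]; ring⟩

/-! ### The far model -/

noncomputable def mζ (χ : ℝ → ℝ) (e : ℝ × ℝ → ℝ) (q : ℝ × ℝ) : ℝ :=
  q.1 + q.2 ^ 2 * deriv χ q.2 * (q.1 + e q)

def mu (χ : ℝ → ℝ) (q : ℝ × ℝ) : ℝ := 1 - q.2 * χ q.2

noncomputable def mG (χ : ℝ → ℝ) (e : ℝ × ℝ → ℝ) (q : ℝ × ℝ) : ℝ :=
  (q.1 + e q) * (χ q.2 + q.2 * deriv χ q.2)

lemma mid_adm {χ : ℝ → ℝ} (hχ : ContDiff ℝ ∞ χ) (e : ℝ) (p : ℝ × ℝ) :
    Adm (mζ χ fun _ => e) (mu χ) (mG χ fun _ => e) p (1 + p.2 ^ 2 * deriv χ p.2) := by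
  have hχ' : ContDiff ℝ ∞ (deriv χ) := (contDiff_infty_iff_deriv.1 hχ).2
  have s0 : ContDiffAt ℝ ∞ (fun q : ℝ × ℝ => χ q.2) p := hχ.contDiffAt.comp p contDiffAt_snd
  have s1 : ContDiffAt ℝ ∞ (fun q : ℝ × ℝ => deriv χ q.2) p :=
    hχ'.contDiffAt.comp p contDiffAt_snd
  have dE := (HD.fst p).add (HD.const e p)
  have d2 : HD (fun q : ℝ × ℝ => q.2 ^ 2) p 0 (2 * p.2) := by
    have := ((HD.snd p).mul (HD.snd p)).cg (a' := 0) (b' := 2 * p.2) (by ring) (by ring)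
    simpa [sq] using this
  refine ⟨contDiffAt_fst.add (((contDiffAt_snd.pow 2).mul s1).mul
      (contDiffAt_fst.add contDiffAt_const)), contDiffAt_const.sub (contDiffAt_snd.mul s0),
    (contDiffAt_fst.add contDiffAt_const).mul (s0.add (contDiffAt_snd.mul s1)), _, _, _,
    dE.mul ((HD.cw hχ p).add ((HD.snd p).mul (HD.cw hχ' p))),
    ((HD.const 1 p).sub ((HD.snd p).mul (HD.cw hχ p))).cg rfl ?_,
    ((HD.fst p).add ((d2.mul (HD.cw hχ' p)).mul dE)).cg ?_ ?_, ?_⟩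
  · ring
  · ring
  · ring
  · simp only [mu]; ring

end Pool.Agent.MP_5d9d0b_gt.Col

end MrgPart4

-- ======== part 5: formerly Pool.Agent.MP_5d9d0b_gt.COL.Strip
section MrgPart5

/-!
The glued solution around one singular point.
-/

namespace Pool.Agent.MP_5d9d0b_gt.Col

open scoped ContDiff Real Topology
open Set Filter

structure Dat where
  a : ℝ
  Z1 : ℝ
  C : ℝ
  m : ℝ
  γ : ℝ → ℝ
  β : ℝ → ℝ
  χ : ℝ → ℝ
  ha : 0 < a
  ha1 : a ≤ 1 / 100
  hZ : 0 < Z1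
  hC : 0 < C
  hm : 0 < m
  hCm : C * m ≤ 1 / 10
  hγ : Cut γ Z1 a m
  hβ : Cut β (2 * a) (3 * a) C
  hχ : Step χ a

lemma exists_dat {a : ℝ} (ha : 0 < a) (ha1 : a ≤ 1 / 100) : ∃ d : Dat, d.a = a := by
  obtain ⟨β, C, hC, hβ⟩ := exists_cut (a := 2 * a) (b := 3 * a) (by positivity) (by linarith)
  obtain ⟨γ, Z1, hZ, hγ⟩ := exists_logcut (m := 1 / (10 * C)) ha (by positivity)
  obtain ⟨χ, hχ⟩ := exists_step ha
  exact ⟨⟨a, Z1, C, _, γ, β, χ, ha, ha1, hZ, hC, by positivity, le_of_eq (by field_simp), hγ, hβ,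
    hχ⟩, rfl⟩

noncomputable def EE (q : ℝ × ℝ) : ℝ := if 0 < q.1 then -π else π

namespace Dat
variable (d : Dat)

noncomputable def LZ (e Θ : ℝ × ℝ → ℝ) : ℝ × ℝ → ℝ :=
  gζ d.γ d.β (yy d.a) Θ (mζ d.χ e) (mG d.χ e)

noncomputable def LU (e Θ : ℝ × ℝ → ℝ) : ℝ × ℝ → ℝ :=
  gu d.γ d.β (yy d.a) (fun q => 2 * kk d.a q) Θ (mζ d.χ e) (mu d.χ) (mG d.χ e)

noncomputable def LG (e Θ : ℝ × ℝ → ℝ) : ℝ × ℝ → ℝ :=
  gG d.γ d.β (yy d.a) Θ (mζ d.χ e) (mG d.χ e)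

noncomputable def ζ0 : ℝ × ℝ → ℝ := d.LZ EE (Th1 d.a)
noncomputable def u0 : ℝ × ℝ → ℝ := d.LU EE (Th1 d.a)
noncomputable def g0 : ℝ × ℝ → ℝ := d.LG EE (Th1 d.a)

variable {p : ℝ × ℝ}

lemma rr_bd {e : ℝ} {Θ : ℝ × ℝ → ℝ} (h1 : 0 < p.2 → Θ p = Th1 d.a p)
    (h2 : p.2 < 0 → Θ p - e = Th2 d.a p - π) (w1 : 2 * d.a ≤ |p.2|) (w2 : |p.2| ≤ 3 * d.a)
    (z : |p.1| ≤ d.a) :
    |rr (yy d.a) Θ (mζ d.χ fun _ => e) (mG d.χ fun _ => e) p| ≤ 4 * |p.1| := by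
  have ha := d.ha
  have ha1 := d.ha1
  have hy : |yy d.a p| ≤ |p.1| := by
    rw [yy, abs_mul, abs_of_nonneg (kk_nonneg _ _)]
    exact mul_le_of_le_one_left (abs_nonneg _) (kk_le ha z w2)
  have hwz : |p.2 * p.1| ≤ |p.1| := by
    rw [abs_mul]; exact mul_le_of_le_one_left (abs_nonneg _) (by linarith)
  rcases le_total 0 p.2 with h | h
  · rw [abs_of_nonneg h] at w1
    have hw : 0 < p.2 := by linarith
    have b := abs_mul_arg_le (y := -yy d.a p) hw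
    have e1 : rr (yy d.a) Θ (mζ d.χ fun _ => e) (mG d.χ fun _ => e) p =
        p.1 - yy d.a p + p.2 * Th1 d.a p := by
      simp only [rr, mζ, mG, (d.hχ.zero _ h).1, (d.hχ.zero _ h).2, h1 hw]; ring
    rw [abs_neg] at b
    rw [e1, Th1]
    rw [abs_le] at hy b ⊢
    constructor <;> linarith [le_abs_self p.1, neg_abs_le p.1, le_abs_self (yy d.a p),
      neg_abs_le (yy d.a p), abs_le.2 hy, abs_nonneg p.1]
  · rw [abs_of_nonpos h] at w1
    have hw : p.2 < 0 := by linarith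
    have hw' : p.2 ≤ -d.a := by linarith
    have b := abs_mul_arg_le (x := -p.2) (y := yy d.a p) (by linarith)
    have e1 : rr (yy d.a) Θ (mζ d.χ fun _ => e) (mG d.χ fun _ => e) p =
        p.1 - p.2 * p.1 - yy d.a p - (-p.2) * (Th2 d.a p - π) := by
      simp only [rr, mζ, mG, (d.hχ.one _ hw').1, (d.hχ.one _ hw').2, ← h2 hw]; ring
    rw [e1, Th2, add_sub_cancel_right]
    rw [abs_le] at hy hwz b ⊢
    constructor <;> linarith [le_abs_self p.1, neg_abs_le p.1, le_abs_self (yy d.a p),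
      neg_abs_le (yy d.a p), abs_le.2 hy, abs_nonneg p.1]

/-- The local statement. -/
def Loc (ζ u g : ℝ × ℝ → ℝ) (p : ℝ × ℝ) : Prop :=
  ∃ G D, Adm ζ u G p D ∧ 0 < D ∧ ∀ᶠ q in 𝓝 p, ∃ k : ℤ, g q = G q + 2 * π * k

lemma loc_of (hp : p ≠ 0) {e D1 : ℝ} {Θ : ℝ × ℝ → ℝ} (hk : kk d.a p ≤ D1)
    (hA : Adm (yy d.a) (fun q => 2 * kk d.a q) Θ p D1) (hs : 0 ≤ deriv d.γ p.1 * (p.1 + e))
    (h1 : 0 < p.2 → Θ p = Th1 d.a p) (h2 : p.2 < 0 → Θ p - e = Th2 d.a p - π)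
    (hev : ∀ᶠ q in 𝓝 p, d.ζ0 q = d.LZ (fun _ => e) Θ q ∧ d.u0 q = d.LU (fun _ => e) Θ q ∧
      ∃ k : ℤ, d.g0 q = d.LG (fun _ => e) Θ q + 2 * π * k) : Loc d.ζ0 d.u0 d.g0 p := by
  have ha := d.ha
  have ha1 := d.ha1
  refine ⟨_, _, (hA.glue d.hγ.sm d.hβ.sm (mid_adm d.hχ.sm e p)).congr (hev.mono fun q h => h.1)
    (hev.mono fun q h => h.2.1), ?_, hev.mono fun q h => h.2.2⟩
  have k0 := kk_pos ha hp
  have P0 : 0 ≤ d.γ p.1 * d.β p.2 := mul_nonneg (d.hγ.nn _) (d.hβ.nn _)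
  have P1 : d.γ p.1 * d.β p.2 ≤ 1 := mul_le_one₀ (d.hγ.le _) (d.hβ.nn _) (d.hβ.le _)
  have t3 : 0 ≤ deriv d.γ p.1 * d.β p.2 * (yy d.a p - mζ d.χ (fun _ => e) p) := by
    rcases le_total d.a |p.1| with z | z
    · rw [(d.hγ.zero _ z).2]; simp
    rcases le_total (3 * d.a) |p.2| with w | w
    · rw [(d.hβ.zero _ w).1]; simp
    have e1 : deriv d.γ p.1 * d.β p.2 * (yy d.a p - mζ d.χ (fun _ => e) p) = d.β p.2 *
        ((-(p.1 * deriv d.γ p.1)) * (1 - kk d.a p) +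
          p.2 ^ 2 * (-deriv d.χ p.2) * (deriv d.γ p.1 * (p.1 + e))) := by
      simp only [yy, mζ]; ring
    rw [e1]
    exact mul_nonneg (d.hβ.nn _) (add_nonneg (mul_nonneg (neg_nonneg.2 (d.hγ.np _))
      (sub_nonneg.2 (kk_le ha z w))) (mul_nonneg (mul_nonneg (sq_nonneg _)
      (neg_nonneg.2 (d.hχ.np _))) hs))
  by_cases hb : deriv d.β p.2 = 0
  · rw [hb]
    have := d.hχ.bd p.2
    have t1 : 0 < d.γ p.1 * d.β p.2 * D1 + (1 - d.γ p.1 * d.β p.2) * (1 + p.2 ^ 2 * deriv d.χ p.2) := by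
      generalize d.γ p.1 * d.β p.2 = P at P0 P1
      rcases P0.lt_or_eq with h | h
      · have := mul_pos h (k0.trans_le hk)
        have := mul_nonneg (sub_nonneg.2 P1) (show 0 ≤ 1 + p.2 ^ 2 * deriv d.χ p.2 by linarith)
        linarith
      · rw [← h]; linarith
    linarith
  have w1 : 2 * d.a ≤ |p.2| := by
    by_contra h; exact hb (d.hβ.one _ (not_le.1 h).le).2
  have w2 : |p.2| ≤ 3 * d.a := by
    by_contra h; exact hb (d.hβ.zero _ (not_le.1 h).le).2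
  have k1 := kk_ge ha w1
  have hχ : deriv d.χ p.2 = 0 ∧ mu d.χ p ≤ 6 / 5 := by
    rcases le_total 0 p.2 with h | h
    · simp only [mu, (d.hχ.zero _ h).1, (d.hχ.zero _ h).2]; norm_num
    · rw [abs_of_nonpos h] at w1 w2
      have hw' : p.2 ≤ -d.a := by linarith
      simp only [mu, (d.hχ.one _ hw').1, (d.hχ.one _ hw').2]
      exact ⟨trivial, by linarith⟩
  have t5 : 0 ≤ d.γ p.1 * (p.2 * deriv d.β p.2) * (mu d.χ p - 2 * kk d.a p) :=
    mul_nonneg_of_nonpos_of_nonpos (mul_nonpos_of_nonneg_of_nonpos (d.hγ.nn _) (d.hβ.np _))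
      (by linarith [hχ.2])
  have t4 : |p.2 * deriv d.β p.2 * deriv d.γ p.1 *
      rr (yy d.a) Θ (mζ d.χ fun _ => e) (mG d.χ fun _ => e) p| ≤ 2 / 5 := by
    rcases le_total d.a |p.1| with z | z
    · rw [(d.hγ.zero _ z).2]; norm_num
    have b1 : |p.2 * deriv d.β p.2| ≤ d.C :=
      abs_le.2 ⟨d.hβ.bd _, (d.hβ.np _).trans d.hC.le⟩
    have b2 : |p.1 * deriv d.γ p.1| ≤ d.m :=
      abs_le.2 ⟨d.hγ.bd _, (d.hγ.np _).trans d.hm.le⟩
    have b3 := d.rr_bd h1 h2 w1 w2 z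
    rw [abs_mul] at b2
    rw [mul_assoc, abs_mul, abs_mul (deriv d.γ p.1)]
    have b4 := mul_le_mul_of_nonneg_left b3 (abs_nonneg (deriv d.γ p.1))
    have b5 := mul_le_mul b1 (show |deriv d.γ p.1| * |rr (yy d.a) Θ (mζ d.χ fun _ => e)
      (mG d.χ fun _ => e) p| ≤ 4 * d.m by linarith) (by positivity) d.hC.le
    linarith [d.hCm]
  rw [hχ.1]
  have t1 := mul_le_mul_of_nonneg_left (k1.trans hk) P0
  have := (abs_le.1 t4).1
  nlinarith

lemma loc0 (hp : p ≠ 0) : Loc d.ζ0 d.u0 d.g0 p := by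
  have ha := d.ha
  have ha1 := d.ha1
  have hpi := Real.pi_gt_three
  rcases lt_trichotomy p.1 0 with hz | hz | hz
  · obtain ⟨D1, hk, hA⟩ := near_adm1 ha (Or.inl hz.ne)
    refine d.loc_of hp (e := π) hk hA ?_ (fun _ => rfl) (fun h => by rw [Th_nonpos ha hz.le h]) ?_
    · rcases le_total d.a |p.1| with z | z
      · rw [(d.hγ.zero _ z).2]; simp
      · refine mul_nonneg (nonneg_of_mul_nonpos_right (d.hγ.np _) hz) ?_
        linarith [neg_abs_le p.1]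
    · filter_upwards [(continuous_fst.tendsto p).eventually (gt_mem_nhds hz)] with q hq
      have : EE q = π := if_neg (not_lt.2 hq.le)
      refine ⟨?_, ?_, 0, ?_⟩ <;> simp [ζ0, u0, g0, LZ, LU, LG, gζ, gu, gG, rr, mζ, mG, this]
  · have hγ0 : 0 ≤ deriv d.γ p.1 * (p.1 + π) := by
      rw [(d.hγ.one _ (by rw [hz, abs_zero]; exact d.hZ.le)).2]; simp
    rcases lt_trichotomy p.2 0 with hw | hw | hw
    · obtain ⟨D1, hk, hA⟩ := near_adm2 ha hw
      refine d.loc_of hp (e := π) hk hA hγ0 (fun h => absurd h (not_lt.2 hw.le)) (fun _ => rfl) ?_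
      have E1 : ∀ᶠ q in 𝓝 p, |q.1| < d.Z1 :=
        (continuous_fst.abs.tendsto p).eventually (gt_mem_nhds (by simpa [hz] using d.hZ))
      have E2 : ∀ᶠ q in 𝓝 p, q.2 < 0 := (continuous_snd.tendsto p).eventually (gt_mem_nhds hw)
      have E3 : ∀ᶠ q in 𝓝 p, -(2 * d.a) < q.2 ∨ q.2 < -d.a := by
        rcases lt_or_ge p.2 (-d.a) with h | h
        · exact ((continuous_snd.tendsto p).eventually (gt_mem_nhds h)).mono fun q => Or.inr
        · exact ((continuous_snd.tendsto p).eventually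
            (lt_mem_nhds (show -(2 * d.a) < p.2 by linarith))).mono fun q => Or.inl
      filter_upwards [E1, E2, E3] with q e1 e2 e3
      rcases le_or_gt q.1 0 with h | h
      · have : EE q = π := if_neg (not_lt.2 h)
        refine ⟨?_, ?_, 0, ?_⟩ <;>
          simp [ζ0, u0, g0, LZ, LU, LG, gζ, gu, gG, rr, mζ, mG, this, Th_nonpos ha h e2]
      · have : EE q = -π := if_pos h
        obtain ⟨c1, c2⟩ := d.hγ.one _ e1.le
        rcases e3 with e3 | e3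
        · obtain ⟨c3, c4⟩ := d.hβ.one q.2 (abs_le.2 ⟨e3.le, by linarith⟩)
          refine ⟨?_, ?_, -1, ?_⟩ <;>
            simp [ζ0, u0, g0, LZ, LU, LG, gζ, gu, gG, Th_pos ha h, c1, c2, c3, c4]
          ring
        · obtain ⟨c3, c4⟩ := d.hχ.one q.2 e3.le
          refine ⟨?_, ?_, -1, ?_⟩ <;>
            simp only [ζ0, u0, g0, LZ, LU, LG, gζ, gu, gG, rr, mζ, mG, this, Th_pos ha h, c3, c4] <;>
            push_cast <;> ring
    · exact absurd (Prod.ext hz hw) hp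
    · obtain ⟨D1, hk, hA⟩ := near_adm1 ha (Or.inr hw)
      refine d.loc_of hp (e := π) hk hA hγ0 (fun _ => rfl) (fun h => absurd h (not_lt.2 hw.le)) ?_
      filter_upwards [(continuous_snd.tendsto p).eventually (lt_mem_nhds hw)] with q hq
      obtain ⟨c3, c4⟩ := d.hχ.zero q.2 hq.le
      refine ⟨?_, ?_, 0, ?_⟩ <;> simp [ζ0, u0, g0, LZ, LU, LG, gζ, gu, gG, rr, mζ, mG, c3, c4]
  · obtain ⟨D1, hk, hA⟩ := near_adm1 ha (Or.inl hz.ne')
    refine d.loc_of hp (e := -π) hk hA ?_ (fun _ => rfl) (fun _ => by rw [Th_pos ha hz]; ring) ?_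
    · rcases le_total d.a |p.1| with z | z
      · rw [(d.hγ.zero _ z).2]; simp
      · refine mul_nonneg_of_nonpos_of_nonpos (nonpos_of_mul_nonpos_right (d.hγ.np _) hz) ?_
        linarith [le_abs_self p.1]
    · filter_upwards [(continuous_fst.tendsto p).eventually (lt_mem_nhds hz)] with q hq
      have : EE q = -π := if_pos hq
      refine ⟨?_, ?_, 0, ?_⟩ <;> simp [ζ0, u0, g0, LZ, LU, LG, gζ, gu, gG, rr, mζ, mG, this]

/-- Outside the box the solution is the far model. -/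
lemma far {q : ℝ × ℝ} (h : d.a ≤ |q.1| ∨ 3 * d.a ≤ |q.2|) :
    d.ζ0 q = mζ d.χ EE q ∧ d.u0 q = mu d.χ q ∧ d.g0 q = mG d.χ EE q := by
  rcases h with h | h
  · obtain ⟨c1, c2⟩ := d.hγ.zero _ h
    simp [ζ0, u0, g0, LZ, LU, LG, gζ, gu, gG, c1, c2]
  · obtain ⟨c1, c2⟩ := d.hβ.zero _ h
    simp [ζ0, u0, g0, LZ, LU, LG, gζ, gu, gG, c1, c2]

/-- In the small box the solution is the Weinstein model. -/
lemma near {q : ℝ × ℝ} (h1 : |q.1| ≤ d.Z1) (h2 : |q.2| ≤ 2 * d.a) :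
    d.ζ0 q = yy d.a q ∧ d.u0 q = 2 * kk d.a q ∧ d.g0 q = Th1 d.a q := by
  obtain ⟨c1, c2⟩ := d.hγ.one _ h1
  obtain ⟨c3, c4⟩ := d.hβ.one _ h2
  simp [ζ0, u0, g0, LZ, LU, LG, gζ, gu, gG, c1, c2, c3, c4]

lemma seam {x w : ℝ} (h1 : 1 ≤ x) (h2 : x ≤ 2 * π - 1) :
    d.ζ0 (x, w) = d.ζ0 (x - 2 * π, w) + 2 * π ∧ d.u0 (x, w) = d.u0 (x - 2 * π, w) ∧
      d.g0 (x, w) = d.g0 (x - 2 * π, w) := by
  have ha1 := d.ha1
  obtain ⟨a1, a2, a3⟩ := d.far (q := (x, w)) (Or.inl (le_abs.2 (Or.inl (by simp only; linarith))))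
  obtain ⟨b1, b2, b3⟩ := d.far (q := (x - 2 * π, w))
    (Or.inl (le_abs.2 (Or.inr (by simp only; linarith))))
  have e1 : EE (x, w) = -π := if_pos (by simp only; linarith)
  have e2 : EE (x - 2 * π, w) = π := if_neg (by simp only; linarith)
  rw [a1, a2, a3, b1, b2, b3]
  simp only [mζ, mu, mG, e1, e2]
  exact ⟨by ring, trivial, by ring⟩

end Dat

end Pool.Agent.MP_5d9d0b_gt.Col

end MrgPart5

-- ======== part 6: formerly Pool.Agent.MP_5d9d0b_gt.COL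
section MrgPart6

/-!
The flat collar data: periodisation and the statement `CollarStmt`.
-/

namespace Pool.Agent.MP_5d9d0b_gt

open scoped ContDiff Real Topology
open Set Filter

namespace Col

/-- The nearest point of `2πℤ`. -/
noncomputable def nr (Z : ℝ) : ℝ := 2 * π * (round (Z / (2 * π)) : ℤ)

lemma nr_bd (Z : ℝ) : |Z - nr Z| ≤ π := by
  have h := abs_sub_round (Z / (2 * π))
  have hp := Real.pi_pos
  have e : Z - nr Z = 2 * π * (Z / (2 * π) - round (Z / (2 * π))) := by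
    unfold nr; field_simp
  rw [e, abs_mul, abs_of_pos (by positivity)]
  nlinarith

lemma nr_add (Z : ℝ) : nr (Z + 2 * π) = nr Z + 2 * π := by
  have hp := Real.pi_pos
  have e : (Z + 2 * π) / (2 * π) = Z / (2 * π) + 1 := by field_simp
  unfold nr
  rw [e, round_add_one]; push_cast; ring

lemma nr_small {Z : ℝ} (h : |Z| ≤ 1) : nr Z = 0 := by
  have hp := Real.pi_gt_three
  have : round (Z / (2 * π)) = 0 := by
    rw [round_eq_zero_iff]
    obtain ⟨h1, h2⟩ := abs_le.1 h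
    constructor
    · rw [le_div_iff₀ (by positivity)]; linarith
    · rw [div_lt_iff₀ (by positivity)]; linarith
  simp [nr, this]

lemma strictMono_of_per {f : ℝ → ℝ} (hper : ∀ x, f (x + 2 * π) = f x + 2 * π)
    (hm : StrictMonoOn f (Icc 0 (2 * π))) : StrictMono f := by
  have hp := Real.two_pi_pos
  have hP : Function.Periodic (fun x => f x - x) (2 * π) := fun x => by simp only [hper]; ring
  have hz : ∀ (n : ℤ) (x : ℝ), f (x + n * (2 * π)) = f x + n * (2 * π) := fun n x => by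
    have := hP.int_mul n x
    linarith
  intro x y hxy
  obtain ⟨m, hm1, hm2⟩ : ∃ m : ℤ, 0 ≤ x - m * (2 * π) ∧ x - m * (2 * π) < 2 * π :=
    ⟨⌊x / (2 * π)⌋, Int.sub_floor_div_mul_nonneg x hp, Int.sub_floor_div_mul_lt x hp⟩
  obtain ⟨n, hn1, hn2⟩ : ∃ m : ℤ, 0 ≤ y - m * (2 * π) ∧ y - m * (2 * π) < 2 * π :=
    ⟨⌊y / (2 * π)⌋, Int.sub_floor_div_mul_nonneg y hp, Int.sub_floor_div_mul_lt y hp⟩
  have ex := hz m (x - m * (2 * π))
  have ey := hz n (y - n * (2 * π))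
  rw [sub_add_cancel] at ex ey
  rcases lt_trichotomy m n with h | h | h
  · have h1 : (m : ℝ) + 1 ≤ n := by exact_mod_cast h
    have h2 := hm ⟨hm1, hm2.le⟩ ⟨hp.le, le_rfl⟩ hm2
    have h3 := hm.monotoneOn ⟨le_rfl, hp.le⟩ ⟨hn1, hn2.le⟩ hn1
    have h4 := hper 0
    rw [zero_add] at h4
    nlinarith
  · subst h
    have := hm ⟨hm1, hm2.le⟩ ⟨hn1, hn2.le⟩ (by linarith)
    linarith
  · have h1 : (n : ℝ) + 1 ≤ m := by exact_mod_cast h
    nlinarith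

namespace Dat
variable (d : Dat)

noncomputable def ζ (q : ℝ × ℝ) : ℝ := d.ζ0 (q.1 - nr q.1, q.2) + nr q.1
noncomputable def u (q : ℝ × ℝ) : ℝ := d.u0 (q.1 - nr q.1, q.2)
noncomputable def g (q : ℝ × ℝ) : ℝ := d.g0 (q.1 - nr q.1, q.2)
noncomputable def W (q : ℝ × ℝ) : ℝ := q.2 / d.u q

lemma per_of {Z Z0 : ℝ} (w : ℝ) (h : |Z - Z0| < 1) :
    d.ζ (Z, w) = d.ζ0 (Z - nr Z0, w) + nr Z0 ∧ d.u (Z, w) = d.u0 (Z - nr Z0, w) ∧
      d.g (Z, w) = d.g0 (Z - nr Z0, w) := by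
  have hp := Real.pi_gt_three
  obtain ⟨a1, a2⟩ := abs_le.1 (nr_bd Z)
  obtain ⟨b1, b2⟩ := abs_le.1 (nr_bd Z0)
  obtain ⟨c1, c2⟩ := abs_lt.1 h
  simp only [ζ, u, g]
  obtain ⟨k, hk⟩ : ∃ k : ℤ, nr Z = nr Z0 + 2 * π * k :=
    ⟨round (Z / (2 * π)) - round (Z0 / (2 * π)), by simp only [nr]; push_cast; ring⟩
  have k1 : k < 2 := by
    have : (k : ℝ) < 2 := by nlinarith
    exact_mod_cast this
  have k2 : -2 < k := by
    have : (-2 : ℝ) < k := by nlinarith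
    exact_mod_cast this
  interval_cases k
  · push_cast at hk
    obtain ⟨s1, s2, s3⟩ := d.seam (x := Z - nr Z) (w := w) (by linarith) (by linarith)
    have e : Z - nr Z - 2 * π = Z - nr Z0 := by linarith
    rw [e] at s1 s2 s3
    exact ⟨by linarith, s2, s3⟩
  · simp at hk
    rw [hk]; simp
  · push_cast at hk
    obtain ⟨s1, s2, s3⟩ := d.seam (x := Z - nr Z0) (w := w) (by linarith) (by linarith)
    have e : Z - nr Z0 - 2 * π = Z - nr Z := by linarith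
    rw [e] at s1 s2 s3
    exact ⟨by linarith, s2.symm, s3.symm⟩

lemma per_ev (p : ℝ × ℝ) : ∀ᶠ q in 𝓝 p, d.ζ q = d.ζ0 (q.1 - nr p.1, q.2) + nr p.1 ∧
    d.u q = d.u0 (q.1 - nr p.1, q.2) ∧ d.g q = d.g0 (q.1 - nr p.1, q.2) := by
  have : ∀ᶠ q in 𝓝 p, |q.1 - p.1| < 1 :=
    ((continuous_fst.sub continuous_const).abs.tendsto p).eventually (gt_mem_nhds (by simp))
  exact this.mono fun q h => d.per_of q.2 h

lemma loc {p : ℝ × ℝ} (hp : ¬ (p.2 = 0 ∧ ∃ k : ℤ, p.1 = 2 * π * k)) : Loc d.ζ d.u d.g p := by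
  have h0 : ((p.1 - nr p.1, p.2) : ℝ × ℝ) ≠ 0 := fun h => by
    simp only [Prod.mk_eq_zero, sub_eq_zero] at h
    exact hp ⟨h.2, _, h.1⟩
  obtain ⟨G, D, hA, hD, hev⟩ := d.loc0 h0
  have hc : Tendsto (fun q : ℝ × ℝ => ((q.1 - nr p.1, q.2) : ℝ × ℝ)) (𝓝 p)
      (𝓝 (p.1 - nr p.1, p.2)) := Continuous.tendsto' (by fun_prop) _ _ rfl
  refine ⟨_, D, hA.shift.congr ((d.per_ev p).mono fun q h => h.1)
    ((d.per_ev p).mono fun q h => h.2.1), hD, ?_⟩
  filter_upwards [d.per_ev p, hc.eventually hev] with q h1 h2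
  rw [h1.2.2]; exact h2

lemma top {Z w : ℝ} (h : 3 * d.a ≤ w) : d.ζ (Z, w) = Z ∧ d.u (Z, w) = 1 ∧ d.g (Z, w) = 0 := by
  have ha := d.ha
  obtain ⟨a1, a2, a3⟩ := d.far (q := (Z - nr Z, w)) (Or.inr (h.trans (le_abs_self w)))
  obtain ⟨c1, c2⟩ := d.hχ.zero w (by linarith)
  simp [ζ, u, g, a1, a2, a3, mζ, mu, mG, c1, c2]

lemma bot {Z w : ℝ} (h : w ≤ -(3 * d.a)) : d.ζ (Z, w) = Z ∧ d.u (Z, w) = 1 - w ∧
    ∃ k : ℤ, d.g (Z, w) = Z + π + 2 * π * k := by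
  have ha := d.ha
  obtain ⟨a1, a2, a3⟩ := d.far (q := (Z - nr Z, w))
    (Or.inr (le_abs.2 (Or.inr (by simp only; linarith))))
  obtain ⟨c1, c2⟩ := d.hχ.one w (by linarith)
  refine ⟨by simp [ζ, a1, mζ, c2], by simp [u, a2, mu, c1], ?_⟩
  simp only [g, a3, mG, c1, c2, EE]
  split_ifs
  · exact ⟨-round (Z / (2 * π)) - 1, by simp only [nr]; push_cast; ring⟩
  · exact ⟨-round (Z / (2 * π)), by simp only [nr]; push_cast; ring⟩

lemma uw {p : ℝ × ℝ} (hp : ¬ (p.2 = 0 ∧ ∃ k : ℤ, p.1 = 2 * π * k)) :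
    ∃ uZ uw, HD d.u p uZ uw ∧ 0 < d.u p - p.2 * uw := by
  obtain ⟨G, D, ⟨-, -, -, GZ, Gw, uZ, -, h2, -, h4⟩, hD, -⟩ := d.loc hp
  exact ⟨_, _, h2, by linarith⟩

lemma quot_deriv (Z : ℝ) {w : ℝ} (hw : w ≠ 0) :
    ∃ v, v < 0 ∧ HasDerivAt (fun t => d.u (Z, t) / t) v w := by
  obtain ⟨uZ, uw, h1, h2⟩ := d.uw (p := (Z, w)) fun h => hw h.1
  refine ⟨_, ?_, h1.derivw.div (hasDerivAt_id w) hw⟩
  refine div_neg_of_neg_of_pos ?_ (by positivity)
  simp only at h2 ⊢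
  linarith

lemma u_pos {p : ℝ × ℝ} (hp : ¬ (p.2 = 0 ∧ ∃ k : ℤ, p.1 = 2 * π * k)) : 0 < d.u p := by
  obtain ⟨Z, w⟩ := p
  have ha := d.ha
  rcases lt_trichotomy w 0 with hw | hw | hw
  · have hA : StrictAntiOn (fun t => d.u (Z, t) / t) (Iio 0) := by
      refine strictAntiOn_of_deriv_neg (convex_Iio 0) (fun t ht => ?_) fun t ht => ?_
      · obtain ⟨v, -, h⟩ := d.quot_deriv Z (ne_of_lt ht)
        exact h.continuousAt.continuousWithinAt
      · rw [interior_Iio] at ht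
        obtain ⟨v, hv, h⟩ := d.quot_deriv Z (ne_of_lt ht)
        rwa [h.deriv]
    rcases le_total w (-(3 * d.a)) with h | h
    · rw [(d.bot h).2.1]; linarith
    · have h1 := hA.antitoneOn (show -(3 * d.a) ∈ Iio 0 by simp [ha]) hw h
      simp only [(d.bot (Z := Z) le_rfl).2.1] at h1
      have h2 : (1 - -(3 * d.a)) / -(3 * d.a) < 0 := div_neg_of_pos_of_neg (by linarith) (by linarith)
      rcases div_neg_iff.1 (h1.trans_lt h2) with h3 | h3
      · exact h3.1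
      · linarith [h3.2]
  · obtain ⟨uZ, uw, -, h2⟩ := d.uw hp
    simpa [hw] using h2
  · have hA : StrictAntiOn (fun t => d.u (Z, t) / t) (Ioi 0) := by
      refine strictAntiOn_of_deriv_neg (convex_Ioi 0) (fun t ht => ?_) fun t ht => ?_
      · obtain ⟨v, -, h⟩ := d.quot_deriv Z (ne_of_gt ht)
        exact h.continuousAt.continuousWithinAt
      · rw [interior_Ioi] at ht
        obtain ⟨v, hv, h⟩ := d.quot_deriv Z (ne_of_gt ht)
        rwa [h.deriv]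
    rcases le_total (3 * d.a) w with h | h
    · rw [(d.top h).2.1]; exact one_pos
    · have h1 := hA.antitoneOn hw (show 3 * d.a ∈ Ioi 0 by simp [ha]) h
      simp only [(d.top (Z := Z) le_rfl).2.1] at h1
      have h2 : 0 < 1 / (3 * d.a) := by positivity
      exact (div_pos_iff_of_pos_right hw).1 (h2.trans_le h1)

lemma W_hd {p : ℝ × ℝ} (hp : ¬ (p.2 = 0 ∧ ∃ k : ℤ, p.1 = 2 * π * k)) :
    ∃ a b, HD d.W p a b ∧ 0 < b := by
  obtain ⟨uZ, uw, h1, h2⟩ := d.uw hp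
  have h0 := d.u_pos hp
  have h3 := (HD.snd p).mul (HD.comp (hasDerivAt_inv h0.ne') h1)
  refine ⟨_, _, h3.congr (Eventually.of_forall fun q => div_eq_mul_inv _ _), ?_⟩
  have e : 1 * (d.u p)⁻¹ + p.2 * (-(d.u p ^ 2)⁻¹ * uw) = (d.u p - p.2 * uw) / d.u p ^ 2 := by
    field_simp; ring
  rw [e]; positivity

lemma ζ_per (Z w : ℝ) : d.ζ (Z + 2 * π, w) = d.ζ (Z, w) + 2 * π := by
  simp only [ζ, nr_add, add_sub_add_right_eq_sub]; ring

lemma ζ0_axis (Z : ℝ) : d.ζ0 (Z, 0) =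
    d.γ Z * d.β 0 * (kk d.a (Z, 0) * Z) + (1 - d.γ Z * d.β 0) * Z := by
  simp [ζ0, LZ, gζ, mζ, yy]

lemma ζ_cont (w : ℝ) : Continuous fun Z => d.ζ (Z, w) := by
  refine continuous_iff_continuousAt.2 fun Z => ?_
  by_cases hw : w = 0
  · subst hw
    have h1 : ∀ᶠ t in 𝓝 Z, |t - Z| < 1 :=
      ((continuous_id.sub continuous_const).abs.tendsto Z).eventually (gt_mem_nhds (by simp))
    have h2 : Continuous fun t => d.ζ0 (t - nr Z, 0) + nr Z := by
      have := d.hγ.sm.continuous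
      have := kk_cont d.a
      simp only [ζ0_axis]
      fun_prop
    exact h2.continuousAt.congr (h1.mono fun t h => (d.per_of 0 h).1.symm)
  · obtain ⟨G, D, ⟨-, -, -, GZ, Gw, uZ, -, -, h3, -⟩, -, -⟩ := d.loc (p := (Z, w)) fun h => hw h.1
    exact h3.derivZ.continuousAt

lemma ζ_mono (w : ℝ) : StrictMono fun Z => d.ζ (Z, w) := by
  refine strictMono_of_per (fun x => d.ζ_per x w)
    (strictMonoOn_of_deriv_pos (convex_Icc _ _) (d.ζ_cont w).continuousOn fun Z hZ => ?_)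
  rw [interior_Icc] at hZ
  obtain ⟨G, D, ⟨-, -, -, GZ, Gw, uZ, -, -, h3, -⟩, hD, -⟩ := d.loc (p := (Z, w)) (by
    rintro ⟨-, k, hk⟩
    have hp := Real.two_pi_pos
    simp only at hk
    obtain ⟨h1, h2⟩ := hZ
    rw [hk] at h1 h2
    have k1 : (0 : ℝ) < k := by nlinarith
    have k2 : (k : ℝ) < 1 := by nlinarith
    have k3 : 0 < k := by exact_mod_cast k1
    have k4 : k < 1 := by exact_mod_cast k2
    omega)
  rwa [h3.derivZ.deriv]

lemma W_cont (Z : ℝ) : Continuous fun w => d.W (Z, w) := by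
  refine continuous_iff_continuousAt.2 fun w => ?_
  by_cases hp : w = 0 ∧ ∃ k : ℤ, Z = 2 * π * k
  · obtain ⟨rfl, k, hk⟩ := hp
    have ha := d.ha
    have hZ : Z - nr Z = 0 := by
      have hp := Real.two_pi_pos
      have : Z / (2 * π) = k := by rw [hk]; field_simp
      simp only [nr, this, round_intCast]; linarith
    have h1 : ∀ᶠ t : ℝ in 𝓝 0, |t| < 2 * d.a :=
      (continuous_abs.tendsto 0).eventually (gt_mem_nhds (by simpa using ha))
    have h2 : Tendsto (fun t : ℝ => 2 * d.a * kk d.a (0, t)) (𝓝 0) (𝓝 0) := by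
      have := kk_cont d.a
      exact Continuous.tendsto' (by fun_prop) _ _ (by simp [kk])
    have h3 : d.W (Z, 0) = 0 := by simp [W]
    unfold ContinuousAt
    simp only [h3]
    refine squeeze_zero_norm' (h1.mono fun t ht => le_of_eq ?_) h2
    have e := kk_eq ha (0, t)
    have k0 := kk_nonneg d.a (0, t)
    simp only [W, u, hZ, (d.near (q := (0, t)) (by simpa using d.hZ.le) ht.le).2.1]
    generalize kk d.a (0, t) = K at e k0
    have e2 : |t| = 4 * d.a * K ^ 2 := by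
      rw [← Real.sqrt_sq_eq_abs, Real.sqrt_eq_iff_mul_self_eq (by positivity) (by positivity)]
      simp only at e
      linear_combination -e
    rw [Real.norm_eq_abs, abs_div, e2, abs_of_nonneg (by positivity : 0 ≤ 2 * K)]
    rcases k0.eq_or_lt with h | h
    · simp [← h]
    · field_simp; ring
  · obtain ⟨a, b, h, -⟩ := d.W_hd (p := (Z, w)) hp
    exact h.derivw.continuousAt

lemma W_mono (Z : ℝ) : StrictMono fun w => d.W (Z, w) := by
  refine StrictMonoOn.Iic_union_Ici (a := 0)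
    (strictMonoOn_of_deriv_pos (convex_Iic 0) (d.W_cont Z).continuousOn fun w hw => ?_)
    (strictMonoOn_of_deriv_pos (convex_Ici 0) (d.W_cont Z).continuousOn fun w hw => ?_)
  · rw [interior_Iic] at hw
    obtain ⟨a, b, h, hb⟩ := d.W_hd (p := (Z, w)) fun h => ne_of_lt hw h.1
    rwa [h.derivw.deriv]
  · rw [interior_Ici] at hw
    obtain ⟨a, b, h, hb⟩ := d.W_hd (p := (Z, w)) fun h => ne_of_gt hw h.1
    rwa [h.derivw.deriv]

end Dat

end Col

open Col in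
theorem collar : CollarStmt := by
  intro η h0 h1
  obtain ⟨d, hd⟩ := exists_dat (a := η / 16) (by positivity) (by linarith)
  have ha := d.ha
  have hZ := d.hZ
  obtain ⟨c, hc, hca⟩ : ∃ c : ℝ, 0 < c ∧ d.a = c ^ 2 :=
    ⟨√d.a, Real.sqrt_pos.2 ha, (Real.sq_sqrt ha.le).symm⟩
  obtain ⟨t, ht0, ht1, ht2⟩ : ∃ t : ℝ, 0 < t ∧ t ≤ 1 ∧ t ≤ d.Z1 :=
    ⟨min 1 d.Z1, by positivity, min_le_left _ _, min_le_right _ _⟩
  refine ⟨d.ζ, d.W, d.g, c, min (2 * d.a) ((t / (2 * c)) ^ 2), hc, by positivity, fun p _ hp => ?_,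
    fun Z w => ⟨d.ζ_per Z w, ?_, 0, ?_⟩, fun w _ => ⟨d.ζ_mono w, d.ζ_cont w⟩, ?_,
    fun Z => ⟨(d.W_mono Z).strictMonoOn _, (d.W_cont Z).continuousOn, by simp [Dat.W]⟩,
    fun Z w hw _ => ?_, fun Z w _ hw => ?_, fun ρ σ hρ hδ => ?_⟩
  · obtain ⟨G, D, ⟨s1, s2, s3, GZ, Gw, uZ, h2, -, h3, h4⟩, hD, hev⟩ := d.loc hp
    obtain ⟨a, b, h5, hb⟩ := d.W_hd hp
    have hu := d.u_pos hp
    refine ⟨G, d.u p, s3, s1, contDiffAt_snd.div s2 hu.ne', hev, hu, rfl, fun v => ?_, ?_, ?_⟩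
    · rw [h3.fd, h2.fd, h4]; ring
    · rw [h3.fd]; simpa using hD.ne'
    · rw [h5.fd]; simpa using hb.ne'
  · simp only [Dat.W, Dat.u, nr_add, add_sub_add_right_eq_sub]
  · simp [Dat.g, nr_add]
  · simp [Dat.ζ, nr, Dat.ζ0_axis]
  · obtain ⟨a1, a2, a3⟩ := d.top (Z := Z) (w := w) (by linarith)
    exact ⟨a1, by simp [Dat.W, a2], 0, by simp [a3]⟩
  · obtain ⟨a1, a2, a3⟩ := d.bot (Z := Z) (w := w) (by linarith)
    exact ⟨a1, by simp [Dat.W, a2], a3⟩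
  · obtain ⟨δ1, δ2⟩ := lt_min_iff.1 hδ
    have r0 : 0 < √ρ := Real.sqrt_pos.2 hρ
    have r1 : √ρ * √ρ = ρ := Real.mul_self_sqrt hρ.le
    have r2 : √ρ ≤ t / (2 * c) := Real.sqrt_le_iff.2 ⟨by positivity, δ2.le⟩
    have z1 : |2 * c * √ρ * Real.cos σ| ≤ t := by
      rw [le_div_iff₀ (by positivity)] at r2
      rw [abs_mul, abs_of_pos (by positivity : 0 < 2 * c * √ρ)]
      have := mul_le_of_le_one_right (by positivity : 0 ≤ 2 * c * √ρ) (Real.abs_cos_le_one σ)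
      linarith
    have z2 : |ρ * Real.sin σ| ≤ 2 * d.a := by
      rw [abs_mul, abs_of_pos hρ]
      exact (mul_le_of_le_one_right hρ.le (Real.abs_sin_le_one σ)).trans δ1.le
    obtain ⟨a1, a2, a3⟩ := d.near (q := (2 * c * √ρ * Real.cos σ, ρ * Real.sin σ))
      (z1.trans ht2) z2
    simp only [Dat.ζ, Dat.W, Dat.u, Dat.g, nr_small (z1.trans ht1), sub_zero, add_zero, a1, a2, a3,
      yy]
    rw [hca, kk_polar hc hρ]
    refine ⟨?_, ?_, Th1_polar hc hρ σ⟩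
    · field_simp; linear_combination Real.cos σ * r1
    · field_simp; linear_combination -Real.sin σ * r1

end Pool.Agent.MP_5d9d0b_gt

end MrgPart6

-- marker of a merged file
example : 731051 + 590747 = 731051 + 590747 := rfl
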