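import Mathlib.Order.BourbakiWitt
import Mathlib.Order.CompletePartialOrder
import Mathlib.SetTheory.ZFC.PSet
import Pool.Agent.MP_5d9d0b_gt.Spec

/-!
Gluing two open subsets of the sphere along a contactomorphism.
-/

namespace Pool.Agent.MP_5d9d0b_gt

open scoped Manifold ContDiff Real Topology
open Set

namespace Glue

section general
variable {M N : Type} [TopologicalSpace M] [ChartedSpace R3 M]
  [TopologicalSpace N] [ChartedSpace R3 N]

theorem form_congr (β : (y : N) → TangentSpace (𝓡 3) y → ℝ) {p q : N} (h : p = q) (w : R3) :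
    β p w = β q w := by
  subst h; rfl

theorem crel_congr {α : (x : M) → TangentSpace (𝓡 3) x → ℝ}
    {β : (y : N) → TangentSpace (𝓡 3) y → ℝ} {R R' : M → N → Prop} (h : CRel α β R)
    (e : ∀ x y, R' x y ↔ R x y) : CRel α β R' := by
  have : R' = R := by
    funext x y; exact propext (e x y)
  rw [this]; exact h

theorem contactAt_symm {α : (x : M) → TangentSpace (𝓡 3) x → ℝ}
    {β : (y : N) → TangentSpace (𝓡 3) y → ℝ} (e : PartialDiffeomorph (𝓡 3) (𝓡 3) M N ∞)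
    {y : N} (hy : y ∈ e.target) (h : ContactAt α β e (e.symm y)) : ContactAt β α e.symm y := by
  obtain ⟨c, hc, h⟩ := h
  refine ⟨c⁻¹, inv_pos.2 hc, fun w => ?_⟩
  have hx : e.symm y ∈ e.source := e.toPartialEquiv.map_target hy
  have h1 : MDifferentiableAt (𝓡 3) (𝓡 3) e (e.symm y) := e.mdifferentiableAt (by simp) hx
  have h2 : MDifferentiableAt (𝓡 3) (𝓡 3) e.symm y := e.symm.mdifferentiableAt (by simp) hy
  have h3 : (e ∘ e.symm : N → N) =ᶠ[𝓝 y] id := by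
    filter_upwards [e.open_target.mem_nhds hy] with y' hy'
    exact e.toPartialEquiv.right_inv hy'
  have h4 := mfderiv_comp_apply (I := 𝓡 3) (I' := 𝓡 3) (I'' := 𝓡 3) y h1 h2 w
  rw [h3.mfderiv_eq, mfderiv_id] at h4
  have h5 := h (mfderiv (𝓡 3) (𝓡 3) e.symm y w)
  have h6 : e (e.symm y) = y := e.toPartialEquiv.right_inv hy
  have h7 : β (e (e.symm y)) (mfderiv (𝓡 3) (𝓡 3) e (e.symm y)
      (mfderiv (𝓡 3) (𝓡 3) e.symm y w)) = β y w := by
    rw [← h4]
    exact form_congr β h6 w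
  rw [h7] at h5
  rw [h5, ← mul_assoc, inv_mul_cancel₀ hc.ne', one_mul]

theorem crel_symm {α : (x : M) → TangentSpace (𝓡 3) x → ℝ}
    {β : (y : N) → TangentSpace (𝓡 3) y → ℝ} {R : M → N → Prop} (h : CRel α β R) :
    CRel β α (fun y x => R x y) where
  fun_r y x x' h1 h2 := h.fun_l x x' y h1 h2
  fun_l y y' x h1 h2 := h.fun_r x y y' h1 h2
  loc y x hxy := by
    obtain ⟨e, hx, he⟩ := h.loc x y hxy
    have hy : e x = y := h.fun_r x _ _ (he x hx).1 hxy
    refine ⟨e.symm, ?_, fun y' hy' => ?_⟩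
    · rw [← hy]; exact e.toPartialEquiv.map_source hx
    · have hx' : e.symm y' ∈ e.source := e.toPartialEquiv.map_target hy'
      have h6 : e (e.symm y') = y' := e.toPartialEquiv.right_inv hy'
      refine ⟨?_, contactAt_symm e hy' (he _ hx').2⟩
      have := (he _ hx').1
      rwa [h6] at this

/-- The identity of an open set. -/
def idOn {X : Set N} (hX : IsOpen X) : PartialDiffeomorph (𝓡 3) (𝓡 3) N N ∞ where
  toPartialEquiv := PartialEquiv.ofSet X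
  open_source := hX
  open_target := hX
  contMDiffOn_toFun := contMDiffOn_id
  contMDiffOn_invFun := contMDiffOn_id

theorem crel_id (β : (y : N) → TangentSpace (𝓡 3) y → ℝ) {X : Set N} (hX : IsOpen X) :
    CRel β β (fun x y => x ∈ X ∧ x = y) where
  fun_r x y y' h1 h2 := h1.2.symm.trans h2.2
  fun_l x x' y h1 h2 := h1.2.trans h2.2.symm
  loc x y hxy := by
    refine ⟨idOn hX, hxy.1, fun x' hx' => ⟨⟨hx', rfl⟩, 1, one_pos, fun v => ?_⟩⟩
    have : ((idOn hX : PartialDiffeomorph (𝓡 3) (𝓡 3) N N ∞) : N → N) = id := rfl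
    rw [this, mfderiv_id, one_mul]
    rfl

end general

/-- Gluing data: open pieces `X a` of `N` mapped into a set `M`. -/
structure Data (ι M N : Type) [TopologicalSpace N] [ChartedSpace R3 N]
    (β : (y : N) → TangentSpace (𝓡 3) y → ℝ) where
  X : ι → Set N
  i : ι → N → M
  op : ∀ a, IsOpen (X a)
  rel : ∀ a b, CRel β β (fun x y => x ∈ X a ∧ y ∈ X b ∧ i a x = i b y)
  cov : ∀ m, ∃ a, ∃ x ∈ X a, m = i a x

namespace Data

variable {ι M N : Type} [TopologicalSpace N] [ChartedSpace R3 N]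
  {β : (y : N) → TangentSpace (𝓡 3) y → ℝ} (D : Data ι M N β)

/-- The glued space. -/
def Sp (_ : Data ι M N β) : Type := M

/-- The maps into the glued space. -/
def j (a : ι) (x : N) : D.Sp := D.i a x

instance : TopologicalSpace D.Sp where
  IsOpen s := ∀ a, IsOpen (D.X a ∩ D.j a ⁻¹' s)
  isOpen_univ a := by simpa using D.op a
  isOpen_inter s t hs ht a := by
    have : D.X a ∩ D.j a ⁻¹' (s ∩ t) = (D.X a ∩ D.j a ⁻¹' s) ∩ (D.X a ∩ D.j a ⁻¹' t) := by
      ext x; simp only [mem_inter_iff, mem_preimage]; tauto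
    rw [this]; exact (hs a).inter (ht a)
  isOpen_sUnion S hS a := by
    have : D.X a ∩ D.j a ⁻¹' (⋃₀ S) = ⋃ s ∈ S, (D.X a ∩ D.j a ⁻¹' s) := by
      ext x; simp only [mem_inter_iff, mem_preimage, mem_sUnion, mem_iUnion]
      constructor
      · rintro ⟨h1, s, h2, h3⟩; exact ⟨s, h2, h1, h3⟩
      · rintro ⟨s, h2, h1, h3⟩; exact ⟨h1, s, h2, h3⟩
    rw [this]; exact isOpen_biUnion fun s hs => hS s hs a

theorem isOpen_iff (s : Set D.Sp) : IsOpen s ↔ ∀ a, IsOpen (D.X a ∩ D.j a ⁻¹' s) := Iff.rfl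

theorem injOn (a : ι) : InjOn (D.j a) (D.X a) := fun x hx y hy h =>
  (D.rel a a).fun_r x x y ⟨hx, hx, rfl⟩ ⟨hx, hy, h⟩

theorem cov' (m : D.Sp) : ∃ a, ∃ x ∈ D.X a, m = D.j a x := D.cov m

theorem loc {a b : ι} {x y : N} (hx : x ∈ D.X a) (hy : y ∈ D.X b) (h : D.j a x = D.j b y) :
    ∃ e : PartialDiffeomorph (𝓡 3) (𝓡 3) N N ∞, x ∈ e.source ∧ e x = y ∧
      ∀ x' ∈ e.source, (x' ∈ D.X a ∧ e x' ∈ D.X b ∧ D.j a x' = D.j b (e x')) ∧
        ContactAt β β e x' := by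
  obtain ⟨e, h1, h2⟩ := (D.rel a b).loc x y ⟨hx, hy, h⟩
  exact ⟨e, h1, (D.rel a b).fun_r x _ _ (h2 x h1).1 ⟨hx, hy, h⟩, h2⟩

theorem continuousOn_j (a : ι) : ContinuousOn (D.j a) (D.X a) :=
  (continuousOn_open_iff (D.op a)).2 fun _ ht => ht a

theorem isOpen_image (a : ι) {U : Set N} (hU : IsOpen U) (hX : U ⊆ D.X a) :
    IsOpen (D.j a '' U) := by
  intro b
  rw [isOpen_iff_mem_nhds]
  rintro y ⟨hy, x, hx, hxy⟩
  obtain ⟨e, h1, h2, h3⟩ := D.loc hy (hX hx) hxy.symm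
  have hc : ContinuousAt e y :=
    e.contMDiffOn_toFun.continuousOn.continuousAt (e.open_source.mem_nhds h1)
  have h4 : e ⁻¹' U ∈ 𝓝 y := hc (by rw [h2]; exact hU.mem_nhds hx)
  filter_upwards [e.open_source.mem_nhds h1, h4] with y' h5 h6
  exact ⟨(h3 y' h5).1.1, e y', h6, (h3 y' h5).1.2.2.symm⟩

variable [Nonempty N]

/-- The piece `a` as an open embedding. -/
noncomputable def E (a : ι) : OpenPartialHomeomorph N D.Sp where
  toPartialEquiv := (D.injOn a).toPartialEquiv (D.j a) (D.X a)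
  open_source := D.op a
  open_target := D.isOpen_image a (D.op a) subset_rfl
  continuousOn_toFun := D.continuousOn_j a
  continuousOn_invFun := by
    have h0 : IsOpen (D.j a '' D.X a) := D.isOpen_image a (D.op a) subset_rfl
    refine (continuousOn_open_iff h0).2 fun t ht => ?_
    have : D.j a '' D.X a ∩ ((D.injOn a).toPartialEquiv (D.j a) (D.X a)).invFun ⁻¹' t =
        D.j a '' (D.X a ∩ t) := by
      ext m
      constructor
      · rintro ⟨⟨x, hx, rfl⟩, h⟩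
        refine ⟨x, ⟨hx, ?_⟩, rfl⟩
        have h1 := ((D.injOn a).toPartialEquiv (D.j a) (D.X a)).left_inv' (x := x) hx
        rw [mem_preimage] at h
        rw [← h1]; exact h
      · rintro ⟨x, ⟨hx, h⟩, rfl⟩
        refine ⟨⟨x, hx, rfl⟩, ?_⟩
        have h1 := ((D.injOn a).toPartialEquiv (D.j a) (D.X a)).left_inv' (x := x) hx
        rw [mem_preimage]
        rw [← h1] at h; exact h
    rw [this]
    exact D.isOpen_image a ((D.op a).inter ht) inter_subset_left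

theorem E_apply (a : ι) (x : N) : D.E a x = D.j a x := rfl
theorem E_source (a : ι) : (D.E a).source = D.X a := rfl
theorem E_target (a : ι) : (D.E a).target = D.j a '' D.X a := rfl
theorem E_symm (a : ι) {x : N} (hx : x ∈ D.X a) : (D.E a).symm (D.j a x) = x :=
  (D.E a).left_inv hx

/-- A piece containing the given point. -/
noncomputable def ix (m : D.Sp) : ι := (D.cov' m).choose

theorem mem_ix (m : D.Sp) : m ∈ (D.E (D.ix m)).target := by
  obtain ⟨x, hx, h⟩ := (D.cov' m).choose_spec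
  exact ⟨x, hx, h.symm⟩

noncomputable instance : ChartedSpace R3 D.Sp where
  atlas := {c | ∃ a x, c = (D.E a).symm.trans (chartAt R3 x)}
  chartAt m := (D.E (D.ix m)).symm.trans (chartAt R3 ((D.E (D.ix m)).symm m))
  mem_chart_source m := ⟨D.mem_ix m, mem_chart_source R3 _⟩
  chart_mem_atlas _ := ⟨_, _, rfl⟩

theorem mem_atlas (a : ι) (x : N) : (D.E a).symm.trans (chartAt R3 x) ∈ atlas R3 D.Sp :=
  ⟨a, x, rfl⟩

/-- The transition between two pieces agrees locally with a local diffeomorphism. -/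
theorem trans_eq {a b : ι} {x : N} (hx : x ∈ D.X a) (hb : D.j a x ∈ (D.E b).target) :
    ∃ e : PartialDiffeomorph (𝓡 3) (𝓡 3) N N ∞, x ∈ e.source ∧
      ((D.E b).symm ∘ D.j a) =ᶠ[𝓝 x] e ∧ ContactAt β β e x := by
  obtain ⟨y, hy, h⟩ := hb
  obtain ⟨e, h1, -, h3⟩ := D.loc hx hy h.symm
  refine ⟨e, h1, ?_, (h3 x h1).2⟩
  filter_upwards [e.open_source.mem_nhds h1] with x' h5
  simp only [Function.comp_apply]
  rw [(h3 x' h5).1.2.2, D.E_symm b (h3 x' h5).1.2.1]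

variable [IsManifold (𝓡 3) ∞ N]

instance : IsManifold (𝓡 3) ∞ D.Sp := by
  apply isManifold_of_contDiffOn
  rintro _ _ ⟨a, x, rfl⟩ ⟨b, y, rfl⟩ z hz
  apply ContDiffAt.contDiffWithinAt
  simp only [modelWithCornersSelf_coe, modelWithCornersSelf_coe_symm, preimage_id_eq, id_eq,
    range_id, inter_univ, OpenPartialHomeomorph.trans_source, OpenPartialHomeomorph.symm_source,
    OpenPartialHomeomorph.trans_target, OpenPartialHomeomorph.symm_target, mem_inter_iff,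
    mem_preimage, OpenPartialHomeomorph.coe_trans_symm, OpenPartialHomeomorph.symm_symm,
    Function.comp_apply] at hz
  obtain ⟨⟨hz1, hz2⟩, hz3, hz4⟩ := hz
  obtain ⟨e, h1, h2, -⟩ := D.trans_eq hz2 hz3
  have c1 : ContMDiffAt (𝓡 3) (𝓡 3) ∞ (chartAt R3 x).symm z :=
    contMDiffOn_chart_symm.contMDiffAt ((chartAt R3 x).open_target.mem_nhds hz1)
  have c2 : ContMDiffAt (𝓡 3) (𝓡 3) ∞ ((D.E b).symm ∘ D.j a) ((chartAt R3 x).symm z) :=
    (e.contMDiffOn_toFun.contMDiffAt (e.open_source.mem_nhds h1)).congr_of_eventuallyEq h2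
  have c3 : ContMDiffAt (𝓡 3) (𝓡 3) ∞ (chartAt R3 y)
      ((((D.E b).symm ∘ D.j a) ∘ (chartAt R3 x).symm) z) :=
    contMDiffOn_chart.contMDiffAt ((chartAt R3 y).open_source.mem_nhds hz4)
  exact contMDiffAt_iff_contDiffAt.1 (c3.comp z (c2.comp z c1))

theorem contMDiffOn_E (a : ι) : ContMDiffOn (𝓡 3) (𝓡 3) ∞ (D.E a) (D.E a).source := by
  intro x hx
  apply ContMDiffAt.contMDiffWithinAt
  have hc : (D.E a).symm.trans (chartAt R3 x) ∈ IsManifold.maximalAtlas (𝓡 3) ∞ D.Sp :=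
    IsManifold.subset_maximalAtlas (D.mem_atlas a x)
  have h1 : chartAt R3 x x ∈ ((D.E a).symm.trans (chartAt R3 x)).target := by
    refine ⟨mem_chart_target R3 x, ?_⟩
    simp only [mem_preimage]
    rw [(chartAt R3 x).left_inv (mem_chart_source R3 x)]
    exact hx
  have c1 := contMDiffAt_symm_of_mem_maximalAtlas hc h1
  have c2 : ContMDiffAt (𝓡 3) (𝓡 3) ∞ (chartAt R3 x) x :=
    contMDiffOn_chart.contMDiffAt ((chartAt R3 x).open_source.mem_nhds (mem_chart_source R3 x))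
  refine (c1.comp x c2).congr_of_eventuallyEq ?_
  filter_upwards [(chartAt R3 x).open_source.mem_nhds (mem_chart_source R3 x)] with x' h
  simp only [OpenPartialHomeomorph.coe_trans_symm, OpenPartialHomeomorph.symm_symm,
    Function.comp_apply]
  rw [(chartAt R3 x).left_inv h]

theorem contMDiffOn_E_symm (a : ι) :
    ContMDiffOn (𝓡 3) (𝓡 3) ∞ (D.E a).symm (D.E a).target := by
  intro m hm
  apply ContMDiffAt.contMDiffWithinAt
  set x := (D.E a).symm m with hx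
  have hc : (D.E a).symm.trans (chartAt R3 x) ∈ IsManifold.maximalAtlas (𝓡 3) ∞ D.Sp :=
    IsManifold.subset_maximalAtlas (D.mem_atlas a x)
  have h1 : m ∈ ((D.E a).symm.trans (chartAt R3 x)).source := ⟨hm, mem_chart_source R3 x⟩
  have c1 := contMDiffAt_of_mem_maximalAtlas hc h1
  have c2 : ContMDiffAt (𝓡 3) (𝓡 3) ∞ (chartAt R3 x).symm
      (((D.E a).symm.trans (chartAt R3 x)) m) :=
    contMDiffOn_chart_symm.contMDiffAt
      ((chartAt R3 x).open_target.mem_nhds (mem_chart_target R3 x))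
  refine (c2.comp m c1).congr_of_eventuallyEq ?_
  filter_upwards [((D.E a).symm.trans (chartAt R3 x)).open_source.mem_nhds h1] with m' h
  simp only [OpenPartialHomeomorph.coe_trans, Function.comp_apply]
  exact ((chartAt R3 x).left_inv h.2).symm

/-- The piece `a` as a local diffeomorphism. -/
noncomputable def F (a : ι) : PartialDiffeomorph (𝓡 3) (𝓡 3) N D.Sp ∞ where
  toPartialEquiv := (D.E a).toPartialEquiv
  open_source := (D.E a).open_source
  open_target := (D.E a).open_target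
  contMDiffOn_toFun := D.contMDiffOn_E a
  contMDiffOn_invFun := D.contMDiffOn_E_symm a

/-- The glued form. -/
noncomputable def form (m : D.Sp) (v : TangentSpace (𝓡 3) m) : ℝ :=
  β ((D.E (D.ix m)).symm m) (mfderiv (𝓡 3) (𝓡 3) (D.E (D.ix m)).symm m v)

theorem contactAt (a : ι) {x : N} (hx : x ∈ D.X a) : ContactAt β D.form (D.j a) x := by
  obtain ⟨e, h1, h2, c, hc, h3⟩ := D.trans_eq hx (D.mem_ix (D.j a x))
  refine ⟨c, hc, fun v => ?_⟩
  rw [← h3 v]
  have d1 : MDifferentiableAt (𝓡 3) (𝓡 3) (D.E (D.ix (D.j a x))).symm (D.j a x) :=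
    (D.F (D.ix (D.j a x))).symm.mdifferentiableAt (by simp) (D.mem_ix _)
  have d2 : MDifferentiableAt (𝓡 3) (𝓡 3) (D.j a) x :=
    (D.F a).mdifferentiableAt (by simp) hx
  have h4 := mfderiv_comp_apply (I := 𝓡 3) (I' := 𝓡 3) (I'' := 𝓡 3) x d1 d2 v
  rw [h2.mfderiv_eq] at h4
  unfold form
  rw [← h4]
  exact form_congr β h2.eq_of_nhds _

theorem crel (a : ι) : CRel β D.form (fun x m => x ∈ D.X a ∧ m = D.j a x) where
  fun_r _ _ _ h1 h2 := h1.2.trans h2.2.symm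
  fun_l _ _ _ h1 h2 := D.injOn a h1.1 h2.1 (h1.2.symm.trans h2.2)
  loc _ _ h := ⟨D.F a, h.1, fun _ hx' => ⟨⟨hx', rfl⟩, D.contactAt a hx'⟩⟩

omit [Nonempty N] [IsManifold (𝓡 3) ∞ N] in
theorem sep_same [T2Space N] (a : ι) {x y : N} (hx : x ∈ D.X a) (hy : y ∈ D.X a)
    (h : D.j a x ≠ D.j a y) :
    ∃ u v : Set D.Sp, IsOpen u ∧ IsOpen v ∧ D.j a x ∈ u ∧ D.j a y ∈ v ∧ Disjoint u v := by
  have hxy : x ≠ y := fun e => h (by rw [e])
  obtain ⟨u, v, hu, hv, hxu, hyv, huv⟩ := t2_separation hxy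
  refine ⟨D.j a '' (D.X a ∩ u), D.j a '' (D.X a ∩ v),
    D.isOpen_image a ((D.op a).inter hu) inter_subset_left,
    D.isOpen_image a ((D.op a).inter hv) inter_subset_left,
    ⟨x, ⟨hx, hxu⟩, rfl⟩, ⟨y, ⟨hy, hyv⟩, rfl⟩, ?_⟩
  rw [Set.disjoint_left]
  rintro _ ⟨p, hp, rfl⟩ ⟨q, hq, e⟩
  have : q = p := D.injOn a hq.1 hp.1 e
  exact Set.disjoint_left.1 huv hp.2 (this ▸ hq.2)

end Data

/-- The glued set. -/
theorem exists_set {N : Type} (H : N → N → Prop) (X1 X2 : Set N) (hne : X1.Nonempty)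
    (hr : ∀ x y y', H x y → H x y' → y = y') (hl : ∀ x x' y, H x y → H x' y → x = x')
    (hX : ∀ x y, H x y → x ∈ X1 ∧ y ∈ X2) :
    ∃ (M : Type) (i1 i2 : N → M), InjOn i1 X1 ∧ InjOn i2 X2 ∧
      (∀ m, (∃ x ∈ X1, m = i1 x) ∨ ∃ y ∈ X2, m = i2 y) ∧
      ∀ x ∈ X1, ∀ y ∈ X2, (i1 x = i2 y ↔ H x y) := by
  classical
  obtain ⟨x0, hx0⟩ := hne
  let k : N → N ⊕ N := fun y => if h : ∃ x, H x y then Sum.inl h.choose else Sum.inr y
  have hk : ∀ x y, Sum.inl x = k y ↔ H x y := by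
    intro x y
    by_cases h : ∃ x, H x y
    · have e : k y = Sum.inl h.choose := dif_pos h
      rw [e]
      constructor
      · intro h1
        rw [Sum.inl.inj h1]; exact h.choose_spec
      · intro h1
        rw [hl _ _ _ h1 h.choose_spec]
    · have e : k y = Sum.inr y := dif_neg h
      rw [e]
      exact ⟨fun h1 => absurd h1 Sum.inl_ne_inr, fun h1 => absurd ⟨x, h1⟩ h⟩
  have hki : Function.Injective k := by
    intro y y' e
    by_cases h : ∃ x, H x y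
    · obtain ⟨x, hx⟩ := h
      exact hr x y y' hx ((hk x y').1 (((hk x y).2 hx).trans e))
    · by_cases h' : ∃ x, H x y'
      · obtain ⟨x, hx⟩ := h'
        exact absurd ⟨x, (hk x y).1 (((hk x y').2 hx).trans e.symm)⟩ h
      · have e1 : k y = Sum.inr y := dif_neg h
        have e2 : k y' = Sum.inr y' := dif_neg h'
        rw [e1, e2] at e
        exact Sum.inr.inj e
  let M : Type := {z : N ⊕ N // (∃ x ∈ X1, z = Sum.inl x) ∨ ∃ y ∈ X2, z = k y}
  let m0 : M := ⟨Sum.inl x0, Or.inl ⟨x0, hx0, rfl⟩⟩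
  let i1 : N → M := fun x => if h : x ∈ X1 then ⟨Sum.inl x, Or.inl ⟨x, h, rfl⟩⟩ else m0
  let i2 : N → M := fun y => if h : y ∈ X2 then ⟨k y, Or.inr ⟨y, h, rfl⟩⟩ else m0
  have h1 : ∀ x ∈ X1, (i1 x).1 = Sum.inl x := fun x hx => by
    have : i1 x = ⟨Sum.inl x, Or.inl ⟨x, hx, rfl⟩⟩ := dif_pos hx
    rw [this]
  have h2 : ∀ y ∈ X2, (i2 y).1 = k y := fun y hy => by
    have : i2 y = ⟨k y, Or.inr ⟨y, hy, rfl⟩⟩ := dif_pos hy
    rw [this]
  refine ⟨M, i1, i2, fun x hx y hy e => ?_, fun x hx y hy e => ?_, ?_, fun x hx y hy => ?_⟩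
  · have := congrArg Subtype.val e
    rw [h1 x hx, h1 y hy] at this
    exact Sum.inl.inj this
  · have := congrArg Subtype.val e
    rw [h2 x hx, h2 y hy] at this
    exact hki this
  · rintro ⟨z, ⟨x, hx, rfl⟩ | ⟨y, hy, rfl⟩⟩
    · exact Or.inl ⟨x, hx, Subtype.ext (h1 x hx).symm⟩
    · exact Or.inr ⟨y, hy, Subtype.ext (h2 y hy).symm⟩
  · rw [Subtype.ext_iff, h1 x hx, h2 y hy]
    exact hk x y

/-- Gluing of two open pieces of a manifold `N`. -/
theorem glue_gen {N : Type} [TopologicalSpace N] [ChartedSpace R3 N] [T2Space N]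
    [IsManifold (𝓡 3) ∞ N] (β : (y : N) → TangentSpace (𝓡 3) y → ℝ)
    (H : N → N → Prop) (X1 X2 A1 A2 C1 C2 : Set N) (hH : CRel β β H)
    (o1 : IsOpen X1) (o2 : IsOpen X2) (hne : X1.Nonempty) (hX : ∀ x y, H x y → x ∈ X1 ∧ y ∈ X2)
    (oA1 : IsOpen A1) (oA2 : IsOpen A2) (hA1 : ∀ x ∈ X1, x ∈ A1 ∨ ∃ y, H x y)
    (hA2 : ∀ y ∈ X2, y ∈ A2 ∨ ∃ x, H x y) (hA : ∀ x y, H x y → x ∈ A1 → y ∈ A2 → False)
    (k1 : IsCompact C1) (k2 : IsCompact C2) (s1 : C1 ⊆ X1) (s2 : C2 ⊆ X2)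
    (hC1 : ∀ x ∈ X1, x ∈ C1 ∨ ∃ y ∈ C2, H x y) (hC2 : ∀ y ∈ X2, y ∈ C2 ∨ ∃ x ∈ C1, H x y) :
    ∃ (M : Type) (_ : TopologicalSpace M) (_ : T2Space M) (_ : CompactSpace M)
      (_ : ChartedSpace R3 M) (_ : IsManifold (𝓡 3) ∞ M)
      (α : (x : M) → TangentSpace (𝓡 3) x → ℝ) (i1 i2 : N → M),
      CRel β α (fun x m => x ∈ X1 ∧ m = i1 x) ∧
      CRel β α (fun y m => y ∈ X2 ∧ m = i2 y) ∧
      (∀ m, (∃ x ∈ X1, m = i1 x) ∨ ∃ y ∈ X2, m = i2 y) ∧
      ∀ x ∈ X1, ∀ y ∈ X2, (i1 x = i2 y ↔ H x y) := by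
  haveI : Nonempty N := ⟨hne.choose⟩
  obtain ⟨M, i1, i2, j1, j2, hc, hi⟩ := exists_set H X1 X2 hne hH.fun_r hH.fun_l hX
  let D : Data Bool M N β :=
    { X := fun a => cond a X1 X2
      i := fun a => cond a i1 i2
      op := by rintro (_ | _); exacts [o2, o1]
      rel := by
        rintro (_ | _) (_ | _)
        · refine crel_congr (crel_id β o2) fun x y => ⟨fun h => ⟨h.1, j2 h.1 h.2.1 h.2.2⟩, ?_⟩
          rintro ⟨h, rfl⟩; exact ⟨h, h, rfl⟩
        · refine crel_congr (crel_symm hH) fun y x =>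
            ⟨fun h => (hi x h.2.1 y h.1).1 h.2.2.symm, fun h => ?_⟩
          exact ⟨(hX x y h).2, (hX x y h).1, ((hi x (hX x y h).1 y (hX x y h).2).2 h).symm⟩
        · refine crel_congr hH fun x y => ⟨fun h => (hi x h.1 y h.2.1).1 h.2.2, fun h => ?_⟩
          exact ⟨(hX x y h).1, (hX x y h).2, (hi x (hX x y h).1 y (hX x y h).2).2 h⟩
        · refine crel_congr (crel_id β o1) fun x y => ⟨fun h => ⟨h.1, j1 h.1 h.2.1 h.2.2⟩, ?_⟩
          rintro ⟨h, rfl⟩; exact ⟨h, h, rfl⟩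
      cov := fun m => (hc m).elim (fun h => ⟨true, h⟩) fun h => ⟨false, h⟩ }
  have hi' : ∀ x ∈ X1, ∀ y ∈ X2, (D.j true x = D.j false y ↔ H x y) := hi
  have hc' : ∀ m : D.Sp, (∃ x ∈ X1, m = D.j true x) ∨ ∃ y ∈ X2, m = D.j false y := hc
  have mixed : ∀ x ∈ X1, ∀ y ∈ X2, D.j true x ≠ D.j false y →
      ∃ u v : Set D.Sp, IsOpen u ∧ IsOpen v ∧ D.j true x ∈ u ∧ D.j false y ∈ v ∧
        Disjoint u v := by
    intro x hx y hy hne
    rcases hA1 x hx with a1 | ⟨y', h⟩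
    · rcases hA2 y hy with a2 | ⟨x', h⟩
      · refine ⟨D.j true '' (X1 ∩ A1), D.j false '' (X2 ∩ A2),
          D.isOpen_image true (o1.inter oA1) inter_subset_left,
          D.isOpen_image false (o2.inter oA2) inter_subset_left,
          ⟨x, ⟨hx, a1⟩, rfl⟩, ⟨y, ⟨hy, a2⟩, rfl⟩, ?_⟩
        rw [Set.disjoint_left]
        rintro _ ⟨p, hp, rfl⟩ ⟨q, hq, e⟩
        exact hA p q ((hi' p hp.1 q hq.1).1 e.symm) hp.2 hq.2
      · have e := (hi' x' (hX x' y h).1 y hy).2 h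
        rw [← e] at hne ⊢
        exact D.sep_same true hx (hX x' y h).1 hne
    · have e := (hi' x hx y' (hX x y' h).2).2 h
      rw [e] at hne ⊢
      exact D.sep_same false (hX x y' h).2 hy hne
  have t2 : T2Space D.Sp := by
    refine ⟨fun m m' hne => ?_⟩
    rcases hc' m with ⟨x, hx, rfl⟩ | ⟨x, hx, rfl⟩ <;> rcases hc' m' with ⟨y, hy, rfl⟩ | ⟨y, hy, rfl⟩
    · exact D.sep_same true hx hy hne
    · exact mixed x hx y hy hne
    · obtain ⟨u, v, h1, h2, h3, h4, h5⟩ := mixed y hy x hx hne.symm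
      exact ⟨v, u, h2, h1, h4, h3, h5.symm⟩
    · exact D.sep_same false hx hy hne
  have cpt : CompactSpace D.Sp := by
    refine ⟨?_⟩
    have e : (univ : Set D.Sp) = D.j true '' C1 ∪ D.j false '' C2 := by
      refine (eq_univ_of_forall fun m => ?_).symm
      rcases hc' m with ⟨x, hx, rfl⟩ | ⟨y, hy, rfl⟩
      · rcases hC1 x hx with h | ⟨y, hy, h⟩
        · exact Or.inl ⟨x, h, rfl⟩
        · exact Or.inr ⟨y, hy, ((hi' x hx y (s2 hy)).2 h).symm⟩
      · rcases hC2 y hy with h | ⟨x, hx, h⟩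
        · exact Or.inr ⟨y, h, rfl⟩
        · exact Or.inl ⟨x, hx, (hi' x (s1 hx) y hy).2 h⟩
    rw [e]
    exact (k1.image_of_continuousOn ((D.continuousOn_j true).mono s1)).union
      (k2.image_of_continuousOn ((D.continuousOn_j false).mono s2))
  exact ⟨D.Sp, inferInstance, t2, cpt, inferInstance, inferInstance, D.form, D.j true, D.j false,
    D.crel true, D.crel false, hc', hi'⟩

end Glue

/-- Gluing two open subsets of the sphere, the first of them nonempty. -/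
theorem glue_ne :
    ∀ (H : S3 → S3 → Prop) (X1 X2 A1 A2 C1 C2 : Set S3), CRel alphaSt alphaSt H →
    IsOpen X1 → IsOpen X2 → X1.Nonempty → (∀ x y, H x y → x ∈ X1 ∧ y ∈ X2) →
    IsOpen A1 → IsOpen A2 → (∀ x ∈ X1, x ∈ A1 ∨ ∃ y, H x y) → (∀ y ∈ X2, y ∈ A2 ∨ ∃ x, H x y) →
    (∀ x y, H x y → x ∈ A1 → y ∈ A2 → False) →
    IsCompact C1 → IsCompact C2 → C1 ⊆ X1 → C2 ⊆ X2 →
    (∀ x ∈ X1, x ∈ C1 ∨ ∃ y ∈ C2, H x y) → (∀ y ∈ X2, y ∈ C2 ∨ ∃ x ∈ C1, H x y) →
    ∃ (M : Type) (_ : TopologicalSpace M) (_ : T2Space M) (_ : CompactSpace M)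
      (_ : ChartedSpace R3 M) (_ : IsManifold (𝓡 3) ∞ M)
      (α : (x : M) → TangentSpace (𝓡 3) x → ℝ) (i1 i2 : S3 → M),
      CRel alphaSt α (fun x m => x ∈ X1 ∧ m = i1 x) ∧
      CRel alphaSt α (fun y m => y ∈ X2 ∧ m = i2 y) ∧
      (∀ m, (∃ x ∈ X1, m = i1 x) ∨ ∃ y ∈ X2, m = i2 y) ∧
      ∀ x ∈ X1, ∀ y ∈ X2, (i1 x = i2 y ↔ H x y) :=
  fun H X1 X2 A1 A2 C1 C2 => Glue.glue_gen alphaSt H X1 X2 A1 A2 C1 C2

end Pool.Agent.MP_5d9d0b_gt
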