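import Mathlib.RingTheory.Finiteness.Prod
import Mathlib.Algebra.Order.Ring.Star
import Mathlib.RingTheory.PicardGroup
import Mathlib.Topology.GDelta.MetrizableSpace
import Mathlib.Algebra.Order.Star.Real
import Mathlib.Topology.Maps.Proper.CompactlyGenerated
import Mathlib.Analysis.Convex.Contractible
import Mathlib.Analysis.Calculus.InverseFunctionTheorem.FDeriv
import Mathlib.Topology.Homotopy.Lifting
import Mathlib.Topology.Compactness.CompactlyGeneratedSpace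
import Mathlib.Data.Finite.Perm
import Mathlib.RingTheory.SimpleRing.Principal
import Mathlib.Order.CompletePartialOrder
import Pool.Agent.MP_5d9d0b_gt.Spec

/-!
The monodromy of the tenfold covering over the complement of `T(-11,2)` is cyclic.
-/

namespace Pool.Agent.MP_5d9d0b_gt

open scoped Real Topology
open Set Filter

namespace QUp

/-- the unbranched locus -/
def good : Set (ℂ × ℂ) := {y | y.2 ^ 2 ≠ 4 * y.1 ^ 5}

theorem continuous_Pi5 : Continuous Pi5 := by unfold Pi5; fun_prop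

theorem exists_root {a b a0 b0 : ℂ} (h1 : a ^ 5 = a0 ^ 5) (h2 : b ^ 5 = b0 ^ 5)
    (h3 : a * b = a0 * b0) : ∃ ζ : ℂ, ζ ^ 5 = 1 ∧ a = ζ * a0 ∧ b = ζ ^ 4 * b0 := by
  by_cases ha : a0 = 0
  · have ha' : a = 0 := by simpa [ha] using h1
    by_cases hb : b0 = 0
    · have hb' : b = 0 := by simpa [hb] using h2
      exact ⟨1, by simp, by simp [ha, ha'], by simp [hb, hb']⟩
    · have e : (b / b0) ^ 5 = 1 := by rw [div_pow, h2, div_self (pow_ne_zero _ hb)]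
      refine ⟨(b / b0) ^ 4, ?_, by simp [ha, ha'], ?_⟩
      · rw [← pow_mul, mul_comm, pow_mul, e, one_pow]
      · have : ((b / b0) ^ 4) ^ 4 = ((b / b0) ^ 5) ^ 3 * (b / b0) := by ring
        rw [this, e, one_pow, one_mul, div_mul_cancel₀ _ hb]
  · have e : (a / a0) ^ 5 = 1 := by rw [div_pow, h1, div_self (pow_ne_zero _ ha)]
    refine ⟨a / a0, e, by rw [div_mul_cancel₀ _ ha], ?_⟩
    have e2 : a / a0 * b = b0 := by field_simp; exact h3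
    rw [← e2]
    linear_combination (-b) * e

theorem fibre (y : ℂ × ℂ) : (Pi5 ⁻¹' {y}).Finite ∧ (Pi5 ⁻¹' {y}).ncard ≤ 10 := by
  classical
  rcases (Pi5 ⁻¹' {y}).eq_empty_or_nonempty with h | ⟨e0, h0⟩
  · simp [h]
  set μ : Finset ℂ := (Polynomial.nthRoots 5 (1 : ℂ)).toFinset with hμ
  have hc : μ.card ≤ 5 := (Multiset.toFinset_card_le _).trans (Polynomial.card_nthRoots _ _)
  set S : Finset (ℂ × ℂ) := μ.image (fun ζ => (ζ * e0.1, ζ ^ 4 * e0.2)) ∪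
    μ.image (fun ζ => (ζ * e0.2, ζ ^ 4 * e0.1)) with hS
  have hsub : Pi5 ⁻¹' {y} ⊆ (S : Set (ℂ × ℂ)) := by
    intro e he
    have h1 : Pi5 e = Pi5 e0 := he.trans h0.symm
    have h2 : e.1 * e.2 = e0.1 * e0.2 := congrArg Prod.fst h1
    have h3 : e.1 ^ 5 + e.2 ^ 5 = e0.1 ^ 5 + e0.2 ^ 5 := congrArg Prod.snd h1
    have h4 : (e.1 ^ 5 - e0.1 ^ 5) * (e.1 ^ 5 - e0.2 ^ 5) = 0 := by
      have : e.1 ^ 5 * e.2 ^ 5 = e0.1 ^ 5 * e0.2 ^ 5 := by rw [← mul_pow, h2, mul_pow]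
      linear_combination e.1 ^ 5 * h3 - this
    have hm : ∀ ζ : ℂ, ζ ^ 5 = 1 → ζ ∈ μ := fun ζ h => by
      rw [hμ, Multiset.mem_toFinset, Polynomial.mem_nthRoots (by norm_num)]; exact h
    rw [Finset.mem_coe, hS, Finset.mem_union, Finset.mem_image, Finset.mem_image]
    rcases mul_eq_zero.1 h4 with h | h
    · obtain ⟨ζ, z1, z2, z3⟩ := exists_root (sub_eq_zero.1 h)
        (show e.2 ^ 5 = e0.2 ^ 5 by linear_combination h3 - h) h2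
      exact Or.inl ⟨ζ, hm ζ z1, Prod.ext z2.symm z3.symm⟩
    · obtain ⟨ζ, z1, z2, z3⟩ := exists_root (sub_eq_zero.1 h)
        (show e.2 ^ 5 = e0.1 ^ 5 by linear_combination h3 - h) (h2.trans (mul_comm _ _))
      exact Or.inr ⟨ζ, hm ζ z1, Prod.ext z2.symm z3.symm⟩
  refine ⟨S.finite_toSet.subset hsub, (ncard_le_ncard hsub S.finite_toSet).trans ?_⟩
  rw [ncard_coe_finset]
  refine (Finset.card_union_le _ _).trans ?_
  have := Finset.card_image_le (s := μ) (f := fun ζ => (ζ * e0.1, ζ ^ 4 * e0.2))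
  have := Finset.card_image_le (s := μ) (f := fun ζ => (ζ * e0.2, ζ ^ 4 * e0.1))
  omega

theorem norm_le_aux (a v s : ℂ) (h : a ^ 5 * a ^ 5 = s * a ^ 5 - v ^ 5) :
    ‖a‖ ≤ 1 + ‖s‖ + ‖v‖ ^ 5 := by
  have h0 := norm_nonneg s
  have h0' : 0 ≤ ‖v‖ ^ 5 := by positivity
  rcases le_or_gt ‖a‖ 1 with h1 | h1
  · linarith
  have h2 : 1 ≤ ‖a‖ ^ 5 := one_le_pow₀ h1.le
  have h3 : ‖a‖ ≤ ‖a‖ ^ 5 := le_self_pow₀ h1.le (by norm_num)
  have h4 : ‖a‖ ^ 5 * ‖a‖ ^ 5 ≤ ‖s‖ * ‖a‖ ^ 5 + ‖v‖ ^ 5 := by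
    have := norm_sub_le (s * a ^ 5) (v ^ 5)
    rwa [← h, norm_mul, norm_mul, norm_pow, norm_pow] at this
  have h5 : ‖a‖ ^ 5 ≤ ‖s‖ + ‖v‖ ^ 5 := by
    refine le_of_mul_le_mul_right ?_ (lt_of_lt_of_le one_pos h2)
    nlinarith
  linarith

theorem isClosedMap_Pi5 : IsClosedMap Pi5 := by
  refine IsProperMap.isClosedMap (isProperMap_iff_isCompact_preimage.2 ⟨continuous_Pi5, ?_⟩)
  intro K hK
  obtain ⟨C, hC⟩ := hK.isBounded.exists_norm_le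
  refine Metric.isCompact_of_isClosed_isBounded (hK.isClosed.preimage continuous_Pi5) ?_
  refine isBounded_iff_forall_norm_le.2 ⟨1 + C + C ^ 5, fun e he => ?_⟩
  have h1 : ‖e.1 * e.2‖ ≤ C := (norm_fst_le (Pi5 e)).trans (hC _ he)
  have h2 : ‖e.1 ^ 5 + e.2 ^ 5‖ ≤ C := (norm_snd_le (Pi5 e)).trans (hC _ he)
  have h3 : ‖e.1 * e.2‖ ^ 5 ≤ C ^ 5 := by gcongr
  have h4 := norm_le_aux e.1 (e.1 * e.2) (e.1 ^ 5 + e.2 ^ 5) (by ring)
  have h5 := norm_le_aux e.2 (e.1 * e.2) (e.1 ^ 5 + e.2 ^ 5) (by ring)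
  rw [Prod.norm_def, max_le_iff]
  constructor <;> linarith

theorem locHomeo : IsLocalHomeomorphOn Pi5 (Pi5 ⁻¹' good) := by
  intro e he
  have hne : e.1 ^ 5 - e.2 ^ 5 ≠ 0 := fun h => he (by
    show (e.1 ^ 5 + e.2 ^ 5) ^ 2 = 4 * (e.1 * e.2) ^ 5
    linear_combination (e.1 ^ 5 - e.2 ^ 5) * h)
  have f1 : HasStrictFDerivAt (fun p : ℂ × ℂ => p.1) (ContinuousLinearMap.fst ℂ ℂ ℂ) e :=
    hasStrictFDerivAt_fst
  have f2 : HasStrictFDerivAt (fun p : ℂ × ℂ => p.2) (ContinuousLinearMap.snd ℂ ℂ ℂ) e :=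
    hasStrictFDerivAt_snd
  obtain ⟨A, hA, hA'⟩ : ∃ A : ℂ × ℂ →L[ℂ] ℂ × ℂ, HasStrictFDerivAt Pi5 A e ∧
      ∀ v, A v = (e.1 * v.2 + e.2 * v.1, 5 * e.1 ^ 4 * v.1 + 5 * e.2 ^ 4 * v.2) :=
    ⟨_, (f1.mul f2).prodMk ((f1.pow 5).add (f2.pow 5)), fun v => by simp⟩
  have hker : LinearMap.ker (A : ℂ × ℂ →ₗ[ℂ] ℂ × ℂ) = ⊥ := by
    rw [LinearMap.ker_eq_bot']
    intro v hv
    have h := (hA' v).symm.trans hv
    have h1 : e.1 * v.2 + e.2 * v.1 = 0 := congrArg Prod.fst h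
    have h2 : 5 * e.1 ^ 4 * v.1 + 5 * e.2 ^ 4 * v.2 = 0 := congrArg Prod.snd h
    have h3 : (e.1 ^ 5 - e.2 ^ 5) * v.1 = 0 := by
      linear_combination (e.1 / 5) * h2 - e.2 ^ 4 * h1
    have h4 : (e.1 ^ 5 - e.2 ^ 5) * v.2 = 0 := by
      linear_combination e.1 ^ 4 * h1 - (e.2 / 5) * h2
    exact Prod.ext ((mul_eq_zero.1 h3).resolve_left hne) ((mul_eq_zero.1 h4).resolve_left hne)
  have hB : HasStrictFDerivAt Pi5
      (ContinuousLinearEquiv.ofBijective A hker (LinearMap.ker_eq_bot_iff_range_eq_top.1 hker) :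
        ℂ × ℂ →L[ℂ] ℂ × ℂ) e := by
    rw [ContinuousLinearEquiv.coe_ofBijective]; exact hA
  exact ⟨_, hB.mem_toOpenPartialHomeomorph_source, by simp⟩

theorem cov : IsCoveringMapOn Pi5 good :=
  isClosedMap_Pi5.isCoveringMapOn_of_isLocalHomeomorphOn (fun y _ => (fibre y).1) locHomeo

/-- local uniqueness of lifts -/
theorem un_loc {A : Type} [TopologicalSpace A] {g1 g2 : A → ℂ × ℂ} {a : A}
    (h1 : ContinuousAt g1 a) (h2 : ContinuousAt g2 a) (h : g1 a = g2 a) (hg : Pi5 (g1 a) ∈ good)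
    (he : ∀ᶠ x in 𝓝 a, Pi5 (g1 x) = Pi5 (g2 x)) : ∀ᶠ x in 𝓝 a, g1 x = g2 x := by
  obtain ⟨φ, hφ, hφ'⟩ := locHomeo (g1 a) hg
  filter_upwards [he, h1.eventually (φ.open_source.mem_nhds hφ),
    h2.eventually (φ.open_source.mem_nhds (h ▸ hφ))] with x e1 e2 e3
  exact φ.injOn e2 e3 (by rw [← hφ']; exact e1)

/-- uniqueness of lifts -/
theorem un {A : Type} [TopologicalSpace A] [PreconnectedSpace A] {g1 g2 : A → ℂ × ℂ}
    (h1 : Continuous g1) (h2 : Continuous g2) (hg : ∀ x, Pi5 (g1 x) ∈ good)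
    (he : ∀ x, Pi5 (g1 x) = Pi5 (g2 x)) {a : A} (h : g1 a = g2 a) (x : A) : g1 x = g2 x := by
  have hc : IsClopen {x | g1 x = g2 x} := ⟨isClosed_eq h1 h2, isOpen_iff_mem_nhds.2 fun y hy =>
    un_loc h1.continuousAt h2.continuousAt hy (hg y) (Eventually.of_forall he)⟩
  exact (hc.eq_univ ⟨a, h⟩).ge (mem_univ x)

theorem perm_of_action {F : Type} (ρ : ℤ → F → F) (h0 : ∀ e, ρ 0 e = e)
    (hadd : ∀ k l e, ρ (k + l) e = ρ l (ρ k e)) : ∃ ξ : Equiv.Perm F, ∀ k e, ρ k e = (ξ ^ k) e := by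
  refine ⟨⟨ρ 1, ρ (-1), fun e => by rw [← hadd]; simp [h0], fun e => by rw [← hadd]; simp [h0]⟩,
    fun k => ?_⟩
  induction k using Int.induction_on with
  | zero => simpa using h0
  | succ n ih => intro e; rw [zpow_add_one, add_comm, hadd, ih]; rfl
  | pred n ih => intro e; rw [zpow_sub_one, sub_eq_neg_add, hadd, ih]; rfl

/-- lifting over a simply connected chart with a deck action -/
theorem chart {D : Type} [TopologicalSpace D] [SimplyConnectedSpace D]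
    [LocallyPathConnectedSpace D] (g : D → ℂ × ℂ) (hg : Continuous g) (hgood : ∀ d, g d ∈ good)
    (T : ℤ → D → D) (hT : ∀ k, Continuous (T k)) (T0 : ∀ d, T 0 d = d)
    (Tadd : ∀ k l d, T (k + l) d = T k (T l d)) (gT : ∀ k d, g (T k d) = g d)
    (o : D) (y : ℂ × ℂ) (ho : g o = y) :
    ∃ (L : (Pi5 ⁻¹' {y}) → D → ℂ × ℂ) (ξ : Equiv.Perm (Pi5 ⁻¹' {y})),
      (∀ e, Continuous (L e)) ∧ (∀ e d, Pi5 (L e d) = g d) ∧ (∀ e, L e o = e) ∧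
      (∀ d a, Pi5 a = g d → ∃ e, L e d = a) ∧ (∀ e e' d, L e d = L e' d → e = e') ∧
      ∀ (k : ℤ) e d, L e (T k d) = L ((ξ ^ k) e) d := by
  have ex : ∀ d a, Pi5 a = g d → ∃ L : D → ℂ × ℂ, Continuous L ∧ (∀ d, Pi5 (L d) = g d) ∧
      L d = a := fun d a h => by
    obtain ⟨L, ⟨h1, h2⟩, -⟩ := cov.existsUnique_continuousMap_lifts ⟨g, hg⟩ (a₀ := d) h hgood
    exact ⟨L, L.continuous, fun d => congrFun h2 d, h1⟩
  have u : ∀ {L L' : D → ℂ × ℂ}, Continuous L → Continuous L' → (∀ d, Pi5 (L d) = g d) →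
      (∀ d, Pi5 (L' d) = g d) → ∀ {d}, L d = L' d → ∀ d', L d' = L' d' :=
    fun h1 h2 h3 h4 _ h => un h1 h2 (fun d => (h3 d).symm ▸ hgood d)
      (fun d => (h3 d).trans (h4 d).symm) h
  choose L L1 L2 L3 using fun e : (Pi5 ⁻¹' {y}) => ex o e (e.2.trans ho.symm)
  have inj : ∀ e e' d, L e d = L e' d → e = e' := fun e e' d h => Subtype.ext (by
    rw [← L3 e, ← L3 e']; exact u (L1 e) (L1 e') (L2 e) (L2 e') h o)
  let ρ : ℤ → (Pi5 ⁻¹' {y}) → (Pi5 ⁻¹' {y}) := fun k e =>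
    ⟨L e (T k o), (L2 e _).trans ((gT k o).trans ho)⟩
  have hρ : ∀ k e d, L e (T k d) = L (ρ k e) d := fun k e d =>
    u ((L1 e).comp (hT k)) (L1 _) (fun d => (L2 e _).trans (gT k d)) (L2 _) (L3 (ρ k e)).symm d
  obtain ⟨ξ, hξ⟩ := perm_of_action ρ (fun e => inj _ _ o (by rw [← hρ, T0]))
    fun k l e => inj _ _ o (by rw [← hρ, ← hρ, ← hρ, Tadd])
  refine ⟨L, ξ, L1, L2, L3, fun d a h => ?_, inj, fun k e d => by rw [hρ, hξ]⟩
  obtain ⟨L', h1, h2, h3⟩ := ex d a h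
  refine ⟨⟨L' o, (h2 o).trans ho⟩, ?_⟩
  rw [← h3]
  exact u (L1 _) h1 (L2 _) h2 (L3 _) d

/-- a system of markings of the fibres, well defined up to powers of `ξ` -/
structure Mark {X F : Type} (f : X → ℂ × ℂ) (ξ : Equiv.Perm F) (Θ : X → Set (F → ℂ × ℂ)) :
    Prop where
  inj : ∀ x, ∀ θ ∈ Θ x, Function.Injective θ
  lift : ∀ x, ∀ θ ∈ Θ x, ∀ e, Pi5 (θ e) = f x
  surj : ∀ x, ∀ θ ∈ Θ x, ∀ a, Pi5 a = f x → ∃ e, θ e = a
  orb : ∀ x, ∀ θ ∈ Θ x, ∀ θ' ∈ Θ x, ∃ k : ℤ, ∀ e, θ' e = θ ((ξ ^ k) e)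

/-- local continuity of the markings along a path -/
def Loc {X F : Type} (Θ : X → Set (F → ℂ × ℂ)) (γ : ℝ → X) : Prop :=
  ∀ t0, ∃ θ : ℝ → F → ℂ × ℂ, (∀ᶠ t in 𝓝 t0, θ t ∈ Θ (γ t)) ∧ ∀ e, ContinuousAt (fun t => θ t e) t0

theorem path {X F : Type} {f : X → ℂ × ℂ} {ξ : Equiv.Perm F} {Θ : X → Set (F → ℂ × ℂ)}
    (hM : Mark f ξ Θ) {γ : ℝ → X} (hL : Loc Θ γ) (hgood : ∀ t, f (γ t) ∈ good)
    {A1 A2 : ℝ → ℂ × ℂ} (c1 : Continuous A1) (c2 : Continuous A2)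
    (l1 : ∀ t, Pi5 (A1 t) = f (γ t)) (l2 : ∀ t, Pi5 (A2 t) = f (γ t))
    {θ : F → ℂ × ℂ} (h0 : θ ∈ Θ (γ 0)) (h1 : θ ∈ Θ (γ 1)) {u1 u2 v1 v2 : F}
    (e1 : θ u1 = A1 0) (e2 : θ u2 = A2 0) (e3 : θ v1 = A1 1) (e4 : θ v2 = A2 1) :
    ∃ k : ℤ, (ξ ^ k) u1 = v1 ∧ (ξ ^ k) u2 = v2 := by
  let Φ : ℝ → Set (F × F) := fun t =>
    {p | ∃ θ ∈ Θ (γ t), ∃ k : ℤ, θ ((ξ ^ k) p.1) = A1 t ∧ θ ((ξ ^ k) p.2) = A2 t}
  have key : ∀ t, ∀ θ ∈ Θ (γ t), ∀ w1 w2, θ w1 = A1 t → θ w2 = A2 t →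
      Φ t = {p | ∃ k : ℤ, (ξ ^ k) p.1 = w1 ∧ (ξ ^ k) p.2 = w2} := by
    intro t θ hθ w1 w2 a1 a2
    ext p
    constructor
    · rintro ⟨θ', hθ', k, b1, b2⟩
      obtain ⟨m, hm⟩ := hM.orb _ θ hθ θ' hθ'
      refine ⟨m + k, hM.inj _ θ hθ ?_, hM.inj _ θ hθ ?_⟩
      · rw [zpow_add, Equiv.Perm.mul_apply, ← hm, b1, a1]
      · rw [zpow_add, Equiv.Perm.mul_apply, ← hm, b2, a2]
    · rintro ⟨k, b1, b2⟩
      exact ⟨θ, hθ, k, by rw [b1, a1], by rw [b2, a2]⟩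
  have hlc : IsLocallyConstant Φ := by
    rw [IsLocallyConstant.iff_eventually_eq]
    intro t0
    obtain ⟨θ, hθ, hc⟩ := hL t0
    have hθ0 := hθ.self_of_nhds
    obtain ⟨w1, a1⟩ := hM.surj _ _ hθ0 _ (l1 t0)
    obtain ⟨w2, a2⟩ := hM.surj _ _ hθ0 _ (l2 t0)
    have b1 := un_loc (hc w1) c1.continuousAt a1 (by rw [hM.lift _ _ hθ0]; exact hgood t0)
      (hθ.mono fun t ht => (hM.lift _ _ ht _).trans (l1 t).symm)
    have b2 := un_loc (hc w2) c2.continuousAt a2 (by rw [hM.lift _ _ hθ0]; exact hgood t0)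
      (hθ.mono fun t ht => (hM.lift _ _ ht _).trans (l2 t).symm)
    filter_upwards [hθ, b1, b2] with t ht d1 d2
    rw [key t _ ht w1 w2 d1 d2, key t0 _ hθ0 w1 w2 a1 a2]
  have h := hlc.apply_eq_of_preconnectedSpace 0 1
  rw [key 0 θ h0 u1 u2 e1 e2, key 1 θ h1 v1 v2 e3 e4] at h
  exact (Set.ext_iff.1 h (u1, u2)).1 ⟨0, by simp, by simp⟩

/-- the two-chart argument -/
theorem two {X D1 D2 D0 : Type} [TopologicalSpace D1] [SimplyConnectedSpace D1]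
    [LocallyPathConnectedSpace D1] [TopologicalSpace D2] [SimplyConnectedSpace D2]
    [LocallyPathConnectedSpace D2] [TopologicalSpace D0] [PreconnectedSpace D0]
    (f : X → ℂ × ℂ) (P1 : D1 → X) (P2 : D2 → X)
    (c1 : Continuous fun d => f (P1 d)) (c2 : Continuous fun d => f (P2 d))
    (g1 : ∀ d, f (P1 d) ∈ good) (g2 : ∀ d, f (P2 d) ∈ good)
    (T1 : ℤ → D1 → D1) (hT1 : ∀ k, Continuous (T1 k)) (T10 : ∀ d, T1 0 d = d)
    (T1add : ∀ k l d, T1 (k + l) d = T1 k (T1 l d))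
    (f1 : ∀ d d', P1 d = P1 d' ↔ ∃ k, d' = T1 k d)
    (T2 : ℤ → D2 → D2) (hT2 : ∀ k, Continuous (T2 k)) (T20 : ∀ d, T2 0 d = d)
    (T2add : ∀ k l d, T2 (k + l) d = T2 k (T2 l d))
    (f2 : ∀ d d', P2 d = P2 d' ↔ ∃ k, d' = T2 k d)
    (j1 : D0 → D1) (j2 : D0 → D2) (hj1 : Continuous j1) (hj2 : Continuous j2)
    (hj : ∀ d, P1 (j1 d) = P2 (j2 d)) (hov : ∀ d1 d2, P1 d1 = P2 d2 → ∃ d, P1 (j1 d) = P1 d1)
    (o o' : D0) (ho1 : T1 2 (j1 o) = j1 o') (ho2 : T2 (-11) (j2 o) = j2 o') :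
    ∃ (F : Type) (ξ : Equiv.Perm F) (Θ : X → Set (F → ℂ × ℂ)), Mark f ξ Θ ∧
      ∀ γ : ℝ → X, (∀ t0, (∃ s : ℝ → D1, ContinuousAt s t0 ∧ ∀ᶠ t in 𝓝 t0, P1 (s t) = γ t) ∨
        ∃ s : ℝ → D2, ContinuousAt s t0 ∧ ∀ᶠ t in 𝓝 t0, P2 (s t) = γ t) → Loc Θ γ := by
  obtain ⟨L1, ξ1, a1, a2, a3, a4, a5, a6⟩ := chart _ c1 g1 T1 hT1 T10 T1add
    (fun k d => by rw [← (f1 d _).2 ⟨k, rfl⟩]) (j1 o) _ rfl
  obtain ⟨L2, ξ2, b1, b2, b3, b4, b5, b6⟩ := chart _ c2 g2 T2 hT2 T20 T2add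
    (fun k d => by rw [← (f2 d _).2 ⟨k, rfl⟩]) (j2 o) (f (P1 (j1 o))) (by rw [hj])
  have h0 : ∀ e d, L1 e (j1 d) = L2 e (j2 d) := fun e d =>
    un ((a1 e).comp hj1) ((b1 e).comp hj2) (fun d => by rw [Function.comp, a2]; exact g1 _)
      (fun d => by rw [Function.comp, Function.comp, a2, b2, hj]) (a := o)
      ((a3 e).trans (b3 e).symm) d
  have h1 : ξ1 ^ (2 : ℤ) = ξ2 ^ (-11 : ℤ) := Equiv.ext fun e => Subtype.ext (by
    rw [← a3, ← b3, ← a6, ← b6, ho1, ho2, h0])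
  obtain ⟨m, hm⟩ : ∃ m : ℤ, ξ2 = ξ1 ^ m := by
    obtain ⟨hf, hc⟩ := fibre (f (P1 (j1 o)))
    have : Finite (Pi5 ⁻¹' {f (P1 (j1 o))}) := hf
    have h2 : orderOf ξ2 ∣ Nat.factorial 10 := by
      refine (orderOf_dvd_natCard ξ2).trans ?_
      rw [Nat.card_perm]
      exact Nat.factorial_dvd_factorial hc
    obtain ⟨m, hm⟩ := exists_pow_eq_self_of_coprime
      (Nat.Coprime.coprime_dvd_right h2 (show Nat.Coprime 11 (Nat.factorial 10) by decide))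
    refine ⟨2 * -m, ?_⟩
    rw [zpow_mul, h1, ← zpow_mul, show (-11 * -m : ℤ) = ((11 * m : ℕ) : ℤ) by push_cast; ring,
      zpow_natCast, pow_mul, hm]
  have mix : ∀ d1 d2, P1 d1 = P2 d2 → ∃ k l : ℤ, ∀ e, L1 ((ξ1 ^ l) e) d1 = L2 ((ξ1 ^ k) e) d2 := by
    intro d1 d2 h
    obtain ⟨d, hd⟩ := hov d1 d2 h
    obtain ⟨k, hk⟩ := (f1 _ _).1 hd.symm
    obtain ⟨l, hl⟩ := (f2 _ _).1 (h.symm.trans (hd.symm.trans (hj d)))
    refine ⟨m * l, k, fun e => ?_⟩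
    rw [zpow_mul, ← hm, ← a6, ← b6, ← hk, ← hl, h0]
  refine ⟨_, ξ1, fun x => {θ | (∃ d, P1 d = x ∧ θ = fun e => L1 e d) ∨
    ∃ d, P2 d = x ∧ θ = fun e => L2 e d}, ⟨?_, ?_, ?_, ?_⟩, ?_⟩
  · rintro x θ (⟨d, rfl, rfl⟩ | ⟨d, rfl, rfl⟩)
    · exact fun e e' h => a5 e e' d h
    · exact fun e e' h => b5 e e' d h
  · rintro x θ (⟨d, rfl, rfl⟩ | ⟨d, rfl, rfl⟩) e
    · exact a2 e d
    · exact b2 e d
  · rintro x θ (⟨d, rfl, rfl⟩ | ⟨d, rfl, rfl⟩) a h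
    · exact a4 d a h
    · exact b4 d a h
  · rintro x θ (⟨d, rfl, rfl⟩ | ⟨d, rfl, rfl⟩) θ' (⟨d', h, rfl⟩ | ⟨d', h, rfl⟩)
    · obtain ⟨k, rfl⟩ := (f1 _ _).1 h.symm
      exact ⟨k, fun e => a6 k e d⟩
    · obtain ⟨k, l, hk⟩ := mix _ _ h.symm
      refine ⟨l + -k, fun e => ?_⟩
      beta_reduce
      rw [zpow_add, Equiv.Perm.mul_apply, hk]
      simp
    · obtain ⟨k, l, hk⟩ := mix _ _ h
      refine ⟨k + -l, fun e => ?_⟩
      beta_reduce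
      rw [zpow_add, Equiv.Perm.mul_apply, ← hk]
      simp
    · obtain ⟨k, rfl⟩ := (f2 _ _).1 h.symm
      exact ⟨m * k, fun e => by rw [zpow_mul, ← hm]; exact b6 k e d⟩
  · intro γ hγ t0
    rcases hγ t0 with ⟨s, hs, h⟩ | ⟨s, hs, h⟩
    · exact ⟨fun t e => L1 e (s t), h.mono fun t ht => Or.inl ⟨_, ht, rfl⟩,
        fun e => (a1 e).continuousAt.comp hs⟩
    · exact ⟨fun t e => L2 e (s t), h.mono fun t ht => Or.inr ⟨_, ht, rfl⟩,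
        fun e => (b1 e).continuousAt.comp hs⟩

/-! ### The two charts of the knot complement -/

theorem ex_add (s t : ℝ) : ex (s + t) = ex s * ex t := by
  simp only [ex, ← Complex.exp_add]; congr 1; push_cast; ring

theorem norm_ex (t : ℝ) : ‖ex t‖ = 1 := Complex.norm_exp_ofReal_mul_I t

theorem ex_ne (t : ℝ) : ex t ≠ 0 := Complex.exp_ne_zero _

theorem ex_zero : ex 0 = 1 := by simp [ex]

theorem ex_int (k : ℤ) : ex (2 * π * k) = 1 := by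
  rw [← Complex.exp_int_mul_two_pi_mul_I k, ex]; congr 1; push_cast; ring

theorem ex_congr {s t : ℝ} (k : ℤ) (h : s = t + 2 * π * k) : ex s = ex t := by
  rw [h, ex_add, ex_int, mul_one]

theorem ex_pi : ex π = -1 := Complex.exp_pi_mul_I

theorem ex_eq {s t : ℝ} (h : ex s = ex t) : ∃ k : ℤ, t = s + 2 * π * k := by
  obtain ⟨k, hk⟩ := Complex.exp_eq_exp_iff_exists_int.1 h.symm
  refine ⟨k, ?_⟩
  have := congrArg Complex.im hk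
  simp at this
  linarith

theorem ex_pow (t : ℝ) (n : ℕ) : ex t ^ n = ex (n * t) := by
  simp only [ex, ← Complex.exp_nat_mul]; congr 1; push_cast; ring

@[fun_prop] theorem continuous_ex : Continuous ex := by unfold ex; fun_prop

theorem ex_arg (w : ℂ) : (‖w‖ : ℂ) * ex (Complex.arg w) = w := Complex.norm_mul_exp_arg_mul_I w

theorem continuous_z1 : Continuous z1 := by
  have : z1 = fun x : S3 => ((x.1 0 : ℝ) : ℂ) + (x.1 1 : ℝ) * Complex.I := by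
    funext x; apply Complex.ext <;> simp [z1]
  rw [this]; fun_prop

theorem continuous_z2 : Continuous z2 := by
  have : z2 = fun x : S3 => ((x.1 2 : ℝ) : ℂ) + (x.1 3 : ℝ) * Complex.I := by
    funext x; apply Complex.ext <;> simp [z2]
  rw [this]; fun_prop

theorem norm_z (x : S3) : ‖z1 x‖ ^ 2 + ‖z2 x‖ ^ 2 = 1 := by
  have h : ‖x.1‖ ^ 2 = 1 := by rw [mem_sphere_zero_iff_norm.1 x.2, one_pow]
  rw [EuclideanSpace.real_norm_sq_eq, Fin.sum_univ_four] at h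
  rw [Complex.sq_norm, Complex.sq_norm, Complex.normSq_apply, Complex.normSq_apply]
  simp only [z1, z2]
  linarith

theorem ext_z {x x' : S3} (h1 : z1 x = z1 x') (h2 : z2 x = z2 x') : x = x' := by
  apply Subtype.ext
  ext i
  fin_cases i
  · exact congrArg Complex.re h1
  · exact congrArg Complex.im h1
  · exact congrArg Complex.re h2
  · exact congrArg Complex.im h2

theorem exists_P {D : Type} [TopologicalSpace D] (u v : D → ℂ) (hu : Continuous u)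
    (hv : Continuous v) (h0 : ∀ d, u d ≠ 0 ∨ v d ≠ 0) : ∃ P : D → S3, Continuous P ∧
      ∀ d x, P d = x ↔ ∃ c : ℝ, 0 < c ∧ z1 x = c * u d ∧ z2 x = c * v d := by
  let w : D → R4 := fun d => !₂[(u d).re, (u d).im, (v d).re, (v d).im]
  have hw : Continuous w := by
    refine (PiLp.continuous_toLp 2 _).comp (continuous_pi fun i => ?_)
    fin_cases i <;> simp <;> fun_prop
  have hw0 : ∀ d, w d ≠ 0 := fun d h => by
    have e0 : (u d).re = 0 := congrArg (fun y : R4 => y 0) h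
    have e1 : (u d).im = 0 := congrArg (fun y : R4 => y 1) h
    have e2 : (v d).re = 0 := congrArg (fun y : R4 => y 2) h
    have e3 : (v d).im = 0 := congrArg (fun y : R4 => y 3) h
    rcases h0 d with h | h
    · exact h (Complex.ext e0 e1)
    · exact h (Complex.ext e2 e3)
  let P : D → S3 := fun d => ⟨‖w d‖⁻¹ • w d, by
    rw [mem_sphere_zero_iff_norm, norm_smul, norm_inv, norm_norm,
      inv_mul_cancel₀ (norm_ne_zero_iff.2 (hw0 d))]⟩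
  have hP : ∀ d, z1 (P d) = (‖w d‖⁻¹ : ℝ) * u d ∧ z2 (P d) = (‖w d‖⁻¹ : ℝ) * v d := fun d => by
    constructor <;> apply Complex.ext <;> simp [-Complex.ofReal_inv, z1, z2, P, w]
  have hpos : ∀ d, 0 < ‖w d‖⁻¹ := fun d => inv_pos.2 (norm_pos_iff.2 (hw0 d))
  refine ⟨P, Continuous.subtype_mk ((hw.norm.inv₀ fun d => norm_ne_zero_iff.2 (hw0 d)).smul hw) _,
    fun d x => ⟨fun h => h ▸ ⟨_, hpos d, hP d⟩, fun ⟨c, hc, h1, h2⟩ => ?_⟩⟩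
  have n1 := norm_z x
  have n2 := norm_z (P d)
  rw [h1, h2] at n1
  rw [(hP d).1, (hP d).2] at n2
  simp only [norm_mul, Complex.norm_real, Real.norm_eq_abs, mul_pow, sq_abs] at n1 n2
  have hc' : c = ‖w d‖⁻¹ := by
    refine (pow_left_inj₀ hc.le (hpos d).le two_ne_zero).1 ?_
    linear_combination c ^ 2 * (-n2) + ‖w d‖⁻¹ ^ 2 * n1
  exact ext_z (by rw [(hP d).1, h1, hc']) (by rw [(hP d).2, h2, hc'])

/-- chart relation -/
def Rel (q : ℝ) (a b : ℂ) (p : ℂ × ℝ) : Prop :=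
  ∃ c : ℝ, 0 < c ∧ a = c * (p.1 * ex (-(q * p.2))) ∧ b = c * ex p.2

/-- deck maps -/
noncomputable def Tk (q : ℝ) (k : ℤ) (p : ℂ × ℝ) : ℂ × ℝ :=
  (p.1 * ex (q * (2 * π * k)), p.2 + 2 * π * k)

/-- chart domain -/
def Dom (n : ℕ) (ρ : ℝ) : Set (ℂ × ℝ) := {p | ¬ ((p.1 ^ n).im = 0 ∧ ρ ≤ (p.1 ^ n).re)}

theorem norm_of {b : ℂ} {θ c : ℝ} (hc : 0 < c) (h : b = c * ex θ) : ‖b‖ = c := by
  rw [h, norm_mul, norm_ex, mul_one, Complex.norm_real, Real.norm_eq_abs, abs_of_pos hc]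

theorem Rel.tk {q : ℝ} {a b : ℂ} {p : ℂ × ℝ} (h : Rel q a b p) (k : ℤ) : Rel q a b (Tk q k p) := by
  obtain ⟨c, hc, h1, h2⟩ := h
  refine ⟨c, hc, ?_, ?_⟩
  · rw [h1, Tk, mul_assoc p.1, ← ex_add]
    congr 3; ring
  · rw [h2, Tk, ex_congr k rfl]

theorem Rel.fib {q : ℝ} {a b : ℂ} {p p' : ℂ × ℝ} (h : Rel q a b p) (h' : Rel q a b p') :
    ∃ k, p' = Tk q k p := by
  have h0 := h
  obtain ⟨c, hc, h1, h2⟩ := h
  obtain ⟨c', hc', h1', h2'⟩ := h'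
  obtain rfl : c = c' := (norm_of hc h2).symm.trans (norm_of hc' h2')
  have hc0 : (c : ℂ) ≠ 0 := by exact_mod_cast hc.ne'
  obtain ⟨k, hk⟩ := ex_eq (mul_left_cancel₀ hc0 (h2.symm.trans h2'))
  refine ⟨k, Prod.ext ?_ hk⟩
  have h3 := mul_left_cancel₀ hc0 (h1.symm.trans h1')
  refine mul_right_cancel₀ (ex_ne (-(q * p'.2))) ?_
  rw [← h3, Tk, mul_assoc p.1, ← ex_add, hk]
  congr 2; ring

theorem tk_dom {n : ℕ} {m : ℤ} {q ρ : ℝ} (hq : n * q = m) (k : ℤ) {p : ℂ × ℝ} :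
    Tk q k p ∈ Dom n ρ ↔ p ∈ Dom n ρ := by
  have : (Tk q k p).1 ^ n = p.1 ^ n := by
    rw [Tk, mul_pow, ex_pow, ex_congr (t := 0) (m * k) (by rw [← mul_assoc, hq]; push_cast; ring),
      ex_zero, mul_one]
  simp only [Dom, mem_ofPred_eq, this]

theorem isOpen_dom (n : ℕ) (ρ : ℝ) : IsOpen (Dom n ρ) := by
  have h1 : IsClosed {p : ℂ × ℝ | (p.1 ^ n).im = 0} := isClosed_eq (by fun_prop) continuous_const
  have h2 : IsClosed {p : ℂ × ℝ | ρ ≤ (p.1 ^ n).re} := isClosed_le continuous_const (by fun_prop)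
  exact (h1.inter h2).isOpen_compl

theorem zero_dom {n : ℕ} (hn : n ≠ 0) {ρ : ℝ} (hρ : 0 < ρ) (θ : ℝ) : ((0 : ℂ), θ) ∈ Dom n ρ := by
  simp [Dom, hn, hρ]

theorem sc_dom {n : ℕ} (hn : n ≠ 0) {ρ : ℝ} (hρ : 0 < ρ) : SimplyConnectedSpace (Dom n ρ) := by
  have h : StarConvex ℝ 0 (Dom n ρ) := by
    rw [starConvex_zero_iff]
    rintro p hp t h0 h1 ⟨e1, e2⟩
    have e : (t • p).1 ^ n = ((t ^ n : ℝ) : ℂ) * p.1 ^ n := by
      rw [Prod.smul_fst, Complex.real_smul, mul_pow]; push_cast; rfl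
    rw [e, Complex.im_ofReal_mul] at e1
    rw [e, Complex.re_ofReal_mul] at e2
    have t0 : 0 ≤ t ^ n := by positivity
    have t1 : t ^ n ≤ 1 := pow_le_one₀ h0 h1
    have t2 : t ^ n ≠ 0 := fun h => by rw [h, zero_mul] at e2; linarith
    refine hp ⟨(mul_eq_zero.1 e1).resolve_left t2, ?_⟩
    by_contra h
    rcases le_or_gt 0 (p.1 ^ n).re with h' | h' <;> nlinarith
  have := h.contractibleSpace ⟨_, zero_dom hn hρ 0⟩
  infer_instance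

theorem rel_of_ne (q : ℝ) (a : ℂ) {b : ℂ} (hb : b ≠ 0) {θ : ℝ} (h : b = ‖b‖ * ex θ) :
    Rel q a b (a / ‖b‖ * ex (q * θ), θ) := by
  have h0 : (‖b‖ : ℂ) ≠ 0 := by exact_mod_cast norm_ne_zero_iff.2 hb
  refine ⟨‖b‖, norm_pos_iff.2 hb, ?_, h⟩
  rw [mul_assoc, ← ex_add, add_neg_cancel, ex_zero]
  field_simp

/-- local sections along a path -/
theorem sect {n : ℕ} {m : ℤ} {q ρ : ℝ} (hq : n * q = m) {a b : ℝ → ℂ} (ha : Continuous a)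
    (hb : Continuous b) {t0 : ℝ} {p : ℂ × ℝ} (hp : p ∈ Dom n ρ) (h : Rel q (a t0) (b t0) p) :
    ∃ s : ℝ → Dom n ρ, ContinuousAt s t0 ∧ ∀ᶠ t in 𝓝 t0, Rel q (a t) (b t) (s t) := by
  classical
  have hb0 : b t0 ≠ 0 := by
    obtain ⟨c, hc, -, h2⟩ := h
    rw [← norm_pos_iff, norm_of hc h2]; exact hc
  let θ : ℝ → ℝ := fun t => Complex.arg (b t0) + Complex.arg (b t / b t0)
  have hθ : ContinuousAt θ t0 := by
    refine continuousAt_const.add (ContinuousAt.comp (Complex.continuousAt_arg ?_) (by fun_prop))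
    rw [div_self hb0]; exact Complex.one_mem_slitPlane
  have hθ' : ∀ t, b t = ‖b t‖ * ex (θ t) := fun t => by
    have h0 : (‖b t0‖ : ℂ) ≠ 0 := by exact_mod_cast norm_ne_zero_iff.2 hb0
    have e1 := ex_arg (b t0)
    have e2 := ex_arg (b t / b t0)
    rw [norm_div] at e2
    push_cast at e2
    rw [ex_add]
    calc b t = b t0 * (b t / b t0) := by field_simp
      _ = (‖b t0‖ * ex (Complex.arg (b t0))) * (‖b t‖ / ‖b t0‖ * ex (Complex.arg (b t / b t0))) := by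
          rw [e1, e2]
      _ = _ := by field_simp
  let σ : ℝ → ℂ × ℝ := fun t => (a t / ‖b t‖ * ex (q * θ t), θ t)
  have hσ : ContinuousAt σ t0 := by
    refine ContinuousAt.prodMk (ContinuousAt.mul (ContinuousAt.div ha.continuousAt (by fun_prop) ?_)
      (continuous_ex.continuousAt.comp (continuousAt_const.mul hθ))) hθ
    exact_mod_cast norm_ne_zero_iff.2 hb0
  have h0 : σ t0 ∈ Dom n ρ := by
    obtain ⟨k, hk⟩ := h.fib (rel_of_ne q (a t0) hb0 (hθ' t0))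
    show (_, _) ∈ _
    rw [hk]; exact (tk_dom hq k).2 hp
  have h1 : ∀ᶠ t in 𝓝 t0, σ t ∈ Dom n ρ := hσ.eventually ((isOpen_dom n ρ).mem_nhds h0)
  let s : ℝ → Dom n ρ := fun t => if h : σ t ∈ Dom n ρ then ⟨σ t, h⟩ else ⟨p, hp⟩
  have h2 : ∀ᶠ t in 𝓝 t0, σ t = (s t : ℂ × ℝ) := h1.mono fun t ht => by simp only [s, dif_pos ht]
  refine ⟨s, Topology.IsInducing.subtypeVal.continuousAt_iff.2 (hσ.congr h2), ?_⟩
  filter_upwards [h2, hb.continuousAt.eventually_ne hb0] with t e1 e2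
  rw [← e1]
  exact rel_of_ne q (a t) e2 (hθ' t)

theorem dom_real {n : ℕ} {ρ R θ : ℝ} : ((R : ℂ), θ) ∈ Dom n ρ ↔ R ^ n < ρ := by
  simp only [Dom, mem_ofPred_eq, ← Complex.ofReal_pow, Complex.ofReal_im, Complex.ofReal_re,
    true_and, not_le]

theorem dom_arg {n : ℕ} {ρ S β θ : ℝ} {Y : ℂ} (hρ : 0 < ρ) (hS : 0 < S) (h0 : 0 < β) (h1 : β < π)
    (h : Y ^ n = S * ex (2 * β)) : (Y, θ) ∈ Dom n ρ := by
  rintro ⟨e1, e2⟩
  simp only [h, ex, Complex.im_ofReal_mul, Complex.re_ofReal_mul, Complex.exp_ofReal_mul_I_im,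
    Complex.exp_ofReal_mul_I_re, Real.sin_two_mul, Real.cos_two_mul] at e1 e2
  have h2 := Real.sin_pos_of_pos_of_lt_pi h0 h1
  have h3 : Real.cos β = 0 := by
    simpa [hS.ne', h2.ne'] using e1
  rw [h3] at e2
  linarith

/-- passing from the first chart to the second -/
theorem rel_swap {a b : ℂ} {R β θ : ℝ} (hR : 0 < R) (h : Rel (11 / 2) a b (R * ex β, θ)) :
    Rel (2 / 11) b a ((R⁻¹ : ℝ) * ex (2 / 11 * β), -(11 / 2 * θ) + β) := by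
  obtain ⟨c, hc, h1, h2⟩ := h
  have hR' : (R : ℂ) ≠ 0 := by exact_mod_cast hR.ne'
  refine ⟨c * R, mul_pos hc hR, ?_, ?_⟩
  · rw [h2, mul_assoc, ← ex_add, show 2 / 11 * β + -(2 / 11 * (-(11 / 2 * θ) + β)) = θ by ring]
    push_cast
    field_simp
  · rw [h1, ex_add]
    push_cast
    ring

theorem tk_one (p : ℂ × ℝ) : Tk (11 / 2) 1 p = (-p.1, p.2 + 2 * π) := by
  rw [Tk, ex_congr (t := π) 5 (by push_cast; ring), ex_pi]
  simp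

theorem mem_K {r : ℝ} {x : S3} : x ∈ K112 r ↔ ∃ θ, Rel (11 / 2) (z1 x) (z2 x) (r, θ) := by
  constructor
  · rintro ⟨t, c, hc, h1, h2⟩
    refine ⟨2 * t, c, hc, ?_, h2⟩
    rw [h1, show -(11 / 2 * (2 * t)) = -11 * t by ring]
    push_cast
    ring
  · rintro ⟨θ, c, hc, h1, h2⟩
    refine ⟨θ / 2, c, hc, ?_, by rw [h2, mul_div_cancel₀ _ two_ne_zero]⟩
    rw [h1, show -(11 / 2 * θ) = -11 * (θ / 2) by ring]
    push_cast
    ring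

theorem q1 : ((2 : ℕ) : ℝ) * (11 / 2) = ((11 : ℤ) : ℝ) := by norm_num

theorem q2 : ((11 : ℕ) : ℝ) * (2 / 11) = ((2 : ℤ) : ℝ) := by norm_num

/-- a real point of the first chart -/
theorem real_pos {a b : ℂ} {p : ℂ × ℝ} (h : Rel (11 / 2) a b p) (hi : p.1.im = 0) :
    ∃ θ, Rel (11 / 2) a b ((|p.1.re| : ℝ), θ) := by
  rcases le_total 0 p.1.re with h0 | h0
  · refine ⟨p.2, ?_⟩
    have : ((|p.1.re| : ℝ) : ℂ) = p.1 := by
      rw [abs_of_nonneg h0]; exact Complex.ext rfl hi.symm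
    rwa [this]
  · refine ⟨p.2 + 2 * π, ?_⟩
    have : ((|p.1.re| : ℝ) : ℂ) = -p.1 := by
      rw [abs_of_nonpos h0]; exact Complex.ext rfl (by simp [hi])
    rw [this, ← tk_one]
    exact h.tk 1

theorem swap_real {a b : ℂ} {R θ : ℝ} (hR : 0 < R) (h : Rel (11 / 2) a b (R, θ)) :
    Rel (2 / 11) b a ((R⁻¹ : ℝ), -(11 / 2 * θ)) := by
  have := rel_swap (β := 0) hR (by rwa [ex_zero, mul_one])
  rwa [mul_zero, ex_zero, mul_one, add_zero] at this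

theorem cover {r : ℝ} (hr : 0 < r) {x : S3} (hx : x ∉ K112 r) :
    (∃ p ∈ Dom 2 (r ^ 2), Rel (11 / 2) (z1 x) (z2 x) p) ∨
      ∃ p ∈ Dom 11 (r⁻¹ ^ 11), Rel (2 / 11) (z2 x) (z1 x) p := by
  by_cases h2 : z2 x = 0
  · have h1 : z1 x ≠ 0 := fun h => by simpa [h, h2] using norm_z x
    refine Or.inr ⟨_, ?_, rel_of_ne _ _ h1 (ex_arg _).symm⟩
    rw [h2, zero_div, zero_mul]
    exact zero_dom (by norm_num) (by positivity) _
  have hp' : ∃ p, Rel (11 / 2) (z1 x) (z2 x) p :=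
    ⟨_, rel_of_ne (11 / 2) (z1 x) h2 (ex_arg (z2 x)).symm⟩
  obtain ⟨p, hp⟩ := hp'
  by_cases hd : p ∈ Dom 2 (r ^ 2)
  · exact Or.inl ⟨p, hd, hp⟩
  simp only [Dom, mem_ofPred_eq, not_not] at hd
  obtain ⟨e1, e2⟩ := hd
  simp only [sq, Complex.mul_im, Complex.mul_re] at e1 e2
  have hi : p.1.im = 0 := by
    by_contra h
    have : p.1.re = 0 := (mul_eq_zero.1 (show p.1.re * p.1.im = 0 by linarith)).resolve_right h
    rw [this] at e2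
    nlinarith [mul_self_nonneg p.1.im]
  obtain ⟨θ, hθ⟩ := real_pos hp hi
  have h3 : r ≤ |p.1.re| := by
    refine abs_le_of_sq_le_sq' ?_ (abs_nonneg _) |>.2
    rw [sq_abs]
    nlinarith [mul_self_nonneg p.1.im]
  have h4 : r < |p.1.re| := lt_of_le_of_ne h3 fun h => hx (mem_K.2 ⟨θ, h ▸ hθ⟩)
  refine Or.inr ⟨_, dom_real.2 ?_, swap_real (hr.trans h4) hθ⟩
  gcongr

theorem overlap {r : ℝ} (hr : 0 < r) {a b : ℂ} {p p' : ℂ × ℝ} (hp : p ∈ Dom 2 (r ^ 2))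
    (hp' : p' ∈ Dom 11 (r⁻¹ ^ 11)) (h : Rel (11 / 2) a b p) (h' : Rel (2 / 11) b a p') :
    ∃ R β θ : ℝ, 0 < R ∧ 0 < β ∧ β < π ∧ Rel (11 / 2) a b (R * ex β, θ) := by
  have key : ∀ p : ℂ × ℝ, Rel (11 / 2) a b p → 0 < p.1.im →
      ∃ R β θ : ℝ, 0 < R ∧ 0 < β ∧ β < π ∧ Rel (11 / 2) a b (R * ex β, θ) := fun p h hi => by
    refine ⟨‖p.1‖, Complex.arg p.1, p.2, norm_pos_iff.2 fun h => by simp [h] at hi, ?_,
      Complex.arg_lt_pi_iff.2 (Or.inr hi.ne'), by rwa [ex_arg]⟩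
    exact lt_of_le_of_ne (Complex.arg_nonneg_iff.2 hi.le)
      fun h => hi.ne' (Complex.arg_eq_zero_iff.1 h.symm).2
  rcases lt_trichotomy 0 p.1.im with hi | hi | hi
  · exact key p h hi
  · exfalso
    obtain ⟨θ, hθ⟩ := real_pos h hi.symm
    have h0 : 0 < |p.1.re| := by
      refine abs_pos.2 fun h0 => ?_
      obtain ⟨c, hc, -, e⟩ := h'
      obtain ⟨c', -, e', -⟩ := hθ
      have := norm_of hc e
      rw [e', h0] at this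
      simp at this
      linarith
    obtain ⟨k, hk⟩ := h.fib hθ
    have h1 := dom_real.1 (hk ▸ (tk_dom q1 k).2 hp)
    obtain ⟨l, hl⟩ := h'.fib (swap_real h0 hθ)
    have h2 := dom_real.1 (hl ▸ (tk_dom q2 l).2 hp')
    have h3 : |p.1.re| ≤ r := (lt_of_pow_lt_pow_left₀ 2 hr.le h1).le
    have h4 : r⁻¹ ^ 11 ≤ |p.1.re|⁻¹ ^ 11 := by gcongr
    linarith
  · exact key _ (h.tk 1) (by rw [tk_one]; simpa using hi)

theorem not_K1 {r : ℝ} {x : S3} {p : ℂ × ℝ} (hp : p ∈ Dom 2 (r ^ 2))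
    (h : Rel (11 / 2) (z1 x) (z2 x) p) : x ∉ K112 r := fun hx => by
  obtain ⟨θ, hθ⟩ := mem_K.1 hx
  obtain ⟨k, hk⟩ := h.fib hθ
  exact lt_irrefl _ (dom_real.1 (hk ▸ (tk_dom q1 k).2 hp))

theorem not_K2 {r : ℝ} (hr : 0 < r) {x : S3} {p : ℂ × ℝ} (hp : p ∈ Dom 11 (r⁻¹ ^ 11))
    (h : Rel (2 / 11) (z2 x) (z1 x) p) : x ∉ K112 r := fun hx => by
  obtain ⟨θ, hθ⟩ := mem_K.1 hx
  obtain ⟨k, hk⟩ := h.fib (swap_real hr hθ)
  exact lt_irrefl _ (dom_real.1 (hk ▸ (tk_dom q2 k).2 hp))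

/-- deck maps on the chart domain -/
theorem deck {n : ℕ} {m : ℤ} {q ρ : ℝ} (hq : n * q = m) : ∃ T : ℤ → Dom n ρ → Dom n ρ,
    (∀ k, Continuous (T k)) ∧ (∀ d, T 0 d = d) ∧ (∀ k l d, T (k + l) d = T k (T l d)) ∧
      ∀ k d, (T k d : ℂ × ℝ) = Tk q k d := by
  refine ⟨fun k d => ⟨Tk q k d, (tk_dom hq k).2 d.2⟩, fun k => Continuous.subtype_mk ?_ _,
    fun d => Subtype.ext ?_, fun k l d => Subtype.ext ?_, fun _ _ => rfl⟩
  · unfold Tk; fun_prop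
  · simp [Tk, ex_zero]
  · simp only [Tk, mul_assoc _ (ex _), ← ex_add]
    push_cast
    congr 1
    · congr 2; ring
    · ring

end QUp

open QUp in
theorem qup : QUpStmt := by
  rintro r hr ⟨f, γ, δ, A1, A2, B1, B2, hf, hg, cγ, cδ, hγ, hδ, e1, e2, e3, cA1, cA2, cB1, cB2,
    lA1, lA2, lB1, lB2, s1, s2, s3, hne⟩
  have r1 : 0 < r ^ 2 := by positivity
  have r2 : 0 < r⁻¹ ^ 11 := by positivity
  have i1 := sc_dom two_ne_zero r1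
  have i2 := sc_dom (n := 11) (by norm_num) r2
  have i3 := (isOpen_dom 2 (r ^ 2)).locallyPathConnectedSpace
  have i4 := (isOpen_dom 11 (r⁻¹ ^ 11)).locallyPathConnectedSpace
  obtain ⟨P1, cP1, hP1⟩ := exists_P (D := Dom 2 (r ^ 2)) (fun d => d.1.1 * ex (-(11 / 2 * d.1.2)))
    (fun d => ex d.1.2) (by fun_prop) (by fun_prop) fun d => Or.inr (ex_ne _)
  obtain ⟨P2, cP2, hP2⟩ := exists_P (D := Dom 11 (r⁻¹ ^ 11)) (fun d => ex d.1.2)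
    (fun d => d.1.1 * ex (-(2 / 11 * d.1.2))) (by fun_prop) (by fun_prop) fun d => Or.inl (ex_ne _)
  replace hP1 : ∀ d x, P1 d = x ↔ Rel (11 / 2) (z1 x) (z2 x) d := hP1
  replace hP2 : ∀ d x, P2 d = x ↔ Rel (2 / 11) (z2 x) (z1 x) d := fun d x =>
    (hP2 d x).trans (exists_congr fun c => and_congr_right fun _ => and_comm)
  have k1 : ∀ d, P1 d ∉ K112 r := fun d => not_K1 d.2 ((hP1 d _).1 rfl)
  have k2 : ∀ d, P2 d ∉ K112 r := fun d => not_K2 hr d.2 ((hP2 d _).1 rfl)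
  obtain ⟨T1, t1, t2, t3, t4⟩ := deck (ρ := r ^ 2) q1
  obtain ⟨T2, u1, u2, u3, u4⟩ := deck (ρ := r⁻¹ ^ 11) q2
  let D0 : Set (ℝ × ℝ × ℝ) := Ioi 0 ×ˢ Ioo 0 π ×ˢ univ
  have i5 : PreconnectedSpace D0 := Subtype.preconnectedSpace
    (isPreconnected_Ioi.prod (isPreconnected_Ioo.prod isPreconnected_univ))
  let j1 : D0 → Dom 2 (r ^ 2) := fun d => ⟨(d.1.1 * ex d.1.2.1, d.1.2.2),
    dom_arg (S := d.1.1 ^ 2) r1 (pow_pos d.2.1 2) d.2.2.1.1 d.2.2.1.2 (by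
      rw [mul_pow, ex_pow]; push_cast; rfl)⟩
  let j2 : D0 → Dom 11 (r⁻¹ ^ 11) := fun d =>
    ⟨((d.1.1⁻¹ : ℝ) * ex (2 / 11 * d.1.2.1), -(11 / 2 * d.1.2.2) + d.1.2.1),
    dom_arg (S := d.1.1⁻¹ ^ 11) r2 (pow_pos (inv_pos.2 d.2.1) 11) d.2.2.1.1 d.2.2.1.2 (by
      rw [mul_pow, ex_pow, ← mul_assoc, q2]; push_cast; rfl)⟩
  have cj1 : Continuous j1 := Continuous.subtype_mk (by fun_prop) _
  have cj2 : Continuous j2 := by
    have : Continuous fun d : D0 => d.1.1⁻¹ := Continuous.inv₀ (by fun_prop) fun d => ne_of_gt d.2.1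
    exact Continuous.subtype_mk (by fun_prop) _
  have hm : ∀ θ : ℝ, ((1, π / 2, θ) : ℝ × ℝ × ℝ) ∈ D0 := fun θ =>
    ⟨one_pos (α := ℝ), ⟨half_pos Real.pi_pos, half_lt_self Real.pi_pos⟩, trivial⟩
  have R1 : ∀ d, Rel (11 / 2) (z1 (P1 d)) (z2 (P1 d)) d := fun d => (hP1 d _).1 rfl
  have R2 : ∀ d, Rel (2 / 11) (z2 (P2 d)) (z1 (P2 d)) d := fun d => (hP2 d _).1 rfl
  have f1 : ∀ d d', P1 d = P1 d' ↔ ∃ k, d' = T1 k d := fun d d' => ⟨fun h => by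
      obtain ⟨k, hk⟩ := ((hP1 d _).1 h).fib (R1 d')
      exact ⟨k, Subtype.ext (hk.trans (t4 k d).symm)⟩, fun ⟨k, hk⟩ =>
      ((hP1 d' _).2 (by rw [hk, t4]; exact (R1 d).tk k)).symm⟩
  have f2 : ∀ d d', P2 d = P2 d' ↔ ∃ k, d' = T2 k d := fun d d' => ⟨fun h => by
      obtain ⟨k, hk⟩ := ((hP2 d _).1 h).fib (R2 d')
      exact ⟨k, Subtype.ext (hk.trans (u4 k d).symm)⟩, fun ⟨k, hk⟩ =>
      ((hP2 d' _).2 (by rw [hk, u4]; exact (R2 d).tk k)).symm⟩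
  have hj : ∀ d, P1 (j1 d) = P2 (j2 d) := fun d =>
    ((hP2 (j2 d) (P1 (j1 d))).2 (rel_swap d.2.1 (R1 (j1 d)))).symm
  have hov : ∀ d1 d2, P1 d1 = P2 d2 → ∃ d, P1 (j1 d) = P1 d1 := fun d1 d2 h => by
    obtain ⟨R, β, θ, a1, a2, a3, a4⟩ := overlap hr d1.2 d2.2 (R1 d1) ((hP2 d2 _).1 h.symm)
    exact ⟨⟨(R, β, θ), a1, ⟨a2, a3⟩, trivial⟩, (hP1 _ _).2 a4⟩
  have ho1 : T1 2 (j1 ⟨_, hm 0⟩) = j1 ⟨_, hm (4 * π)⟩ := Subtype.ext (by
    rw [t4]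
    simp only [j1, Tk]
    rw [ex_congr (s := 11 / 2 * (2 * π * ((2 : ℤ) : ℝ))) (t := 0) 11 (by push_cast; ring),
      ex_zero, mul_one]
    congr 1; push_cast; ring)
  have ho2 : T2 (-11) (j2 ⟨_, hm 0⟩) = j2 ⟨_, hm (4 * π)⟩ := Subtype.ext (by
    rw [u4]
    simp only [j2, Tk]
    rw [ex_congr (s := 2 / 11 * (2 * π * ((-11 : ℤ) : ℝ))) (t := 0) (-2) (by push_cast; ring),
      ex_zero, mul_one]
    congr 1; push_cast; ring)
  have c1 : Continuous fun d => f (P1 d) := hf.comp_continuous cP1 k1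
  have c2 : Continuous fun d => f (P2 d) := hf.comp_continuous cP2 k2
  obtain ⟨F, ξ, Θ, hM, hL⟩ := two f P1 P2 c1 c2 (fun d => hg _ (k1 d)) (fun d => hg _ (k2 d))
    T1 t1 t2 t3 f1 T2 u1 u2 u3 f2 j1 j2 cj1 cj2 hj hov _ _ ho1 ho2
  have loc : ∀ γ : ℝ → S3, Continuous γ → (∀ t, γ t ∉ K112 r) → Loc Θ γ := fun γ c h =>
    hL γ fun t0 => by
      rcases cover hr (h t0) with ⟨p, hp, hp'⟩ | ⟨p, hp, hp'⟩
      · obtain ⟨s, a1, a2⟩ := sect q1 (continuous_z1.comp c) (continuous_z2.comp c) hp hp'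
        exact Or.inl ⟨s, a1, a2.mono fun t ht => (hP1 _ _).2 ht⟩
      · obtain ⟨s, a1, a2⟩ := sect q2 (continuous_z2.comp c) (continuous_z1.comp c) hp hp'
        exact Or.inr ⟨s, a1, a2.mono fun t ht => (hP2 _ _).2 ht⟩
  obtain ⟨θ, hθ, -⟩ := loc γ cγ hγ 0
  have hθ0 := hθ.self_of_nhds
  obtain ⟨u, hu⟩ := hM.surj _ _ hθ0 _ (lA1 0)
  obtain ⟨a, ha⟩ := hM.surj _ _ hθ0 _ (e1 ▸ lA1 1)
  obtain ⟨b, hb⟩ := hM.surj _ _ hθ0 _ (lA2 0)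
  obtain ⟨c, hc⟩ := hM.surj _ _ hθ0 _ (e1 ▸ lA2 1)
  obtain ⟨c', hc'⟩ := hM.surj _ _ hθ0 _ (e3 ▸ lB2 1)
  obtain ⟨k, p1, p2⟩ := path hM (loc γ cγ hγ) (fun t => hg _ (hγ t)) cA1 cA2 lA1 lA2 hθ0
    (e1.symm ▸ hθ0) hu hb ha hc
  obtain ⟨l, p3, p4⟩ := path hM (loc δ cδ hδ) (fun t => hg _ (hδ t)) cB1 cB2 lB1 lB2
    (e2.symm ▸ hθ0) (e3.symm ▸ hθ0) (hu.trans s1) (ha.trans s2.symm) (hb.trans s3) hc'
  apply hne
  rw [← hc, ← hc', ← p2, ← p4, ← p1, ← p3, ← Equiv.Perm.mul_apply, ← Equiv.Perm.mul_apply,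
    ← zpow_add, ← zpow_add, add_comm]

end Pool.Agent.MP_5d9d0b_gt
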