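import Mathlib.Analysis.CStarAlgebra.Classes
import Mathlib.Geometry.Manifold.Instances.Sphere
import Mathlib.Geometry.Manifold.Sheaf.Basic

/-!
Definitions used in the statement: contact surgery on Legendrian knots in the standard contact
3-sphere.  Contact structures are cooriented plane fields `ker α`, with `α` a field of covectors
that matters only up to positive multiples.  The tangent space of a manifold modelled on `E` is
`E` (read in the preferred chart, as in Mathlib), so a field of covectors on `M` is a function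
`M → E → ℝ`.  Surgery is taken in the Weinstein handle model.
-/

namespace Pool.Agent.MP_5d9d0b_gt.St

open scoped Manifold ContDiff Real
open Set

section
variable (E F : Type) [NormedAddCommGroup E] [NormedSpace ℝ E] [NormedAddCommGroup F]
  [NormedSpace ℝ F] {M N : Type} [TopologicalSpace M] [TopologicalSpace N]

/-- The differential at `x` of a map `f` between manifolds modelled on `E` and `F`. -/
noncomputable def Df [ChartedSpace E M] [ChartedSpace F N] (f : M → N) (x : M) (v : E) : F :=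
  mfderiv 𝓘(ℝ, E) 𝓘(ℝ, F) f x v

/-- `f` restricts to a smooth diffeomorphism from the open set `U` onto the open set `V`. -/
def DiffeoOn [ChartedSpace E M] [ChartedSpace E N] (f : M → N) (U : Set M) (V : Set N) : Prop :=
  ∃ Φ : PartialDiffeomorph 𝓘(ℝ, E) 𝓘(ℝ, E) M N ∞, Φ.source = U ∧ Φ.target = V ∧ EqOn f Φ U

/-- At `x`, the map `f` pulls `β` back to a positive multiple of `α`. -/
def ContactAt [ChartedSpace E M] [ChartedSpace E N] (α : M → E → ℝ) (β : N → E → ℝ)
    (f : M → N) (x : M) : Prop :=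
  ∃ c : ℝ, 0 < c ∧ ∀ v, β (f x) (Df E E f x v) = c * α x v

end

abbrev R3 : Type := EuclideanSpace ℝ (Fin 3)
abbrev R4 : Type := EuclideanSpace ℝ (Fin (3 + 1))
/-- The unit sphere in `ℝ⁴` with its standard smooth structure. -/
abbrev S3 : Type := Metric.sphere (0 : R4) 1

/-- The 1-form `x₀ dx₁ - x₁ dx₀ + x₂ dx₃ - x₃ dx₂` on `ℝ⁴`. -/
def lam (x v : R4) : ℝ := x 0 * v 1 - x 1 * v 0 + (x 2 * v 3 - x 3 * v 2)

/-- The standard contact form on the 3-sphere: the restriction of `lam`. -/
noncomputable def alphaSt (x : S3) (v : R3) : ℝ :=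
  lam x.1 (Df R3 R4 (fun y : S3 => (y.1 : R4)) x v)

/-- A smooth knot: a smooth immersion `ℝ → S³` whose fibres are the cosets of `2πℤ`. -/
def IsKnot (γ : ℝ → S3) : Prop :=
  ContDiff ℝ ∞ (fun t => ((γ t).1 : R4)) ∧ (∀ t, deriv (fun t => ((γ t).1 : R4)) t ≠ 0) ∧
    ∀ s t, γ s = γ t ↔ ∃ k : ℤ, t = s + 2 * π * k

/-- A Legendrian knot: a smooth knot tangent to the standard contact planes. -/
def IsLegendrian (γ : ℝ → S3) : Prop :=
  IsKnot γ ∧ ∀ t, lam (γ t).1 (deriv (fun t => ((γ t).1 : R4)) t) = 0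

/-- Smooth isotopy of unoriented knots: a smooth one-parameter family of smooth knots. -/
def Isotopic (γ γ' : ℝ → S3) : Prop :=
  ∃ Γ : ℝ → ℝ → S3,
    ContDiffOn ℝ ∞ (fun p : ℝ × ℝ => ((Γ p.1 p.2).1 : R4)) (Icc 0 1 ×ˢ univ) ∧
    (∀ s ∈ Icc (0 : ℝ) 1, IsKnot (Γ s)) ∧ range (Γ 0) = range γ ∧ range (Γ 1) = range γ'

/-- `γ` has the smooth type of the torus knot `t ↦ (e^{ipt}, e^{iqt}) / √2`. -/
def IsTorusKnot (p q : ℤ) (γ : ℝ → S3) : Prop :=
  ∃ τ : ℝ → S3, (∀ t, (τ t).1 = (√2)⁻¹ •
    (!₂[Real.cos (p * t), Real.sin (p * t), Real.cos (q * t), Real.sin (q * t)] : R4)) ∧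
    Isotopic γ τ

/-- The Liouville form `2 a·db + b·da` of the Weinstein 2-handle `ℝ² × ℝ² = ℂ × ℂ ∋ (a, b)`;
it is `i_X ω` for `ω = Σ daᵢ ∧ dbᵢ` and `X = 2 a ∂a - b ∂b`. -/
def handleForm (x v : ℂ × ℂ) : ℝ :=
  2 * (x.1.re * v.2.re + x.1.im * v.2.im) + (x.2.re * v.1.re + x.2.im * v.1.im)

/-- The flow of the Liouville field `X = 2 a ∂a - b ∂b`. -/
noncomputable def handleFlow (t : ℝ) (x : ℂ × ℂ) : ℂ × ℂ :=
  (Real.exp (2 * t) • x.1, Real.exp (-t) • x.2)

/-- Parametrisation of the attaching hypersurface `|b| = 1`; the attaching circle `a = 0`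
is the image of the line `p 1 = p 2 = 0`. -/
noncomputable def att (p : R3) : ℂ × ℂ :=
  ((p 1 + p 2 * Complex.I) * Complex.exp (p 0 * Complex.I), Complex.exp (p 0 * Complex.I))

/-- Parametrisation of the belt hypersurface `|a| = 1`; the belt circle `b = 0`
is the image of the line `p 1 = p 2 = 0`. -/
noncomputable def belt (p : R3) : ℂ × ℂ :=
  (Complex.exp (p 0 * Complex.I), (p 1 + p 2 * Complex.I) * Complex.exp (p 0 * Complex.I))

/-- The pull-back of the Liouville form of the handle by a parametrisation `F`. -/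
noncomputable def pull (F : R3 → ℂ × ℂ) (p v : R3) : ℝ :=
  handleForm (F p) (fderiv ℝ F p v)

/-- The form `dz - y dx` on `ℝ³` with coordinates `(x, y, z)`. -/
def darboux (p v : R3) : ℝ := v 2 - p 1 * v 0

/-- The `δ`-neighbourhood of the line `p 1 = p 2 = 0`. -/
def tube (δ : ℝ) : Set R3 := {p | p 1 ^ 2 + p 2 ^ 2 < δ ^ 2}

section
variable {M : Type} [TopologicalSpace M] [ChartedSpace R3 M]

/-- `ker α` is a cooriented contact structure: `M` is covered by Darboux charts, in which `α` is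
a positive multiple of `dz - y dx`. -/
def IsContact (α : M → R3 → ℝ) : Prop :=
  ∀ x : M, ∃ (e : R3 → M) (U : Set R3) (V : Set M), DiffeoOn R3 e U V ∧ x ∈ V ∧
    ∀ p ∈ U, ContactAt R3 darboux α e p

/-- `j` induces a contact embedding into `(M, α)` of the neighbourhood `F (tube δ)` of the core
circle in the hypersurface of the handle parametrised by `F`: on `tube δ` it is a local
diffeomorphism, contact for the pulled-back Liouville form, with the same fibres as `F`. -/
def StdNbhd (F : R3 → ℂ × ℂ) (α : M → R3 → ℝ) (δ : ℝ) (j : R3 → M) : Prop :=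
  ∀ p ∈ tube δ, (∃ U V, p ∈ U ∧ DiffeoOn R3 j U V) ∧ ContactAt R3 (pull F) α j p ∧
    ∀ p' ∈ tube δ, j p = j p' ↔ F p = F p'

/-- The image of the core circle under `j`. -/
def core {X : Type} (j : R3 → X) : Set X := range fun q : ℝ => j !₂[q, 0, 0]

/-- `(M, ker α)` is contact `(+1)`-surgery on the Legendrian knot `L` in the standard sphere:
the Weinstein surgery along a Legendrian knot `K = core j` in `M` gives the standard sphere with
belt circle `L`.  That is, there are standard neighbourhoods `j` of `K` (attaching side) and `j'`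
of `L` (belt side) and a contactomorphism `M ∖ K → S³ ∖ L` which near `K` is given by the
Liouville flow of the handle. -/
def IsPlusOneSurgery (L : Set S3) (α : M → R3 → ℝ) : Prop :=
  ∃ (δ δ' : ℝ) (j : R3 → M) (j' : R3 → S3) (Φ : M → S3),
    0 < δ ∧ 0 < δ' ∧ StdNbhd att α δ j ∧ StdNbhd belt alphaSt δ' j' ∧ core j' = L ∧
    DiffeoOn R3 Φ (core j)ᶜ Lᶜ ∧ (∀ x ∉ core j, ContactAt R3 α alphaSt Φ x) ∧
    ∀ p ∈ tube δ, ∀ p' ∈ tube δ', ∀ t : ℝ, handleFlow t (att p) = belt p' → Φ (j p) = j' p'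

end

end Pool.Agent.MP_5d9d0b_gt.St
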