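import Pool.Agent.MP_5d9d0b_gt.Asm
import Pool.Agent.MP_5d9d0b_gt.COL
import Pool.Agent.MP_5d9d0b_gt.GLUE
import Pool.Agent.MP_5d9d0b_gt.QLO
import Pool.Agent.MP_5d9d0b_gt.QUP
import Pool.Agent.MP_5d9d0b_gt.St

-- ======== part 0: formerly Pool.Agent.MP_5d9d0b_gt.Fin
section MrgPart0

/-!
The final assembly.
-/

namespace Pool.Agent.MP_5d9d0b_gt

open scoped Manifold ContDiff Real Topology
open Set Filter Complex

theorem Q_homeo {K K' : Set S3} (h : S3 ≃ₜ S3) (e : h '' K = K') (hQ : Q K') : Q K := by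
  obtain ⟨f, γ, δ, A1, A2, B1, B2, h1, h2, h3, h4, h5, h6, h7, h8, h9, h10, h11, h12, h13, h14,
    h15, h16, h17, h18⟩ := hQ
  have hm : ∀ x, x ∈ K ↔ h x ∈ K' := fun x => by rw [← e, h.injective.mem_set_image]
  refine ⟨f ∘ h, h.symm ∘ γ, h.symm ∘ δ, A1, A2, B1, B2,
    h1.comp h.continuous.continuousOn fun x hx h0 => hx ((hm x).2 h0),
    fun x hx => h2 _ fun h0 => hx ((hm x).2 h0), h.symm.continuous.comp h3,
    h.symm.continuous.comp h4, fun t h0 => h5 t (by simpa using (hm _).1 h0),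
    fun t h0 => h6 t (by simpa using (hm _).1 h0), by simp [h7], by simp [h8], by simp [h9],
    h10, h11, h12, h13, by simpa using h14, by simpa using h15, by simpa using h16,
    by simpa using h17, h18⟩

theorem range_torus {τ : ℝ → S3} (h : ∀ t, (τ t).1 = (√2)⁻¹ •
    (!₂[Real.cos ((4 : ℤ) * t), Real.sin ((4 : ℤ) * t), Real.cos ((-5 : ℤ) * t),
      Real.sin ((-5 : ℤ) * t)] : R4)) : range τ = K45 := by
  have h1 : ∀ t, z1 (τ t) = ((√2)⁻¹ : ℝ) * ex (4 * t) ∧ z2 (τ t) = ((√2)⁻¹ : ℝ) * ex (-5 * t) := by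
    intro t
    constructor <;> apply Complex.ext <;>
      simp only [z1, z2, h, re_ofReal_mul, im_ofReal_mul, ex_re, ex_im] <;> simp
  ext x
  constructor
  · rintro ⟨t, rfl⟩
    exact ⟨t, h1 t⟩
  · rintro ⟨t, h2, h3⟩
    exact ⟨t, S3_ext ((h1 t).1.trans h2.symm) ((h1 t).2.trans h3.symm)⟩

/-- The toric identification near the common core circle. -/
def Tr (x y : S3) : Prop := x ∈ {x | Ge (mob 3 (-4) 1 (-1) (37 / 50)) x}ᶜ ∧ T2 x y

theorem mob1v : mob 3 (-4) 1 (-1) (37 / 50) = 2 / 13 := by norm_num [mob]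
theorem mob2v : mob 3 (-4) 4 (-5) (37 / 50) = 2 / 15 := by norm_num [mob]

theorem T2_ge {x y : S3} (h : T2 x y) : Ge (2 / 13) x ↔ Ge (2 / 15) y := by
  obtain ⟨ρ, h0, h1, h2⟩ := T2_rho h
  rw [h1.ge_iff, h2.ge_iff, le_div_iff₀ (by linarith)]
  constructor <;> intro h <;> linarith

theorem sd_of {Hm : S3 → S3 → Prop} (h : HD Hm) : SD 1 (-1) (-1) (-1) 4 (-5) (-4) (-5) Hm Tr where
  kA := kd1
  kB := kd2
  hd := h
  tA _ _ e := e.1
  tB _ _ e := by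
    rw [mob2v, ← T2_ge e.2, ← mob1v]; exact e.1
  eA x hx := by
    obtain ⟨y, hy⟩ := T2_dom (z1_ne_of_not_gt fun h1 => hx h1.ge)
    exact ⟨y, hx, hy⟩
  eB y hy := by
    rw [mob2v] at hy
    obtain ⟨x, hx⟩ := T2_ran fun h1 => hy (h1.mono (by norm_num))
    exact ⟨x, by rw [mem_compl_iff, mem_ofPred_eq, mob1v, T2_ge hx]; exact hy, hx⟩

theorem KT {n x y : S3} (h1 : Kr 1 (-1) (-1) (-1) n x) (h2 : Kr 4 (-5) (-4) (-5) n y) : T2 x y := by
  obtain ⟨⟨φ, θ, a⟩, hp, rfl, rfl⟩ := h1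
  rw [kd2.crel.fun_r _ _ _ h2 ⟨(φ, θ, a), hp, rfl, rfl⟩]
  have h3 : 0 < 1 + -1 * a := kd1.pos a hp.2.le
  have h4 : 0 < 4 + -5 * a := kd2.pos a hp.2.le
  have h5 := T2_tor (kd1.mpos hp.2).le ((3 : ℤ) * φ + (4 : ℤ) * θ) ((-1 : ℤ) * φ + (-1 : ℤ) * θ)
  have h6 : TP (mob 3 (-4) 4 (-5)) 3 4 (-4) (-5) (φ, θ, a) =
      Tor (mob 3 (-4) 1 (-1) a / (1 + mob 3 (-4) 1 (-1) a)) ((3 : ℤ) * φ + (4 : ℤ) * θ)
        ((-1 : ℤ) * φ + (-1 : ℤ) * θ - ((3 : ℤ) * φ + (4 : ℤ) * θ)) := by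
    refine Tor_congr ?_ rfl (congrArg ex (by push_cast; ring))
    unfold mob
    rw [one_add_div h3.ne', div_div_div_cancel_right₀ h3.ne']
    congr 1; ring
  rw [h6]; exact h5

theorem crel_HH {Hm : S3 → S3 → Prop} (h : HD Hm) :
    CRel alphaSt alphaSt (HH 1 (-1) (-1) (-1) 4 (-5) (-4) (-5) Hm Tr) := by
  refine (kd1.crel.symm.comp (sd_of h).crelE).union
    (crel_T2.restr_l (isClosed_Ge _).isOpen_compl) ?_ ?_
  · rintro x y y' ⟨n, h1, n', h2, h3⟩ e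
    obtain rfl := h.fix' h2 (kd1.far h1 e.1)
    exact crel_T2.fun_r _ _ _ (KT h1 h3) e.2
  · rintro x x' y ⟨n, h1, n', h2, h3⟩ e
    obtain rfl := h.symm.fix' h2 (kd2.far h3 ((sd_of h).tB _ _ e))
    exact crel_T2.fun_l _ _ _ (KT h1 h3) e.2

theorem colK1 (q z w : ℝ) (hw : |w| < 1 / 10) : Kr 1 (-1) (-1) (-1)
    (TP (mob 2 (-1) 1 0) 2 1 (-1) 0 (q, z, w)) (TP (mob 2 (-3) 1 (-1)) 2 3 (-1) (-1) (q, z, w)) := by
  obtain ⟨h1, h2⟩ := abs_lt.1 hw
  have h3 : 0 < 2 - w := by linarith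
  have h4 : 0 < 1 - w := by linarith
  refine ⟨(2 * q + z, -q, (2 - w)⁻¹), ⟨inv_pos.2 h3, ?_⟩, Tor_congr ?_ (congrArg ex ?_)
    (congrArg ex ?_), Tor_congr ?_ (congrArg ex ?_) (congrArg ex ?_)⟩
  · rw [inv_lt_comm₀ h3 (by norm_num)]; linarith
  · rw [mobN, inv_inv]; unfold mob; ring
  · push_cast; ring
  · push_cast; ring
  · unfold mob
    rw [div_eq_div_iff (by linarith) (kd1.pos _ (by
      rw [inv_le_comm₀ h3 (by norm_num)]; linarith)).ne']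
    field_simp; ring
  · push_cast; ring
  · push_cast; ring

theorem colK2 (q z w : ℝ) (hw : |w| < 1 / 10) : Kr 4 (-5) (-4) (-5)
    (TP (mob 3 (-2) 2 (-1)) 3 2 (-2) (-1) (q, z, w))
    (TP (mob 1 (-2) 2 (-3)) 1 2 (-2) (-3) (q, z, w)) := by
  obtain ⟨h1, h2⟩ := abs_lt.1 hw
  have h3 : 0 < 3 - 2 * w := by linarith
  have h4 : 0 < 2 - w := by linarith
  have h5 : (2 - w) / (3 - 2 * w) < 3 / 4 := by rw [div_lt_iff₀ h3]; linarith
  refine ⟨(3 * q + 2 * z, -2 * q - z, (2 - w) / (3 - 2 * w)), ⟨div_pos h4 h3, h5⟩,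
    Tor_congr ?_ (congrArg ex ?_)
    (congrArg ex ?_), Tor_congr ?_ (congrArg ex ?_) (congrArg ex ?_)⟩
  · rw [mobN, inv_div]; unfold mob; ring
  · push_cast; ring
  · push_cast; ring
  · unfold mob
    rw [div_eq_div_iff (by linarith) (kd2.pos _ h5.le).ne']
    field_simp; ring
  · push_cast; ring
  · push_cast; ring

theorem Tor_spec (ρ s t : ℝ) :
    ∃ c : ℝ, 0 < c ∧ z1 (Tor ρ s t) = c * ex s ∧ z2 (Tor ρ s t) = c * ((√ρ : ℝ) * ex t) :=
  NN_spec (pair2_ne _ _)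

theorem Sol1_eq_Tor {x : ℂ} (hx : x ≠ 0) (θ : ℝ) : Sol1 (x, θ) = Tor (normSq x)⁻¹ (arg x) θ := by
  rw [Tor_eq_Sol1 (inv_pos.2 (normSq_pos.2 hx)), inv_inv, normSq_eq_norm_sq,
    Real.sqrt_sq (norm_nonneg _), ← ex_surj]

/-- Darboux coordinates for the Heisenberg form. -/
noncomputable def dbx (p : R3) : C3 := (((-(p 1) / 2 : ℝ) : ℂ) + (p 0 : ℝ) * I, p 2 - p 0 * p 1 / 2)

theorem dbx_lp (p : R3) : LP (E := R3) (F := C3) darboux b0 dbx p := by
  have hd : HasFDerivAt dbx _ p :=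
    ((ofRealCLM.hasFDerivAt.comp p (((hasFDerivAt_coord 1 p).neg).mul_const (2 : ℝ)⁻¹)).add
      ((hasFDerivAt_coordC 0 p).mul_const I)).prodMk ((hasFDerivAt_coord 2 p).sub
      (((hasFDerivAt_coord 0 p).mul (hasFDerivAt_coord 1 p)).mul_const (2 : ℝ)⁻¹))
  have hs1 : ContDiff ℝ ∞ fun p : R3 => -(p 1) / 2 := by fun_prop
  have hsm : ContDiff ℝ ∞ dbx :=
    ((ofRealCLM.contDiff.comp hs1).add ((ofRealCLM.contDiff.comp (by fun_prop)).mul
      contDiff_const)).prodMk (by fun_prop)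
  refine LP.flat (Eventually.of_forall fun x => hsm.contDiffAt)
    (bij_of_inj (by rw [finrank_C3]; simp) _ fun v hv => ?_) one_pos fun v => ?_
  · rw [hd.fderiv] at hv
    have h1 := congrArg (fun x : C3 => x.1.re) hv
    have h2 := congrArg (fun x : C3 => x.1.im) hv
    have h3 := congrArg Prod.snd hv
    simp at h1 h2 h3
    rw [h1, h2] at h3
    ext i; fin_cases i
    exacts [h2, h1, by simpa using h3]
  · rw [hd.fderiv]
    simp [b0, darboux, dbx]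
    ring

theorem dbx_surj (x : C3) : ∃ p, dbx p = x :=
  ⟨!₂[x.1.im, -2 * x.1.re, x.2 - x.1.im * x.1.re], Prod.ext (Complex.ext (by simp [dbx])
    (by simp [dbx])) (by simp [dbx]; ring)⟩

theorem exists_darboux (x : S3) :
    ∃ (P : R3 → S3) (p : R3), P p = x ∧ ∀ p', LP (E := R3) darboux alphaSt P p' := by
  by_cases h : z2 x = 0
  · have h1 : z1 x ≠ 0 := fun h1 => by
      have := normSq_add x
      rw [h, h1] at this; simp at this
    obtain ⟨y, rfl⟩ := Sol2_surj h1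
    obtain ⟨p, rfl⟩ := dbx_surj y
    exact ⟨Sol2 ∘ dbx, p, rfl, fun p' => (dbx_lp p').comp (Sol2_lp _)⟩
  · obtain ⟨y, rfl⟩ := Sol1_surj h
    obtain ⟨p, rfl⟩ := dbx_surj y
    exact ⟨Sol1 ∘ dbx, p, rfl, fun p' => (dbx_lp p').comp (Sol1_lp _)⟩

theorem darboux_of_rel {M : Type} [TopologicalSpace M] [ChartedSpace R3 M]
    {α : (x : M) → TangentSpace (𝓡 3) x → ℝ} {R : S3 → M → Prop} (h : CRel alphaSt α R)
    {x : S3} {m : M} (hx : R x m) : ∃ e : PartialDiffeomorph (𝓡 3) (𝓡 3) R3 M ∞,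
      m ∈ e.target ∧ ∀ p ∈ e.source, ContactAt darboux α e p := by
  obtain ⟨P, p, rfl, hP⟩ := exists_darboux x
  obtain ⟨e1, h1, h2⟩ := (hP p).1
  obtain ⟨e2, h3, h4⟩ := h.loc _ _ hx
  have h5 : p ∈ (e1.trans e2).source := ⟨h1, by rw [h2 h1] at h3; exact h3⟩
  refine ⟨e1.trans e2, ?_, fun p' hp' => ?_⟩
  · have h6 : m = (e1.trans e2) p := by
      rw [h.fun_r _ _ _ hx (h4 _ h3).1, h2 h1]; rfl
    rw [h6]; exact (e1.trans e2).map_source h5
  · have h6 : CAt (E := R3) darboux alphaSt e1 p' := by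
      refine (hP p').2.congr ?_
      filter_upwards [e1.open_source.mem_nhds hp'.1] with y hy
      exact (h2 hy).symm
    exact CAt.comp (f := e1) (g := e2) h6 (h4 _ hp'.2).2
      (e1.mdifferentiableAt infty_ne_zero hp'.1) (e2.mdifferentiableAt infty_ne_zero hp'.2)

theorem main : Main := by
  obtain ⟨Hm, g1, g2, g3, g4, g5⟩ := exists_Hh
  have hd : HD Hm := ⟨g1, g2, g3, g4, g5⟩
  have sd := sd_of hd
  have hne : (XX (fun n n1 => Hm n1 n) 1 (-1) (-1) (-1)).Nonempty := by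
    obtain ⟨y, hy⟩ := sd.eA (Sol2 (0, 0)) (by rw [(Sol2_rho _).ge_iff, mob1v]; simp)
    exact ⟨_, sd.symm.memX (Or.inr hy)⟩
  obtain ⟨M, i1, i2, i3, i4, i5, α, iA, iB, hA, hB, hcov, hAB⟩ :=
    glue_ne (HH 1 (-1) (-1) (-1) 4 (-5) (-4) (-5) Hm Tr) _ _ _ _ _ _ (crel_HH hd)
      sd.symm.isOpen_X sd.isOpen_X hne (fun x y e => ⟨sd.symm.memX (HH_symm.2 e), sd.memX e⟩)
      (isOpen_Gt _) (isOpen_Gt _) (fun x hx => sd.nbhd hx)
      (fun y hy => (sd.symm.nbhd hy).imp id fun ⟨x, e⟩ => ⟨x, HH_symm.1 e⟩)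
      (fun x y e => sd.sep e) sd.symm.isCompact_C sd.isCompact_C SD.C_sub SD.C_sub
      (fun x hx => sd.cover hx)
      (fun y hy => (sd.symm.cover hy).imp id fun ⟨x, h1, e⟩ => ⟨x, h1, HH_symm.1 e⟩)
  have v1 : mob 2 (-3) 1 (-1) (-(1 / 10) / 2) =
      mob 2 (-1) 1 0 (-(1 / 10) / 2 / (1 - -(1 / 10) / 2)) := by norm_num [mob]
  have v2 : 1 + mob 1 (-2) 2 (-3) (-(1 / 10) / 2) =
      mob 3 (-2) 2 (-1) (-(1 / 10) / 2 / (1 - -(1 / 10) / 2)) := by norm_num [mob]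
  have hh : (-(1 / 10) / 2 : ℝ) ∈ Icc (-(1 / 10) : ℝ) (1 / 10) := by norm_num
  obtain ⟨e2, he2, leg2, sur2⟩ := sd.surgery hA hB hcov hAB (crel_HH hd) collar colM1 colN1
    (CRel.refl'.restr_l (isOpen_Gt (mob 2 (-3) 1 (-1) (-(1 / 10) / 2))))
    (by rintro x n ⟨h, rfl⟩; exact ⟨h, v1 ▸ h⟩) (fun x h => ⟨x, h, rfl⟩)
    (fun n h => ⟨n, by rw [← v1] at h; exact h, rfl⟩)
    (fun q z w h1 h2 => ⟨(colM1.gt_iff q z ⟨h1.le, by linarith⟩ hh).2 h2, by
      have h3 : 0 < 1 - w := by linarith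
      refine Tor_congr ?_ (congrArg ex (by push_cast; ring)) (congrArg ex (by push_cast; ring))
      unfold mob
      rw [div_eq_div_iff (by simp only; linarith) (by simp)]
      field_simp; ring⟩)
    colK1 (by norm_num [mob]) (by norm_num [mob]) (by norm_num [mob])
  obtain ⟨e1, he1, leg1, sur1⟩ := sd.symm.surgery hB hA (fun m => (hcov m).symm)
    (fun y hy x hx => by rw [eq_comm, hAB x hx y hy, HH_symm])
    ((crel_HH hd).symm.congr fun y x => HH_symm) collar colM2 colN2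
    (crel_T1.restr_l (isOpen_Gt (mob 1 (-2) 2 (-3) (-(1 / 10) / 2))))
    (by rintro x n ⟨h, e⟩; exact ⟨h, v2 ▸ (T1_gt e _).1 h⟩)
    (fun x h => by
      obtain ⟨n, hn⟩ := T1_dom (h.z2_ne (colM2.pos _ hh).le)
      exact ⟨n, h, hn⟩)
    (fun n h => by
      rw [← v2] at h
      obtain ⟨x, hx⟩ := T1_ran (h.mono (by linarith [colM2.pos _ hh]))
      exact ⟨x, (T1_gt hx _).2 h, hx⟩)
    (fun q z w h1 h2 => ⟨(colM2.gt_iff q z ⟨h1.le, by linarith⟩ hh).2 h2, by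
      have h3 : 0 < 1 - w := by linarith
      have h4 : 0 < 2 + -3 * w := by linarith
      have h5 := T1_tor (colM2.pos w ⟨h1.le, by linarith⟩) ((1 : ℤ) * q + (2 : ℤ) * z)
        ((-2 : ℤ) * q + (-3 : ℤ) * z)
      have h6 : TP (mob 3 (-2) 2 (-1)) 3 2 (-2) (-1) (q + z, z, w / (1 - w)) =
          Tor (1 + mob 1 (-2) 2 (-3) w) ((1 : ℤ) * q + (2 : ℤ) * z -
            ((-2 : ℤ) * q + (-3 : ℤ) * z)) ((-2 : ℤ) * q + (-3 : ℤ) * z) := by
        refine Tor_congr ?_ (congrArg ex (by push_cast; ring)) (congrArg ex (by push_cast; ring))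
        unfold mob
        have h7 : 2 + -1 * (w / (1 - w)) = (2 + -3 * w) / (1 - w) := by field_simp; ring
        have h8 : 3 + -2 * (w / (1 - w)) = (2 + -3 * w + (1 + -2 * w)) / (1 - w) := by
          field_simp; ring
        simp only
        rw [h7, h8, div_div_div_cancel_right₀ h3.ne', one_add_div h4.ne']
      rw [h6]; exact h5⟩)
    colK2 (by norm_num [mob]) (by norm_num [mob]) (by norm_num [mob])
  have q2 : (fun q : ℝ => e2 (TP (mob 2 (-1) 1 0) 2 1 (-1) 0 (q, π, 0))) =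
      fun q => (e2 ∘ Sol1) (((√2)⁻¹ : ℝ) * ex (2 * q + π), -q) := by
    funext q
    have : mob 2 (-1) 1 0 0 = 2 := by norm_num [mob]
    simp only [TP, this, Function.comp]
    rw [Tor_eq_Sol1 two_pos, Real.sqrt_inv]
    simp
  have q1 : (fun q : ℝ => e1 (TP (mob 3 (-2) 2 (-1)) 3 2 (-2) (-1) (q, π, 0))) =
      fun q => (e1 ∘ Sol1) ((√(2 / 3) : ℝ) * ex (3 * q), -2 * q - π) := by
    funext q
    have : mob 3 (-2) 2 (-1) 0 = 3 / 2 := by norm_num [mob]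
    simp only [TP, this, Function.comp]
    rw [Tor_eq_Sol1 (by norm_num), inv_div, ex_congr (s := 3 * q)
      (t := (3 : ℤ) * q + (2 : ℤ) * π) 1 (by push_cast; ring)]
    congr 3
    push_cast; ring
  have small : ∀ (X : ℂ) (θ r : ℝ), ‖X‖ ≤ 1 / 250 → r ≤ 2 → Gt r (Sol1 (X, θ)) := by
    intro X θ r h1 h2
    rw [Sol1_gt_iff, normSq_eq_norm_sq]
    simp only
    nlinarith [norm_nonneg X]
  have tk : IsTorusKnot 4 (-5) fun q : ℝ => e2 (TP (mob 2 (-1) 1 0) 2 1 (-1) 0 (q, π, 0)) := by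
    rw [q2]
    have h0 : (21 / 25 : ℂ) ≠ 0 := by norm_num
    have h1 : normSq (21 / 25 : ℂ) = 441 / 625 := by simp; norm_num
    have h2 : arg (21 / 25 : ℂ) = 0 := by
      have : (21 / 25 : ℂ) = ((21 / 25 : ℝ) : ℂ) := by push_cast; rfl
      rw [this, arg_ofReal_of_nonneg (by norm_num)]
    have h3 : ∀ θ, (e2 ∘ Sol1) (0, θ) = Tor (mob 3 (-4) 4 (-5) (441 / 625)) (4 * (θ + 0))
        (-5 * (θ + 0)) := by
      intro θ
      refine sd.crelE.fun_r _ _ _ (he2 _ (small 0 θ _ (by simp) (by norm_num [mob])))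
        ⟨_, (hd.near 0 θ (by simp)).1, ?_⟩
      have h4 := Kr_mk (r := 4) (s := -5) (c := -4) (d := -5) (a := 441 / 625) 0 θ (by norm_num)
        (by norm_num)
      simp only [sub_zero, zero_im, mul_zero, add_zero]
      rw [Sol1_eq_Tor h0, h1, h2]
      simpa using h4
    obtain ⟨c, hc, h5, -⟩ := Tor_spec (mob 3 (-4) 4 (-5) (441 / 625)) 0 0
    have h6 : 0 < √(mob 3 (-4) 4 (-5) (441 / 625)) := Real.sqrt_pos.2 (kd2.mpos (by norm_num))
    refine knotA _ _ c (c * √(mob 3 (-4) 4 (-5) (441 / 625))) 0 (by norm_num [mob])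
      (sd.emb (by norm_num [mob]) he2) hc (mul_pos hc h6) fun θ => ?_
    rw [h3]
    obtain ⟨c', hc', h7, h8⟩ := Tor_spec (mob 3 (-4) 4 (-5) (441 / 625)) (4 * (θ + 0))
      (-5 * (θ + 0))
    have h9 : c' = c := by
      have a1 := normSq_add (Tor (mob 3 (-4) 4 (-5) (441 / 625)) 0 0)
      have a2 := normSq_add (Tor (mob 3 (-4) 4 (-5) (441 / 625)) (4 * (θ + 0)) (-5 * (θ + 0)))
      have a3 := (kd2.mpos (a := 441 / 625) (by norm_num))
      rw [(Tor_rho a3.le _ _).2] at a1 a2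
      rw [h5, map_mul, normSq_ex, normSq_ofReal] at a1
      rw [h7, map_mul, normSq_ex, normSq_ofReal] at a2
      have a4 : c' * c' = c * c := by
        apply mul_right_cancel₀ (b := 1 + mob 3 (-4) 4 (-5) (441 / 625)) (by linarith)
        linarith
      nlinarith
    rw [h7, h8, h9]
    exact ⟨rfl, by push_cast; ring⟩
  refine ⟨_, _, leg2, leg1, tk, fun hiso => ?_, M, i1, i2, i3, i4, i5, α, fun m => ?_, sur2, sur1⟩
  swap
  · rcases hcov m with ⟨x, hx⟩ | ⟨y, hy⟩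
    exacts [darboux_of_rel hA hx, darboux_of_rel hB hy]
  obtain ⟨τ, hτ, hiso2⟩ := tk
  obtain ⟨h1, e1'⟩ := iso _ _ hiso
  obtain ⟨h2, e2'⟩ := iso _ _ hiso2
  have hQ := Q_homeo h1 e1' (Q_homeo h2 (e2'.trans (range_torus hτ)) qlo)
  rw [q1] at hQ
  obtain ⟨r, h3, hr, e3⟩ := knotB iso _ (e1 ∘ Sol1) (1 / 250) 0 (by norm_num [mob])
    (sd.symm.emb (by norm_num [mob]) he1) (by norm_num) (by
      intro X θ hX
      have b1 := norm_sub_norm_le (21 / 25 : ℂ) X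
      have b2 := norm_sub_le (21 / 25 : ℂ) X
      have b3 : ‖(21 / 25 : ℂ)‖ = 21 / 25 := by simp
      have b4 : 0 < ‖21 / 25 - X‖ := by linarith
      have b5 : 21 / 25 - X ≠ 0 := norm_pos_iff.1 b4
      have b6 : normSq (21 / 25 - X) < 3 / 4 := by rw [normSq_eq_norm_sq]; nlinarith
      have b7 : (e1 ∘ Sol1) (X, θ) = Tor (mob 3 (-4) 1 (-1) (normSq (21 / 25 - X)))
          (3 * arg (21 / 25 - X) + 4 * (θ + 21 / 25 * X.im))
          ((-1 : ℤ) * arg (21 / 25 - X) + (-1 : ℤ) * (θ + 21 / 25 * X.im)) := by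
        refine sd.symm.crelE.fun_r _ _ _ (he1 _ (small X θ _ hX (by norm_num [mob])))
          ⟨_, (hd.near X θ hX).2, ?_⟩
        rw [Sol1_eq_Tor b5]
        exact Kr_mk _ _ (normSq_pos.2 b5) b6
      have b8 : (21 / 25 - X) / (‖21 / 25 - X‖ : ℝ) = ex (arg (21 / 25 - X)) := by
        rw [div_eq_iff (by exact_mod_cast b4.ne'), mul_comm]; exact ex_surj _
      obtain ⟨c, hc, b9, b10⟩ := Tor_spec (mob 3 (-4) 1 (-1) (normSq (21 / 25 - X)))
        (3 * arg (21 / 25 - X) + 4 * (θ + 21 / 25 * X.im))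
        ((-1 : ℤ) * arg (21 / 25 - X) + (-1 : ℤ) * (θ + 21 / 25 * X.im))
      rw [b7, b8, b9, b10, add_zero]
      generalize normSq (21 / 25 - X) = a at *
      generalize arg (21 / 25 - X) = φ
      generalize θ + 21 / 25 * X.im = ϑ
      have c1 : 0 < √(1 - a) := Real.sqrt_pos.2 (by linarith)
      refine ⟨c / √(1 - a), div_pos hc c1, ?_, ?_⟩
      · rw [div_mul_cancel₀ _ c1.ne', ex_add, show 3 * φ = φ + φ + φ by ring, ex_add, ex_add]
        ring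
      · have c2 : mob 3 (-4) 1 (-1) a = (3 - 4 * a) / (1 - a) := by unfold mob; ring
        rw [c2, Real.sqrt_div (by linarith), ← ex_neg, mul_assoc, ← ex_add,
          show ((-1 : ℤ) : ℝ) * φ + ((-1 : ℤ) : ℝ) * ϑ = -φ + -ϑ by push_cast; ring]
        push_cast; ring)
  exact qup r hr (Q_homeo h3.symm (by rw [← e3, ← image_comp]; simp) hQ)

end Pool.Agent.MP_5d9d0b_gt

end MrgPart0

-- ======== part 1: formerly Pool.Agent.MP_5d9d0b_gt.Bridge
section MrgPart1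

/-!
Passage from the working definitions to the definitions of the statement.
-/

namespace Pool.Agent.MP_5d9d0b_gt

open scoped Manifold ContDiff Real
open Set

section
variable {M : Type} [TopologicalSpace M] [ChartedSpace R3 M]

theorem st_contact {α : (x : M) → TangentSpace (𝓡 3) x → ℝ} (h : IsContact α) :
    St.IsContact (M := M) α := by
  intro x
  obtain ⟨e, hx, he⟩ := h x
  exact ⟨e, e.source, e.target, ⟨e, rfl, rfl, fun _ _ => rfl⟩, hx, he⟩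

theorem st_nbhd {F : R3 → ℂ × ℂ} {α : (x : M) → TangentSpace (𝓡 3) x → ℝ} {δ : ℝ} {j : R3 → M}
    (h : StdNbhd F α δ j) : St.StdNbhd (M := M) F α δ j := by
  intro p hp
  obtain ⟨h1, h2, h3⟩ := h
  obtain ⟨Φ, hΦ, hΦ'⟩ := h1 ⟨p, hp⟩
  exact ⟨⟨Φ.source, Φ.target, hΦ, Φ, rfl, rfl, hΦ'⟩, h2 p hp, h3 p hp⟩

theorem st_surgery {L : Set S3} {α : (x : M) → TangentSpace (𝓡 3) x → ℝ}
    (h : IsPlusOneSurgery L α) : St.IsPlusOneSurgery (M := M) L α := by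
  obtain ⟨δ, δ', j, j', Φ, h1, h2, h3, h4, h5, h6, h7, h8, h9⟩ := h
  refine ⟨δ, δ', j, j', Φ, h1, h2, st_nbhd h3, st_nbhd h4, h5, ⟨Φ, h6, h7, fun _ _ => rfl⟩,
    fun x hx => h8 x ?_, h9⟩
  rw [h6]; exact hx

end

theorem st_main :
    ∃ L L' : ℝ → St.S3, St.IsLegendrian L ∧ St.IsLegendrian L' ∧ St.IsTorusKnot 4 (-5) L ∧
      ¬ St.Isotopic L' L ∧
      ∃ (M : Type) (_ : TopologicalSpace M) (_ : T2Space M) (_ : CompactSpace M)
        (_ : ChartedSpace St.R3 M) (_ : IsManifold (𝓡 3) ∞ M) (α : M → St.R3 → ℝ),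
        St.IsContact α ∧ St.IsPlusOneSurgery (Set.range L) α ∧
          St.IsPlusOneSurgery (Set.range L') α := by
  obtain ⟨L, L', h1, h2, h3, h4, M, i1, i2, i3, i4, i5, α, h5, h6, h7⟩ := main
  exact ⟨L, L', h1, h2, h3, h4, M, i1, i2, i3, i4, i5, α, st_contact h5, st_surgery h6,
    st_surgery h7⟩

end Pool.Agent.MP_5d9d0b_gt

end MrgPart1

-- marker of a merged file
example : 731051 + 280908 = 731051 + 280908 := rfl
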